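import Pool.Agent.Y483.LGroup

/-!
Rational homology and rationalised L-groups of group rings, as functors of the group, and the
kernels of natural transformations between them.
-/

namespace Pool.Agent.Y483

open CategoryTheory DirectSum

/-- The map of trivial representations over a homomorphism of groups. -/
noncomputable def trivHom {G K : Type} [Group G] [Group K] (f : G →* K) :
    Rep.trivial ℚ G ℚ ⟶ Rep.res f (Rep.trivial ℚ K ℚ) :=
  Rep.ofHom ⟨LinearMap.id, fun g => by ext; rfl⟩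

theorem hq_id (j : ℕ) (G : Type) [Group G] :
    groupHomology.map (MonoidHom.id G) (trivHom (MonoidHom.id G)) j = 𝟙 _ := by
  rw [← groupHomology.map_id]
  exact groupHomology.map_congr rfl rfl j

theorem hq_comp (j : ℕ) {G K L : Type} [Group G] [Group K] [Group L] (f : G →* K) (g : K →* L) :
    groupHomology.map (g.comp f) (trivHom (g.comp f)) j =
      groupHomology.map f (trivHom f) j ≫ groupHomology.map g (trivHom g) j := by
  rw [← groupHomology.map_comp]
  exact groupHomology.map_congr rfl rfl j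

/-- The functor `G ↦ H_j(G; ℚ)`. -/
noncomputable def hq (j : ℕ) : GrpCat.{0} ⥤ ModuleCat.{0} ℚ where
  obj G := groupHomology (Rep.trivial ℚ G ℚ) j
  map f := groupHomology.map f.hom (trivHom f.hom) j
  map_id G := hq_id j G
  map_comp f g := hq_comp j f.hom g.hom

/-- The homomorphism `f × id : G × T → K × T`. -/
def timesT {G K : Type*} [Group G] [Group K] (f : G →* K) (T : Type*) [Group T] :
    G × T →* K × T := f.prodMap (MonoidHom.id T)

variable (ε : ℤˣ) (T : Type) [Group T]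

theorem zgMap_id (G : Type) [Group G] :
    zgMap (timesT (MonoidHom.id G) T) = NonUnitalStarRingHom.id (MonoidAlgebra ℤ (G × T)) := by
  apply zgHom_ext
  intro g
  rw [zgMap_single]; rfl

theorem zgMap_comp {G K L : Type} [Group G] [Group K] [Group L] (f : G →* K) (g : K →* L) :
    zgMap (timesT (g.comp f) T) = (zgMap (timesT g T)).comp (zgMap (timesT f T)) := by
  apply zgHom_ext
  intro g
  rw [NonUnitalStarRingHom.comp_apply, zgMap_single, zgMap_single, zgMap_single]; rfl

theorem lgrp_id (G : Type) [Group G] :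
    ModuleCat.ofHom (LQ.map ε (zgMap (timesT (MonoidHom.id G) T))) =
      𝟙 (ModuleCat.of ℚ (LQ (MonoidAlgebra ℤ (G × T)) ε)) := by
  apply ModuleCat.hom_ext
  apply LinearMap.ext
  intro z
  change LQ.map ε (zgMap (timesT (MonoidHom.id G) T)) z = z
  rw [zgMap_id, LQ.map_id']

theorem lgrp_comp {G K L : Type} [Group G] [Group K] [Group L] (f : G →* K) (g : K →* L) :
    ModuleCat.ofHom (LQ.map ε (zgMap (timesT (g.comp f) T))) =
      ModuleCat.ofHom (LQ.map ε (zgMap (timesT f T))) ≫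
        ModuleCat.ofHom (LQ.map ε (zgMap (timesT g T))) := by
  apply ModuleCat.hom_ext
  apply LinearMap.ext
  intro z
  change LQ.map ε (zgMap (timesT (g.comp f) T)) z =
    LQ.map ε (zgMap (timesT g T)) (LQ.map ε (zgMap (timesT f T)) z)
  rw [zgMap_comp, LQ.map_comp']

/-- The functor `G ↦ L₀(ℤ[G × T]; ε) ⊗ ℚ`. -/
noncomputable def lgrp : GrpCat.{0} ⥤ ModuleCat.{0} ℚ where
  obj G := ModuleCat.of ℚ (LQ (MonoidAlgebra ℤ (G × T)) ε)
  map f := ModuleCat.ofHom (LQ.map ε (zgMap (timesT f.hom T)))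
  map_id G := lgrp_id ε T G
  map_comp f g := lgrp_comp ε T f.hom g.hom

/-- Families of natural transformations `α_j : H_j(G; ℚ) → L₀(ℤ[G × T]; ε) ⊗ ℚ`, one for each degree
`j`. -/
abbrev NatFam : Type 1 := ∀ j : ℕ, hq j ⟶ lgrp ε T

/-- The direct sum `⨁_{j ∈ J} H_j(G; ℚ)`. -/
noncomputable def hsum (J : Set ℕ) (G : GrpCat.{0}) : ModuleCat.{0} ℚ :=
  ModuleCat.of ℚ (⨁ j : J, (hq j).obj G)

/-- The map induced on the direct sum. -/
noncomputable def hsumMap (J : Set ℕ) {G K : GrpCat.{0}} (f : G ⟶ K) : hsum J G →ₗ[ℚ] hsum J K :=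
  DirectSum.lmap fun j : J => ((hq j).map f).hom

variable {ε T}

/-- The sum `⨁_{j ∈ J} H_j(G; ℚ) → L₀(ℤ[G × T]; ε) ⊗ ℚ` of the maps `α_j`. -/
noncomputable def sumMap (α : NatFam ε T) (J : Set ℕ) (G : GrpCat.{0}) :
    hsum J G →ₗ[ℚ] (lgrp ε T).obj G :=
  DirectSum.toModule ℚ J _ fun j : J => ((α j).app G).hom

/-- The kernel of `⨁_{j ∈ J} α_j : ⨁_{j ∈ J} H_j(G; ℚ) → L₀(ℤ[G × T]; ε) ⊗ ℚ`. -/
noncomputable def kerJ (α : NatFam ε T) (J : Set ℕ) (G : GrpCat.{0}) : Submodule ℚ (hsum J G) :=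
  LinearMap.ker (sumMap α J G)

/-- The image of `kerJ α J G` under the map induced by a homomorphism `G → K`. -/
noncomputable def imKer (α : NatFam ε T) (J : Set ℕ) {G K : GrpCat.{0}} (f : G ⟶ K) :
    Submodule ℚ (hsum J K) := (kerJ α J G).map (hsumMap J f)

end Pool.Agent.Y483
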