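import Pool.Agent.Y483.Mono
import Pool.Agent.Y483.Functors

/-!
Functors of rings with involution having the formal properties of rationalised L-theory, natural
transformations from a functor of groups, and the comparison along a cocycle of finite support.
-/

namespace Pool.Agent.Y483

universe v w

/-- A functor `E` from rings with involution and (not necessarily unital) homomorphisms of rings
with involution to rational vector spaces, having the following three formal properties of
rationalised L-theory.

* `map_add`: if `h = f + g` with `f(x) g(y) = 0` for all `x, y`, then `E(h) = E(f) + E(g)`.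
* `map_conj`: `E(u f u^*) = E(f)` for a unitary `u`.
* `corner_inj`: the corner embedding `S → D_A(S)`, `s ↦ (s e_{aa}, 0)`, induces an injection. -/
structure LFunctor where
  /-- The values. -/
  obj : ∀ (R : Type) [Ring R] [StarRing R], Type v
  /-- The group structure. -/
  grp : ∀ (R : Type) [Ring R] [StarRing R], AddCommGroup (obj R)
  /-- The vector space structure. -/
  mod : ∀ (R : Type) [Ring R] [StarRing R], Module ℚ (obj R)
  /-- The induced maps. -/
  map : ∀ {R S : Type} [Ring R] [StarRing R] [Ring S] [StarRing S],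
    (R →⋆ₙ+* S) → (obj R →ₗ[ℚ] obj S)
  map_id : ∀ (R : Type) [Ring R] [StarRing R] (x : obj R), map (NonUnitalStarRingHom.id R) x = x
  map_comp : ∀ {R S T : Type} [Ring R] [StarRing R] [Ring S] [StarRing S] [Ring T] [StarRing T]
    (g : S →⋆ₙ+* T) (f : R →⋆ₙ+* S) (x : obj R), map (g.comp f) x = map g (map f x)
  map_add : ∀ {R S : Type} [Ring R] [StarRing R] [Ring S] [StarRing S] (f g h : R →⋆ₙ+* S),
    (∀ x, h x = f x + g x) → (∀ x y, f x * g y = 0) → ∀ x, map h x = map f x + map g x
  map_conj : ∀ {R S : Type} [Ring R] [StarRing R] [Ring S] [StarRing S] (f g : R →⋆ₙ+* S) (u : S),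
    star u * u = 1 → u * star u = 1 → (∀ x, g x = u * f x * star u) → ∀ x, map g x = map f x
  corner_inj : ∀ (S : Type) [Ring S] [StarRing S] (A : Type) (a : A),
    Function.Injective (map (corner S A a))

attribute [instance] LFunctor.grp LFunctor.mod

/-- A functor from groups to rational vector spaces which kills the trivial homomorphisms. -/
structure HFunctor where
  /-- The values. -/
  obj : ∀ (G : Type) [Group G], Type w
  /-- The group structure. -/
  grp : ∀ (G : Type) [Group G], AddCommGroup (obj G)
  /-- The vector space structure. -/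
  mod : ∀ (G : Type) [Group G], Module ℚ (obj G)
  /-- The induced maps. -/
  map : ∀ {G K : Type} [Group G] [Group K], (G →* K) → (obj G →ₗ[ℚ] obj K)
  map_id : ∀ (G : Type) [Group G] (x : obj G), map (MonoidHom.id G) x = x
  map_comp : ∀ {G K L : Type} [Group G] [Group K] [Group L] (g : K →* L) (f : G →* K) (x : obj G),
    map (g.comp f) x = map g (map f x)
  map_one : ∀ {G K : Type} [Group G] [Group K] (x : obj G), map (1 : G →* K) x = 0

attribute [instance] HFunctor.grp HFunctor.mod

/-- A natural transformation from `H` to `G ↦ E(ℤ[G × T])`. -/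
structure Transf (H : HFunctor.{w}) (E : LFunctor.{v}) (T : Type) [Group T] where
  /-- The components. -/
  app : ∀ (G : Type) [Group G], H.obj G →ₗ[ℚ] E.obj (MonoidAlgebra ℤ (G × T))
  nat : ∀ {G K : Type} [Group G] [Group K] (f : G →* K) (x : H.obj G),
    E.map (zgMap (timesT f T)) (app G x) = app K (H.map f x)

section Diagonal

variable {R S A : Type} [Ring R] [StarRing R] [Ring S] [StarRing S]

open Classical in
/-- The homomorphism `r ↦ (∑_{a ∈ Y} φ_a(r) e_{aa}, 0)`. -/
noncomputable def blockHom (φ : A → (R →⋆ₙ+* S)) (Y : Finset A) : R →⋆ₙ+* DD S A where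
  toFun r := DD.mk (diagOp (fun a => if a ∈ Y then φ a r else 0)) 0 (by
    rw [sub_zero]
    exact diagOp_finRank _ Y (fun b hb => by simp [hb]))
  map_mul' s t := DD.ext (by
    simp only [DD.fst_mk, DD.fst_mul]
    rw [← diagOp_mul]; congr 1; funext a
    by_cases h : a ∈ Y <;> simp [h]) (by simp)
  map_zero' := DD.ext (by
    simp only [DD.fst_mk, DD.fst_zero]
    rw [← diagOp_zero]; congr 1; funext a
    by_cases h : a ∈ Y <;> simp) rfl
  map_add' s t := DD.ext (by
    simp only [DD.fst_mk, DD.fst_add]
    rw [← diagOp_add]; congr 1; funext a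
    by_cases h : a ∈ Y <;> simp [h]) (by simp)
  map_star' s := DD.ext (by
    simp only [DD.fst_mk, DD.fst_star]
    rw [← diagOp_star]; congr 1; funext a
    by_cases h : a ∈ Y <;> simp [h, map_star]) (by simp)

open Classical in
/-- The homomorphism `s ↦ (∑_{a ∉ Y} s e_{aa}, ∑_a s e_{aa})`. -/
noncomputable def coHom (S A : Type) [Ring S] [StarRing S] (Y : Finset A) : S →⋆ₙ+* DD S A where
  toFun s := DD.mk (diagOp (fun a => if a ∈ Y then 0 else s)) (diagOp (fun _ => s)) (by
    have e : diagOp (fun a => if a ∈ Y then (0 : S) else s) - diagOp (fun _ : A => s) =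
        diagOp (fun a => if a ∈ Y then -s else 0) := by
      rw [sub_eq_iff_eq_add, ← diagOp_add]
      congr 1; funext a
      by_cases h : a ∈ Y <;> simp [h]
    rw [e]
    exact diagOp_finRank _ Y (fun b hb => by simp [hb]))
  map_mul' s t := DD.ext (by
    simp only [DD.fst_mk, DD.fst_mul]
    rw [← diagOp_mul]; congr 1; funext a
    by_cases h : a ∈ Y <;> simp [h]) (by
    simp only [DD.snd_mk, DD.snd_mul]
    rw [← diagOp_mul]; rfl)
  map_zero' := DD.ext (by
    simp only [DD.fst_mk, DD.fst_zero]
    rw [← diagOp_zero]; congr 1; funext a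
    by_cases h : a ∈ Y <;> simp) (by
    simp only [DD.snd_mk, DD.snd_zero]
    rw [← diagOp_zero]; rfl)
  map_add' s t := DD.ext (by
    simp only [DD.fst_mk, DD.fst_add]
    rw [← diagOp_add]; congr 1; funext a
    by_cases h : a ∈ Y <;> simp [h]) (by
    simp only [DD.snd_mk, DD.snd_add]
    rw [← diagOp_add]; rfl)
  map_star' s := DD.ext (by
    simp only [DD.fst_mk, DD.fst_star]
    rw [← diagOp_star]; congr 1; funext a
    by_cases h : a ∈ Y <;> simp [h]) (by
    simp only [DD.snd_mk, DD.snd_star]
    rw [← diagOp_star]; rfl)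

open Classical in
/-- The zero homomorphism is sent to zero. -/
theorem LFunctor.map_zero_hom (E : LFunctor.{v}) (f : R →⋆ₙ+* S) (h : ∀ r, f r = 0)
    (x : E.obj R) : E.map f x = 0 := by
  have h2 := E.map_add f f f (fun r => by simp [h]) (fun r s => by simp [h]) x
  exact left_eq_add.mp h2

open Classical in
theorem LFunctor.map_blockHom (E : LFunctor.{v}) (φ : A → (R →⋆ₙ+* S)) (Y : Finset A)
    (x : E.obj R) :
    E.map (blockHom φ Y) x = ∑ a ∈ Y, E.map (corner S A a) (E.map (φ a) x) := by
  induction Y using Finset.induction_on with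
  | empty =>
    rw [Finset.sum_empty]
    apply E.map_zero_hom
    intro r
    apply DD.ext
    · change diagOp _ = 0
      rw [← diagOp_zero]; congr 1
    · rfl
  | insert a Y ha ih =>
    rw [Finset.sum_insert ha, ← ih, ← E.map_comp]
    apply E.map_add
    · intro r
      apply DD.ext
      · change diagOp _ = diagOp _ + diagOp _
        rw [← diagOp_add]; congr 1; funext b
        by_cases hb : b = a
        · subst hb; simp [ha]
        · simp [hb]
      · change (0 : Op S A) = 0 + 0
        simp
    · intro r s
      apply DD.ext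
      · change diagOp _ * diagOp _ = 0
        rw [← diagOp_mul, ← diagOp_zero]; congr 1; funext b
        by_cases hb : b = a
        · subst hb; simp [ha]
        · simp [hb]
      · change (0 : Op S A) * 0 = 0
        simp

open Classical in
/-- The corner embeddings at different places induce the same map. -/
theorem LFunctor.map_corner (E : LFunctor.{v}) (a b : A) (x : E.obj S) :
    E.map (corner S A a) x = E.map (corner S A b) x := by
  let p : Op S A := monoOp (Equiv.swap a b) (fun _ => 1)
  have hp : star p = p := by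
    apply Op.ext'; intro c
    rw [monoOp_star, monoOp_fn, monoOp_fn]
    simp
  have hpp : p * p = 1 := by
    rw [monoOp_mul]
    apply Op.ext'; intro c
    simp
  let u : DD S A := DD.mk p p (by rw [sub_self]; exact FinRank.zero)
  have hu : star u = u := DD.ext hp hp
  have huu : u * u = 1 := DD.ext hpp hpp
  refine E.map_conj (corner S A b) (corner S A a) u (by rw [hu, huu]) (by rw [hu, huu]) ?_ x
  intro s
  rw [hu]
  apply DD.ext
  · simp only [DD.fst_mul, corner_fst]
    change diagOp _ = p * diagOp _ * p
    apply Op.ext'; intro c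
    simp only [Op.fn_mul, diagOp_fn, p, monoOp_fn, one_mul, mul_one]
    by_cases h1 : c = a
    · subst h1; simp
    · by_cases h2 : c = b
      · subst h2
        simp [Pi.single_eq_of_ne (M := fun _ => S) h1,
          Pi.single_eq_of_ne (M := fun _ => S) (Ne.symm h1)]
      · simp [Equiv.swap_apply_of_ne_of_ne h1 h2, Pi.single_eq_of_ne (M := fun _ => S) h1,
          Pi.single_eq_of_ne (M := fun _ => S) h2]
  · simp only [DD.snd_mul, corner_snd]
    simp

end Diagonal

/-! ### The comparison along a cocycle of finite support -/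

section Compare

variable {G A K G₀ : Type} [Group G] [MulAction G A] [Group K] [Group G₀]

/-- The label of a point fixed by the image of `j`. -/
def FinCocycle.label (κ : FinCocycle G A K) (j : G₀ →* G) (hj : ∀ g (a : A), j g • a = a) (a : A) :
    G₀ →* K where
  toFun g := κ.c (j g) a
  map_one' := by rw [map_one, κ.one]
  map_mul' g h := by rw [map_mul, κ.mul, hj]

theorem hom_decomp (κ : FinCocycle G A K) (T : Type) [Group T]
    (j : G₀ →* G) (hj : ∀ g (a : A), j g • a = a) (Y : Finset A)
    (hY : ∀ a ∉ Y, ∀ g, κ.c (j g) a = 1) (x : MonoidAlgebra ℤ (G₀ × T)) :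
    ((κ.pair T).hom.comp (zgMap (timesT j T))) x =
      blockHom (fun a => zgMap (timesT (κ.label j hj a) T)) Y x +
      ((coHom (MonoidAlgebra ℤ (K × T)) A Y).comp (zgMap (timesT (1 : G₀ →* K) T))) x := by
  classical
  revert x
  apply zgHom_add_ext
  intro g
  rw [NonUnitalStarRingHom.comp_apply, NonUnitalStarRingHom.comp_apply, zgMap_single,
    zgMap_single, (κ.pair T).hom_single]
  have hσ : ∀ a : A, (κ.pair T).σ (timesT j T g) a = a := fun a => hj g.1 a
  apply DD.ext
  · rw [DD.fst_add]
    change monoOp _ _ = diagOp _ + diagOp _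
    apply Op.ext'; intro a
    rw [monoOp_fn, Op.fn_add, diagOp_fn, diagOp_fn, hσ]
    by_cases ha : a ∈ Y
    · simp only [ha, if_true, zero_mul, Finsupp.single_zero, add_zero]
      rw [zgMap_single]; rfl
    · simp only [ha, if_false, zero_mul, Finsupp.single_zero, zero_add]
      have : (κ.pair T).c (timesT j T g) a = timesT (1 : G₀ →* K) T g :=
        Prod.ext (hY a ha g.1) rfl
      rw [this]
  · rw [DD.snd_add]
    change monoOp _ _ = (0 : Op _ A) + diagOp _
    apply Op.ext'; intro a
    rw [monoOp_fn, Op.fn_add, diagOp_fn, hσ, Op.fn_zero, zero_add]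
    rfl

theorem block_orth {R₁ R₂ : Type} [Ring R₁] [StarRing R₁] [Ring R₂] [StarRing R₂]
    (φ : A → (R₁ →⋆ₙ+* R₂)) (ψ : R₁ →⋆ₙ+* R₂) (Y : Finset A) (x y : R₁) :
    blockHom φ Y x * ((coHom R₂ A Y).comp ψ) y = 0 := by
  classical
  apply DD.ext
  · rw [DD.fst_mul, DD.fst_zero]
    change diagOp _ * diagOp _ = 0
    rw [← diagOp_mul, ← diagOp_zero]; congr 1; funext b
    by_cases hb : b ∈ Y <;> simp [hb]
  · rw [DD.snd_mul, DD.snd_zero]
    change (0 : Op _ A) * _ = 0
    simp

/-- If the assembly map of `G` kills the image of a class `x` of `G₀`, and `G₀` acts trivially on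
`A` with labels trivial outside the finite set `Y`, then the assembly map of `K` kills the sum over
`Y` of the images of `x` under the labels. -/
theorem key {H : HFunctor.{w}} {E : LFunctor.{v}} {T : Type} [Group T] (α : Transf H E T)
    (κ : FinCocycle G A K)
    (j : G₀ →* G) (hj : ∀ g (a : A), j g • a = a) (Y : Finset A)
    (hY : ∀ a ∉ Y, ∀ g, κ.c (j g) a = 1) (x : H.obj G₀) (hx : α.app G (H.map j x) = 0) :
    α.app K (∑ a ∈ Y, H.map (κ.label j hj a) x) = 0 := by
  rcases Y.eq_empty_or_nonempty with rfl | ⟨a₀, -⟩
  · simp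
  apply E.corner_inj (MonoidAlgebra ℤ (K × T)) A a₀
  rw [map_zero, map_sum, map_sum]
  have h1 : E.map ((κ.pair T).hom.comp (zgMap (timesT j T))) (α.app G₀ x) = 0 := by
    rw [E.map_comp, α.nat, hx, map_zero]
  have h2 := E.map_add (blockHom (fun a => zgMap (timesT (κ.label j hj a) T)) Y)
    ((coHom (MonoidAlgebra ℤ (K × T)) A Y).comp (zgMap (timesT (1 : G₀ →* K) T)))
    ((κ.pair T).hom.comp (zgMap (timesT j T)))
    (hom_decomp κ T j hj Y hY) (block_orth _ _ Y) (α.app G₀ x)
  rw [h1, E.map_blockHom, E.map_comp, α.nat, H.map_one, map_zero, map_zero, add_zero] at h2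
  rw [h2]
  apply Finset.sum_congr rfl
  intro a _
  rw [α.nat, E.map_corner a a₀]

end Compare

end Pool.Agent.Y483
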