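import Pool.Agent.Y483.WGroup
import Pool.Agent.Y483.Assembly

/-!
The rationalised L-group is a functor with the formal properties used for the assembly map.
-/

namespace Pool.Agent.Y483

open Matrix TensorProduct

section Compare

variable (R : Type) [Ring R] [StarRing R] (ε : ℤˣ)

/-- The comparison with the rationalisation of the group of stable isometry classes. -/
noncomputable def toWG : LQ R ε →ₗ[ℚ] ℚ ⊗[ℤ] WG R ε :=
  Submodule.liftQ (LSpan R ε)
    (Finsupp.linearCombination ℚ (fun x : Forms R ε => (1 : ℚ) ⊗ₜ[ℤ] WG.cls x.2)) (by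
      apply Submodule.span_le.mpr
      intro r hr
      rw [SetLike.mem_coe, LinearMap.mem_ker]
      rcases hr with ⟨x, y, h, rfl⟩ | ⟨n, x, y, z, h1, h2, h3, h4, rfl⟩ | ⟨x, h, rfl⟩
      · rw [map_sub, Finsupp.linearCombination_single, Finsupp.linearCombination_single,
          WG.cls_isometric h, sub_self]
      · rw [map_sub, map_sub, Finsupp.linearCombination_single, Finsupp.linearCombination_single,
          Finsupp.linearCombination_single, WG.cls_internal h1 h2 h3 h4, tmul_add]
        simp
      · rw [Finsupp.linearCombination_single, WG.cls_hyp h, tmul_zero, smul_zero])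

theorem toWG_mk (r : Forms R ε →₀ ℚ) : toWG R ε (LQ.mk R ε r) =
    Finsupp.linearCombination ℚ (fun x : Forms R ε => (1 : ℚ) ⊗ₜ[ℤ] WG.cls x.2) r := rfl

/-- The map back. -/
noncomputable def fromWG : WG R ε →+ LQ R ε :=
  WG.lift (fun x => LQ.cls x.q) (fun _ _ h => LQ.cls_isometric h)
    (fun x y => LQ.cls_sum x.q y.q) (fun _ h => LQ.cls_hyp h)

/-- The rational map back. -/
noncomputable def fromWGQ : ℚ ⊗[ℤ] WG R ε →ₗ[ℤ] LQ R ε :=
  TensorProduct.lift (LinearMap.mk₂ ℤ (fun (q : ℚ) (w : WG R ε) => q • fromWG R ε w)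
    (fun a b w => add_smul a b _) (fun n a w => by rw [smul_assoc])
    (fun a w w' => by rw [map_add, smul_add]) (fun n a w => by
      rw [map_zsmul, smul_comm]))

theorem fromWGQ_toWG (z : LQ R ε) : fromWGQ R ε (toWG R ε z) = z := by
  obtain ⟨r, rfl⟩ := Submodule.mkQ_surjective (LSpan R ε) z
  change fromWGQ R ε (toWG R ε (LQ.mk R ε r)) = LQ.mk R ε r
  induction r using Finsupp.induction_linear with
  | zero => simp
  | add f g hf hg => rw [map_add, map_add, map_add, hf, hg]
  | single x q =>
    rw [toWG_mk, Finsupp.linearCombination_single, TensorProduct.smul_tmul', smul_eq_mul, mul_one]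
    change q • LQ.cls x.2 = _
    rw [LQ.cls_fin, ← map_smul]
    congr 1
    simp

theorem toWG_inj : Function.Injective (toWG R ε) :=
  Function.LeftInverse.injective (fromWGQ_toWG R ε)

variable {R} {S : Type} [Ring S] [StarRing S]

theorem toWG_nat (f : R →⋆ₙ+* S) (z : LQ R ε) : toWG S ε (LQ.map ε f z) =
    LinearMap.lTensor ℚ (WG.map (ε := ε) f).toIntLinearMap (toWG R ε z) := by
  obtain ⟨r, rfl⟩ := Submodule.mkQ_surjective (LSpan R ε) z
  change toWG S ε (LQ.map ε f (LQ.mk R ε r)) = LinearMap.lTensor ℚ _ (toWG R ε (LQ.mk R ε r))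
  induction r using Finsupp.induction_linear with
  | zero => simp
  | add g h hg hh => rw [map_add, map_add, map_add, map_add, map_add, hg, hh]
  | single x q =>
    rw [LQ.map_mk, Finsupp.mapDomain_single, toWG_mk, toWG_mk, Finsupp.linearCombination_single,
      Finsupp.linearCombination_single, TensorProduct.smul_tmul', TensorProduct.smul_tmul',
      LinearMap.lTensor_tmul]
    rfl

theorem LQ.corner_inj (S : Type) [Ring S] [StarRing S] (A : Type) (a : A) :
    Function.Injective (LQ.map ε (corner S A a)) := by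
  intro z z' h
  apply toWG_inj
  have hinj : Function.Injective
      (LinearMap.lTensor ℚ (WG.map (ε := ε) (corner S A a)).toIntLinearMap) :=
    Module.Flat.lTensor_preserves_injective_linearMap _ (WG.corner_inj S ε A a)
  apply hinj
  rw [← toWG_nat, ← toWG_nat, h]

end Compare

section Functor

variable (ε : ℤˣ)

theorem LQ.map_add' {R S : Type} [Ring R] [StarRing R] [Ring S] [StarRing S] (f g h : R →⋆ₙ+* S)
    (h1 : ∀ x, h x = f x + g x) (h2 : ∀ x y, f x * g y = 0) (z : LQ R ε) :
    LQ.map ε h z = LQ.map ε f z + LQ.map ε g z := by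
  have h3 : ∀ x y, g x * f y = 0 := by
    intro x y
    have := congrArg star (h2 (star y) (star x))
    rw [star_mul, star_zero, ← map_star, ← map_star, star_star, star_star] at this
    exact this
  have hm : ∀ {n : ℕ} (M : Matrix (Fin n) (Fin n) R), M.map h = M.map f + M.map g := by
    intro n M; ext i j; exact h1 _
  have ho : ∀ {n : ℕ} (M N : Matrix (Fin n) (Fin n) R), M.map f * N.map g = 0 := by
    intro n M N; ext i j
    rw [Matrix.mul_apply]
    exact Finset.sum_eq_zero fun k _ => h2 _ _
  have ho' : ∀ {n : ℕ} (M N : Matrix (Fin n) (Fin n) R), M.map g * N.map f = 0 := by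
    intro n M N; ext i j
    rw [Matrix.mul_apply]
    exact Finset.sum_eq_zero fun k _ => h3 _ _
  have key : LQ.map ε h = LQ.map ε f + LQ.map ε g := by
    apply LQ.hom_ext
    intro n x
    rw [LinearMap.add_apply, LQ.map_cls, LQ.map_cls, LQ.map_cls]
    apply LQ.cls_internal
    · exact hm _
    · exact hm _
    · rw [QForm.map_phi]; exact ho _ _
    · rw [QForm.map_phi]; exact ho' _ _
  rw [key]; rfl

theorem LQ.map_conj' {R S : Type} [Ring R] [StarRing R] [Ring S] [StarRing S] (f g : R →⋆ₙ+* S)
    (u : S) (h1 : star u * u = 1) (_ : u * star u = 1) (h2 : ∀ x, g x = u * f x * star u)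
    (z : LQ R ε) : LQ.map ε g z = LQ.map ε f z := by
  have key : LQ.map ε g = LQ.map ε f := by
    apply LQ.hom_ext
    intro n x
    rw [LQ.map_cls, LQ.map_cls]
    symm
    apply LQ.cls_isometric
    have hd : ∀ (M : Matrix (Fin n) (Fin n) S),
        Matrix.diagonal (fun _ => u) * M * (Matrix.diagonal (fun _ => u))ᴴ =
          Matrix.of fun i j => u * M i j * star u := by
      intro M
      ext i j
      rw [Matrix.diagonal_conjTranspose, Matrix.mul_diagonal, Matrix.diagonal_mul]
      rfl
    refine ⟨Matrix.diagonal (fun _ => u), ?_, 0, ?_⟩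
    · rw [hd]
      ext i j
      exact (h2 _).symm
    · rw [dag_zero, sub_zero, add_zero]
      ext i j
      rw [Matrix.diagonal_conjTranspose, Matrix.mul_diagonal, Matrix.diagonal_mul]
      change star u * g (x.θ i j) * u = f (x.θ i j)
      rw [h2]
      calc star u * (u * f (x.θ i j) * star u) * u =
          (star u * u) * f (x.θ i j) * (star u * u) := by simp only [mul_assoc]
        _ = f (x.θ i j) := by rw [h1]; simp
  rw [key]

/-- The rationalised quadratic L-group as a functor with the formal properties. -/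
noncomputable def lFunctor : LFunctor.{0} where
  obj R _ _ := LQ R ε
  grp R _ _ := inferInstance
  mod R _ _ := inferInstance
  map f := LQ.map ε f
  map_id R _ _ z := LQ.map_id' ε R z
  map_comp g f z := LQ.map_comp' ε g f z
  map_add f g h h1 h2 z := LQ.map_add' ε f g h h1 h2 z
  map_conj f g u h1 h2 h3 z := LQ.map_conj' ε f g u h1 h2 h3 z
  corner_inj S _ _ A a := LQ.corner_inj ε S A a

end Functor

end Pool.Agent.Y483
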