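import Mathlib

/-!
Restricted wreath products.
-/

namespace Pool.Agent.Y483

variable (P Γ : Type) [Group P] [Group Γ]

/-- Elements of the wreath product whose function `Γ → P` is `1` outside a finite set. -/
def FinSupp (w : RegularWreathProduct P Γ) : Prop := (Function.mulSupport w.left).Finite

variable {P Γ}

theorem FinSupp.one : FinSupp P Γ 1 := by simp [FinSupp]

theorem FinSupp.mul {a b : RegularWreathProduct P Γ} (ha : FinSupp P Γ a) (hb : FinSupp P Γ b) :
    FinSupp P Γ (a * b) := by
  have h2 : (Function.mulSupport (fun x => b.left (a.right⁻¹ * x))).Finite := by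
    refine ((show (Function.mulSupport b.left).Finite from hb).image
      (fun x => a.right * x)).subset ?_
    intro x hx
    exact ⟨a.right⁻¹ * x, hx, by simp⟩
  exact ((show (Function.mulSupport a.left).Finite from ha).union h2).subset
    (Function.mulSupport_mul _ _)

theorem FinSupp.inv {a : RegularWreathProduct P Γ} (ha : FinSupp P Γ a) : FinSupp P Γ a⁻¹ := by
  refine ((show (Function.mulSupport a.left).Finite from ha).image
    (fun x => a.right⁻¹ * x)).subset ?_
  intro x hx
  refine ⟨a.right * x, ?_, by simp⟩
  intro h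
  apply hx
  change (a.left⁻¹) (a.right * x) = 1
  rw [Pi.inv_apply, h, inv_one]

variable (P Γ)

/-- The restricted wreath product `P ≀ Γ`: pairs of a function `Γ → P` equal to `1` outside a finite
set and an element of `Γ`. -/
def RWr : Subgroup (RegularWreathProduct P Γ) where
  carrier := {w | FinSupp P Γ w}
  mul_mem' := FinSupp.mul
  one_mem' := FinSupp.one
  inv_mem' := FinSupp.inv

theorem inl_mem (γ : Γ) : (RegularWreathProduct.inl γ : RegularWreathProduct P Γ) ∈ RWr P Γ := by
  change (Function.mulSupport (1 : Γ → P)).Finite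
  simp

/-- The inclusion of the top group `Γ`. -/
def topHom : Γ →* RWr P Γ := RegularWreathProduct.inl.codRestrict (RWr P Γ) (inl_mem P Γ)

variable {P Γ} {n : ℕ} (f : Fin n ↪ Γ)

/-- The element of `P ≀ Γ` with value `p_i` at `f(i)` and `1` elsewhere. -/
noncomputable def placeFun (p : Fin n → P) : RegularWreathProduct P Γ := ⟨Function.extend f p 1, 1⟩

theorem placeFun_mem (p : Fin n → P) : placeFun f p ∈ RWr P Γ := by
  change (Function.mulSupport (Function.extend f p 1)).Finite
  refine (Set.finite_range f).subset ?_
  intro x hx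
  by_contra hcon
  apply hx
  rw [Function.extend_apply' _ _ _ (fun ⟨i, hi⟩ => hcon ⟨i, hi⟩)]
  rfl

theorem placeFun_one : placeFun f (1 : Fin n → P) = 1 := by
  apply RegularWreathProduct.ext
  · change Function.extend f (1 : Fin n → P) 1 = 1
    funext x
    by_cases h : ∃ i, f i = x
    · obtain ⟨i, rfl⟩ := h
      rw [f.injective.extend_apply]; rfl
    · rw [Function.extend_apply' _ _ _ h]
  · rfl

theorem placeFun_mul (p q : Fin n → P) : placeFun f (p * q) = placeFun f p * placeFun f q := by
  apply RegularWreathProduct.ext
  · change Function.extend f (p * q) 1 = fun x => Function.extend f p 1 x *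
      Function.extend f q 1 ((1 : Γ)⁻¹ * x)
    funext x
    rw [inv_one, one_mul]
    by_cases h : ∃ i, f i = x
    · obtain ⟨i, rfl⟩ := h
      rw [f.injective.extend_apply, f.injective.extend_apply, f.injective.extend_apply]; rfl
    · rw [Function.extend_apply' _ _ _ h, Function.extend_apply' _ _ _ h,
        Function.extend_apply' _ _ _ h]
      simp
  · change (1 : Γ) = 1 * 1
    simp

/-- The homomorphism `P^n → P ≀ Γ` which places the coordinates at the points `f(1), …, f(n)` of
`Γ`. -/
noncomputable def placeHom : (Fin n → P) →* RWr P Γ where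
  toFun p := ⟨placeFun f p, placeFun_mem f p⟩
  map_one' := Subtype.ext (placeFun_one f)
  map_mul' p q := Subtype.ext (placeFun_mul f p q)

open CategoryTheory

/-- The restricted wreath product `P ≀ Γ` as an object of the category of groups. -/
def rwr (P Γ : Type) [Group P] [Group Γ] : GrpCat.{0} := GrpCat.of (RWr P Γ)

/-- The power `P^n`. -/
def pow (P : Type) [Group P] (n : ℕ) : GrpCat.{0} := GrpCat.of (Fin n → P)

/-- The inclusion `Γ → P ≀ Γ`. -/
def top (P Γ : Type) [Group P] [Group Γ] : GrpCat.of Γ ⟶ rwr P Γ := GrpCat.ofHom (topHom P Γ)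

/-- The homomorphism `P^n → P ≀ Γ` which places the coordinates at the points `f(1), …, f(n)` of
`Γ`. -/
noncomputable def placeAt (P : Type) {Γ : Type} [Group P] [Group Γ] {n : ℕ} (f : Fin n ↪ Γ) :
    pow P n ⟶ rwr P Γ := GrpCat.ofHom (placeHom f)

end Pool.Agent.Y483
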