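import Pool.Agent.Y483.Wreath
import Pool.Agent.Y483.LInj
import Pool.Agent.Y483.RWr
import Pool.Agent.Y483.Functors

/-!
The kernel formula for the rationalised quadratic L-groups.
-/

namespace Pool.Agent.Y483

open CategoryTheory DirectSum

variable {ε : ℤˣ} {T : Type} [Group T]

/-- The family of natural transformations as an assembly map in the sense of `Assembly`. -/
noncomputable def toAssembly (α : NatFam ε T) : Assembly (lFunctor ε) T where
  app j G _ := ((α j).app (GrpCat.of G)).hom
  nat j {G K} _ _ f x := by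
    have h := (α j).naturality (GrpCat.ofHom f)
    exact (congrArg (fun g => g.hom x) h).symm

theorem kerJ_eq (α : NatFam ε T) (J : Set ℕ) (G : Type) [Group G] :
    kerJ α J (GrpCat.of G) = LinearMap.ker ((toAssembly α).total J G) := rfl

theorem imKer_eq (α : NatFam ε T) (J : Set ℕ) {G K : Type} [Group G] [Group K]
    (f : G →* K) :
    imKer α J (GrpCat.ofHom f) =
      (LinearMap.ker ((toAssembly α).total J G)).map (hjMap J f) := rfl

/-- The isomorphism between the two models of the restricted wreath product. -/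
def rwIso (P Γ : Type) [Group P] [Group Γ] : RWreath P Γ ≃* RWr P Γ where
  toFun w := ⟨⟨w.left.1, w.right⟩, w.left.2⟩
  invFun w := ⟨⟨w.1.left, w.2⟩, w.1.right⟩
  left_inv _ := rfl
  right_inv _ := rfl
  map_mul' v w := Subtype.ext (by
    apply RegularWreathProduct.ext
    · rfl
    · rfl)

theorem rwIso_inr (P Γ : Type) [Group P] [Group Γ] :
    (rwIso P Γ).toMonoidHom.comp (SemidirectProduct.inr : Γ →* RWreath P Γ) = topHom P Γ := rfl

theorem rwIso_place (P Γ : Type) [Group P] [Group Γ] {n : ℕ} (f : Fin n ↪ Γ) :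
    (rwIso P Γ).toMonoidHom.comp (place P Γ f) = placeHom f := by
  ext1 p
  apply Subtype.ext
  apply RegularWreathProduct.ext
  · change (placeBase P Γ f p).1 = Function.extend f p 1
    funext x
    by_cases h : x ∈ Set.range f
    · obtain ⟨i, rfl⟩ := h
      rw [placeBase_apply, f.injective.extend_apply]
    · rw [placeBase_notMem P Γ f p x h, Function.extend_apply' _ _ _ h]
      rfl
  · rfl

theorem total_ker_iso {E : LFunctor.{0}} (A : Assembly E T) (J : Set ℕ) {G K : Type} [Group G]
    [Group K] (e : G ≃* K) :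
    LinearMap.ker (A.total J K) = (LinearMap.ker (A.total J G)).map (hjMap J e.toMonoidHom) := by
  apply le_antisymm
  · intro x hx
    refine ⟨hjMap J e.symm.toMonoidHom x, ?_, ?_⟩
    · rw [SetLike.mem_coe, LinearMap.mem_ker, ← A.total_nat, LinearMap.mem_ker.mp hx, map_zero]
    · rw [← hjMap_comp]
      have : e.toMonoidHom.comp e.symm.toMonoidHom = MonoidHom.id K := by
        ext1 k; exact e.apply_symm_apply k
      rw [this, hjMap_id]
  · rw [Submodule.map_le_iff_le_comap]
    intro x hx
    rw [Submodule.mem_comap, LinearMap.mem_ker, ← A.total_nat, LinearMap.mem_ker.mp hx, map_zero]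

/-- **Kernel formula for restricted wreath products.** -/
theorem rwr_kernel (α : NatFam ε T) (J : Set ℕ) (P Γ : Type) [Group P] [Group Γ] :
    kerJ α J (rwr P Γ) = imKer α J (top P Γ) ⊔
      ⨆ (n : ℕ) (f : Fin n ↪ Γ), imKer α J (placeAt P f) := by
  change kerJ α J (GrpCat.of (RWr P Γ)) = imKer α J (GrpCat.ofHom (topHom P Γ)) ⊔
      ⨆ (n : ℕ) (f : Fin n ↪ Γ), imKer α J (GrpCat.ofHom (placeHom (P := P) f))
  rw [kerJ_eq, total_ker_iso (toAssembly α) J (rwIso P Γ), wreath_kernel, Submodule.map_sup,
    Submodule.map_iSup]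
  have hcomp : ∀ {G : Type} [Group G] (g : G →* RWreath P Γ) (V : Submodule ℚ (HJ J G)),
      (V.map (hjMap J g)).map (hjMap J (rwIso P Γ).toMonoidHom) =
        V.map (hjMap J ((rwIso P Γ).toMonoidHom.comp g)) := by
    intro G _ g V
    rw [← Submodule.map_comp]
    congr 1
    apply LinearMap.ext
    intro x
    exact (hjMap_comp J _ _ x).symm
  congr 1
  · rw [hcomp, rwIso_inr]
    rfl
  · apply iSup_congr
    intro n
    rw [Submodule.map_iSup]
    apply iSup_congr
    intro f
    rw [hcomp, rwIso_place]
    rfl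

end Pool.Agent.Y483
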