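import Mathlib

/-!
The averaging argument over translates of finite subsets of a group.
-/

namespace Pool.Agent.Y483

open Finset Pointwise

section Moebius

variable {X V : Type*} [DecidableEq X] [AddCommGroup V]

/-- The Möbius transform of a function of finite sets. -/
def moeb (g : Finset X → V) (S : Finset X) : V :=
  ∑ T ∈ S.powerset, (-1 : ℤ) ^ (S.card - T.card) • g T

theorem moeb_sum (g : Finset X → V) (S : Finset X) : ∑ T ∈ S.powerset, moeb g T = g S := by
  unfold moeb
  have h1 : ∀ T ∈ S.powerset, ∑ U ∈ T.powerset, (-1 : ℤ) ^ (T.card - U.card) • g U =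
      ∑ U ∈ S.powerset, if U ⊆ T then (-1 : ℤ) ^ (T.card - U.card) • g U else 0 := by
    intro T hT
    rw [← Finset.sum_filter]
    apply Finset.sum_congr _ (fun _ _ => rfl)
    ext U
    simp only [mem_powerset, mem_filter] at *
    exact ⟨fun h => ⟨h.trans hT, h⟩, fun h => h.2⟩
  rw [Finset.sum_congr rfl h1, Finset.sum_comm]
  rw [Finset.sum_eq_single S]
  · rw [Finset.sum_eq_single S]
    · simp
    · intro T hT hTS
      rw [if_neg]
      intro h
      exact hTS (Finset.Subset.antisymm (mem_powerset.mp hT) h)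
    · intro h; exact absurd (mem_powerset_self S) h
  · intro U hU hUS
    rw [← Finset.sum_filter]
    have hU' : U ⊆ S := mem_powerset.mp hU
    have hcard : ∀ T ∈ (S.powerset.filter (fun T => U ⊆ T)),
        (-1 : ℤ) ^ (T.card - U.card) • g U = ((-1 : ℤ) ^ (T \ U).card) • g U := by
      intro T hT
      rw [Finset.card_sdiff_of_subset (mem_filter.mp hT).2]
    rw [Finset.sum_congr rfl hcard]
    have hbij : ∑ T ∈ (S.powerset.filter (fun T => U ⊆ T)), ((-1 : ℤ) ^ (T \ U).card) • g U =
        ∑ R ∈ (S \ U).powerset, ((-1 : ℤ) ^ R.card) • g U := by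
      apply Finset.sum_bij' (fun T _ => T \ U) (fun R _ => R ∪ U)
      · intro T hT
        simp only [mem_filter, mem_powerset] at *
        exact Finset.sdiff_subset_sdiff hT.1 (le_refl _)
      · intro R hR
        simp only [mem_filter, mem_powerset] at *
        exact ⟨Finset.union_subset (hR.trans Finset.sdiff_subset) hU', Finset.subset_union_right⟩
      · intro T hT
        simp only [mem_filter, mem_powerset] at *
        exact Finset.sdiff_union_of_subset hT.2
      · intro R hR
        simp only [mem_powerset] at *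
        rw [Finset.union_sdiff_right]
        apply Finset.sdiff_eq_self_of_disjoint
        exact Finset.disjoint_of_subset_left hR Finset.sdiff_disjoint
      · intro T hT; rfl
    rw [hbij, ← Finset.sum_smul]
    have hne : (S \ U).Nonempty := by
      rw [Finset.sdiff_nonempty]
      intro h
      exact hUS (Finset.Subset.antisymm hU' h)
    rw [Finset.sum_powerset_neg_one_pow_card_of_nonempty hne, zero_smul]
  · intro h; exact absurd (mem_powerset_self S) h

theorem moeb_empty (g : Finset X → V) : moeb g ∅ = g ∅ := by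
  simp [moeb]

/-- If `g` only depends on the intersection with `F`, its Möbius transform is supported on the
subsets of `F`. -/
theorem moeb_eq_zero {g : Finset X → V} {F : Finset X} (hg : ∀ S, g S = g (S ∩ F))
    {S : Finset X} (hS : ¬ S ⊆ F) : moeb g S = 0 := by
  obtain ⟨s, hs, hsF⟩ := Finset.not_subset.mp hS
  unfold moeb
  have e1 : S = insert s (S.erase s) := (Finset.insert_erase hs).symm
  rw [e1, Finset.sum_powerset_insert (Finset.notMem_erase s S), ← Finset.sum_add_distrib]
  apply Finset.sum_eq_zero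
  intro T hT
  have hT' : T ⊆ S.erase s := mem_powerset.mp hT
  have hsT : s ∉ T := fun h => Finset.notMem_erase s S (hT' h)
  have hg1 : g (insert s T) = g T := by
    rw [hg (insert s T), hg T, Finset.insert_inter_of_notMem hsF]
  have hc : (insert s (S.erase s)).card = (S.erase s).card + 1 :=
    Finset.card_insert_of_notMem (Finset.notMem_erase s S)
  have hc' : (insert s T).card = T.card + 1 := Finset.card_insert_of_notMem hsT
  have hle : T.card ≤ (S.erase s).card := Finset.card_le_card hT'
  rw [hg1, hc, hc', ← add_smul]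
  have e2 : (S.erase s).card + 1 - T.card = ((S.erase s).card - T.card) + 1 := by omega
  have e3 : (S.erase s).card + 1 - (T.card + 1) = (S.erase s).card - T.card := by omega
  rw [e2, e3, pow_succ]
  simp

end Moebius

section Average

variable {Γ V : Type*} [Group Γ] [DecidableEq Γ] [AddCommGroup V] [Module ℚ V]

theorem moeb_smul (g : Finset Γ → V) (y : Γ) (S : Finset Γ) :
    moeb g (y • S) = ∑ T ∈ S.powerset, (-1 : ℤ) ^ (S.card - T.card) • g (y • T) := by
  unfold moeb
  symm
  have h1 : ∀ T ∈ S.powerset, y • T ∈ (y • S).powerset := by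
    intro T hT
    rw [mem_powerset] at *
    exact Finset.smul_finset_subset_smul_finset hT
  have h2 : ∀ T ∈ (y • S).powerset, y⁻¹ • T ∈ S.powerset := by
    intro T hT
    rw [mem_powerset] at *
    have h3 : y⁻¹ • T ⊆ y⁻¹ • (y • S) := Finset.smul_finset_subset_smul_finset hT
    simpa using h3
  apply Finset.sum_bij' (fun T _ => y • T) (fun T _ => y⁻¹ • T) h1 h2
  · intro T _; simp
  · intro T _; simp
  · intro T _; simp

/-- The averaging lemma. -/
theorem eq_zero_of_translates (g : Finset Γ → V) (F : Finset Γ) (hg : ∀ S, g S = g (S ∩ F))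
    (h0 : g ∅ = 0)
    (hsum : ∀ (T : Finset Γ) (Y : Finset Γ), (∀ y ∉ Y, Disjoint (y • T) F) →
      ∑ y ∈ Y, g (y • T) = 0) : g F = 0 := by
  classical
  -- a finite set of translations large enough for all the subsets of `F`
  let Y : Finset Γ := (F ×ˢ F).image (fun p => p.1 * p.2⁻¹)
  have hYmem : ∀ y : Γ, ∀ S : Finset Γ, S ⊆ F → ∀ s ∈ S, y * s ∈ F → y ∈ Y := by
    intro y S hS s hs hys
    simp only [Y, mem_image, mem_product, Prod.exists]
    exact ⟨y * s, s, ⟨hys, hS hs⟩, by group⟩
  have hY : ∀ T ⊆ F, ∀ y ∉ Y, Disjoint (y • T) F := by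
    intro T hT y hy
    rw [Finset.disjoint_left]
    intro z hz hzF
    obtain ⟨t, ht, rfl⟩ := Finset.mem_smul_finset.mp hz
    exact hy (hYmem y T hT t ht (by simpa using hzF))
  -- the Möbius transform sums to zero over translates
  have hκ : ∀ S ⊆ F, ∑ y ∈ Y, moeb g (y • S) = 0 := by
    intro S hS
    simp_rw [moeb_smul]
    rw [Finset.sum_comm]
    apply Finset.sum_eq_zero
    intro T hT
    rw [← Finset.smul_sum, hsum T Y (hY T ((mem_powerset.mp hT).trans hS)), smul_zero]
  -- the number of translates of `S` inside `F`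
  let n : Finset Γ → ℚ := fun S => ((Y.filter (fun y => y • S ⊆ F)).card : ℚ)
  have hn0 : ∀ S ⊆ F, S.Nonempty → n S ≠ 0 := by
    intro S hS hne
    obtain ⟨s, hs⟩ := hne
    have : (1 : Γ) ∈ Y.filter (fun y => y • S ⊆ F) := by
      rw [mem_filter]
      refine ⟨hYmem 1 S hS s hs (by simpa using hS hs), by simpa using hS⟩
    simp only [n]
    exact_mod_cast (Finset.card_pos.mpr ⟨1, this⟩).ne'
  have hn : ∀ S ⊆ F, ∀ y : Γ, y • S ⊆ F → S.Nonempty → n (y • S) = n S := by
    intro S hS y hyS hne
    simp only [n, Nat.cast_inj]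
    apply Finset.card_bij' (fun z _ => z * y) (fun z _ => z * y⁻¹)
    · intro z hz
      rw [mem_filter] at *
      obtain ⟨s, hs⟩ := hne
      have h1 : (z * y) • S ⊆ F := by rw [mul_smul]; exact hz.2
      exact ⟨hYmem _ S hS s hs (h1 (Finset.smul_mem_smul_finset hs)), h1⟩
    · intro z hz
      rw [mem_filter] at *
      obtain ⟨s, hs⟩ := hne
      have h1 : (z * y⁻¹) • (y • S) ⊆ F := by
        rw [smul_smul]; simpa using hz.2
      refine ⟨hYmem _ (y • S) hyS (y * s) ?_ ?_, h1⟩
      · exact Finset.smul_mem_smul_finset (a := y) hs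
      · have := hz.2 (Finset.smul_mem_smul_finset (a := z) hs)
        simpa using this
    · intro z _; simp
    · intro z _; simp
  -- the double sum
  have key : ∑ S ∈ F.powerset.filter (fun S => S.Nonempty),
      ∑ y ∈ Y, (n S)⁻¹ • moeb g (y • S) = 0 := by
    apply Finset.sum_eq_zero
    intro S hS
    rw [mem_filter, mem_powerset] at hS
    rw [← Finset.smul_sum, hκ S hS.1, smul_zero]
  have key2 : ∑ S ∈ F.powerset.filter (fun S => S.Nonempty),
      ∑ y ∈ Y, (n S)⁻¹ • moeb g (y • S) =
      ∑ S ∈ F.powerset.filter (fun S => S.Nonempty), moeb g S := by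
    have e1 : ∀ S ∈ F.powerset.filter (fun S => S.Nonempty),
        ∑ y ∈ Y, (n S)⁻¹ • moeb g (y • S) =
        ∑ y ∈ Y.filter (fun y => y • S ⊆ F), (n S)⁻¹ • moeb g (y • S) := by
      intro S _
      symm
      apply Finset.sum_filter_of_ne
      intro y _ hne
      by_contra hcon
      exact hne (by rw [moeb_eq_zero hg hcon, smul_zero])
    have e2 : ∀ S ∈ F.powerset.filter (fun S => S.Nonempty),
        moeb g S = ∑ y ∈ Y.filter (fun y => y • S ⊆ F), (n S)⁻¹ • moeb g S := by
      intro S hS
      rw [mem_filter, mem_powerset] at hS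
      rw [Finset.sum_const, ← Nat.cast_smul_eq_nsmul ℚ, smul_smul]
      change moeb g S = (n S * (n S)⁻¹) • moeb g S
      rw [mul_inv_cancel₀ (hn0 S hS.1 hS.2), one_smul]
    rw [Finset.sum_congr rfl e1, Finset.sum_congr rfl e2, Finset.sum_sigma', Finset.sum_sigma']
    apply Finset.sum_bij' (fun p _ => (⟨p.2 • p.1, p.2⁻¹⟩ : (_ : Finset Γ) × Γ))
      (fun p _ => (⟨p.2 • p.1, p.2⁻¹⟩ : (_ : Finset Γ) × Γ))
    · rintro ⟨S, y⟩ hp
      simp only [mem_sigma, mem_filter, mem_powerset] at *
      obtain ⟨⟨hS, hne⟩, hy, hyS⟩ := hp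
      refine ⟨⟨hyS, hne.smul_finset⟩, ?_, by simpa using hS⟩
      obtain ⟨s, hs⟩ := hne
      exact hYmem _ (y • S) hyS (y * s) (Finset.smul_mem_smul_finset (a := y) hs)
        (by simpa using hS hs)
    · rintro ⟨S, y⟩ hp
      simp only [mem_sigma, mem_filter, mem_powerset] at *
      obtain ⟨⟨hS, hne⟩, hy, hyS⟩ := hp
      refine ⟨⟨hyS, hne.smul_finset⟩, ?_, by simpa using hS⟩
      obtain ⟨s, hs⟩ := hne
      exact hYmem _ (y • S) hyS (y * s) (Finset.smul_mem_smul_finset (a := y) hs)
        (by simpa using hS hs)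
    · rintro ⟨S, y⟩ _
      simp
    · rintro ⟨S, y⟩ _
      simp
    · rintro ⟨S, y⟩ hp
      simp only [mem_sigma, mem_filter, mem_powerset] at *
      obtain ⟨⟨hS, hne⟩, hy, hyS⟩ := hp
      rw [hn S hS y hyS hne]
  rw [key2] at key
  rw [← moeb_sum g F, ← Finset.sum_filter_add_sum_filter_not F.powerset (fun S => S.Nonempty),
    key, zero_add]
  apply Finset.sum_eq_zero
  intro S hS
  rw [mem_filter, Finset.not_nonempty_iff_eq_empty] at hS
  rw [hS.2, moeb_empty, h0]

end Average

end Pool.Agent.Y483
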