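import Pool.Agent.Y483.Assembly
import Pool.Agent.Y483.Combi

/-!
Semidirect products `N ⋊ Γ` with a support system indexed by `Γ`, and the injectivity of the
assembly map on the classes coming from `N`.
-/

namespace Pool.Agent.Y483

open Pointwise

universe v w

/-- A support system indexed by `Γ` on a group `N` with an action `φ` of `Γ`: for every subset
`S` of `Γ` an endomorphism `e_S` of `N` (keep the coordinates in `S`), with
`e_S e_T = e_{S ∩ T}`, `e_∅ = 1`, `γ e_S = e_{γ S} γ`, and such that every element is fixed by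
`e_S` for some finite `S`. -/
structure SupportSystem {Γ N : Type} [Group Γ] [Group N] (φ : Γ →* MulAut N) where
  /-- The retraction of `N` to the part supported on `S`. -/
  e : Set Γ → (N →* N)
  inter : ∀ (S T : Set Γ) (n : N), e S (e T n) = e (S ∩ T) n
  empty : ∀ n : N, e ∅ n = 1
  equivariant : ∀ (γ : Γ) (S : Set Γ) (n : N), φ γ (e S n) = e (γ • S) (φ γ n)
  finite : ∀ n : N, ∃ S : Set Γ, S.Finite ∧ e S n = n

variable {Γ N : Type} [Group Γ] [Group N] {φ : Γ →* MulAut N}

/-- The set `Γ` with the action of `N ⋊ Γ` by left translations through the projection to `Γ`. -/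
def Pt (_ : Γ →* MulAut N) : Type := Γ

instance ptAction : MulAction (N ⋊[φ] Γ) (Pt φ) where
  smul w a := (w.right * (show Γ from a) : Γ)
  one_smul a := one_mul (show Γ from a)
  mul_smul v w a := mul_assoc v.right w.right (show Γ from a)

theorem pt_smul (w : N ⋊[φ] Γ) (a : Pt φ) : w • a = (w.right * (show Γ from a) : Γ) := rfl

namespace SupportSystem

variable (ss : SupportSystem φ)

/-- The part of `N` supported on `S`. -/
abbrev part (S : Set Γ) : Type := (ss.e S).range

theorem e_of_disjoint {S T : Set Γ} (h : Disjoint S T) {n : N} (hn : ss.e T n = n) :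
    ss.e S n = 1 := by
  rw [← hn, ss.inter, Set.disjoint_iff_inter_eq_empty.mp h, ss.empty]

theorem e_act {S : Set Γ} {n : N} (hn : ss.e S n = n) (γ : Γ) :
    ss.e (γ • S) (φ γ n) = φ γ n := by
  rw [← ss.equivariant, hn]

/-- The cocycle of `N ⋊ Γ` on `Γ` with values in the part supported on `F`. -/
noncomputable def cocycle (F : Set Γ) (hF : F.Finite) :
    FinCocycle (N ⋊[φ] Γ) (Pt φ) (ss.part F) where
  c w a := (ss.e F).rangeRestrict (φ (w.right * (show Γ from a))⁻¹ w.left)
  mul w w' a := by
    rw [← map_mul]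
    congr 1
    rw [SemidirectProduct.mul_left, SemidirectProduct.mul_right, map_mul]
    congr 1
    · rw [pt_smul]
      change φ ((w.right * w'.right * _)⁻¹) _ = φ ((w.right * (w'.right * _))⁻¹) _
      rw [mul_assoc]
    · rw [← MulAut.mul_apply, ← map_mul]
      congr 2
      rw [mul_assoc, mul_inv_rev, inv_mul_cancel_right]
  fin w := by
    obtain ⟨S, hS, hn⟩ := ss.finite w.left
    have hfin : ((fun p : Γ × Γ => w.right⁻¹ * (p.1 * p.2⁻¹)) '' (S ×ˢ F)).Finite :=
      (hS.prod hF).image _
    refine hfin.subset ?_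
    intro a ha
    by_contra hcon
    apply ha
    apply Subtype.ext
    change ss.e F (φ (w.right * (show Γ from a))⁻¹ w.left) = 1
    refine ss.e_of_disjoint ?_ (ss.e_act hn _)
    rw [Set.disjoint_left]
    intro f hf hf'
    apply hcon
    rw [Set.mem_smul_set] at hf'
    obtain ⟨s, hs, hsf⟩ := hf'
    refine ⟨(s, f), ⟨hs, hf⟩, ?_⟩
    have h1 : (w.right * (show Γ from a))⁻¹ * s = f := hsf
    change w.right⁻¹ * (s * f⁻¹) = a
    rw [← h1]
    change _ = (show Γ from a)
    group

/-- The endomorphism `e_S` for a finite set `S`, followed by the inclusion in `N ⋊ Γ`. -/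
def incl (S : Set Γ) : N →* N ⋊[φ] Γ := SemidirectProduct.inl.comp (ss.e S)

theorem incl_smul (F₀ F : Set Γ) (y : Γ) (n : N) :
    (SemidirectProduct.inr y : N ⋊[φ] Γ)⁻¹ * ss.incl ((y • F) ∩ F₀) n *
      (SemidirectProduct.inr y : N ⋊[φ] Γ) =
    SemidirectProduct.inl (ss.e F (φ y⁻¹ (ss.e F₀ n))) := by
  have h1 : φ y⁻¹ (ss.e ((y • F) ∩ F₀) n) = ss.e F (φ y⁻¹ (ss.e F₀ n)) := by
    rw [← ss.inter, ss.equivariant, inv_smul_smul]
  rw [← h1]
  unfold incl
  rw [MonoidHom.comp_apply, ← map_inv, map_inv φ, SemidirectProduct.inl_aut_inv]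

end SupportSystem

/-- The conjugation of a homomorphism by an element of the target. -/
def conjHom {G K : Type} [Group G] [Group K] (f : G →* K) (k : K) : G →* K :=
  (MulAut.conj k).toMonoidHom.comp f

/-- Inner automorphisms act trivially. -/
def HFunctor.ConjInv (H : HFunctor.{w}) : Prop :=
  ∀ {G K : Type} [Group G] [Group K] (f : G →* K) (k : K) (x : H.obj G),
    H.map (conjHom f k) x = H.map f x

/-- The inclusion of the part of `N` supported on `S` in `N ⋊ Γ`. -/
def SupportSystem.partIncl (ss : SupportSystem φ) (S : Set Γ) : ss.part S →* N ⋊[φ] Γ :=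
  SemidirectProduct.inl.comp (ss.e S).range.subtype

/-- The part of the kernel of the assembly map of `N ⋊ Γ` coming from the parts of `N` supported on
finite sets. -/
noncomputable def baseKer {H : HFunctor.{w}} {E : LFunctor.{v}} {T : Type} [Group T]
    (α : Transf H E T) (ss : SupportSystem φ) :
    Submodule ℚ (H.obj (N ⋊[φ] Γ)) :=
  ⨆ F : Finset Γ, (LinearMap.ker (α.app (ss.part (F : Set Γ)))).map (H.map (ss.partIncl F))

/-- A class of the kernel of the assembly map of `N ⋊ Γ` which comes from the part of `N` supported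
on a finite set is a sum of classes coming from kernels of assembly maps of such parts. -/
theorem base_kernel {H : HFunctor.{w}} (hH : H.ConjInv) {E : LFunctor.{v}} {T₀ : Type} [Group T₀]
    (α : Transf H E T₀) (ss : SupportSystem φ) (F₀ : Set Γ) (hF₀ : F₀.Finite) (x : H.obj N)
    (hx : α.app (N ⋊[φ] Γ) (H.map (ss.incl F₀) x) = 0) :
    H.map (ss.incl F₀) x ∈ baseKer α ss := by
  classical
  rw [← Submodule.Quotient.mk_eq_zero]
  have hmain := eq_zero_of_translates (V := H.obj (N ⋊[φ] Γ) ⧸ baseKer α ss)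
    (fun S : Finset Γ => (baseKer α ss).mkQ (H.map (ss.incl ((S : Set Γ) ∩ F₀)) x))
    hF₀.toFinset ?_ ?_ ?_
  · simpa using hmain
  · intro S
    simp [Set.inter_assoc]
  · have : ss.incl (((∅ : Finset Γ) : Set Γ) ∩ F₀) = 1 := by
      ext1 n
      simp only [SupportSystem.incl, MonoidHom.comp_apply, Finset.coe_empty, Set.empty_inter,
        ss.empty, map_one, MonoidHom.one_apply]
    rw [this, H.map_one, map_zero]
  · intro T Y hY
    have hTfin : (T : Set Γ).Finite := T.finite_toSet
    have hj : ∀ (g : N) (a : Pt φ), ss.incl F₀ g • a = a := by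
      intro g a
      exact one_mul (show Γ from a)
    have hlab : ∀ a ∉ (Y : Finset (Pt φ)), ∀ g : N, (ss.cocycle T hTfin).c (ss.incl F₀ g) a = 1 := by
      intro a ha g
      apply Subtype.ext
      change ss.e T (φ ((1 : Γ) * (show Γ from a))⁻¹ (ss.e F₀ g)) = 1
      rw [one_mul, ss.equivariant]
      rw [ss.inter]
      have hd : (T : Set Γ) ∩ ((show Γ from a)⁻¹ • F₀) = ∅ := by
        rw [← Set.disjoint_iff_inter_eq_empty, Set.disjoint_left]
        intro t ht ht'
        have h2 := Finset.disjoint_left.mp (hY a ha)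
          (Finset.smul_mem_smul_finset (a := (show Γ from a)) ht)
        apply h2
        rw [Set.mem_inv_smul_set_iff] at ht'
        simpa using ht'
      rw [hd, ss.empty]
    have hk := key α (ss.cocycle T hTfin) (ss.incl F₀) hj Y hlab x hx
    have hmem : H.map (ss.partIncl (T : Set Γ)) (∑ a ∈ (Y : Finset (Pt φ)),
        H.map ((ss.cocycle T hTfin).label (ss.incl F₀) hj a) x) ∈ baseKer α ss :=
      Submodule.mem_iSup_of_mem T (Submodule.mem_map_of_mem hk)
    have hk4 : ∑ a ∈ (Y : Finset (Pt φ)), (baseKer α ss).mkQ (H.map (ss.partIncl (T : Set Γ))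
        (H.map ((ss.cocycle T hTfin).label (ss.incl F₀) hj a) x)) = 0 := by
      rw [← map_sum, ← map_sum, Submodule.mkQ_apply, Submodule.Quotient.mk_eq_zero]
      exact hmem
    refine Eq.trans ?_ hk4
    refine Finset.sum_congr (ι := Γ) rfl ?_
    intro y _
    rw [← H.map_comp, ← hH _ ((SemidirectProduct.inr y : N ⋊[φ] Γ)⁻¹)]
    congr 3
    ext1 n
    simp only [conjHom, MonoidHom.comp_apply, MulEquiv.coe_toMonoidHom, MulAut.conj_apply, inv_inv]
    rw [Finset.coe_smul_finset, ss.incl_smul]
    change SemidirectProduct.inl (ss.e T (φ y⁻¹ (ss.e F₀ n))) =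
      SemidirectProduct.inl (ss.e T (φ ((1 : Γ) * y)⁻¹ (ss.e F₀ n)))
    rw [one_mul]

end Pool.Agent.Y483
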