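import Pool.Agent.Y483.QWindow

/-!
The corner embedding reflects stably hyperbolic forms.
-/

namespace Pool.Agent.Y483

open Matrix

variable {S : Type*} [Ring S] [StarRing S] {A : Type*} {ε : ℤˣ} {ι κ : Type*} [Fintype ι]
  [Fintype κ]

theorem DD.diff (x : DD S A) : FinRank (x.fst - x.snd) := x.2

theorem entry_of_finRank {z : Op S A} {F : Finset A}
    (h : ∀ a ∉ F, z.fn (Finsupp.single a 1) = 0 ∧ z.ad (Finsupp.single a 1) = 0) {s t : A}
    (hst : s ∉ F ∨ t ∉ F) : entry z s t = 0 := by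
  rcases hst with hs | ht
  · have h1 : entry (star z) t s = 0 := by
      rw [entry, Op.fn_star, (h s hs).2]; rfl
    rw [entry_star] at h1
    have := congrArg star h1
    simpa using this
  · rw [entry, (h t ht).1]; rfl

/-- If the image of a form under a corner embedding is stably hyperbolic, so is the form. -/
theorem corner_reflect [DecidableEq κ] (x : QForm S ε ι) (a : A) (η : QForm (DD S A) ε κ)
    (hη : IsHyp η) (h : IsHyp ((x.map (corner S A a)).sum η)) :
    ∃ (F : Finset A) (η' : QForm S ε (((κ ⊕ κ) × F) ⊕ ((κ ⊕ κ) × F))),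
      IsHyp η' ∧ IsHyp (x.sum η') := by
  classical
  obtain ⟨L, hL, hL2⟩ := std_second x a (stab_free h hη)
  -- the window
  have hF : ∀ i j, ∃ F : Finset A, ∀ b ∉ F,
      ((L i j).fst - (L i j).snd).fn (Finsupp.single b 1) = 0 ∧
      ((L i j).fst - (L i j).snd).ad (Finsupp.single b 1) = 0 := fun i j => (L i j).diff
  choose F₀ hF₀ using hF
  let F : Finset A := insert a (Finset.univ.biUnion fun i => Finset.univ.biUnion fun j => F₀ i j)
  have haF : a ∈ F := Finset.mem_insert_self _ _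
  have hFsub : ∀ i j, F₀ i j ⊆ F := by
    intro i j b hb
    apply Finset.mem_insert_of_mem
    rw [Finset.mem_biUnion]
    refine ⟨i, Finset.mem_univ _, ?_⟩
    rw [Finset.mem_biUnion]
    exact ⟨j, Finset.mem_univ _, hb⟩
  have hb2 : Blk F (L.map (sndHom S A)) := by
    rw [hL2]
    exact blk_zero.fromBlocks blk_zero blk_zero (blk_one.fromBlocks blk_zero blk_zero blk_zero)
  have hsplit : ∀ i j s t, entry ((L.map (fstHom S A)) i j) s t =
      entry ((L i j).fst - (L i j).snd) s t + entry ((L.map (sndHom S A)) i j) s t := by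
    intro i j s t
    change entry (L i j).fst s t = _ + entry (L i j).snd s t
    rw [← entry_add, sub_add_cancel]
  have hb1 : Blk F (L.map (fstHom S A)) := by
    constructor
    · intro i j s t hs ht
      rw [hsplit, hb2.1 i j s t hs ht, add_zero]
      exact entry_of_finRank (hF₀ i j) (Or.inr fun h => ht (hFsub i j h))
    · intro i j s t hs ht
      rw [hsplit, hb2.2 i j s t hs ht, add_zero]
      exact entry_of_finRank (hF₀ i j) (Or.inl fun h => hs (hFsub i j h))
  have hy : ((x.map (corner S A a)).sum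
      (QForm.hyp ε (1 : Matrix (κ ⊕ κ) (κ ⊕ κ) (DD S A)) (one_mul 1))).map (fstHom S A) =
      ((x.map (corner S A a)).map (fstHom S A)).sum
        (QForm.hyp ε (1 : Matrix (κ ⊕ κ) (κ ⊕ κ) (Op S A)) (one_mul 1)) := by
    rw [QForm.map_sum, ← hyp_one_diag]; rfl
  have hl1 := hL.map (fstHom S A)
  rw [hy] at hl1
  have hθ : Blk F (((x.map (corner S A a)).map (fstHom S A)).sum
        (QForm.hyp ε (1 : Matrix (κ ⊕ κ) (κ ⊕ κ) (Op S A)) (one_mul 1))).θ :=
    (blk_corner haF x.θ).fromBlocks blk_zero blk_zero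
      (blk_zero.fromBlocks (blk_one.conj) blk_zero blk_zero)
  have hψ : Blk F (((x.map (corner S A a)).map (fstHom S A)).sum
        (QForm.hyp ε (1 : Matrix (κ ⊕ κ) (κ ⊕ κ) (Op S A)) (one_mul 1))).ψ :=
    (blk_corner haF x.ψ).fromBlocks blk_zero blk_zero
      (blk_zero.fromBlocks (blk_one.zsmul _) (blk_one.conj) blk_zero)
  have hw := hl1.win hθ hψ hb1
  refine ⟨F, QForm.hyp ε (1 : Matrix ((κ ⊕ κ) × F) ((κ ⊕ κ) × F) S) (one_mul 1),
    isHyp_hyp _ _, ?_⟩
  -- the identification of the window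
  let g : ι ⊕ (((κ ⊕ κ) × F) ⊕ ((κ ⊕ κ) × F)) → (ι ⊕ ((κ ⊕ κ) ⊕ (κ ⊕ κ))) × F := fun p =>
    match p with
    | Sum.inl i => (Sum.inl i, ⟨a, haF⟩)
    | Sum.inr (Sum.inl (k, f)) => (Sum.inr (Sum.inl k), f)
    | Sum.inr (Sum.inr (k, f)) => (Sum.inr (Sum.inr k), f)
  have hg : Function.Injective g := by
    rintro (i | ⟨k, f⟩ | ⟨k, f⟩) (j | ⟨k', f'⟩ | ⟨k', f'⟩) h <;> simp [g] at h ⊢ <;> exact h
  have hone : ∀ (k k' : κ ⊕ κ) (f f' : F),
      entry ((1 : Matrix (κ ⊕ κ) (κ ⊕ κ) (Op S A)) k k') (f : A) (f' : A) =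
        (1 : Matrix ((κ ⊕ κ) × F) ((κ ⊕ κ) × F) S) (k, f) (k', f') := by
    intro k k' f f'
    by_cases hk : k = k'
    · subst hk
      rw [one_apply_eq]
      by_cases hf : f = f'
      · subst hf
        rw [entry_one_eq, one_apply_eq]
      · rw [entry_one_ne (fun h => hf (Subtype.ext h)), one_apply_ne]
        intro h
        exact hf (Prod.ext_iff.mp h).2
    · rw [one_apply_ne hk, entry_zero, one_apply_ne]
      intro h
      exact hk (Prod.ext_iff.mp h).1
  have hiso := isIsom_inj (x.sum (QForm.hyp ε (1 : Matrix ((κ ⊕ κ) × F) ((κ ⊕ κ) × F) S)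
    (one_mul 1))) ((((x.map (corner S A a)).map (fstHom S A)).sum
        (QForm.hyp ε (1 : Matrix (κ ⊕ κ) (κ ⊕ κ) (Op S A)) (one_mul 1))).win F hθ hψ) g hg
      ?_ ?_ ?_
  · exact Isometric.isHyp ⟨_, hiso.symm⟩ ⟨_, hw⟩
  · rintro (i | ⟨k, f⟩ | ⟨k, f⟩) (j | ⟨k', f'⟩ | ⟨k', f'⟩)
    · change entry (fstHom S A (corner S A a (x.θ i j))) a a = x.θ i j
      rw [entry_corner]; simp
    · exact entry_zero a (f' : A)
    · exact entry_zero a (f' : A)
    · exact entry_zero (f : A) a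
    · exact entry_zero (f : A) (f' : A)
    · change entry (star ((1 : Matrix (κ ⊕ κ) (κ ⊕ κ) (Op S A)) k' k)) f f' =
        star ((1 : Matrix ((κ ⊕ κ) × F) ((κ ⊕ κ) × F) S) (k', f') (k, f))
      rw [entry_star, hone]
    · exact entry_zero (f : A) a
    · exact entry_zero (f : A) (f' : A)
    · exact entry_zero (f : A) (f' : A)
  · rintro (i | ⟨k, f⟩ | ⟨k, f⟩) (j | ⟨k', f'⟩ | ⟨k', f'⟩)
    · change entry (fstHom S A (corner S A a (x.ψ i j))) a a = x.ψ i j
      rw [entry_corner]; simp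
    · exact entry_zero a (f' : A)
    · exact entry_zero a (f' : A)
    · exact entry_zero (f : A) a
    · exact entry_zero (f : A) (f' : A)
    · change entry ((ε : ℤ) • ((1 : Matrix (κ ⊕ κ) (κ ⊕ κ) (Op S A)) k k')) f f' =
        (ε : ℤ) • ((1 : Matrix ((κ ⊕ κ) × F) ((κ ⊕ κ) × F) S) (k, f) (k', f'))
      rw [entry_zsmul, hone]
    · exact entry_zero (f : A) a
    · change entry (star ((1 : Matrix (κ ⊕ κ) (κ ⊕ κ) (Op S A)) k' k)) f f' =
        star ((1 : Matrix ((κ ⊕ κ) × F) ((κ ⊕ κ) × F) S) (k', f') (k, f))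
      rw [entry_star, hone]
    · exact entry_zero (f : A) (f' : A)
  · have hr : ∀ s : (ι ⊕ ((κ ⊕ κ) ⊕ (κ ⊕ κ))) × F, s ∉ Set.range g →
        ∃ i f, s = (Sum.inl i, f) ∧ (f : A) ≠ a := by
      rintro ⟨i | k | k, f⟩ hs
      · refine ⟨i, f, rfl, ?_⟩
        intro hfa
        apply hs
        refine ⟨Sum.inl i, ?_⟩
        simp only [g, Prod.mk.injEq, true_and]
        exact Subtype.ext hfa.symm
      · exact absurd ⟨Sum.inr (Sum.inl (k, f)), rfl⟩ hs
      · exact absurd ⟨Sum.inr (Sum.inr (k, f)), rfl⟩ hs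
    rintro s t (hs | ht)
    · obtain ⟨i, f, rfl, hf⟩ := hr s hs
      obtain ⟨j | k | k, f'⟩ := t
      · change entry (fstHom S A (corner S A a (x.ψ i j))) f f' = 0
        rw [entry_corner, if_neg]
        rintro ⟨h, -⟩
        exact hf h
      · exact entry_zero (f : A) (f' : A)
      · exact entry_zero (f : A) (f' : A)
    · obtain ⟨i, f, rfl, hf⟩ := hr t ht
      obtain ⟨j | k | k, f'⟩ := s
      · change entry (fstHom S A (corner S A a (x.ψ j i))) f' f = 0
        rw [entry_corner, if_neg]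
        rintro ⟨-, h⟩
        exact hf h
      · exact entry_zero (f' : A) (f : A)
      · exact entry_zero (f' : A) (f : A)

end Pool.Agent.Y483
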