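import Pool.Agent.Y483.LGroup
import Pool.Agent.Y483.QReflect

/-!
The group of stable isometry classes of forms, and the injectivity of the corner embeddings on the
rationalised L-groups.
-/

namespace Pool.Agent.Y483

open Matrix TensorProduct

section Defs

variable (R : Type) [Ring R] [StarRing R] (ε : ℤˣ)

/-- A form of arbitrary size. -/
structure BForm : Type 1 where
  /-- The index set. -/
  ι : Type
  /-- Finiteness. -/
  fin : Fintype ι
  /-- The form. -/
  q : QForm R ε ι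

attribute [instance] BForm.fin

variable {R ε}

/-- The orthogonal sum. -/
def BForm.add (x y : BForm R ε) : BForm R ε := ⟨x.ι ⊕ y.ι, inferInstance, x.q.sum y.q⟩

variable (R ε)

/-- Isometry. -/
def bSetoid : Setoid (BForm R ε) where
  r x y := Isometric x.q y.q
  iseqv := ⟨fun x => Isometric.refl x.q, fun h => h.symm, fun h k => h.trans k⟩

/-- Isometry classes. -/
def ICls : Type 1 := Quotient (bSetoid R ε)

variable {R ε}

/-- The isometry class. -/
def ICls.mk (x : BForm R ε) : ICls R ε := Quotient.mk (bSetoid R ε) x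

theorem ICls.sound {x y : BForm R ε} (h : Isometric x.q y.q) : ICls.mk x = ICls.mk y :=
  Quotient.sound (s := bSetoid R ε) h

theorem ICls.exact {x y : BForm R ε} (h : ICls.mk x = ICls.mk y) : Isometric x.q y.q :=
  Quotient.exact (s := bSetoid R ε) h

theorem ICls.ind {p : ICls R ε → Prop} (h : ∀ x, p (ICls.mk x)) (a : ICls R ε) : p a :=
  Quotient.ind (s := bSetoid R ε) h a

/-- Addition of isometry classes. -/
def ICls.add (a b : ICls R ε) : ICls R ε :=
  Quotient.liftOn₂ (s₁ := bSetoid R ε) (s₂ := bSetoid R ε) a b (fun x y => ICls.mk (x.add y))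
    (fun _ _ _ _ h k => ICls.sound (Isometric.sum h k))

/-- The zero class. -/
def ICls.zero : ICls R ε := ICls.mk ⟨Empty, inferInstance, QForm.zero R ε Empty⟩

theorem ICls.zero_add' (a : ICls R ε) : ICls.add ICls.zero a = a := by
  induction a using ICls.ind with
  | h x => exact ICls.sound ((sum_comm_isometric _ _).trans (sum_zero_isometric x.q).symm)

theorem ICls.add_comm' (a b : ICls R ε) : ICls.add a b = ICls.add b a := by
  induction a using ICls.ind with
  | h x =>
    induction b using ICls.ind with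
    | h y => exact ICls.sound (sum_comm_isometric _ _)

theorem ICls.add_assoc' (a b c : ICls R ε) :
    ICls.add (ICls.add a b) c = ICls.add a (ICls.add b c) := by
  induction a using ICls.ind with
  | h x =>
    induction b using ICls.ind with
    | h y =>
      induction c using ICls.ind with
      | h z => exact ICls.sound (sum_assoc_isometric _ _ _)

instance : Zero (ICls R ε) := ⟨ICls.zero⟩

instance : Add (ICls R ε) := ⟨ICls.add⟩

instance : AddCommMonoid (ICls R ε) where
  zero_add := ICls.zero_add'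
  add_zero a := (ICls.add_comm' _ _).trans (ICls.zero_add' a)
  add_comm := ICls.add_comm'
  add_assoc := ICls.add_assoc'
  nsmul := nsmulRec

theorem ICls.mk_add (x y : BForm R ε) : ICls.mk (x.add y) = ICls.mk x + ICls.mk y := rfl

/-- Hyperbolic classes. -/
def ICls.Hyp (a : ICls R ε) : Prop := ∃ x : BForm R ε, ICls.mk x = a ∧ IsHyp x.q

theorem ICls.hyp_mk {x : BForm R ε} : (ICls.mk x).Hyp ↔ IsHyp x.q := by
  constructor
  · rintro ⟨y, h1, h2⟩
    exact (ICls.exact h1).isHyp h2
  · intro h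
    exact ⟨x, rfl, h⟩

theorem ICls.hyp_zero : (0 : ICls R ε).Hyp := ⟨_, rfl, isHyp_zero⟩

theorem ICls.hyp_add {a b : ICls R ε} (ha : a.Hyp) (hb : b.Hyp) : (a + b).Hyp := by
  obtain ⟨x, rfl, hx⟩ := ha
  obtain ⟨y, rfl, hy⟩ := hb
  exact ⟨x.add y, rfl, hx.sum hy⟩

variable (R ε)

/-- Stable equality. -/
def wCon : AddCon (ICls R ε) where
  r a b := ∃ h h' : ICls R ε, h.Hyp ∧ h'.Hyp ∧ a + h = b + h'
  iseqv := ⟨fun a => ⟨0, 0, ICls.hyp_zero, ICls.hyp_zero, rfl⟩,
    fun ⟨h, h', k, k', e⟩ => ⟨h', h, k', k, e.symm⟩, by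
      rintro a b c ⟨h, h', k1, k2, e⟩ ⟨g, g', l1, l2, e'⟩
      refine ⟨h + g, g' + h', ICls.hyp_add k1 l1, ICls.hyp_add l2 k2, ?_⟩
      rw [← add_assoc, e, add_right_comm, e', add_assoc]⟩
  add' := by
    rintro a b c d ⟨h, h', k1, k2, e⟩ ⟨g, g', l1, l2, e'⟩
    refine ⟨h + g, h' + g', ICls.hyp_add k1 l1, ICls.hyp_add k2 l2, ?_⟩
    rw [add_add_add_comm, e, e', add_add_add_comm]

/-- The Witt group of stable isometry classes. -/
def WG : Type 1 := (wCon R ε).Quotient

instance : AddCommMonoid (WG R ε) := inferInstanceAs (AddCommMonoid (wCon R ε).Quotient)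

variable {R ε}

/-- The class of an isometry class. -/
def WG.mk : ICls R ε →+ WG R ε := (wCon R ε).mk'

theorem WG.mk_surj : Function.Surjective (WG.mk (R := R) (ε := ε)) := AddCon.mk'_surjective

theorem WG.mk_eq {a b : ICls R ε} :
    WG.mk a = WG.mk b ↔ ∃ h h' : ICls R ε, h.Hyp ∧ h'.Hyp ∧ a + h = b + h' :=
  AddCon.eq (wCon R ε)

theorem WG.mk_zero_iff {a : ICls R ε} :
    WG.mk a = 0 ↔ ∃ h : ICls R ε, h.Hyp ∧ (a + h).Hyp := by
  rw [← map_zero WG.mk, WG.mk_eq]
  constructor
  · rintro ⟨h, h', k1, k2, e⟩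
    refine ⟨h, k1, ?_⟩
    rw [e, zero_add]; exact k2
  · rintro ⟨h, k1, k2⟩
    exact ⟨h, a + h, k1, k2, by rw [zero_add]⟩

theorem WG.exists_neg (a : WG R ε) : ∃ b : WG R ε, b + a = 0 := by
  classical
  obtain ⟨a, rfl⟩ := WG.mk_surj a
  induction a using ICls.ind with
  | h x =>
    refine ⟨WG.mk (ICls.mk ⟨x.ι, x.fin, x.q.neg⟩), ?_⟩
    rw [add_comm, ← map_add, WG.mk_zero_iff]
    refine ⟨0, ICls.hyp_zero, ?_⟩
    rw [add_zero]
    exact ⟨_, rfl, isHyp_sum_neg x.q⟩

noncomputable instance : Neg (WG R ε) := ⟨fun a => (WG.exists_neg a).choose⟩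

noncomputable instance : AddCommGroup (WG R ε) where
  neg_add_cancel a := (WG.exists_neg a).choose_spec
  zsmul := zsmulRec
  add_comm := add_comm

/-- The class of a form. -/
def WG.cls {ι : Type} [Fintype ι] (x : QForm R ε ι) : WG R ε := WG.mk (ICls.mk ⟨ι, inferInstance, x⟩)

theorem WG.cls_surj (a : WG R ε) : ∃ x : BForm R ε, WG.cls x.q = a := by
  obtain ⟨a, rfl⟩ := WG.mk_surj a
  induction a using ICls.ind with
  | h x => exact ⟨x, rfl⟩

variable {ι κ : Type} [Fintype ι] [Fintype κ]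

theorem WG.cls_isometric {x : QForm R ε ι} {y : QForm R ε κ} (h : Isometric x y) :
    WG.cls x = WG.cls y := congrArg WG.mk (ICls.sound h)

theorem WG.cls_sum (x : QForm R ε ι) (y : QForm R ε κ) :
    WG.cls (x.sum y) = WG.cls x + WG.cls y :=
  map_add WG.mk (ICls.mk ⟨ι, inferInstance, x⟩) (ICls.mk ⟨κ, inferInstance, y⟩)

theorem WG.cls_eq_zero_iff {x : QForm R ε ι} : WG.cls x = 0 ↔
    ∃ η : BForm R ε, IsHyp η.q ∧ IsHyp (x.sum η.q) := by
  rw [WG.cls, WG.mk_zero_iff]
  constructor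
  · rintro ⟨h, ⟨η, rfl, h1⟩, h2⟩
    exact ⟨η, h1, ICls.hyp_mk.mp h2⟩
  · rintro ⟨η, h1, h2⟩
    exact ⟨ICls.mk η, ⟨η, rfl, h1⟩, ⟨_, rfl, h2⟩⟩

theorem WG.cls_hyp {x : QForm R ε ι} (h : IsHyp x) : WG.cls x = 0 := by
  rw [WG.cls_eq_zero_iff]
  exact ⟨⟨Empty, inferInstance, QForm.zero R ε Empty⟩, isHyp_zero, h.sum isHyp_zero⟩

theorem WG.cls_internal {x y z : QForm R ε ι} (hθ : z.θ = x.θ + y.θ) (hψ : z.ψ = x.ψ + y.ψ)
    (h1 : x.φ * y.ψ = 0) (h2 : y.φ * x.ψ = 0) : WG.cls z = WG.cls x + WG.cls y := by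
  rw [← WG.cls_sum]
  exact (WG.cls_isometric ⟨_, isIsom_internal hθ hψ h1 h2⟩).symm

end Defs

section Lift

variable {R : Type} [Ring R] [StarRing R] {ε : ℤˣ}

/-- Additive maps out of the group of stable isometry classes. -/
def WG.lift {V : Type*} [AddCommGroup V] (f : BForm R ε → V)
    (h1 : ∀ x y : BForm R ε, Isometric x.q y.q → f x = f y)
    (h2 : ∀ x y : BForm R ε, f (x.add y) = f x + f y)
    (h3 : ∀ x : BForm R ε, IsHyp x.q → f x = 0) : WG R ε →+ V :=
  AddCon.lift (wCon R ε)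
    { toFun := fun a => Quotient.liftOn (s := bSetoid R ε) a f (fun _ _ h => h1 _ _ h)
      map_zero' := h3 _ isHyp_zero
      map_add' := by
        intro a b
        induction a using ICls.ind with
        | h x =>
          induction b using ICls.ind with
          | h y => exact h2 x y }
    (by
      rintro a b ⟨h, h', ⟨η, rfl, k1⟩, ⟨η', rfl, k2⟩, e⟩
      induction a using ICls.ind with
      | h x =>
        induction b using ICls.ind with
        | h y =>
          have e1 : f (x.add η) = f (y.add η') := h1 _ _ (ICls.exact e)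
          rw [h2, h2, h3 η k1, h3 η' k2, add_zero, add_zero] at e1
          exact e1)

theorem WG.lift_cls {V : Type*} [AddCommGroup V] (f : BForm R ε → V)
    (h1 : ∀ x y : BForm R ε, Isometric x.q y.q → f x = f y)
    (h2 : ∀ x y : BForm R ε, f (x.add y) = f x + f y)
    (h3 : ∀ x : BForm R ε, IsHyp x.q → f x = 0) {ι : Type} [Fintype ι] (x : QForm R ε ι) :
    WG.lift f h1 h2 h3 (WG.cls x) = f ⟨ι, inferInstance, x⟩ := rfl

end Lift

section Functor

variable {R S : Type} [Ring R] [StarRing R] [Ring S] [StarRing S] {ε : ℤˣ}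

/-- Functoriality. -/
noncomputable def WG.map (f : R →⋆ₙ+* S) : WG R ε →+ WG S ε :=
  WG.lift (fun x => WG.cls (x.q.map f)) (fun _ _ h => WG.cls_isometric (h.map f))
    (fun x y => by
      change WG.cls ((x.q.sum y.q).map f) = _
      rw [QForm.map_sum, WG.cls_sum])
    (fun _ h => WG.cls_hyp (h.map f))

theorem WG.map_cls (f : R →⋆ₙ+* S) {ι : Type} [Fintype ι] (x : QForm R ε ι) :
    WG.map f (WG.cls x) = WG.cls (x.map f) := rfl

/-- Corner embeddings induce injections. -/
theorem WG.corner_inj (S : Type) [Ring S] [StarRing S] (ε : ℤˣ) (A : Type) (a : A) :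
    Function.Injective (WG.map (ε := ε) (corner S A a)) := by
  classical
  rw [injective_iff_map_eq_zero]
  intro w hw
  obtain ⟨x, rfl⟩ := WG.cls_surj w
  rw [WG.map_cls, WG.cls_eq_zero_iff] at hw
  obtain ⟨η, h1, h2⟩ := hw
  obtain ⟨F, η', h3, h4⟩ := corner_reflect x.q a η.q h1 h2
  rw [WG.cls_eq_zero_iff]
  exact ⟨⟨_, inferInstance, η'⟩, h3, h4⟩

end Functor

end Pool.Agent.Y483
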