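import Pool.Agent.Y483.Detect

/-!
Products of vertices and edges of a graph: chain maps from the chains of the free abelian group on
the edges to the chains of this group with coefficients in the permutation module on the
`0`-chains of degree `k`.
-/

namespace Pool.Agent.Y483

open Finsupp

/-- Two additive functions on a free abelian group which agree on the basis are equal. -/
theorem int_ind {E W : Type*} [AddCommGroup W] (f g : (E →₀ ℤ) → W)
    (hf : ∀ a b, f (a + b) = f a + f b) (hg : ∀ a b, g (a + b) = g a + g b)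
    (h : ∀ e, f (single e 1) = g (single e 1)) (p : E →₀ ℤ) : f p = g p := by
  let F : (E →₀ ℤ) →+ W := AddMonoidHom.mk' f hf
  let G : (E →₀ ℤ) →+ W := AddMonoidHom.mk' g hg
  have hFG : F = G := by
    apply Finsupp.addHom_ext
    intro e n
    have e1 : (single e n : E →₀ ℤ) = n • single e 1 := by simp
    rw [e1, map_zsmul, map_zsmul]
    congr 1
    exact h e
  exact DFunLike.congr_fun hFG p

theorem mp_add_coef {G : Type*} {M N : Type*} [AddCommGroup M] [Module ℚ M] [AddCommGroup N]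
    [Module ℚ N] (q : ℕ) (φ ψ : M →ₗ[ℚ] N) (z : T q G M) :
    mp q id (φ + ψ) z = mp q id φ z + mp q id ψ z := by
  have h : mp (X := G) q id (φ + ψ) = mp q id φ + mp q id ψ := by
    apply T_ext
    intro x m
    rw [LinearMap.add_apply, mp_single, mp_single, mp_single, LinearMap.add_apply, single_add]
  exact DFunLike.congr_fun h z

/-- The source and the target of the edges of a graph with vertex set `Γ`. -/
structure Edges (Γ E : Type) where
  /-- The source of an edge. -/
  s : E → Γ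
  /-- The target of an edge. -/
  t : E → Γ

section Basic

variable {Γ E : Type}

/-- The boundary of `1`-chains. -/
noncomputable def Edges.del (Q : Edges Γ E) : (E →₀ ℤ) →ₗ[ℤ] (Γ →₀ ℤ) :=
  Finsupp.linearCombination ℤ (fun e => single (Q.t e) 1 - single (Q.s e) 1)

theorem Edges.del_single (Q : Edges Γ E) (e : E) :
    Q.del (single e 1) = single (Q.t e) 1 - single (Q.s e) 1 := by
  simp [Edges.del]

/-- The degree of a `0`-chain. -/
noncomputable def degZ (Γ : Type) : (Γ →₀ ℤ) →ₗ[ℤ] ℤ := Finsupp.linearCombination ℤ (fun _ => 1)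

theorem degZ_single (v : Γ) (n : ℤ) : degZ Γ (single v n) = n := by
  simp [degZ]

theorem degZ_del (Q : Edges Γ E) (p : E →₀ ℤ) : degZ Γ (Q.del p) = 0 := by
  apply int_ind (fun p => degZ Γ (Q.del p)) (fun _ => 0) (fun a b => by simp only [map_add])
    (fun a b => by simp)
  intro e
  simp only [Q.del_single, map_sub, degZ_single, sub_self]

/-- The set of `0`-chains of degree `k`. -/
def Aug (Γ : Type) (k : ℕ) : Type := {a : Γ →₀ ℤ // degZ Γ a = k}

/-- The zero chain. -/
noncomputable def aug0 (Γ : Type) : Aug Γ 0 := ⟨0, by rw [map_zero]; rfl⟩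

/-- The permutation module on the `0`-chains of degree `k`. -/
abbrev MM (Γ : Type) (k : ℕ) : Type := Aug Γ k →₀ ℚ

/-- The free abelian group on the edges, written multiplicatively. -/
abbrev HH (E : Type) : Type := Multiplicative (E →₀ ℤ)

/-- The action of `1`-chains on the `0`-chains of degree `k`. -/
noncomputable def actAug (Q : Edges Γ E) (k : ℕ) : HH E →* Equiv.Perm (Aug Γ k) where
  toFun p :=
    { toFun := fun a => ⟨a.1 - Q.del p.toAdd, by rw [map_sub, degZ_del, sub_zero, a.2]⟩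
      invFun := fun a => ⟨a.1 + Q.del p.toAdd, by rw [map_add, degZ_del, add_zero, a.2]⟩
      left_inv := fun a => Subtype.ext (by simp)
      right_inv := fun a => Subtype.ext (by simp) }
  map_one' := by
    apply Equiv.ext
    intro a
    apply Subtype.ext
    change a.1 - Q.del 0 = a.1
    rw [map_zero, sub_zero]
  map_mul' p p' := by
    apply Equiv.ext
    intro a
    apply Subtype.ext
    change a.1 - Q.del (p.toAdd + p'.toAdd) = a.1 - Q.del p'.toAdd - Q.del p.toAdd
    rw [map_add]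
    abel

theorem actAug_val (Q : Edges Γ E) (k : ℕ) (p : HH E) (a : Aug Γ k) :
    (actAug Q k p a).1 = a.1 - Q.del p.toAdd := rfl

/-- The representation on `MM Γ k`. -/
noncomputable abbrev repM (Q : Edges Γ E) (k : ℕ) : Representation ℚ (HH E) (MM Γ k) :=
  permRep (actAug Q k)

/-- Adding a vertex. -/
noncomputable def addV (k : ℕ) (v : Γ) (a : Aug Γ k) : Aug Γ (k + 1) :=
  ⟨a.1 + single v 1, by rw [map_add, a.2, degZ_single]; push_cast; rfl⟩

/-- Adding a vertex, on coefficients. -/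
noncomputable def Vv (k : ℕ) (v : Γ) : MM Γ k →ₗ[ℚ] MM Γ (k + 1) :=
  lsum ℚ fun a => lsingle (addV k v a)

theorem Vv_single (k : ℕ) (v : Γ) (a : Aug Γ k) (r : ℚ) :
    Vv k v (single a r) = single (addV k v a) r := by
  simp [Vv]

/-- Adding a `0`-chain, by linearity. -/
noncomputable def VV (k : ℕ) : (Γ →₀ ℤ) →ₗ[ℤ] (MM Γ k →ₗ[ℚ] MM Γ (k + 1)) :=
  Finsupp.linearCombination ℤ (Vv k)

theorem VV_single (k : ℕ) (v : Γ) : VV k (single v 1) = Vv (Γ := Γ) k v := by
  simp [VV]

variable (Q : Edges Γ E)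

theorem Vv_rep (k : ℕ) (v : Γ) (p : HH E) (m : MM Γ k) :
    Vv k v (repM Q k p m) = repM Q (k + 1) p (Vv k v m) := by
  have h : (Vv k v) ∘ₗ (repM Q k p) = (repM Q (k + 1) p) ∘ₗ (Vv k v) := by
    apply lhom_ext
    intro a r
    rw [LinearMap.comp_apply, LinearMap.comp_apply, permRep_single, Vv_single, Vv_single,
      permRep_single]
    congr 1
    apply Subtype.ext
    change a.1 - Q.del p.toAdd + single v 1 = a.1 + single v 1 - Q.del p.toAdd
    abel
  exact DFunLike.congr_fun h m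

theorem VV_rep (k : ℕ) (b : Γ →₀ ℤ) (p : HH E) (m : MM Γ k) :
    VV k b (repM Q k p m) = repM Q (k + 1) p (VV k b m) := by
  apply int_ind (fun b => VV k b (repM Q k p m)) (fun b => repM Q (k + 1) p (VV k b m))
  · intro a b; simp only [map_add, LinearMap.add_apply]
  · intro a b; simp only [map_add, LinearMap.add_apply]
  · intro v
    simp only [VV_single, Vv_rep]

theorem sumC_VV (k : ℕ) (b : Γ →₀ ℤ) (m : MM Γ k) :
    sumC (Aug Γ (k + 1)) (VV k b m) = (degZ Γ b : ℚ) * sumC (Aug Γ k) m := by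
  apply int_ind (fun b => sumC (Aug Γ (k + 1)) (VV k b m))
    (fun b => (degZ Γ b : ℚ) * sumC (Aug Γ k) m)
  · intro a b; simp only [map_add, LinearMap.add_apply]
  · intro a b; simp only [map_add]; push_cast; ring
  · intro v
    simp only [VV_single, degZ_single, Int.cast_one, one_mul]
    have h : (sumC (Aug Γ (k + 1))) ∘ₗ (Vv k v) = sumC (Aug Γ k) := by
      apply lhom_ext
      intro a r
      rw [LinearMap.comp_apply, Vv_single, sumC_single, sumC_single]
    exact DFunLike.congr_fun h m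

/-- Adding a `0`-chain, on chains. -/
noncomputable def mpV (k q : ℕ) (b : Γ →₀ ℤ) : T q (HH E) (MM Γ k) →ₗ[ℚ] T q (HH E) (MM Γ (k + 1)) :=
  mp q id (VV k b)

theorem mpV_add (k q : ℕ) (b b' : Γ →₀ ℤ) (z : T q (HH E) (MM Γ k)) :
    mpV k q (b + b') z = mpV k q b z + mpV k q b' z := by
  unfold mpV
  rw [map_add, mp_add_coef]

theorem mpV_sub (k q : ℕ) (b b' : Γ →₀ ℤ) (z : T q (HH E) (MM Γ k)) :
    mpV k q (b - b') z = mpV k q b z - mpV k q b' z := by
  have h := mpV_add k q (b - b') b' z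
  rw [sub_add_cancel] at h
  rw [h]; abel

theorem dd_mpV (k q : ℕ) (b : Γ →₀ ℤ) (z : T (q + 1) (HH E) (MM Γ k)) :
    dd (repM Q (k + 1)) q (mpV k (q + 1) b z) = mpV k q b (dd (repM Q k) q z) :=
  dd_mp (ρ := repM Q k) (τ := repM Q (k + 1)) (MonoidHom.id (HH E)) (VV k b)
    (VV_rep Q k b) q z

/-- The product with an edge. -/
noncomputable def Se (k q : ℕ) (e : E) : T q (HH E) (MM Γ k) →ₗ[ℚ] T (q + 1) (HH E) (MM Γ (k + 1)) :=
  Sop (repM Q (k + 1)) (Multiplicative.ofAdd (single e 1)) (Vv k (Q.s e)) q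

/-- The product with a `1`-chain. -/
noncomputable def SS (k q : ℕ) :
    (E →₀ ℤ) →ₗ[ℤ] (T q (HH E) (MM Γ k) →ₗ[ℚ] T (q + 1) (HH E) (MM Γ (k + 1))) :=
  Finsupp.linearCombination ℤ (Se Q k q)

theorem SS_single (k q : ℕ) (e : E) : SS Q k q (single e 1) = Se Q k q e := by
  simp [SS]

theorem rep_Vv (k : ℕ) (e : E) :
    (repM Q (k + 1) (Multiplicative.ofAdd (single e 1))⁻¹) ∘ₗ (Vv k (Q.s e)) = Vv k (Q.t e) := by
  apply lhom_ext
  intro a r
  rw [LinearMap.comp_apply, Vv_single, Vv_single, permRep_single]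
  congr 1
  apply Subtype.ext
  rw [actAug_val]
  change a.1 + single (Q.s e) 1 - Q.del (-(single e 1)) = a.1 + single (Q.t e) 1
  rw [map_neg, Q.del_single]
  abel

theorem dd_SS_zero (k : ℕ) (p : E →₀ ℤ) (z : T 0 (HH E) (MM Γ k)) :
    dd (repM Q (k + 1)) 0 (SS Q k 0 p z) = mpV k 0 (Q.del p) z := by
  apply int_ind (fun p => dd (repM Q (k + 1)) 0 (SS Q k 0 p z)) (fun p => mpV k 0 (Q.del p) z)
  · intro a b; simp only [map_add, LinearMap.add_apply]
  · intro a b; simp only [map_add, mpV_add]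
  · intro e
    simp only [SS_single, Q.del_single, mpV_sub]
    unfold Se
    rw [dd_Sop_zero (ρ := repM Q k) _ _ (Vv_rep Q k (Q.s e)), rep_Vv, mpV, mpV, VV_single,
      VV_single]

theorem dd_SS_succ (k q : ℕ) (p : E →₀ ℤ) (z : T (q + 1) (HH E) (MM Γ k)) :
    dd (repM Q (k + 1)) (q + 1) (SS Q k (q + 1) p z) + SS Q k q p (dd (repM Q k) q z) =
      mpV k (q + 1) (Q.del p) z := by
  apply int_ind (fun p => dd (repM Q (k + 1)) (q + 1) (SS Q k (q + 1) p z) +
    SS Q k q p (dd (repM Q k) q z)) (fun p => mpV k (q + 1) (Q.del p) z)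
  · intro a b; simp only [map_add, LinearMap.add_apply]; abel
  · intro a b; simp only [map_add, mpV_add]
  · intro e
    simp only [SS_single, Q.del_single, mpV_sub]
    unfold Se
    rw [dd_Sop_succ (ρ := repM Q k) _ _ (Vv_rep Q k (Q.s e)), rep_Vv, mpV, mpV, VV_single,
      VV_single]

end Basic

section Theta

variable {Γ E : Type} (Q : Edges Γ E)

/-- The chain maps. -/
noncomputable def Th (a : Γ →₀ ℤ) : (k q : ℕ) →
    (T (q + 1) (E →₀ ℤ) ℚ →ₗ[ℚ] T q (HH E) (MM Γ k))
  | 0, 0 => lsum ℚ fun _ => lsingle (fun i : Fin 0 => i.elim0) ∘ₗ lsingle (aug0 Γ)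
  | 0, _ + 1 => 0
  | k + 1, 0 => lsum ℚ fun x => mpV k 0 (a + Q.del (x 0)) ∘ₗ Th a k 0 ∘ₗ lsingle x
  | k + 1, q + 1 => lsum ℚ fun x => mpV k (q + 1) (a + Q.del (x 0)) ∘ₗ Th a k (q + 1) ∘ₗ lsingle x +
      SS Q k q (Fin.tail x 0 - x 0) ∘ₗ Th a k q ∘ₗ lsingle (Fin.tail x)

/-- The second summand in the recursion. -/
noncomputable def Lam (a : Γ →₀ ℤ) (k q : ℕ) (x₀ : E →₀ ℤ) :
    T (q + 1) (E →₀ ℤ) ℚ →ₗ[ℚ] T (q + 1) (HH E) (MM Γ (k + 1)) :=
  lsum ℚ fun x => SS Q k q (x 0 - x₀) ∘ₗ Th Q a k q ∘ₗ lsingle x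

theorem Lam_cone (a : Γ →₀ ℤ) (k q : ℕ) (x₀ x₁ : E →₀ ℤ) (y : T q (E →₀ ℤ) ℚ) :
    Lam Q a k q x₀ (cone q x₁ y) = SS Q k q (x₁ - x₀) (Th Q a k q (cone q x₁ y)) := by
  have h : (Lam Q a k q x₀) ∘ₗ (cone q x₁) =
      (SS Q k q (x₁ - x₀)) ∘ₗ (Th Q a k q) ∘ₗ (cone q x₁) := by
    apply T_ext
    intro x r
    rw [LinearMap.comp_apply, LinearMap.comp_apply, LinearMap.comp_apply, cone_single, Lam,
      Finsupp.lsum_single, LinearMap.comp_apply, LinearMap.comp_apply, Fin.cons_zero]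
    rfl
  exact DFunLike.congr_fun h y

theorem Th_zero_single (a : Γ →₀ ℤ) (x : Fin 1 → (E →₀ ℤ)) (r : ℚ) :
    Th Q a 0 0 (single x r) =
      single (fun i : Fin 0 => i.elim0) (single (aug0 Γ) r) := by
  rw [Th]
  rw [Finsupp.lsum_single]
  rfl

theorem Th_succ_zero (a : Γ →₀ ℤ) (k : ℕ) (x₀ : E →₀ ℤ) (y : T 0 (E →₀ ℤ) ℚ) :
    Th Q a (k + 1) 0 (cone 0 x₀ y) = mpV k 0 (a + Q.del x₀) (Th Q a k 0 (cone 0 x₀ y)) := by
  have h : (Th Q a (k + 1) 0) ∘ₗ (cone 0 x₀) =
      (mpV k 0 (a + Q.del x₀)) ∘ₗ (Th Q a k 0) ∘ₗ (cone 0 x₀) := by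
    apply T_ext
    intro x r
    rw [LinearMap.comp_apply, LinearMap.comp_apply, LinearMap.comp_apply, cone_single, Th,
      Finsupp.lsum_single, LinearMap.comp_apply, LinearMap.comp_apply, Fin.cons_zero]
    rfl
  exact DFunLike.congr_fun h y

theorem Th_succ_succ (a : Γ →₀ ℤ) (k q : ℕ) (x₀ : E →₀ ℤ) (y : T (q + 1) (E →₀ ℤ) ℚ) :
    Th Q a (k + 1) (q + 1) (cone (q + 1) x₀ y) =
      mpV k (q + 1) (a + Q.del x₀) (Th Q a k (q + 1) (cone (q + 1) x₀ y)) + Lam Q a k q x₀ y := by
  have h : (Th Q a (k + 1) (q + 1)) ∘ₗ (cone (q + 1) x₀) =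
      (mpV k (q + 1) (a + Q.del x₀)) ∘ₗ (Th Q a k (q + 1)) ∘ₗ (cone (q + 1) x₀) +
        Lam Q a k q x₀ := by
    apply T_ext
    intro x r
    rw [LinearMap.comp_apply, LinearMap.add_apply, LinearMap.comp_apply, LinearMap.comp_apply,
      cone_single, Th, Lam, Finsupp.lsum_single, Finsupp.lsum_single, LinearMap.add_apply,
      LinearMap.comp_apply, LinearMap.comp_apply, LinearMap.comp_apply, LinearMap.comp_apply,
      Fin.cons_zero, Fin.tail_cons]
    rfl
  exact DFunLike.congr_fun h y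

/-- The maps `Th` are chain maps. -/
theorem dd_Th (a : Γ →₀ ℤ) (k : ℕ) : ∀ (q : ℕ) (z : T (q + 2) (E →₀ ℤ) ℚ),
    dd (repM Q k) q (Th Q a k (q + 1) z) = Th Q a k q (bd (q + 1) z) := by
  induction k with
  | zero =>
    intro q z
    have h0 : Th Q a 0 (q + 1) z = 0 := by rw [Th]; rfl
    rw [h0, map_zero]
    cases q with
    | zero =>
      have h : (Th Q a 0 0) ∘ₗ (bd 1) = 0 := by
        apply T_ext
        intro x r
        rw [LinearMap.comp_apply, single_eq_cone, single_eq_cone, bd_cone_succ, bd_cone_zero,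
          map_sub, cone_single, cone_single, Th_zero_single, Th_zero_single, sub_self]
        rfl
      exact (DFunLike.congr_fun h z).symm
    | succ q =>
      rw [Th]; rfl
  | succ k ih =>
    intro q z
    cases q with
    | zero =>
      have h : (dd (repM Q (k + 1)) 0) ∘ₗ (Th Q a (k + 1) 1) =
          (Th Q a (k + 1) 0) ∘ₗ (bd 1) := by
        apply T_ext
        intro x r
        rw [LinearMap.comp_apply, LinearMap.comp_apply, single_eq_cone, single_eq_cone]
        generalize (x 0) = x₀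
        generalize (Fin.tail x 0) = x₁
        set y : T 0 (E →₀ ℤ) ℚ := single _ r
        rw [Th_succ_succ, map_add, dd_mpV, ih, bd_cone_succ, bd_cone_zero, map_sub, map_sub,
          map_sub, Th_succ_zero, Th_succ_zero, Lam_cone, dd_SS_zero]
        have e : Q.del (x₁ - x₀) = (a + Q.del x₁) - (a + Q.del x₀) := by
          rw [map_sub]; abel
        rw [e, mpV_sub]
        abel
      exact DFunLike.congr_fun h z
    | succ q =>
      have h : (dd (repM Q (k + 1)) (q + 1)) ∘ₗ (Th Q a (k + 1) (q + 2)) =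
          (Th Q a (k + 1) (q + 1)) ∘ₗ (bd (q + 2)) := by
        apply T_ext
        intro x r
        rw [LinearMap.comp_apply, LinearMap.comp_apply, single_eq_cone, single_eq_cone,
          single_eq_cone]
        generalize (x 0) = x₀
        generalize (Fin.tail x 0) = x₁
        generalize (Fin.tail (Fin.tail x) 0) = x₂
        set y : T q (E →₀ ℤ) ℚ := single _ r
        set w := cone q x₂ y with hw
        have h1 := dd_SS_succ Q k q (x₁ - x₀) (Th Q a k (q + 1) (cone (q + 1) x₁ w))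
        rw [ih] at h1
        have h2 : dd (repM Q (k + 1)) (q + 1) (SS Q k (q + 1) (x₁ - x₀)
            (Th Q a k (q + 1) (cone (q + 1) x₁ w))) =
            mpV k (q + 1) (Q.del (x₁ - x₀)) (Th Q a k (q + 1) (cone (q + 1) x₁ w)) -
              SS Q k q (x₁ - x₀) (Th Q a k q (bd (q + 1) (cone (q + 1) x₁ w))) := by
          rw [← h1]; abel
        rw [Th_succ_succ, map_add, dd_mpV, ih, Lam_cone, h2, bd_cone_succ (q + 1) x₀,
          map_sub (Th Q a (k + 1) (q + 1)), Th_succ_succ, Th_succ_succ, bd_cone_succ q x₁, hw,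
          Lam_cone, ← hw, map_sub (Lam Q a k q x₀), Lam_cone, hw, Lam_cone, ← hw]
        have e : Q.del (x₁ - x₀) = (a + Q.del x₁) - (a + Q.del x₀) := by
          rw [map_sub]; abel
        have e2 : x₂ - x₀ = (x₂ - x₁) + (x₁ - x₀) := by abel
        rw [e, mpV_sub, e2, map_add (SS Q k q), LinearMap.add_apply]
        simp only [map_sub]
        abel
      exact DFunLike.congr_fun h z

end Theta

end Pool.Agent.Y483
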