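import Pool.Agent.Y483.AJ

/-!
Properties of the chain maps: effect on the pairing with forms, translation, equivariance,
vanishing above the degree.
-/

namespace Pool.Agent.Y483

open Finsupp

section Pairing

variable {Γ E : Type} (Q : Edges Γ E)

theorem ipair_add_form {A G N : Type*} [AddCommGroup A] [AddCommGroup N] [Module ℚ N] (c : G → A)
    (q : ℕ) (η : N →ₗ[ℚ] ℚ) (ω ω' : Frm A q) (z : T q G N) :
    ipair c q η (ω + ω') z = ipair c q η ω z + ipair c q η ω' z := by
  have h : ipair c q η (ω + ω') = ipair c q η ω + ipair c q η ω' := by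
    apply T_ext
    intro x m
    rw [LinearMap.add_apply, ipair_single, ipair_single, ipair_single, AlternatingMap.add_apply,
      add_mul]
  exact DFunLike.congr_fun h z

/-- The pairing with chains of `HH E`. -/
noncomputable def pairM (k q : ℕ) (ω : Frm (E →₀ ℤ) q) : T q (HH E) (MM Γ k) →ₗ[ℚ] ℚ :=
  ipair (fun p : HH E => p.toAdd) q (sumC (Aug Γ k)) ω

theorem pairM_single (k q : ℕ) (ω : Frm (E →₀ ℤ) q) (x : Fin q → HH E) (m : MM Γ k) :
    pairM k q ω (single x m) = ω (fun i => (x i).toAdd) * sumC (Aug Γ k) m :=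
  ipair_single _ _ _ _ _ _

theorem pairM_mpV (k q : ℕ) (ω : Frm (E →₀ ℤ) q) (b : Γ →₀ ℤ) (z : T q (HH E) (MM Γ k)) :
    pairM (k + 1) q ω (mpV k q b z) = (degZ Γ b : ℚ) * pairM k q ω z := by
  have h : (pairM (k + 1) q ω) ∘ₗ (mpV (E := E) k q b) = (degZ Γ b : ℚ) • pairM k q ω := by
    apply T_ext
    intro x m
    rw [LinearMap.comp_apply, mpV, mp_single, pairM_single, LinearMap.smul_apply, pairM_single,
      sumC_VV, smul_eq_mul]
    simp only [Function.comp_apply, id]
    ring
  exact DFunLike.congr_fun h z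

theorem pairM_SS (k q : ℕ) (ω : Frm (E →₀ ℤ) (q + 1)) (p : E →₀ ℤ) (z : T q (HH E) (MM Γ k)) :
    pairM (k + 1) (q + 1) ω (SS Q k q p z) = ((q : ℚ) + 1) * pairM k q (ω.curryLeft p) z := by
  apply int_ind (fun p => pairM (k + 1) (q + 1) ω (SS Q k q p z))
    (fun p => ((q : ℚ) + 1) * pairM k q (ω.curryLeft p) z)
  · intro a b; simp only [map_add, LinearMap.add_apply]
  · intro a b
    simp only [pairM]
    rw [map_add ω.curryLeft, ipair_add_form]
    ring
  · intro e
    simp only [SS_single]
    exact ipair_Sop (ρ' := repM Q (k + 1)) (fun p : HH E => p.toAdd) (fun _ _ => rfl)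
      (sumC (Aug Γ k)) (sumC (Aug Γ (k + 1))) (sumC_permRep _) _ _ (fun m => by
        have h := sumC_VV k (single (Q.s e) 1) m
        rw [VV_single, degZ_single, Int.cast_one, one_mul] at h
        exact h) q ω z

theorem pairM_dd (k q : ℕ) (ω : Frm (E →₀ ℤ) q) (z : T (q + 1) (HH E) (MM Γ k)) :
    pairM k q ω (dd (repM Q k) q z) = 0 :=
  ipair_dd (ρ := repM Q k) (fun p : HH E => p.toAdd) (fun _ _ => rfl) (sumC (Aug Γ k))
    (sumC_permRep _) q ω z

theorem mpV_zero_apply (k q : ℕ) (b : Γ →₀ ℤ) : mpV (E := E) k q b 0 = 0 := map_zero _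

/-- The effect of the chain maps on the pairing with forms. -/
theorem pairM_Th (a : Γ →₀ ℤ) (ha : degZ Γ a = 1) (k : ℕ) : ∀ (q : ℕ) (ω : Frm (E →₀ ℤ) q)
    (z : T (q + 1) (E →₀ ℤ) ℚ),
    pairM k q ω (Th Q a k q z) = (k.descFactorial q : ℚ) * hpair id q ω z := by
  have hdeg : ∀ p : E →₀ ℤ, (degZ Γ (a + Q.del p) : ℚ) = 1 := by
    intro p
    rw [map_add, ha, degZ_del, add_zero, Int.cast_one]
  induction k with
  | zero =>
    intro q ω z
    cases q with
    | zero =>
      have h : (pairM 0 0 ω) ∘ₗ (Th Q a 0 0) = ((Nat.descFactorial 0 0 : ℕ) : ℚ) • hpair id 0 ω := by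
        apply T_ext
        intro x r
        rw [LinearMap.comp_apply, Th_zero_single, pairM_single, LinearMap.smul_apply,
          hpair_single, sumC_single, Nat.descFactorial_zero, Nat.cast_one, one_smul]
        congr 2
        funext i
        exact i.elim0
      exact DFunLike.congr_fun h z
    | succ q =>
      have h0 : Th Q a 0 (q + 1) z = 0 := by rw [Th]; rfl
      rw [h0, map_zero, Nat.descFactorial_of_lt (Nat.succ_pos q), Nat.cast_zero, zero_mul]
  | succ k ih =>
    intro q ω z
    cases q with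
    | zero =>
      have h : (pairM (k + 1) 0 ω) ∘ₗ (Th Q a (k + 1) 0) =
          ((Nat.descFactorial (k + 1) 0 : ℕ) : ℚ) • hpair id 0 ω := by
        apply T_ext
        intro x r
        rw [LinearMap.comp_apply, single_eq_cone, Th_succ_zero, pairM_mpV, hdeg, ih,
          LinearMap.smul_apply, Nat.descFactorial_zero, Nat.descFactorial_zero, one_mul,
          Nat.cast_one, one_smul, one_mul]
      exact DFunLike.congr_fun h z
    | succ q =>
      have h : (pairM (k + 1) (q + 1) ω) ∘ₗ (Th Q a (k + 1) (q + 1)) =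
          ((Nat.descFactorial (k + 1) (q + 1) : ℕ) : ℚ) • hpair id (q + 1) ω := by
        apply T_ext
        intro x r
        rw [LinearMap.comp_apply, single_eq_cone, single_eq_cone, Th_succ_succ, map_add,
          pairM_mpV, hdeg, ih, Lam_cone, pairM_SS, ih, LinearMap.smul_apply, hpair_cone_cone]
        simp only [id, smul_eq_mul]
        have e : ((Nat.descFactorial (k + 1) (q + 1) : ℕ) : ℚ) =
            (Nat.descFactorial k (q + 1) : ℚ) + ((q : ℚ) + 1) * (Nat.descFactorial k q : ℚ) := by
          rcases le_or_gt q k with hq | hq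
          · rw [Nat.succ_descFactorial_succ, Nat.descFactorial_succ]
            push_cast [Nat.cast_sub hq]
            ring
          · rw [Nat.descFactorial_of_lt (by omega : k + 1 < q + 1),
              Nat.descFactorial_of_lt (by omega : k < q + 1), Nat.descFactorial_of_lt hq]
            simp
        rw [e]
        ring
      exact DFunLike.congr_fun h z

/-- Vanishing above the degree. -/
theorem Th_vanish (a : Γ →₀ ℤ) (k : ℕ) : ∀ q, k < q → Th Q a k q = 0 := by
  induction k with
  | zero =>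
    intro q hq
    obtain ⟨q, rfl⟩ : ∃ q', q = q' + 1 := ⟨q - 1, by omega⟩
    rw [Th]
  | succ k ih =>
    intro q hq
    obtain ⟨q, rfl⟩ : ∃ q', q = q' + 1 := ⟨q - 1, by omega⟩
    apply T_ext
    intro x r
    rw [single_eq_cone, Th_succ_succ, ih (q + 1) (by omega), Lam, ih q (by omega)]
    rw [single_eq_cone q, cone_single, Finsupp.lsum_single]
    simp

/-- In the top degree the chain map does not depend on the base point. -/
theorem Th_top (a a' : Γ →₀ ℤ) (k : ℕ) : Th Q a k k = Th Q a' k k := by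
  induction k with
  | zero =>
    apply T_ext
    intro x r
    rw [Th_zero_single, Th_zero_single]
  | succ k ih =>
    apply T_ext
    intro x r
    rw [single_eq_cone, Th_succ_succ, Th_succ_succ, Th_vanish Q a k (k + 1) (by omega),
      Th_vanish Q a' k (k + 1) (by omega), LinearMap.zero_apply, map_zero, map_zero, zero_add,
      zero_add, single_eq_cone, Lam_cone, Lam_cone, ih]

/-- Translation of the vertices changes the base point. -/
theorem Th_translate (a : Γ →₀ ℤ) (p : E →₀ ℤ) (k : ℕ) : ∀ (q : ℕ) (z : T (q + 1) (E →₀ ℤ) ℚ),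
    Th Q a k q (mp (q + 1) (fun x => p + x) LinearMap.id z) = Th Q (a + Q.del p) k q z := by
  induction k with
  | zero =>
    intro q z
    cases q with
    | zero =>
      have h : (Th Q a 0 0) ∘ₗ (mp 1 (fun x => p + x) LinearMap.id) =
          Th Q (a + Q.del p) 0 0 := by
        apply T_ext
        intro x r
        rw [LinearMap.comp_apply, mp_single, Th_zero_single, Th_zero_single]
        rfl
      exact DFunLike.congr_fun h z
    | succ q => rw [Th, Th]; rfl
  | succ k ih =>
    intro q z
    have e : ∀ x, a + Q.del (p + x) = a + Q.del p + Q.del x := by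
      intro x
      rw [map_add, add_assoc]
    cases q with
    | zero =>
      have h : (Th Q a (k + 1) 0) ∘ₗ (mp 1 (fun x => p + x) LinearMap.id) =
          Th Q (a + Q.del p) (k + 1) 0 := by
        apply T_ext
        intro x r
        rw [LinearMap.comp_apply, single_eq_cone, mp_cone, Th_succ_zero, Th_succ_zero, ← mp_cone,
          ih, e]
      exact DFunLike.congr_fun h z
    | succ q =>
      have h : (Th Q a (k + 1) (q + 1)) ∘ₗ (mp (q + 2) (fun x => p + x) LinearMap.id) =
          Th Q (a + Q.del p) (k + 1) (q + 1) := by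
        apply T_ext
        intro x r
        rw [LinearMap.comp_apply, single_eq_cone, single_eq_cone, mp_cone, Th_succ_succ,
          Th_succ_succ, ← mp_cone, ih, e, mp_cone, Lam_cone, Lam_cone, ← mp_cone, ih,
          add_sub_add_left_eq_sub]
      exact DFunLike.congr_fun h z

end Pairing

section Equivariance

variable {Γ E : Type} [Group Γ] [MulAction Γ E] (Q : Edges Γ E)

/-- The source and target are equivariant. -/
structure Edges.Equiv' (Q : Edges Γ E) : Prop where
  s_smul : ∀ (g : Γ) (e : E), Q.s (g • e) = g * Q.s e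
  t_smul : ∀ (g : Γ) (e : E), Q.t (g • e) = g * Q.t e

/-- The action of `Γ` on `1`-chains. -/
noncomputable def gE (g : Γ) : (E →₀ ℤ) →ₗ[ℤ] (E →₀ ℤ) := Finsupp.lmapDomain ℤ ℤ (fun e => g • e)

/-- The action of `Γ` on `0`-chains. -/
noncomputable def gV (g : Γ) : (Γ →₀ ℤ) →ₗ[ℤ] (Γ →₀ ℤ) := Finsupp.lmapDomain ℤ ℤ (fun v => g * v)

theorem gE_single (g : Γ) (e : E) (n : ℤ) : gE g (single e n) = single (g • e) n := by
  simp [gE]

theorem gV_single (g : Γ) (v : Γ) (n : ℤ) : gV g (single v n) = single (g * v) n := by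
  simp [gV]

theorem degZ_gV (g : Γ) (a : Γ →₀ ℤ) : degZ Γ (gV g a) = degZ Γ a := by
  apply int_ind (fun a => degZ Γ (gV g a)) (fun a => degZ Γ a)
    (fun a b => by simp only [map_add]) (fun a b => by simp only [map_add])
  intro v
  simp only [gV_single, degZ_single]

theorem del_gE {Q : Edges Γ E} (hQ : Q.Equiv') (g : Γ) (p : E →₀ ℤ) :
    Q.del (gE g p) = gV g (Q.del p) := by
  apply int_ind (fun p => Q.del (gE g p)) (fun p => gV g (Q.del p))
    (fun a b => by simp only [map_add]) (fun a b => by simp only [map_add])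
  intro e
  simp only [gE_single, Q.del_single, map_sub, gV_single, hQ.s_smul, hQ.t_smul]

/-- The action on the `0`-chains of degree `k`. -/
noncomputable def gAug (k : ℕ) (g : Γ) (a : Aug Γ k) : Aug Γ k := ⟨gV g a.1, by rw [degZ_gV, a.2]⟩

/-- The action on `MM Γ k`. -/
noncomputable def gM (k : ℕ) (g : Γ) : MM Γ k →ₗ[ℚ] MM Γ k := lsum ℚ fun a => lsingle (gAug k g a)

theorem gM_single (k : ℕ) (g : Γ) (a : Aug Γ k) (r : ℚ) :
    gM k g (single a r) = single (gAug k g a) r := by
  simp [gM]

/-- The action on `HH E`. -/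
noncomputable def gH (g : Γ) : HH E →* HH E where
  toFun p := Multiplicative.ofAdd (gE g p.toAdd)
  map_one' := by
    change Multiplicative.ofAdd (gE g 0) = 1
    rw [map_zero]; rfl
  map_mul' a b := by
    change Multiplicative.ofAdd (gE g (a.toAdd + b.toAdd)) = _
    rw [map_add]; rfl

/-- The action on chains. -/
noncomputable def gC (k q : ℕ) (g : Γ) : T q (HH E) (MM Γ k) →ₗ[ℚ] T q (HH E) (MM Γ k) :=
  mp q (gH g) (gM k g)

theorem gM_Vv (k : ℕ) (g v : Γ) (m : MM Γ k) : gM (k + 1) g (Vv k v m) = Vv k (g * v) (gM k g m) := by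
  have h : (gM (k + 1) g) ∘ₗ (Vv k v) = (Vv k (g * v)) ∘ₗ (gM k g) := by
    apply lhom_ext
    intro a r
    rw [LinearMap.comp_apply, LinearMap.comp_apply, Vv_single, gM_single, gM_single, Vv_single]
    congr 1
    apply Subtype.ext
    change gV g (a.1 + single v 1) = gV g a.1 + single (g * v) 1
    rw [map_add, gV_single]
  exact DFunLike.congr_fun h m

theorem gM_VV (k : ℕ) (g : Γ) (b : Γ →₀ ℤ) (m : MM Γ k) :
    gM (k + 1) g (VV k b m) = VV k (gV g b) (gM k g m) := by
  apply int_ind (fun b => gM (k + 1) g (VV k b m)) (fun b => VV k (gV g b) (gM k g m))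
  · intro a b; simp only [map_add, LinearMap.add_apply]
  · intro a b; simp only [map_add, LinearMap.add_apply]
  · intro v
    simp only [gV_single, VV_single, gM_Vv]

theorem gC_mpV (k q : ℕ) (g : Γ) (b : Γ →₀ ℤ) (z : T q (HH E) (MM Γ k)) :
    gC (k + 1) q g (mpV k q b z) = mpV k q (gV g b) (gC k q g z) := by
  unfold gC mpV
  rw [mp_mp, mp_mp]
  congr 2
  apply LinearMap.ext
  intro m
  exact gM_VV k g b m

theorem gM_rep {Q : Edges Γ E} (hQ : Q.Equiv') (k : ℕ) (g : Γ) (p : HH E) (m : MM Γ k) :
    gM k g (repM Q k p m) = repM Q k (gH g p) (gM k g m) := by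
  have h : (gM k g) ∘ₗ (repM Q k p) = (repM Q k (gH g p)) ∘ₗ (gM k g) := by
    apply lhom_ext
    intro a r
    rw [LinearMap.comp_apply, LinearMap.comp_apply, permRep_single, gM_single, gM_single,
      permRep_single]
    congr 1
    apply Subtype.ext
    change gV g (a.1 - Q.del p.toAdd) = gV g a.1 - Q.del (gE g p.toAdd)
    rw [map_sub, del_gE hQ]
  exact DFunLike.congr_fun h m

theorem dd_gC {Q : Edges Γ E} (hQ : Q.Equiv') (k q : ℕ) (g : Γ) (z : T (q + 1) (HH E) (MM Γ k)) :
    dd (repM Q k) q (gC k (q + 1) g z) = gC k q g (dd (repM Q k) q z) :=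
  dd_mp (ρ := repM Q k) (τ := repM Q k) (gH g) (gM k g) (gM_rep hQ k g) q z

theorem gC_SS {Q : Edges Γ E} (hQ : Q.Equiv') (k q : ℕ) (g : Γ) (p : E →₀ ℤ)
    (z : T q (HH E) (MM Γ k)) :
    gC (k + 1) (q + 1) g (SS Q k q p z) = SS Q k q (gE g p) (gC k q g z) := by
  apply int_ind (fun p => gC (k + 1) (q + 1) g (SS Q k q p z))
    (fun p => SS Q k q (gE g p) (gC k q g z))
  · intro a b; simp only [map_add, LinearMap.add_apply]
  · intro a b; simp only [map_add, LinearMap.add_apply]
  · intro e
    simp only [gE_single, SS_single]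
    have h1 : gH g (Multiplicative.ofAdd (single e 1 : E →₀ ℤ)) =
        Multiplicative.ofAdd (single (g • e) 1) :=
      congrArg Multiplicative.ofAdd (gE_single g e 1)
    unfold Se gC
    rw [Sop_nat (repM Q (k + 1)) (repM Q (k + 1)) (gH g) (gM k g) (gM (k + 1) g)
      (gM_rep hQ (k + 1) g) _ (Vv k (Q.s e)) (Vv k (Q.s (g • e))) (fun m => by
        rw [hQ.s_smul]; exact gM_Vv k g (Q.s e) m), h1]

/-- Equivariance of the chain maps. -/
theorem Th_equiv {Q : Edges Γ E} (hQ : Q.Equiv') (a : Γ →₀ ℤ) (g : Γ) (k : ℕ) :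
    ∀ (q : ℕ) (z : T (q + 1) (E →₀ ℤ) ℚ),
    Th Q (gV g a) k q (mp (q + 1) (gE g) LinearMap.id z) = gC k q g (Th Q a k q z) := by
  have e : ∀ x, gV g a + Q.del (gE g x) = gV g (a + Q.del x) := by
    intro x
    rw [map_add, del_gE hQ]
  induction k with
  | zero =>
    intro q z
    cases q with
    | zero =>
      have h : (Th Q (gV g a) 0 0) ∘ₗ (mp 1 (gE g) LinearMap.id) =
          (gC 0 0 g) ∘ₗ (Th Q a 0 0) := by
        apply T_ext
        intro x r
        rw [LinearMap.comp_apply, LinearMap.comp_apply, mp_single, Th_zero_single, Th_zero_single,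
          gC, mp_single, gM_single]
        have e0 : gAug 0 g (aug0 Γ) = aug0 Γ := Subtype.ext (map_zero _)
        rw [e0]
        congr 1
        exact Subsingleton.elim _ _
      exact DFunLike.congr_fun h z
    | succ q => rw [Th, Th]; simp
  | succ k ih =>
    intro q z
    cases q with
    | zero =>
      have h : (Th Q (gV g a) (k + 1) 0) ∘ₗ (mp 1 (gE g) LinearMap.id) =
          (gC (k + 1) 0 g) ∘ₗ (Th Q a (k + 1) 0) := by
        apply T_ext
        intro x r
        rw [LinearMap.comp_apply, LinearMap.comp_apply, single_eq_cone, mp_cone, Th_succ_zero,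
          Th_succ_zero, ← mp_cone, ih, e, gC_mpV]
      exact DFunLike.congr_fun h z
    | succ q =>
      have h : (Th Q (gV g a) (k + 1) (q + 1)) ∘ₗ (mp (q + 2) (gE g) LinearMap.id) =
          (gC (k + 1) (q + 1) g) ∘ₗ (Th Q a (k + 1) (q + 1)) := by
        apply T_ext
        intro x r
        rw [LinearMap.comp_apply, LinearMap.comp_apply, single_eq_cone, single_eq_cone, mp_cone,
          Th_succ_succ, Th_succ_succ, ← mp_cone, ih, e, mp_cone, Lam_cone, Lam_cone, ← mp_cone, ih,
          map_add (gC (k + 1) (q + 1) g), gC_mpV, gC_SS hQ, map_sub (gE g)]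
      exact DFunLike.congr_fun h z

end Equivariance

end Pool.Agent.Y483
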