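import Pool.Agent.Y483.Homotopy

/-!
The comparison of the chain-level statements with the group homology of Mathlib.
-/

namespace Pool.Agent.Y483

open Finsupp CategoryTheory groupHomology

section Bridge

variable {G : Type} [Group G] (A : Rep ℚ G)

/-- The chain `z` is a cycle representing the homology class `x`. -/
def Rpr (n : ℕ) (z : T n G A) (x : groupHomology A n) : Prop :=
  ∃ y : cycles A n, iCycles A n y = z ∧ groupHomology.π A n y = x

theorem exists_rpr (n : ℕ) (x : groupHomology A n) : ∃ z : T n G A, Rpr A n z x := by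
  induction x using groupHomology_induction_on with
  | h y => exact ⟨iCycles A n y, y, rfl, rfl⟩

variable {A}

theorem Rpr.add {n : ℕ} {z z' : T n G A} {x x' : groupHomology A n} (h : Rpr A n z x)
    (h' : Rpr A n z' x') : Rpr A n (z + z') (x + x') := by
  obtain ⟨y, rfl, rfl⟩ := h
  obtain ⟨y', rfl, rfl⟩ := h'
  exact ⟨y + y', map_add _ _ _, map_add _ _ _⟩

theorem Rpr.sub {n : ℕ} {z z' : T n G A} {x x' : groupHomology A n} (h : Rpr A n z x)
    (h' : Rpr A n z' x') : Rpr A n (z - z') (x - x') := by
  obtain ⟨y, rfl, rfl⟩ := h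
  obtain ⟨y', rfl, rfl⟩ := h'
  exact ⟨y - y', map_sub _ _ _, map_sub _ _ _⟩

theorem Rpr.zero {n : ℕ} : Rpr A n (0 : T n G A) 0 := ⟨0, map_zero _, map_zero _⟩

theorem d_eq_dd (n : ℕ) (z : T (n + 1) G A) :
    (inhomogeneousChains A).d (n + 1) n z = dd A.ρ n z := by
  rw [inhomogeneousChains.d_def]
  rfl

theorem Rpr.cyc {n : ℕ} {z : T n G A} {x : groupHomology A n} (h : Rpr A n z x) :
    Cyc A.ρ n z := by
  obtain ⟨y, rfl, rfl⟩ := h
  cases n with
  | zero => exact Cyc.zero _ _
  | succ n =>
    rw [cyc_succ, ← d_eq_dd]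
    have h1 : iCycles A (n + 1) ≫ (inhomogeneousChains A).d (n + 1) n = 0 :=
      (inhomogeneousChains A).iCycles_d (n + 1) n
    have h2 := congrArg (fun f => f.hom y) h1
    exact h2

theorem exists_class (n : ℕ) (z : T n G A) (hz : Cyc A.ρ n z) :
    ∃ x : groupHomology A n, Rpr A n z x := by
  cases n with
  | zero =>
    have h0 : (inhomogeneousChains A).d 0 0 z = 0 := by
      rw [(inhomogeneousChains A).shape 0 0 (by simp)]
      rfl
    exact ⟨_, cyclesMk 0 0 (by simp) z h0, iCycles_mk _ z h0, rfl⟩
  | succ n =>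
    have h0 : (inhomogeneousChains A).d (n + 1) n z = 0 := by
      rw [d_eq_dd]
      rwa [cyc_succ] at hz
    exact ⟨_, cyclesMk (n + 1) n (by simp) z h0, iCycles_mk _ z h0, rfl⟩

theorem Rpr.eq_zero_iff {n : ℕ} {z : T n G A} {x : groupHomology A n} (h : Rpr A n z x) :
    x = 0 ↔ z ∈ LinearMap.range (dd A.ρ n) := by
  obtain ⟨y, rfl, rfl⟩ := h
  have hex : (ShortComplex.mk ((inhomogeneousChains A).toCycles (n + 1) n)
      ((inhomogeneousChains A).homologyπ n) (by simp)).Exact :=
    ShortComplex.exact_of_g_is_cokernel _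
      ((inhomogeneousChains A).homologyIsCokernel (n + 1) n (by simp))
  rw [ShortComplex.moduleCat_exact_iff] at hex
  have hti : ∀ w : T (n + 1) G A,
      iCycles A n ((inhomogeneousChains A).toCycles (n + 1) n w) = dd A.ρ n w := by
    intro w
    rw [← d_eq_dd]
    have h1 : (inhomogeneousChains A).toCycles (n + 1) n ≫ iCycles A n =
        (inhomogeneousChains A).d (n + 1) n := (inhomogeneousChains A).toCycles_i (n + 1) n
    exact congrArg (fun f => f.hom w) h1
  constructor
  · intro h0
    obtain ⟨w, hw⟩ := hex y h0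
    refine ⟨w, ?_⟩
    rw [← hti]
    exact congrArg (iCycles A n) hw
  · rintro ⟨w, hw⟩
    have hinj : Function.Injective (iCycles A n) :=
      (ModuleCat.mono_iff_injective (iCycles A n)).1 inferInstance
    have h1 : (inhomogeneousChains A).toCycles (n + 1) n w = y := by
      apply hinj
      rw [hti]
      exact hw
    have h2 : (inhomogeneousChains A).toCycles (n + 1) n ≫ (inhomogeneousChains A).homologyπ n
      = 0 := (inhomogeneousChains A).toCycles_comp_homologyπ (n + 1) n
    rw [← h1]
    exact congrArg (fun f => f.hom w) h2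

theorem Rpr.map {H : Type} [Group H] {B : Rep ℚ H} (f : G →* H) (φ : A ⟶ Rep.res f B) {n : ℕ}
    {z : T n G A} {x : groupHomology A n} (h : Rpr A n z x) :
    Rpr B n (mp n f φ.hom.toLinearMap z) (groupHomology.map f φ n x) := by
  obtain ⟨y, rfl, rfl⟩ := h
  refine ⟨cyclesMap f φ n y, ?_, ?_⟩
  · have h1 : cyclesMap f φ n ≫ iCycles B n = iCycles A n ≫ (chainsMap f φ).f n :=
      HomologicalComplex.cyclesMap_i _ _
    have h2 := congrArg (fun g => g.hom y) h1
    refine h2.trans ?_
    have h3 : ∀ w : T n G A, ((chainsMap f φ).f n).hom w = mp n f φ.hom.toLinearMap w := by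
      intro w
      have : ((chainsMap f φ).f n).hom = mp n f φ.hom.toLinearMap := by
        apply T_ext
        intro x m
        rw [mp_single]
        exact chainsMap_f_single f φ n x m
      rw [this]
    exact h3 _
  · have h1 := π_map f φ n
    exact (congrArg (fun g => g.hom y) h1).symm

end Bridge

end Pool.Agent.Y483
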