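import Pool.Agent.Y483.Ring

/-!
Monomial operators, cocycles of finite support and the comparison of assembly maps.
-/

namespace Pool.Agent.Y483

open MulOpposite

section Monomial

variable {S : Type*} [Ring S] {A : Type*}

/-- The operator `e_a s ↦ e_{f a} (d_a s)`. -/
noncomputable def monoEnd (f : A → A) (d : A → S) : EndA S A :=
  Finsupp.lsum ℕ (fun a => (Finsupp.lsingle (f a)).comp
    ({ toFun := fun s => d a * s
       map_add' := fun s t => mul_add _ _ _
       map_smul' := fun r s => by simp [mul_assoc] } : S →ₗ[Sᵐᵒᵖ] S))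

@[simp] theorem monoEnd_single (f : A → A) (d : A → S) (a : A) (s : S) :
    monoEnd f d (Finsupp.single a s) = Finsupp.single (f a) (d a * s) := by
  simp [monoEnd]

variable [StarRing S]

/-- The monomial operator `e_a s ↦ e_{σ a} (d_a s)`, as an adjointable operator. -/
noncomputable def monoOp (σ : Equiv.Perm A) (d : A → S) : Op S A :=
  ⟨(monoEnd σ d, op (monoEnd σ.symm (fun b => star (d (σ.symm b))))), by
    apply pairing_end_ext
    intro a b
    classical
    simp only [unop_op, monoEnd_single, pairing_single_right]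
    by_cases h : a = σ.symm b
    · subst h; simp
    · have h' : b ≠ σ a := fun e => h (by simp [e])
      simp [Finsupp.single_eq_of_ne h', Finsupp.single_eq_of_ne (fun e => h (Eq.symm e))]⟩

@[simp] theorem monoOp_fn (σ : Equiv.Perm A) (d : A → S) (a : A) (s : S) :
    (monoOp σ d).fn (Finsupp.single a s) = Finsupp.single (σ a) (d a * s) :=
  monoEnd_single _ _ _ _

@[simp] theorem monoOp_ad (σ : Equiv.Perm A) (d : A → S) (b : A) (s : S) :
    (monoOp σ d).ad (Finsupp.single b s) =
      Finsupp.single (σ.symm b) (star (d (σ.symm b)) * s) :=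
  monoEnd_single σ.symm (fun b => star (d (σ.symm b))) b s

theorem monoOp_mul (σ τ : Equiv.Perm A) (d e : A → S) :
    monoOp σ d * monoOp τ e = monoOp (σ * τ) (fun a => d (τ a) * e a) := by
  apply Op.ext'; intro a; simp

theorem monoOp_one : monoOp (1 : Equiv.Perm A) (fun _ => (1 : S)) = 1 := by
  apply Op.ext'; intro a; simp

theorem monoOp_star (σ : Equiv.Perm A) (d : A → S) :
    star (monoOp σ d) = monoOp σ⁻¹ (fun b => star (d (σ⁻¹ b))) := by
  apply Op.ext'; intro a
  rw [Op.fn_star, monoOp_ad, monoOp_fn]
  rfl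

end Monomial

/-! ### Cocycles of finite support -/

/-- A cocycle `c : G × A → K` for the action of `G` on the set `A`, such that for each `g` one has
`c(g, a) = 1` for all but finitely many `a`. -/
structure FinCocycle (G A K : Type*) [Group G] [MulAction G A] [Group K] where
  /-- The cocycle. -/
  c : G → A → K
  mul : ∀ g h a, c (g * h) a = c g (h • a) * c h a
  fin : ∀ g, {a | c g a ≠ 1}.Finite

theorem FinCocycle.one {G A K : Type*} [Group G] [MulAction G A] [Group K]
    (κ : FinCocycle G A K) (a : A) : κ.c 1 a = 1 := by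
  have h := κ.mul 1 1 a
  rw [one_mul, one_smul] at h
  exact left_eq_mul.mp h

/-- Two cocycles `c, d : G × A → K` for an action `σ` of `G` on `A`, which agree outside a finite
set for each `g`. -/
structure FinPair (G A K : Type*) [Group G] [Group K] where
  /-- The action. -/
  σ : G →* Equiv.Perm A
  /-- The first cocycle. -/
  c : G → A → K
  /-- The second cocycle. -/
  d : G → A → K
  mul_c : ∀ g h a, c (g * h) a = c g (σ h a) * c h a
  mul_d : ∀ g h a, d (g * h) a = d g (σ h a) * d h a
  fin : ∀ g, {a | c g a ≠ d g a}.Finite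

section Cocycle

variable {G A K : Type*} [Group G] [Group K]

theorem cocycle_one {σ : G →* Equiv.Perm A} {c : G → A → K}
    (h : ∀ g h a, c (g * h) a = c g (σ h a) * c h a) (a : A) : c 1 a = 1 := by
  have h := h 1 1 a
  rw [one_mul, map_one, Equiv.Perm.one_apply] at h
  exact left_eq_mul.mp h

theorem cocycle_inv {σ : G →* Equiv.Perm A} {c : G → A → K}
    (h : ∀ g h a, c (g * h) a = c g (σ h a) * c h a) (g : G) (a : A) :
    c g⁻¹ a = (c g ((σ g)⁻¹ a))⁻¹ := by
  have h1 := h g g⁻¹ a
  rw [mul_inv_cancel, cocycle_one h, map_inv] at h1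
  exact (inv_eq_of_mul_eq_one_right h1.symm).symm

/-- The monomial representation with labels given by a cocycle. -/
noncomputable def monoRep (σ : G →* Equiv.Perm A) (c : G → A → K)
    (h : ∀ g h a, c (g * h) a = c g (σ h a) * c h a) : G →* Op (MonoidAlgebra ℤ K) A where
  toFun g := monoOp (σ g) (fun a => MonoidAlgebra.single (c g a) 1)
  map_one' := by
    apply Op.ext'; intro a
    simp [cocycle_one h, ← MonoidAlgebra.one_def]
  map_mul' g k := by
    rw [monoOp_mul]
    apply Op.ext'; intro a
    simp [h, MonoidAlgebra.single_mul_single]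

theorem monoRep_star (σ : G →* Equiv.Perm A) (c : G → A → K)
    (h : ∀ g h a, c (g * h) a = c g (σ h a) * c h a) (g : G) :
    star (monoRep σ c h g) = monoRep σ c h g⁻¹ := by
  change star (monoOp _ _) = monoOp _ _
  rw [monoOp_star]
  apply Op.ext'; intro a
  rw [monoOp_fn, monoOp_fn, cocycle_inv h g a, map_inv]
  simp

end Cocycle

namespace FinPair

variable {G A K : Type*} [Group G] [Group K] (κ : FinPair G A K)

theorem rep_finRank (g : G) :
    FinRank (monoRep κ.σ κ.c κ.mul_c g - monoRep κ.σ κ.d κ.mul_d g) := by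
  classical
  refine ⟨(κ.fin g).toFinset ∪ (κ.fin g).toFinset.image (fun a => κ.σ g a), fun a ha => ?_⟩
  simp only [Finset.mem_union, Set.Finite.mem_toFinset, Set.mem_ofPred_eq, Finset.mem_image,
    not_or, not_exists, not_and, not_not] at ha
  have h2 : κ.c g ((κ.σ g).symm a) = κ.d g ((κ.σ g).symm a) := by
    by_contra hne
    exact ha.2 _ hne (Equiv.apply_symm_apply _ a)
  constructor
  · rw [Op.fn_sub]
    change (monoOp _ _).fn _ - (monoOp _ _).fn _ = 0
    rw [monoOp_fn, monoOp_fn, ha.1, sub_self]
  · rw [Op.ad_sub]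
    change (monoOp _ _).ad _ - (monoOp _ _).ad _ = 0
    rw [monoOp_ad, monoOp_ad, h2, sub_self]

/-- The pair of monomial representations, with values in `D_A(ℤ[K])`. -/
noncomputable def rep : G →* DD (MonoidAlgebra ℤ K) A where
  toFun g := DD.mk (monoRep κ.σ κ.c κ.mul_c g) (monoRep κ.σ κ.d κ.mul_d g) (κ.rep_finRank g)
  map_one' := DD.ext (by simp) (by simp)
  map_mul' g h := DD.ext (by simp) (by simp)

theorem rep_star (g : G) : star (κ.rep g) = κ.rep g⁻¹ :=
  DD.ext (monoRep_star κ.σ κ.c κ.mul_c g) (monoRep_star κ.σ κ.d κ.mul_d g)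

/-- The homomorphism `ℤ[G] → D_A(ℤ[K])` of rings with involution attached to a pair. -/
noncomputable def hom : MonoidAlgebra ℤ G →⋆ₙ+* DD (MonoidAlgebra ℤ K) A :=
  starLift κ.rep κ.rep_star

theorem hom_single (g : G) : κ.hom (MonoidAlgebra.single g 1) = κ.rep g := by
  unfold hom
  rw [starLift_single, one_smul]

end FinPair

/-- The pair attached to a cocycle of finite support and an auxiliary group `T`. -/
def FinCocycle.pair {G A K : Type*} [Group G] [MulAction G A] [Group K]
    (κ : FinCocycle G A K) (T : Type*) [Group T] : FinPair (G × T) A (K × T) where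
  σ := (MulAction.toPermHom G A).comp (MonoidHom.fst G T)
  c g a := (κ.c g.1 a, g.2)
  d g _ := (1, g.2)
  mul_c g h a := Prod.ext (κ.mul g.1 h.1 a) rfl
  mul_d g h a := Prod.ext (one_mul _).symm rfl
  fin g := by
    refine (κ.fin g.1).subset ?_
    intro a ha h
    apply ha
    exact Prod.ext h rfl

end Pool.Agent.Y483
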