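import Mathlib

/-!
Chains on tuples, the prism operator, and the comparison of homogeneous and inhomogeneous chains
of a group with coefficients in a rational representation.
-/

namespace Pool.Agent.Y483

open Finsupp

section Sets

variable {X Y Z : Type*} {M N L V : Type*} [AddCommGroup M] [Module ℚ M] [AddCommGroup N]
  [Module ℚ N] [AddCommGroup L] [Module ℚ L] [AddCommGroup V] [Module ℚ V]

/-- Chains on `n`-tuples with coefficients in `M`. -/
abbrev T (n : ℕ) (X M : Type*) [AddCommGroup M] := (Fin n → X) →₀ M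

theorem T_ext {n : ℕ} {f g : T n X M →ₗ[ℚ] V}
    (h : ∀ x m, f (single x m) = g (single x m)) : f = g :=
  lhom_ext' (fun x => LinearMap.ext (h x))

/-- The alternating sum of the faces. -/
noncomputable def bd (n : ℕ) : T (n + 1) X M →ₗ[ℚ] T n X M :=
  lsum ℚ fun x => ∑ i : Fin (n + 1), ((-1 : ℚ) ^ (i : ℕ)) • lsingle (x ∘ i.succAbove)

theorem bd_single (n : ℕ) (x : Fin (n + 1) → X) (m : M) :
    bd n (single x m) =
      ∑ i : Fin (n + 1), ((-1 : ℚ) ^ (i : ℕ)) • single (x ∘ i.succAbove) m := by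
  simp [bd]

/-- The cone with apex `a`. -/
noncomputable def cone (n : ℕ) (a : X) : T n X M →ₗ[ℚ] T (n + 1) X M :=
  lsum ℚ fun x => lsingle (Fin.cons a x : Fin (n + 1) → X)

@[simp] theorem cone_single (n : ℕ) (a : X) (x : Fin n → X) (m : M) :
    cone n a (single x m) = single (Fin.cons a x : Fin (n + 1) → X) m := by
  simp [cone]

theorem bd_cone_zero (a : X) (z : T 0 X M) : bd 0 (cone 0 a z) = z := by
  have h : (bd 0) ∘ₗ (cone 0 a) = (LinearMap.id : T 0 X M →ₗ[ℚ] T 0 X M) := by
    apply T_ext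
    intro x m
    rw [LinearMap.comp_apply, cone_single, bd_single, Fin.sum_univ_succ, Fin.sum_univ_zero,
      add_zero, Fin.val_zero, pow_zero, one_smul, LinearMap.id_apply]
    congr 1
  exact DFunLike.congr_fun h z

theorem bd_cone_succ (n : ℕ) (a : X) (z : T (n + 1) X M) :
    bd (n + 1) (cone (n + 1) a z) = z - cone n a (bd n z) := by
  have h : (bd (n + 1)) ∘ₗ (cone (n + 1) a) =
      (LinearMap.id : T (n + 1) X M →ₗ[ℚ] T (n + 1) X M) - (cone n a) ∘ₗ (bd n) := by
    apply T_ext
    intro x m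
    rw [LinearMap.comp_apply, cone_single, bd_single, Fin.sum_univ_succ, LinearMap.sub_apply,
      LinearMap.comp_apply, bd_single, map_sum, LinearMap.id_apply, sub_eq_add_neg,
      ← Finset.sum_neg_distrib]
    congr 1
    · simp only [Fin.val_zero, pow_zero, one_smul]
      congr 1
    · apply Finset.sum_congr rfl
      intro i _
      rw [map_smul, cone_single, Fin.val_succ, pow_succ, mul_neg_one, neg_smul]
      congr 3
      funext j
      refine Fin.cases ?_ (fun j => ?_) j
      · simp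
      · simp
  exact DFunLike.congr_fun h z

/-- The map of chains induced by a map of sets and a linear map of coefficients. -/
noncomputable def mp (n : ℕ) (f : X → Y) (φ : M →ₗ[ℚ] N) : T n X M →ₗ[ℚ] T n Y N :=
  lsum ℚ fun x => lsingle (f ∘ x) ∘ₗ φ

@[simp] theorem mp_single (n : ℕ) (f : X → Y) (φ : M →ₗ[ℚ] N) (x : Fin n → X) (m : M) :
    mp n f φ (single x m) = single (f ∘ x) (φ m) := by
  simp [mp]

theorem bd_mp (n : ℕ) (f : X → Y) (φ : M →ₗ[ℚ] N) (z : T (n + 1) X M) :
    bd n (mp (n + 1) f φ z) = mp n f φ (bd n z) := by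
  have h : (bd n) ∘ₗ (mp (n + 1) f φ) = (mp n f φ) ∘ₗ (bd n) := by
    apply T_ext
    intro x m
    simp only [LinearMap.comp_apply, mp_single, bd_single, map_sum, map_smul]
    rfl
  exact DFunLike.congr_fun h z

theorem mp_mp (n : ℕ) (f : X → Y) (φ : M →ₗ[ℚ] N) (g : Y → Z) (ψ : N →ₗ[ℚ] L) (z : T n X M) :
    mp n g ψ (mp n f φ z) = mp n (g ∘ f) (ψ ∘ₗ φ) z := by
  have h : (mp n g ψ) ∘ₗ (mp n f φ) = mp n (g ∘ f) (ψ ∘ₗ φ) := by
    apply T_ext
    intro x m
    simp only [LinearMap.comp_apply, mp_single]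
    rfl
  exact DFunLike.congr_fun h z

theorem mp_id (n : ℕ) (z : T n X M) : mp n (id : X → X) LinearMap.id z = z := by
  have h : mp n (id : X → X) (LinearMap.id : M →ₗ[ℚ] M) = LinearMap.id := by
    apply T_ext
    intro x m
    simp
  exact DFunLike.congr_fun h z

/-- The prism operator. -/
noncomputable def prism (f g : X → Y) : (n : ℕ) → (T n X M →ₗ[ℚ] T (n + 1) Y M)
  | 0 => 0
  | n + 1 => lsum ℚ fun x =>
      lsingle (Fin.cons (f (x 0)) (Fin.cons (g (x 0)) (g ∘ Fin.tail x) : Fin (n + 1) → Y) :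
        Fin (n + 2) → Y) -
      (cone (n + 1) (f (x 0))) ∘ₗ (prism f g n) ∘ₗ (lsingle (Fin.tail x))

theorem prism_single_succ (f g : X → Y) (n : ℕ) (x : Fin (n + 1) → X) (m : M) :
    prism f g (n + 1) (single x m) =
      single (Fin.cons (f (x 0)) (Fin.cons (g (x 0)) (g ∘ Fin.tail x) : Fin (n + 1) → Y) :
        Fin (n + 2) → Y) m - cone (n + 1) (f (x 0)) (prism f g n (single (Fin.tail x) m)) := by
  simp [prism]

theorem mp_cone (n : ℕ) (f : X → Y) (φ : M →ₗ[ℚ] N) (a : X) (z : T n X M) :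
    mp (n + 1) f φ (cone n a z) = cone n (f a) (mp n f φ z) := by
  have h : (mp (n + 1) f φ) ∘ₗ (cone n a) = (cone n (f a)) ∘ₗ (mp n f φ) := by
    apply T_ext
    intro x m
    simp only [LinearMap.comp_apply, mp_single, cone_single]
    congr 1
    funext i
    refine Fin.cases ?_ (fun j => ?_) i <;> simp
  exact DFunLike.congr_fun h z

theorem prism_cone (f g : X → Y) (n : ℕ) (a : X) (z : T n X M) :
    prism f g (n + 1) (cone n a z) =
      cone (n + 1) (f a) (cone n (g a) (mp n g LinearMap.id z)) -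
        cone (n + 1) (f a) (prism f g n z) := by
  have h : (prism f g (n + 1)) ∘ₗ (cone n a) =
      (cone (n + 1) (f a)) ∘ₗ (cone n (g a)) ∘ₗ (mp n g (LinearMap.id : M →ₗ[ℚ] M)) -
        (cone (n + 1) (f a)) ∘ₗ (prism f g n) := by
    apply T_ext
    intro x m
    simp only [LinearMap.comp_apply, LinearMap.sub_apply, mp_single, cone_single,
      prism_single_succ, Fin.cons_zero, Fin.tail_cons, LinearMap.id_apply]
  exact DFunLike.congr_fun h z

theorem single_eq_cone (n : ℕ) (x : Fin (n + 1) → X) (m : M) :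
    (single x m : T (n + 1) X M) = cone n (x 0) (single (Fin.tail x) m) := by
  rw [cone_single, Fin.cons_self_tail]

theorem bd_prism_zero (f g : X → Y) (z : T 1 X M) :
    bd 1 (prism f g 1 z) = mp 1 g LinearMap.id z - mp 1 f LinearMap.id z := by
  have h : (bd 1) ∘ₗ (prism f g 1) =
      mp 1 g (LinearMap.id : M →ₗ[ℚ] M) - mp 1 f (LinearMap.id : M →ₗ[ℚ] M) := by
    apply T_ext
    intro x m
    rw [single_eq_cone, LinearMap.comp_apply, prism_cone]
    have h0 : prism f g 0 (single (Fin.tail x) m) = 0 := rfl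
    rw [h0, map_zero, sub_zero, bd_cone_succ, bd_cone_zero, LinearMap.sub_apply, mp_cone, mp_cone]
    congr 2
    rw [mp_single, mp_single]
    congr 1
    funext i
    exact i.elim0
  exact DFunLike.congr_fun h z

theorem bd_prism_succ (f g : X → Y) (n : ℕ) (z : T (n + 1) X M) :
    bd (n + 1) (prism f g (n + 1) z) + prism f g n (bd n z) =
      mp (n + 1) g LinearMap.id z - mp (n + 1) f LinearMap.id z := by
  induction n with
  | zero =>
    have h0 : prism f g 0 (bd 0 z) = 0 := rfl
    rw [h0, add_zero]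
    exact bd_prism_zero f g z
  | succ n ih =>
    have h : (bd (n + 2)) ∘ₗ (prism f g (n + 2)) + (prism f g (n + 1)) ∘ₗ (bd (n + 1)) =
        mp (n + 2) g (LinearMap.id : M →ₗ[ℚ] M) - mp (n + 2) f (LinearMap.id : M →ₗ[ℚ] M) := by
      apply T_ext
      intro x m
      rw [single_eq_cone]
      set y : T (n + 1) X M := single (Fin.tail x) m
      rw [LinearMap.add_apply, LinearMap.sub_apply, LinearMap.comp_apply, LinearMap.comp_apply,
        prism_cone, map_sub, bd_cone_succ, bd_cone_succ, bd_cone_succ, bd_cone_succ,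
        map_sub (prism f g (n + 1)), prism_cone, mp_cone, mp_cone, bd_mp]
      have e1 := ih y
      have e2 : mp (n + 1) f LinearMap.id y =
          mp (n + 1) g LinearMap.id y - (bd (n + 1) (prism f g (n + 1) y) +
            prism f g n (bd n y)) := by rw [e1]; abel
      rw [e2]
      simp only [map_sub, map_add]
      abel
    exact DFunLike.congr_fun h z

/-- Families of operators indexed by a basis of the coefficients. -/
noncomputable def comb {I : Type*} (n : ℕ) (F : I → (T n X M →ₗ[ℚ] V)) :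
    T n X (I →₀ M) →ₗ[ℚ] V :=
  lsum ℚ fun x => lsum ℚ fun i => (F i) ∘ₗ (lsingle x)

@[simp] theorem comb_single {I : Type*} (n : ℕ) (F : I → (T n X M →ₗ[ℚ] V)) (x : Fin n → X)
    (i : I) (m : M) : comb n F (single x (single i m)) = F i (single x m) := by
  unfold comb
  rw [Finsupp.lsum_single, Finsupp.lsum_single]
  rfl

theorem TI_ext {I : Type*} {n : ℕ} {f g : T n X (I →₀ M) →ₗ[ℚ] V}
    (h : ∀ x i m, f (single x (single i m)) = g (single x (single i m))) : f = g := by
  apply lhom_ext'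
  intro x
  apply lhom_ext'
  intro i
  apply LinearMap.ext
  exact h x i

theorem comb_bd {I : Type*} (n : ℕ) (F : I → (T n X M →ₗ[ℚ] V)) (z : T (n + 1) X (I →₀ M)) :
    comb n F (bd n z) = comb (n + 1) (fun i => (F i) ∘ₗ (bd n)) z := by
  have h : (comb n F) ∘ₗ (bd n) = comb (n + 1) (fun i => (F i) ∘ₗ (bd n)) := by
    apply TI_ext
    intro x i m
    simp [bd_single, LinearMap.comp_apply, map_sum]
  exact DFunLike.congr_fun h z

theorem comb_comp {I : Type*} {V' : Type*} [AddCommGroup V'] [Module ℚ V'] (n : ℕ)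
    (F : I → (T n X M →ₗ[ℚ] V)) (g : V →ₗ[ℚ] V') (z : T n X (I →₀ M)) :
    g (comb n F z) = comb n (fun i => g ∘ₗ (F i)) z := by
  have h : g ∘ₗ (comb n F) = comb n (fun i => g ∘ₗ (F i)) := by
    apply TI_ext
    intro x i m
    simp
  exact DFunLike.congr_fun h z

end Sets

end Pool.Agent.Y483
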