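import Pool.Agent.Y483.Semi

/-!
Equivariant contractions: an equivariant chain map of complexes of relatively projective modules
which is bijective on homology up to degree `n` is injective on the homology of the coinvariants in
degree `n`.
-/

namespace Pool.Agent.Y483

open Finsupp

section Avg

variable {Γ : Type} [Group Γ]

/-- The augmentation map `ℚ[Γ] ⊗ C → C` has an equivariant section. -/
def IsAvg {C : Type} [AddCommGroup C] [Module ℚ C] (ρ : Representation ℚ Γ C) : Prop :=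
  ∃ W : C →ₗ[ℚ] (Γ →₀ C), (∀ c, augM Γ C (W c) = c) ∧ ∀ g c, W (ρ g c) = indRep ρ g (W c)

/-- The span of the elements `g x - x`. -/
def augS {C : Type} [AddCommGroup C] [Module ℚ C] (ρ : Representation ℚ Γ C) : Submodule ℚ C :=
  Submodule.span ℚ {y | ∃ (g : Γ) (x : C), y = ρ g x - x}

variable {C D X : Type} [AddCommGroup C] [Module ℚ C] [AddCommGroup D] [Module ℚ D]
  [AddCommGroup X] [Module ℚ X] {ρ : Representation ℚ Γ C} {τ : Representation ℚ Γ D}
  {υ : Representation ℚ Γ X}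

theorem augS_map (u : C →ₗ[ℚ] D) (hu : ∀ g c, u (ρ g c) = τ g (u c)) {c : C} (hc : c ∈ augS ρ) :
    u c ∈ augS τ := by
  have h : augS ρ ≤ (augS τ).comap u := by
    apply Submodule.span_le.mpr
    rintro y ⟨g, x, rfl⟩
    change u (ρ g x - x) ∈ augS τ
    rw [map_sub, hu]
    exact Submodule.subset_span ⟨g, u x, rfl⟩
  exact h hc

/-- Equivariant lifting. -/
theorem IsAvg.lift (hρ : IsAvg ρ) (d : D →ₗ[ℚ] X) (hd : ∀ g c, d (τ g c) = υ g (d c))
    (u : C →ₗ[ℚ] X) (hu : ∀ g c, u (ρ g c) = υ g (u c)) (hr : ∀ c, u c ∈ LinearMap.range d) :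
    ∃ L : C →ₗ[ℚ] D, (∀ g c, L (ρ g c) = τ g (L c)) ∧ ∀ c, d (L c) = u c := by
  obtain ⟨W, hW1, hW2⟩ := hρ
  obtain ⟨L, hL⟩ := Module.projective_lifting_property (d.rangeRestrict)
    (u.codRestrict (LinearMap.range d) hr) d.surjective_rangeRestrict
  have hL' : ∀ c, d (L c) = u c := fun c =>
    congrArg Subtype.val (DFunLike.congr_fun hL c)
  let A : (Γ →₀ C) →ₗ[ℚ] D := lsum ℚ fun v => (τ v) ∘ₗ L ∘ₗ (ρ v⁻¹)
  have hA : ∀ v c, A (single v c) = τ v (L (ρ v⁻¹ c)) := by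
    intro v c
    simp only [A, Finsupp.lsum_single, LinearMap.comp_apply]
  refine ⟨A ∘ₗ W, ?_, ?_⟩
  · intro g c
    rw [LinearMap.comp_apply, LinearMap.comp_apply, hW2]
    have h : A ∘ₗ (indRep ρ g) = (τ g) ∘ₗ A := by
      apply lhom_ext
      intro v c
      rw [LinearMap.comp_apply, LinearMap.comp_apply, indRep_single, hA, hA, mul_inv_rev, map_mul,
        map_mul, Module.End.mul_apply, Module.End.mul_apply, ← Module.End.mul_apply (ρ g⁻¹),
        ← map_mul ρ, inv_mul_cancel, map_one, Module.End.one_apply]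
    exact DFunLike.congr_fun h (W c)
  · intro c
    have h : d ∘ₗ A = u ∘ₗ (augM Γ C) := by
      apply lhom_ext
      intro v c
      rw [LinearMap.comp_apply, LinearMap.comp_apply, hA, augM_single, hd, hL', ← hu,
        ← Module.End.mul_apply, ← map_mul, mul_inv_cancel, map_one, Module.End.one_apply]
    have h2 := DFunLike.congr_fun h (W c)
    rw [LinearMap.comp_apply, LinearMap.comp_apply, hW1] at h2
    exact h2

/-- The product of two representations. -/
noncomputable def prodRep (ρ : Representation ℚ Γ C) (τ : Representation ℚ Γ D) :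
    Representation ℚ Γ (C × D) where
  toFun g := (ρ g).prodMap (τ g)
  map_one' := by
    apply LinearMap.ext
    intro x
    simp
  map_mul' g h := by
    apply LinearMap.ext
    intro x
    simp

theorem prodRep_apply (g : Γ) (x : C × D) : prodRep ρ τ g x = (ρ g x.1, τ g x.2) := rfl

theorem IsAvg.prod (hρ : IsAvg ρ) (hτ : IsAvg τ) : IsAvg (prodRep ρ τ) := by
  obtain ⟨W, hW1, hW2⟩ := hρ
  obtain ⟨W', hW1', hW2'⟩ := hτ
  have hi : ∀ p : Γ →₀ C, augM Γ (C × D) (Finsupp.mapRange.linearMap (LinearMap.inl ℚ C D) p) =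
      (augM Γ C p, 0) := by
    intro p
    have h : (augM Γ (C × D)) ∘ₗ (Finsupp.mapRange.linearMap (LinearMap.inl ℚ C D)) =
        (LinearMap.inl ℚ C D) ∘ₗ (augM Γ C) := by
      apply lhom_ext
      intro v c
      simp [augM_single]
    exact DFunLike.congr_fun h p
  have hi' : ∀ p : Γ →₀ D, augM Γ (C × D) (Finsupp.mapRange.linearMap (LinearMap.inr ℚ C D) p) =
      (0, augM Γ D p) := by
    intro p
    have h : (augM Γ (C × D)) ∘ₗ (Finsupp.mapRange.linearMap (LinearMap.inr ℚ C D)) =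
        (LinearMap.inr ℚ C D) ∘ₗ (augM Γ D) := by
      apply lhom_ext
      intro v c
      simp [augM_single]
    exact DFunLike.congr_fun h p
  have hj : ∀ (g : Γ) (p : Γ →₀ C), Finsupp.mapRange.linearMap (LinearMap.inl ℚ C D)
      (indRep ρ g p) = indRep (prodRep ρ τ) g (Finsupp.mapRange.linearMap (LinearMap.inl ℚ C D) p)
      := by
    intro g p
    have h : (Finsupp.mapRange.linearMap (LinearMap.inl ℚ C D)) ∘ₗ (indRep ρ g) =
        (indRep (prodRep ρ τ) g) ∘ₗ (Finsupp.mapRange.linearMap (LinearMap.inl ℚ C D)) := by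
      apply lhom_ext
      intro v c
      rw [LinearMap.comp_apply, LinearMap.comp_apply, indRep_single,
        Finsupp.mapRange.linearMap_apply, Finsupp.mapRange.linearMap_apply,
        Finsupp.mapRange_single, Finsupp.mapRange_single, indRep_single, prodRep_apply]
      simp
    exact DFunLike.congr_fun h p
  have hj' : ∀ (g : Γ) (p : Γ →₀ D), Finsupp.mapRange.linearMap (LinearMap.inr ℚ C D)
      (indRep τ g p) = indRep (prodRep ρ τ) g (Finsupp.mapRange.linearMap (LinearMap.inr ℚ C D) p)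
      := by
    intro g p
    have h : (Finsupp.mapRange.linearMap (LinearMap.inr ℚ C D)) ∘ₗ (indRep τ g) =
        (indRep (prodRep ρ τ) g) ∘ₗ (Finsupp.mapRange.linearMap (LinearMap.inr ℚ C D)) := by
      apply lhom_ext
      intro v c
      rw [LinearMap.comp_apply, LinearMap.comp_apply, indRep_single,
        Finsupp.mapRange.linearMap_apply, Finsupp.mapRange.linearMap_apply,
        Finsupp.mapRange_single, Finsupp.mapRange_single, indRep_single, prodRep_apply]
      simp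
    exact DFunLike.congr_fun h p
  refine ⟨(Finsupp.mapRange.linearMap (LinearMap.inl ℚ C D)) ∘ₗ W ∘ₗ (LinearMap.fst ℚ C D) +
    (Finsupp.mapRange.linearMap (LinearMap.inr ℚ C D)) ∘ₗ W' ∘ₗ (LinearMap.snd ℚ C D), ?_, ?_⟩
  · intro c
    rw [LinearMap.add_apply, map_add, LinearMap.comp_apply, LinearMap.comp_apply,
      LinearMap.comp_apply, LinearMap.comp_apply, hi, hi', hW1, hW1']
    simp
  · intro g c
    rw [LinearMap.add_apply, LinearMap.add_apply, map_add, LinearMap.comp_apply,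
      LinearMap.comp_apply, LinearMap.comp_apply, LinearMap.comp_apply, LinearMap.comp_apply,
      LinearMap.comp_apply, LinearMap.comp_apply, LinearMap.comp_apply, ← hj, ← hj', ← hW2,
      ← hW2']
    rfl

/-- One step of the construction of an equivariant contraction. -/
theorem contract_step {X₀ X₁ X₂ : Type} [AddCommGroup X₀] [Module ℚ X₀] [AddCommGroup X₁]
    [Module ℚ X₁] [AddCommGroup X₂] [Module ℚ X₂] (r₀ : Representation ℚ Γ X₀)
    (r₁ : Representation ℚ Γ X₁) (r₂ : Representation ℚ Γ X₂) (d₁ : X₁ →ₗ[ℚ] X₀)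
    (d₂ : X₂ →ₗ[ℚ] X₁) (h₁ : ∀ g x, d₁ (r₁ g x) = r₀ g (d₁ x))
    (h₂ : ∀ g x, d₂ (r₂ g x) = r₁ g (d₂ x)) (hdd : ∀ x, d₁ (d₂ x) = 0) (hav : IsAvg r₁)
    (hex : ∀ x, d₁ x = 0 → x ∈ LinearMap.range d₂)
    (hs : ∃ s : X₀ →ₗ[ℚ] X₁, (∀ g x, s (r₀ g x) = r₁ g (s x)) ∧ ∀ x, d₁ (s (d₁ x)) = d₁ x) :
    ∃ s : X₁ →ₗ[ℚ] X₂, (∀ g x, s (r₁ g x) = r₂ g (s x)) ∧ ∀ x, d₂ (s (d₂ x)) = d₂ x := by
  obtain ⟨s, hs1, hs2⟩ := hs
  obtain ⟨L, hL1, hL2⟩ := hav.lift (τ := r₂) (υ := r₁) d₂ h₂ (LinearMap.id - s ∘ₗ d₁) (by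
      intro g c
      simp only [LinearMap.sub_apply, LinearMap.id_apply, LinearMap.comp_apply]
      rw [h₁, hs1, map_sub]) (by
      intro c
      apply hex
      simp only [LinearMap.sub_apply, LinearMap.id_apply, LinearMap.comp_apply]
      rw [map_sub, hs2, sub_self])
  refine ⟨L, hL1, fun x => ?_⟩
  rw [hL2]
  simp only [LinearMap.sub_apply, LinearMap.id_apply, LinearMap.comp_apply]
  rw [hdd, map_zero, sub_zero]

end Avg

section Cone

variable {Γ : Type} [Group Γ] (B B' : ℕ → Type) [∀ q, AddCommGroup (B q)] [∀ q, Module ℚ (B q)]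
  [∀ q, AddCommGroup (B' q)] [∀ q, Module ℚ (B' q)] (ρ : ∀ q, Representation ℚ Γ (B q))
  (ρ' : ∀ q, Representation ℚ Γ (B' q)) (d : ∀ q, B (q + 1) →ₗ[ℚ] B q)
  (d' : ∀ q, B' (q + 1) →ₗ[ℚ] B' q) (f : ∀ q, B q →ₗ[ℚ] B' q)

/-- The differential of the mapping cone in degree `q + 1`. -/
noncomputable def coneD (q : ℕ) : (B' (q + 2) × B (q + 1)) →ₗ[ℚ] (B' (q + 1) × B q) :=
  LinearMap.prod ((d' (q + 1)) ∘ₗ (LinearMap.fst ℚ _ _) + (f (q + 1)) ∘ₗ (LinearMap.snd ℚ _ _))
    (-(d q) ∘ₗ (LinearMap.snd ℚ _ _))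

theorem coneD_apply (q : ℕ) (x : B' (q + 2) × B (q + 1)) :
    coneD B B' d d' f q x = (d' (q + 1) x.1 + f (q + 1) x.2, - d q x.2) := rfl

/-- The comparison theorem. -/
theorem cone_lemma (n : ℕ) (Z : ∀ q, B q → Prop) (Z' : ∀ q, B' q → Prop)
    (hZ0 : ∀ b, Z 0 b) (hZ : ∀ q b, Z (q + 1) b ↔ d q b = 0)
    (hZ0' : ∀ b, Z' 0 b) (hZ' : ∀ q b, Z' (q + 1) b ↔ d' q b = 0)
    (hdd : ∀ q b, d q (d (q + 1) b) = 0) (hdd' : ∀ q b, d' q (d' (q + 1) b) = 0)
    (hf : ∀ q b, d' q (f (q + 1) b) = f q (d q b))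
    (hd : ∀ q g b, d q (ρ (q + 1) g b) = ρ q g (d q b))
    (hd' : ∀ q g b, d' q (ρ' (q + 1) g b) = ρ' q g (d' q b))
    (hfe : ∀ q g b, f q (ρ q g b) = ρ' q g (f q b))
    (hav : ∀ q, IsAvg (ρ q)) (hav' : ∀ q, IsAvg (ρ' q))
    (hsurj : ∀ q ≤ n, ∀ b', Z' q b' → ∃ b, Z q b ∧ b' - f q b ∈ LinearMap.range (d' q))
    (hinj : ∀ q ≤ n, ∀ b, Z q b → f q b ∈ LinearMap.range (d' q) → b ∈ LinearMap.range (d q))
    (m : ℕ) (hm : m + 1 = n) (x : B (m + 1)) (hx : d m x ∈ augS (ρ m))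
    (hfx : f (m + 1) x ∈ augS (ρ' (m + 1))) :
    ∃ u, x - d (m + 1) u ∈ augS (ρ (m + 1)) := by
  have hZd : ∀ q b, Z q (d q b) := by
    intro q b
    cases q with
    | zero => exact hZ0 _
    | succ q => exact (hZ q _).mpr (hdd q b)
  -- the equivariance of the differential of the cone
  have hce : ∀ q g x, coneD B B' d d' f q (prodRep (ρ' (q + 2)) (ρ (q + 1)) g x) =
      prodRep (ρ' (q + 1)) (ρ q) g (coneD B B' d d' f q x) := by
    intro q g x
    rw [coneD_apply, coneD_apply, prodRep_apply, prodRep_apply]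
    simp only
    rw [hd', hfe, hd, map_add, map_neg]
  have hcdd : ∀ q x, coneD B B' d d' f q (coneD B B' d d' f (q + 1) x) = 0 := by
    intro q x
    rw [coneD_apply, coneD_apply]
    simp only
    rw [map_add, hdd', map_neg, hf, map_neg, hdd, zero_add, add_neg_cancel, neg_neg]
    rfl
  -- exactness at `B' (q + 1) × B q`
  have hex : ∀ q, q + 1 ≤ n → ∀ (b' : B' (q + 1)) (b : B q), Z q b → d' q b' + f q b = 0 →
      (b', b) ∈ LinearMap.range (coneD B B' d d' f q) := by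
    intro q hq b' b hb h
    obtain ⟨b₂, hb₂⟩ := hinj q (by omega) b hb ⟨-b', by
      rw [map_neg]; exact neg_eq_of_add_eq_zero_right h⟩
    have h1 : Z' (q + 1) (b' + f (q + 1) b₂) := by
      rw [hZ', map_add, hf, hb₂, h]
    obtain ⟨b₃, hb₃, c, hc⟩ := hsurj (q + 1) hq _ h1
    refine ⟨(c, b₃ - b₂), ?_⟩
    rw [coneD_apply]
    simp only
    rw [hc, map_sub, map_sub, (hZ q b₃).mp hb₃, hb₂]
    ext
    · simp only
      abel
    · simp
  -- the contraction
  have key : ∀ q, q + 1 ≤ n → ∃ s : (B' (q + 1) × B q) →ₗ[ℚ] (B' (q + 2) × B (q + 1)),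
      (∀ g x, s (prodRep (ρ' (q + 1)) (ρ q) g x) = prodRep (ρ' (q + 2)) (ρ (q + 1)) g (s x)) ∧
        ∀ x, coneD B B' d d' f q (s (coneD B B' d d' f q x)) = coneD B B' d d' f q x := by
    intro q
    induction q with
    | zero =>
      intro hq
      let d₁ : (B' 1 × B 0) →ₗ[ℚ] B' 0 :=
        (d' 0) ∘ₗ (LinearMap.fst ℚ _ _) + (f 0) ∘ₗ (LinearMap.snd ℚ _ _)
      have hd₁ : ∀ x, d₁ x = d' 0 x.1 + f 0 x.2 := fun _ => rfl
      have he₁ : ∀ g x, d₁ (prodRep (ρ' 1) (ρ 0) g x) = ρ' 0 g (d₁ x) := by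
        intro g x
        rw [hd₁, hd₁, prodRep_apply]
        simp only
        rw [hd', hfe, map_add]
      apply contract_step (ρ' 0) (prodRep (ρ' 1) (ρ 0)) (prodRep (ρ' 2) (ρ 1)) d₁
        (coneD B B' d d' f 0) he₁ (hce 0) _ ((hav' 1).prod (hav 0))
      · rintro ⟨b', b⟩ h
        exact hex 0 hq b' b (hZ0 b) h
      · obtain ⟨L, hL1, hL2⟩ := (hav' 0).lift (τ := prodRep (ρ' 1) (ρ 0)) (υ := ρ' 0) d₁ he₁
          LinearMap.id (fun _ _ => rfl) (by
            intro b'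
            obtain ⟨b, -, c, hc⟩ := hsurj 0 (by omega) b' (hZ0' b')
            refine ⟨(c, b), ?_⟩
            rw [hd₁, hc]
            simp)
        exact ⟨L, hL1, fun x => by rw [hL2]; rfl⟩
      · intro x
        rw [hd₁, coneD_apply]
        simp only
        rw [map_add, hdd', map_neg, hf]
        simp
    | succ q ih =>
      intro hq
      apply contract_step (prodRep (ρ' (q + 1)) (ρ q)) (prodRep (ρ' (q + 2)) (ρ (q + 1)))
        (prodRep (ρ' (q + 3)) (ρ (q + 2))) (coneD B B' d d' f q) (coneD B B' d d' f (q + 1))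
        (hce q) (hce (q + 1)) (hcdd q) ((hav' (q + 2)).prod (hav (q + 1)))
      · rintro ⟨b', b⟩ h
        rw [coneD_apply, Prod.mk_eq_zero] at h
        exact hex (q + 1) hq b' b ((hZ q b).mpr (neg_eq_zero.mp h.2)) h.1
      · exact ih (by omega)
  obtain ⟨s, hs1, hs2⟩ := key m (by omega)
  set c : B' (m + 2) × B (m + 1) := (0, x) with hc
  have hdc : coneD B B' d d' f m c ∈ augS (prodRep (ρ' (m + 1)) (ρ m)) := by
    have e : coneD B B' d d' f m c = LinearMap.inl ℚ (B' (m + 1)) (B m) (f (m + 1) x) +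
        LinearMap.inr ℚ (B' (m + 1)) (B m) (- d m x) := by
      rw [coneD_apply, hc]
      simp
    rw [e]
    apply Submodule.add_mem
    · exact augS_map (LinearMap.inl ℚ (B' (m + 1)) (B m)) (fun g c => by
        rw [prodRep_apply]; simp) hfx
    · exact augS_map (LinearMap.inr ℚ (B' (m + 1)) (B m)) (fun g c => by
        rw [prodRep_apply]; simp) (Submodule.neg_mem _ hx)
  have hsc : s (coneD B B' d d' f m c) ∈ augS (prodRep (ρ' (m + 2)) (ρ (m + 1))) :=
    augS_map s hs1 hdc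
  set y := c - s (coneD B B' d d' f m c) with hy
  have hdy : coneD B B' d d' f m y = 0 := by
    rw [hy, map_sub, hs2, sub_self]
  rw [coneD_apply, Prod.mk_eq_zero] at hdy
  obtain ⟨u, hu⟩ := hinj (m + 1) (by omega) y.2 ((hZ m _).mpr (neg_eq_zero.mp hdy.2))
    ⟨-y.1, by rw [map_neg]; exact neg_eq_of_add_eq_zero_right hdy.1⟩
  refine ⟨u, ?_⟩
  rw [hu]
  have h1 : x - y.2 = (s (coneD B B' d d' f m c)).2 := by
    rw [hy, hc]
    simp
  rw [h1]
  exact augS_map (LinearMap.snd ℚ (B' (m + 2)) (B (m + 1))) (fun g c => by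
    rw [prodRep_apply]; rfl) hsc

end Cone

end Pool.Agent.Y483
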