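import Pool.Agent.Y483.AJ2
import Pool.Agent.Y483.Contract

/-!
The two complexes and the comparison map for the Magnus group of a graph.
-/

namespace Pool.Agent.Y483

open Finsupp

/-- A group `G` over `Γ` with a crossed homomorphism to the `1`-chains of the graph, identifying
`G` with the set of pairs `(m, v)` with `∂ m = v - 1`. -/
structure Magnus {Γ E : Type} [Group Γ] [MulAction Γ E] (Q : Edges Γ E) (G : Type) [Group G] where
  /-- The projection to `Γ`. -/
  γ : G →* Γ
  /-- The crossed homomorphism. -/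
  c : G → (E →₀ ℤ)
  mul : ∀ g h, c (g * h) = c g + gE (γ g) (c h)
  del : ∀ g, Q.del (c g) = single (γ g) 1 - single 1 1
  inj : ∀ g h, γ g = γ h → c g = c h → g = h
  sur : ∀ (m : E →₀ ℤ) (v : Γ), Q.del m = single v 1 - single 1 1 → ∃ g, γ g = v ∧ c g = m
  gen : ∀ v : Γ, ∃ m, Q.del m = single v 1 - single 1 1

section Weights

variable {Γ : Type} [Group Γ] {C : Type} [AddCommGroup C] [Module ℚ C]

/-- The element `∑ a_v v ⊗ y` of `ℚ[Γ] ⊗ C`. -/
noncomputable def Wt (C : Type) [AddCommGroup C] [Module ℚ C] :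
    (Γ →₀ ℤ) →ₗ[ℤ] (C →ₗ[ℚ] (Γ →₀ C)) :=
  Finsupp.linearCombination ℤ (fun v => lsingle v)

omit [Group Γ] in
theorem Wt_single (v : Γ) (y : C) : Wt C (single v 1) y = single v y := by
  simp [Wt]

theorem augM_Wt (a : Γ →₀ ℤ) (y : C) : augM Γ C (Wt C a y) = (degZ Γ a : ℚ) • y := by
  apply int_ind (fun a => augM Γ C (Wt C a y)) (fun a => (degZ Γ a : ℚ) • y)
  · intro a b; simp only [map_add, LinearMap.add_apply]
  · intro a b; simp only [map_add]; rw [Int.cast_add, add_smul]
  · intro v
    simp only [Wt_single, augM_single, degZ_single, Int.cast_one, one_smul]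

theorem indRep_Wt (ρ : Representation ℚ Γ C) (g : Γ) (a : Γ →₀ ℤ) (y : C) :
    indRep ρ g (Wt C a y) = Wt C (gV g a) (ρ g y) := by
  apply int_ind (fun a => indRep ρ g (Wt C a y)) (fun a => Wt C (gV g a) (ρ g y))
  · intro a b; simp only [map_add, LinearMap.add_apply]
  · intro a b; simp only [map_add, LinearMap.add_apply]
  · intro v
    simp only [Wt_single, gV_single, indRep_single]

end Weights

section Right

variable {Γ E : Type} [Group Γ] [MulAction Γ E] {Q : Edges Γ E} {G : Type} [Group G]
  (M : Magnus Q G)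

/-- The action of `G` on `Γ`. -/
def Magnus.σB : G →* Equiv.Perm Γ := (MulAction.toPermHom Γ Γ).comp M.γ

theorem Magnus.σB_apply (g : G) (v : Γ) : M.σB g v = M.γ g * v := rfl

/-- The representation of `G` on `ℚ[Γ]`. -/
noncomputable abbrev Magnus.repB : Representation ℚ G (Γ →₀ ℚ) := permRep M.σB

/-- The first complex. -/
abbrev Bq (Γ G : Type) (q : ℕ) : Type := T q G (Γ →₀ ℚ)

/-- Right multiplication by `g⁻¹` on `ℚ[Γ]`. -/
noncomputable def rightR (g : Γ) : (Γ →₀ ℚ) →ₗ[ℚ] (Γ →₀ ℚ) := lsum ℚ fun v => lsingle (v * g⁻¹)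

theorem rightR_single (g v : Γ) (r : ℚ) : rightR g (single v r) = single (v * g⁻¹) r := by
  simp [rightR]

/-- The action of `Γ` on the first complex. -/
noncomputable def rB (Γ G : Type) [Group Γ] (q : ℕ) : Representation ℚ Γ (Bq Γ G q) where
  toFun g := mp q id (rightR g)
  map_one' := by
    apply TI_ext
    intro x v r
    rw [mp_single, rightR_single]
    simp
  map_mul' g h := by
    apply TI_ext
    intro x v r
    rw [Module.End.mul_apply, mp_single, mp_single, mp_single, rightR_single, rightR_single,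
      rightR_single]
    simp [mul_assoc]

omit [Group G] in
theorem rB_single (q : ℕ) (g : Γ) (x : Fin q → G) (v : Γ) (r : ℚ) :
    rB Γ G q g (single x (single v r)) = single x (single (v * g⁻¹) r) := by
  change mp q id (rightR g) _ = _
  rw [mp_single, rightR_single]
  rfl

theorem dd_rB (q : ℕ) (g : Γ) (z : Bq Γ G (q + 1)) :
    dd M.repB q (rB Γ G (q + 1) g z) = rB Γ G q g (dd M.repB q z) := by
  apply dd_mp (ρ := M.repB) (τ := M.repB) (MonoidHom.id G) (rightR g)
  intro h m
  have e : (rightR g) ∘ₗ (M.repB h) = (M.repB h) ∘ₗ (rightR g) := by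
    apply lhom_ext
    intro v r
    rw [LinearMap.comp_apply, LinearMap.comp_apply, permRep_single, rightR_single, rightR_single,
      permRep_single, M.σB_apply, M.σB_apply, mul_assoc]
  exact DFunLike.congr_fun e m

theorem avg_rB (q : ℕ) : IsAvg (rB Γ G q) := by
  let W : Bq Γ G q →ₗ[ℚ] (Γ →₀ Bq Γ G q) := lsum ℚ fun x => lsum ℚ fun v =>
    (lsingle v⁻¹) ∘ₗ (lsingle x) ∘ₗ (lsingle v)
  have hW : ∀ x v r, W (single x (single v r)) = single v⁻¹ (single x (single v r)) := by
    intro x v r
    simp only [W, Finsupp.lsum_single]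
    rfl
  refine ⟨W, fun c => ?_, fun g c => ?_⟩
  · have h : (augM Γ (Bq Γ G q)) ∘ₗ W = LinearMap.id := by
      apply TI_ext
      intro x v r
      rw [LinearMap.comp_apply, hW, augM_single]
      rfl
    exact DFunLike.congr_fun h c
  · have h : W ∘ₗ (rB Γ G q g) = (indRep (rB Γ G q) g) ∘ₗ W := by
      apply TI_ext
      intro x v r
      rw [LinearMap.comp_apply, LinearMap.comp_apply, rB_single, hW, hW, indRep_single, rB_single,
        mul_inv_rev, inv_inv]
    exact DFunLike.congr_fun h c

theorem augS_rB (q : ℕ) (y : Bq Γ G q) :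
    y ∈ augS (rB Γ G q) ↔ mp q id (sumC Γ) y = 0 := by
  constructor
  · intro hy
    have h : augS (rB Γ G q) ≤ LinearMap.ker (mp (X := G) q id (sumC Γ)) := by
      apply Submodule.span_le.mpr
      rintro y ⟨g, x, rfl⟩
      change mp q id (sumC Γ) (rB Γ G q g x - x) = 0
      rw [map_sub, sub_eq_zero]
      have e : (mp (X := G) q id (sumC Γ)) ∘ₗ (rB Γ G q g) = mp q id (sumC Γ) := by
        apply TI_ext
        intro x v r
        rw [LinearMap.comp_apply, rB_single, mp_single, mp_single, sumC_single, sumC_single]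
      exact DFunLike.congr_fun e x
    exact h hy
  · intro hy
    have h : ∀ y : Bq Γ G q, y - mp q id (lsingle (1 : Γ)) (mp q id (sumC Γ) y) ∈
        augS (rB Γ G q) := by
      intro y
      induction y using Finsupp.induction_linear with
      | zero => simp
      | add a b ha hb =>
        rw [map_add, map_add, add_sub_add_comm]
        exact Submodule.add_mem _ ha hb
      | single x m =>
        induction m using Finsupp.induction_linear with
        | zero => simp
        | add a b ha hb =>
          rw [single_add, map_add, map_add, add_sub_add_comm]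
          exact Submodule.add_mem _ ha hb
        | single v r =>
          rw [mp_single, mp_single, sumC_single, lsingle_apply]
          have e : single x (single v r) - single (id ∘ id ∘ x) (single 1 r) =
              -(rB Γ G q v (single x (single v r)) - single x (single v r)) := by
            rw [rB_single, mul_inv_cancel, neg_sub]
            rfl
          rw [e]
          exact Submodule.neg_mem _ (Submodule.subset_span ⟨v, _, rfl⟩)
    have h1 := h y
    rw [hy, map_zero, sub_zero] at h1
    exact h1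

end Right

section Left

variable {Γ E : Type} [Group Γ] [MulAction Γ E] {Q : Edges Γ E}

/-- The action of `Γ` on the second complex. -/
noncomputable def rB' (Γ E : Type) [Group Γ] [MulAction Γ E] (n q : ℕ) :
    Representation ℚ Γ (T q (HH E) (MM Γ n)) where
  toFun g := gC n q g
  map_one' := by
    apply TI_ext
    intro x a r
    rw [gC, mp_single, gM_single]
    have e1 : gAug n (1 : Γ) a = a := by
      apply Subtype.ext
      change gV 1 a.1 = a.1
      apply int_ind (fun b => gV (1 : Γ) b) (fun b => b) (fun a b => by simp only [map_add])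
        (fun a b => rfl)
      intro v
      simp only [gV_single, one_mul]
    have e2 : (gH (1 : Γ) : HH E → HH E) ∘ x = x := by
      funext i
      change Multiplicative.ofAdd (gE (1 : Γ) (x i).toAdd) = x i
      have : gE (1 : Γ) (x i).toAdd = (x i).toAdd := by
        apply int_ind (fun b => gE (1 : Γ) b) (fun b => b) (fun a b => by simp only [map_add])
          (fun a b => rfl)
        intro v
        simp only [gE_single, one_smul]
      rw [this]; rfl
    rw [e1, e2]
    rfl
  map_mul' g h := by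
    apply TI_ext
    intro x a r
    rw [Module.End.mul_apply, gC, gC, gC, mp_single, mp_single, mp_single, gM_single, gM_single,
      gM_single]
    have e1 : gAug n (g * h) a = gAug n g (gAug n h a) := by
      apply Subtype.ext
      change gV (g * h) a.1 = gV g (gV h a.1)
      apply int_ind (fun b => gV (g * h) b) (fun b => gV g (gV h b))
        (fun a b => by simp only [map_add]) (fun a b => by simp only [map_add])
      intro v
      simp only [gV_single, mul_assoc]
    have e2 : (gH (g * h) : HH E → HH E) ∘ x = gH g ∘ gH h ∘ x := by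
      funext i
      change Multiplicative.ofAdd (gE (g * h) (x i).toAdd) =
        Multiplicative.ofAdd (gE g (gE h (x i).toAdd))
      congr 1
      apply int_ind (fun b => gE (g * h) b) (fun b => gE g (gE h b))
        (fun a b => by simp only [map_add]) (fun a b => by simp only [map_add])
      intro v
      simp only [gE_single, mul_smul]
    rw [e1, e2]

theorem avg_rB' (n q : ℕ) (hn : n ≠ 0) : IsAvg (rB' Γ E n q) := by
  let W : T q (HH E) (MM Γ n) →ₗ[ℚ] (Γ →₀ T q (HH E) (MM Γ n)) := lsum ℚ fun x => lsum ℚ fun a =>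
    (n : ℚ)⁻¹ • ((Wt (T q (HH E) (MM Γ n)) a.1) ∘ₗ (lsingle x) ∘ₗ (lsingle a))
  have hW : ∀ x a r, W (single x (single a r)) =
      (n : ℚ)⁻¹ • Wt (T q (HH E) (MM Γ n)) a.1 (single x (single a r)) := by
    intro x a r
    simp only [W, Finsupp.lsum_single]
    rfl
  refine ⟨W, fun c => ?_, fun g c => ?_⟩
  · have h : (augM Γ (T q (HH E) (MM Γ n))) ∘ₗ W = LinearMap.id := by
      apply TI_ext
      intro x a r
      rw [LinearMap.comp_apply, hW, map_smul, augM_Wt, a.2, smul_smul]
      have hn' : (n : ℚ) ≠ 0 := by exact_mod_cast hn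
      have e : (n : ℚ)⁻¹ * ((n : ℤ) : ℚ) = 1 := by
        push_cast
        exact inv_mul_cancel₀ hn'
      rw [e, one_smul]
      rfl
    exact DFunLike.congr_fun h c
  · have h : W ∘ₗ (rB' Γ E n q g) = (indRep (rB' Γ E n q) g) ∘ₗ W := by
      apply TI_ext
      intro x a r
      have e : rB' Γ E n q g (single x (single a r)) =
          single (gH g ∘ x) (single (gAug n g a) r) := by
        change gC n q g _ = _
        rw [gC, mp_single, gM_single]
      rw [LinearMap.comp_apply, LinearMap.comp_apply, e, hW, hW, map_smul, indRep_Wt, e]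
      rfl
    exact DFunLike.congr_fun h c

end Left

section Map

variable {Γ E : Type} [Group Γ] [MulAction Γ E] {Q : Edges Γ E} {G : Type} [Group G]
  (M : Magnus Q G)

theorem gE_mul (g h : Γ) (p : E →₀ ℤ) : gE (g * h) p = gE g (gE h p) := by
  apply int_ind (fun b => gE (g * h) b) (fun b => gE g (gE h b))
    (fun a b => by simp only [map_add]) (fun a b => by simp only [map_add])
  intro v
  simp only [gE_single, mul_smul]

theorem gE_one (p : E →₀ ℤ) : gE (1 : Γ) p = p := by
  apply int_ind (fun b => gE (1 : Γ) b) (fun b => b) (fun a b => by simp only [map_add])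
    (fun a b => rfl)
  intro v
  simp only [gE_single, one_smul]

/-- The labels of the vertices. -/
noncomputable def Magnus.lab (v : Γ) (x : G) : E →₀ ℤ := gE v⁻¹ (M.c x)

/-- The family of maps, on homogeneous chains. -/
noncomputable def Magnus.Fv (n q : ℕ) (v : Γ) : T (q + 1) G ℚ →ₗ[ℚ] T q (HH E) (MM Γ n) :=
  (Th Q (single v⁻¹ 1) n q) ∘ₗ (mp (q + 1) (M.lab v) LinearMap.id)

/-- The comparison map, on homogeneous chains. -/
noncomputable def Magnus.fh (n q : ℕ) : T (q + 1) G (Γ →₀ ℚ) →ₗ[ℚ] T q (HH E) (MM Γ n) :=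
  comb (q + 1) (M.Fv n q)

/-- The comparison map. -/
noncomputable def Magnus.f (n q : ℕ) : Bq Γ G q →ₗ[ℚ] T q (HH E) (MM Γ n) := (M.fh n q) ∘ₗ (sg q)

theorem Magnus.lab_mul (g x : G) (v : Γ) :
    M.lab (M.γ g * v) (g * x) = gE (M.γ g * v)⁻¹ (M.c g) + M.lab v x := by
  unfold Magnus.lab
  rw [M.mul, map_add, ← gE_mul (M.γ g * v)⁻¹ (M.γ g), mul_inv_rev, inv_mul_cancel_right]

theorem Magnus.fh_tr (hQ : Q.Equiv') (n q : ℕ) (g : G) (z : T (q + 1) G (Γ →₀ ℚ)) :
    M.fh n q (tr M.repB (q + 1) g z) = M.fh n q z := by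
  have h : (M.fh n q) ∘ₗ (tr M.repB (q + 1) g) = M.fh n q := by
    apply TI_ext
    intro x v r
    rw [LinearMap.comp_apply, tr, mp_single, permRep_single, M.σB_apply, Magnus.fh, comb_single,
      comb_single, Magnus.Fv, Magnus.Fv, LinearMap.comp_apply, LinearMap.comp_apply, mp_single,
      mp_single]
    have e1 : (single (M.lab (M.γ g * v) ∘ (fun x => g * x) ∘ x) ((LinearMap.id : ℚ →ₗ[ℚ] ℚ) r) :
        T (q + 1) (E →₀ ℤ) ℚ) = mp (q + 1) (fun y => gE (M.γ g * v)⁻¹ (M.c g) + y) LinearMap.id
          (single (M.lab v ∘ x) ((LinearMap.id : ℚ →ₗ[ℚ] ℚ) r)) := by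
      rw [mp_single]
      congr 1
      funext i
      exact M.lab_mul g (x i) v
    rw [e1, Th_translate, del_gE hQ, M.del]
    congr 2
    rw [map_sub, gV_single, gV_single, mul_one, mul_inv_rev, inv_mul_cancel_right]
    abel
  exact DFunLike.congr_fun h z

theorem Magnus.fh_bd (n q : ℕ) (z : T (q + 2) G (Γ →₀ ℚ)) :
    dd (repM Q n) q (M.fh n (q + 1) z) = M.fh n q (bd (q + 1) z) := by
  have h : (dd (repM Q n) q) ∘ₗ (M.fh n (q + 1)) = (M.fh n q) ∘ₗ (bd (q + 1)) := by
    apply TI_ext
    intro x v r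
    rw [LinearMap.comp_apply, LinearMap.comp_apply, Magnus.fh, Magnus.fh, comb_bd, comb_single,
      comb_single, Magnus.Fv, Magnus.Fv, LinearMap.comp_apply, LinearMap.comp_apply,
      LinearMap.comp_apply, dd_Th, bd_mp]
  exact DFunLike.congr_fun h z

theorem Magnus.f_dd (hQ : Q.Equiv') (n q : ℕ) (z : Bq Γ G (q + 1)) :
    dd (repM Q n) q (M.f n (q + 1) z) = M.f n q (dd M.repB q z) := by
  unfold Magnus.f
  rw [LinearMap.comp_apply, LinearMap.comp_apply, M.fh_bd]
  have h := factor M.repB q (M.fh n q) (fun g w => M.fh_tr hQ n q g w)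
    (bd (q + 1) (sg (q + 1) z))
  rw [h, pp_bd, pp_sg]

theorem Magnus.f_single (n q : ℕ) (x : Fin q → G) (v : Γ) (r : ℚ) :
    M.f n q (single x (single v r)) = M.Fv n q v (single (Fin.partialProd x) r) := by
  rw [Magnus.f, LinearMap.comp_apply, sg_single, Magnus.fh, comb_single]

theorem Magnus.f_equiv (hQ : Q.Equiv') (n q : ℕ) (g : Γ) (z : Bq Γ G q) :
    M.f n q (rB Γ G q g z) = rB' Γ E n q g (M.f n q z) := by
  have h : (M.f n q) ∘ₗ (rB Γ G q g) = (rB' Γ E n q g) ∘ₗ (M.f n q) := by
    apply TI_ext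
    intro x v r
    rw [LinearMap.comp_apply, LinearMap.comp_apply, rB_single, M.f_single, M.f_single, Magnus.Fv,
      Magnus.Fv, LinearMap.comp_apply, LinearMap.comp_apply, mp_single, mp_single]
    have e1 : (single (M.lab (v * g⁻¹) ∘ Fin.partialProd x) ((LinearMap.id : ℚ →ₗ[ℚ] ℚ) r) :
        T (q + 1) (E →₀ ℤ) ℚ) = mp (q + 1) (gE g) LinearMap.id
          (single (M.lab v ∘ Fin.partialProd x) ((LinearMap.id : ℚ →ₗ[ℚ] ℚ) r)) := by
      rw [mp_single]
      congr 1
      funext i
      simp only [Function.comp_apply, Magnus.lab]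
      rw [← gE_mul, mul_inv_rev, inv_inv]
    have e2 : (single (v * g⁻¹)⁻¹ 1 : Γ →₀ ℤ) = gV g (single v⁻¹ 1) := by
      rw [gV_single, mul_inv_rev, inv_inv]
    rw [e1, e2, Th_equiv hQ]
    rfl
  exact DFunLike.congr_fun h z

/-- The pairing with the first complex. -/
noncomputable def Magnus.pairB (q : ℕ) (ω : Frm (E →₀ ℤ) q) : Bq Γ G q →ₗ[ℚ] ℚ :=
  (comb (q + 1) (fun v => hpair (M.lab v) q ω)) ∘ₗ (sg q)

theorem Magnus.pairM_f (n q : ℕ) (ω : Frm (E →₀ ℤ) q) (z : Bq Γ G q) :
    pairM n q ω (M.f n q z) = (n.descFactorial q : ℚ) * M.pairB q ω z := by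
  have h : (pairM n q ω) ∘ₗ (M.f n q) = (n.descFactorial q : ℚ) • M.pairB q ω := by
    apply TI_ext
    intro x v r
    rw [LinearMap.comp_apply, M.f_single, Magnus.Fv, LinearMap.comp_apply,
      pairM_Th Q _ (degZ_single _ _), hpair_mp, LinearMap.smul_apply, Magnus.pairB,
      LinearMap.comp_apply, sg_single, comb_single]
    rfl
  exact DFunLike.congr_fun h z

theorem Magnus.pairB_dd (q : ℕ) (ω : Frm (E →₀ ℤ) q) (z : Bq Γ G (q + 1)) :
    M.pairB q ω (dd M.repB q z) = 0 := by
  have hinv : ∀ (g : G) (w : T (q + 1) G (Γ →₀ ℚ)),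
      comb (q + 1) (fun v => hpair (M.lab v) q ω) (tr M.repB (q + 1) g w) =
        comb (q + 1) (fun v => hpair (M.lab v) q ω) w := by
    intro g w
    have h : (comb (q + 1) (fun v => hpair (M.lab v) q ω)) ∘ₗ (tr M.repB (q + 1) g) =
        comb (q + 1) (fun v => hpair (M.lab v) q ω) := by
      apply TI_ext
      intro x v r
      rw [LinearMap.comp_apply, tr, mp_single, permRep_single, M.σB_apply, comb_single,
        comb_single, hpair_single, hpair_single]
      congr 2
      funext i
      simp only [Function.comp_apply]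
      rw [M.lab_mul, M.lab_mul]
      abel
    exact DFunLike.congr_fun h w
  have h := factor M.repB q (comb (q + 1) (fun v => hpair (M.lab v) q ω)) hinv
    (bd (q + 1) (sg (q + 1) z))
  rw [pp_bd, pp_sg] at h
  rw [Magnus.pairB, LinearMap.comp_apply, ← h, comb_bd]
  have h0 : comb (q + 2) (fun v => (hpair (M.lab v) q ω) ∘ₗ (bd (X := G) (M := ℚ) (q + 1))) = 0 := by
    apply TI_ext
    intro x v r
    rw [comb_single, LinearMap.comp_apply, hpair_bd]
    rfl
  rw [h0]; rfl

end Map

end Pool.Agent.Y483
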