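import Pool.Agent.Y483.Wang

/-!
Rational homology of free abelian groups is detected by alternating forms.
-/

namespace Pool.Agent.Y483

open Finsupp

theorem zero_of_pair {A : Type*} [AddCommGroup A] {G : Type*} (c : G → A) (z : T 0 G ℚ)
    (h : ∀ ω : Frm A 0, ipair c 0 LinearMap.id ω z = 0) : z = 0 := by
  have h1 := h (AlternatingMap.constOfIsEmpty ℤ A (Fin 0) (1 : ℚ))
  rw [Finsupp.unique_single z, ipair_single] at h1
  simp only [AlternatingMap.constOfIsEmpty_apply, Function.const_apply, LinearMap.id_apply,
    one_mul] at h1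
  rw [Finsupp.unique_single z, h1, single_zero]

section Forms

variable {E : Type*}

/-- The wedge product of the coordinate `e` with a form. -/
noncomputable def wform (e : E) {q : ℕ} (ω : Frm (E →₀ ℤ) q) : Frm (E →₀ ℤ) (q + 1) :=
  AlternatingMap.alternatizeUncurryFin ((Finsupp.lapply e : (E →₀ ℤ) →ₗ[ℤ] ℤ).smulRight ω)

theorem wform_apply (e : E) {q : ℕ} (ω : Frm (E →₀ ℤ) q) (v : Fin (q + 1) → (E →₀ ℤ)) :
    wform e ω v = ∑ i : Fin (q + 1), (-1) ^ (i : ℕ) • ((v i e) • ω (Fin.removeNth i v)) := by
  unfold wform
  rw [AlternatingMap.alternatizeUncurryFin_apply]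
  rfl

theorem wform_eq_zero (e : E) {q : ℕ} (ω : Frm (E →₀ ℤ) q) (v : Fin (q + 1) → (E →₀ ℤ))
    (hv : ∀ i, v i e = 0) : wform e ω v = 0 := by
  rw [wform_apply]
  apply Finset.sum_eq_zero
  intro i _
  rw [hv, zero_smul, smul_zero]

theorem wform_curry (e : E) {q : ℕ} (ω : Frm (E →₀ ℤ) q) (u : E →₀ ℤ) (v : Fin q → (E →₀ ℤ))
    (hv : ∀ i, v i e = 0) : (wform e ω).curryLeft u v = (u e : ℚ) * ω v := by
  rw [AlternatingMap.curryLeft_apply_apply, wform_apply, Fin.sum_univ_succ, Finset.sum_eq_zero]
  · rw [Fin.val_zero, pow_zero, one_smul, Matrix.cons_val_zero, zsmul_eq_mul, add_zero]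
    rfl
  · intro i _
    rw [Matrix.cons_val_succ, hv, zero_smul, smul_zero]

/-- The wedge product of coordinates. -/
noncomputable def Wf : (q : ℕ) → (Fin q → E) → Frm (E →₀ ℤ) q
  | 0, _ => AlternatingMap.constOfIsEmpty ℤ (E →₀ ℤ) (Fin 0) (1 : ℚ)
  | q + 1, v => wform (v 0) (Wf q (Fin.tail v))

theorem Wf_succ (q : ℕ) (e : E) (v : Fin q → E) :
    Wf (q + 1) (Fin.cons e v : Fin (q + 1) → E) = wform e (Wf q v) := by
  rw [Wf, Fin.cons_zero, Fin.tail_cons]

theorem zero_of_Wf {G : Type*} (c : G → (E →₀ ℤ)) (z : T 0 G ℚ)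
    (h : ∀ v : Fin 0 → E, ipair c 0 LinearMap.id (Wf 0 v) z = 0) : z = 0 := by
  have h1 := h (fun i => i.elim0)
  rw [Finsupp.unique_single z, ipair_single, Wf] at h1
  simp only [AlternatingMap.constOfIsEmpty_apply, Function.const_apply, LinearMap.id_apply,
    one_mul] at h1
  rw [Finsupp.unique_single z, h1, single_zero]

/-- A cycle of positive degree of a subsingleton group bounds. -/
theorem range_of_subsingleton {K : Type} [CommGroup K] [Subsingleton K] (q : ℕ)
    (z : T (q + 1) K ℚ) (hz : dd (trivR K ℚ) q z = 0) :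
    z ∈ LinearMap.range (dd (trivR K ℚ) (q + 1)) := by
  have h := one_range (H := K) (trivR K ℚ) (fun _ => rfl) (trivR K ℚ) (fun _ => rfl) q z hz
  have e : (fun _ : K => (1 : K)) = id := by
    funext x
    exact Subsingleton.elim _ _
  rw [e, mp_id] at h
  exact h

/-- **Detection**, finite rank. -/
theorem detect_finite (E₀ : Finset E) : ∀ (K : Type) [CommGroup K] (c : K → (E →₀ ℤ))
    (_ : ∀ g h, c (g * h) = c g + c h) (_ : Function.Injective c)
    (_ : ∀ k, (c k).support ⊆ E₀) (q : ℕ) (z : T q K ℚ) (_ : Cyc (trivR K ℚ) q z)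
    (_ : ∀ v : Fin q → E, ipair c q LinearMap.id (Wf q v) z = 0),
    z ∈ LinearMap.range (dd (trivR K ℚ) q) := by
  classical
  induction E₀ using Finset.induction_on with
  | empty =>
    intro K _ c hc hinj hsupp q z hz hω
    have hsub : Subsingleton K := by
      refine ⟨fun a b => hinj ?_⟩
      have h : ∀ k, c k = 0 := fun k => by
        rw [← Finsupp.support_eq_empty]
        exact Finset.subset_empty.mp (hsupp k)
      rw [h, h]
    cases q with
    | zero =>
      rw [zero_of_Wf c z hω]
      exact Submodule.zero_mem _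
    | succ q => exact range_of_subsingleton q z ((cyc_succ _ _ _).mp hz)
  | insert e E₀ he ih =>
    intro K _ c hc hinj hsupp q z hz hω
    cases q with
    | zero =>
      rw [zero_of_Wf c z hω]
      exact Submodule.zero_mem _
    | succ q =>
    rw [cyc_succ] at hz
    set l : K → ℤ := fun k => c k e with hl
    have hladd : ∀ g h, l (g * h) = l g + l h := by
      intro g h
      simp only [hl, hc, Finsupp.add_apply]
    by_cases h0 : ∀ k, l k = 0
    · apply ih K c hc hinj _ (q + 1) z ((cyc_succ _ _ _).mpr hz) hω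
      intro k x hx
      have h1 := hsupp k hx
      rw [Finset.mem_insert] at h1
      rcases h1 with rfl | h1
      · exact absurd (h0 k) (Finsupp.mem_support_iff.mp hx)
      · exact h1
    · -- a generator of the image
      let F : Additive K →+ ℤ :=
        { toFun := fun k => l k.toMul
          map_zero' := map_one_zero l hladd
          map_add' := fun a b => hladd a.toMul b.toMul }
      obtain ⟨d, hd⟩ := Int.subgroup_cyclic F.range
      have hdiv : ∀ k, ∃ n : ℤ, l k = n * d := by
        intro k
        have h1 : l k ∈ F.range := ⟨Additive.ofMul k, rfl⟩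
        rw [hd, AddSubgroup.mem_closure_singleton] at h1
        obtain ⟨n, hn⟩ := h1
        exact ⟨n, by rw [← hn, smul_eq_mul]⟩
      have hdmem : d ∈ F.range := by
        rw [hd]
        exact AddSubgroup.subset_closure rfl
      obtain ⟨t, ht⟩ := hdmem
      have ht' : l t.toMul = d := ht
      have hd0 : d ≠ 0 := by
        intro h
        apply h0
        intro k
        obtain ⟨n, hn⟩ := hdiv k
        rw [hn, h, mul_zero]
      choose l' hl' using hdiv
      have hl'add : ∀ g h, l' (g * h) = l' g + l' h := by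
        intro g h
        have h1 := hladd g h
        rw [hl', hl' g, hl' h, ← add_mul] at h1
        exact mul_right_cancel₀ hd0 h1
      have hl't : l' t.toMul = 1 := by
        have h1 := hl' t.toMul
        rw [ht'] at h1
        have h2 : 1 * d = l' t.toMul * d := by rw [one_mul]; exact h1
        exact (mul_right_cancel₀ hd0 h2).symm
      let K' : Subgroup K :=
        { carrier := {k | l k = 0}
          mul_mem' := fun {a b} ha hb => by
            change l (a * b) = 0
            rw [hladd]
            have ha' : l a = 0 := ha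
            have hb' : l b = 0 := hb
            rw [ha', hb', add_zero]
          one_mem' := map_one_zero l hladd
          inv_mem' := fun {a} ha => by
            change l a⁻¹ = 0
            have ha' : l a = 0 := ha
            rw [map_inv_neg l hladd, ha', neg_zero] }
      have hK' : ∀ k, k ∈ K' ↔ l' k = 0 := by
        intro k
        change l k = 0 ↔ l' k = 0
        rw [hl', mul_eq_zero, or_iff_left hd0]
      obtain ⟨y, y', hy, hy', v, hv⟩ := wang l' hl'add t.toMul hl't K' hK' q z hz
      -- the labels on `K'`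
      set c' : K' → (E →₀ ℤ) := fun k => c k.1 with hc'
      have hc'e : ∀ k : K', c' k e = 0 := fun k => k.2
      have hc'add : ∀ g h, c' (g * h) = c' g + c' h := fun g h => hc g.1 h.1
      have hc'inj : Function.Injective c' := fun a b h => Subtype.ext (hinj h)
      have hc'supp : ∀ k, (c' k).support ⊆ E₀ := by
        intro k x hx
        have h1 := hsupp k.1 hx
        rw [Finset.mem_insert] at h1
        rcases h1 with rfl | h1
        · exact absurd (hc'e k) (Finsupp.mem_support_iff.mp hx)
        · exact h1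
      have hpair : ∀ (m : ℕ) (ω : Frm (E →₀ ℤ) m) (x : T m K' ℚ),
          ipair c m LinearMap.id ω (mp m K'.subtype LinearMap.id x) =
            ipair c' m LinearMap.id ω x := by
        intro m ω x
        rw [ipair_mp]
        rfl
      have hbd : ∀ (ω : Frm (E →₀ ℤ) (q + 1)) (x : T (q + 2) K ℚ),
          ipair c (q + 1) LinearMap.id ω (dd (trivR K ℚ) (q + 1) x) = 0 := by
        intro ω x
        exact ipair_dd (ρ := trivR K ℚ) c hc LinearMap.id (fun _ _ => rfl) (q + 1) ω x
      -- the first component
      have hy'0 : ∀ w : Fin q → E, ipair c' q LinearMap.id (Wf q w) y' = 0 := by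
        intro w
        have h0' := hω (Fin.cons e w)
        rw [Wf_succ] at h0'
        set ω := Wf q w
        have h1 := hbd (wform e ω) v
        rw [hv, map_sub, map_add, h0', zero_add, hpair] at h1
        have h2 : ipair c' (q + 1) LinearMap.id (wform e ω) y = 0 := by
          have h3 : ipair c' (q + 1) (LinearMap.id : ℚ →ₗ[ℚ] ℚ) (wform e ω) = 0 := by
            apply T_ext
            intro x r
            rw [ipair_single, wform_eq_zero e ω _ (fun i => hc'e (x i)), zero_mul]
            rfl
          rw [h3]; rfl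
        rw [h2, sub_zero, ipair_Sop (ρ' := trivR K ℚ) c hc LinearMap.id LinearMap.id
          (fun _ _ => rfl) t.toMul LinearMap.id (fun _ => rfl), hpair] at h1
        have h4 : ipair c' q (LinearMap.id : ℚ →ₗ[ℚ] ℚ) ((wform e ω).curryLeft (c t.toMul)) =
            (d : ℚ) • ipair c' q LinearMap.id ω := by
          apply T_ext
          intro x r
          rw [LinearMap.smul_apply, ipair_single, ipair_single,
            wform_curry e ω _ _ (fun i => hc'e (x i))]
          have h5 : c t.toMul e = d := ht'
          rw [h5, smul_eq_mul, mul_assoc]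
        rw [h4, LinearMap.smul_apply, smul_eq_mul] at h1
        have h6 : ((q : ℚ) + 1) ≠ 0 := by positivity
        have h7 : (d : ℚ) ≠ 0 := by exact_mod_cast hd0
        rcases mul_eq_zero.mp h1 with h8 | h8
        · exact absurd h8 h6
        · rcases mul_eq_zero.mp h8 with h9 | h9
          · exact absurd h9 h7
          · exact h9
      obtain ⟨v', hv'⟩ := ih K' c' hc'add hc'inj hc'supp q y' hy' hy'0
      -- the product with `t` bounds
      have hS : Sop (trivR K ℚ) t.toMul LinearMap.id q (mp q K'.subtype LinearMap.id y') =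
          dd (trivR K ℚ) (q + 1) (- Sop (trivR K ℚ) t.toMul LinearMap.id (q + 1)
            (mp (q + 1) K'.subtype LinearMap.id v')) := by
        have h1 := dd_Sop_succ (ρ := trivR K ℚ) (ρ' := trivR K ℚ) t.toMul LinearMap.id
          (fun _ _ => rfl) q (mp (q + 1) K'.subtype LinearMap.id v')
        have h2 : dd (trivR K ℚ) q (mp (q + 1) K'.subtype LinearMap.id v') =
            mp q K'.subtype LinearMap.id y' := by
          rw [← hv']
          exact dd_mp (ρ := trivR K' ℚ) (τ := trivR K ℚ) K'.subtype LinearMap.id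
            (fun _ _ => rfl) q v'
        have h3 : (trivR K ℚ (t.toMul)⁻¹) ∘ₗ (LinearMap.id : ℚ →ₗ[ℚ] ℚ) = LinearMap.id := rfl
        rw [h2, h3, sub_self] at h1
        rw [map_neg]
        exact eq_neg_of_add_eq_zero_right h1
      have hy0 : ∀ w : Fin (q + 1) → E, ipair c' (q + 1) LinearMap.id (Wf (q + 1) w) y = 0 := by
        intro w
        have h1 := hbd (Wf (q + 1) w) v
        rw [hv, map_sub, map_add, hω, zero_add, hpair, hS, hbd, zero_sub, neg_eq_zero] at h1
        exact h1
      obtain ⟨v₂, hv₂⟩ := ih K' c' hc'add hc'inj hc'supp (q + 1) y ((cyc_succ _ _ _).mpr hy) hy0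
      have hy2 : mp (q + 1) K'.subtype LinearMap.id y =
          dd (trivR K ℚ) (q + 1) (mp (q + 2) K'.subtype LinearMap.id v₂) := by
        rw [← hv₂]
        exact (dd_mp (ρ := trivR K' ℚ) (τ := trivR K ℚ) K'.subtype LinearMap.id
          (fun _ _ => rfl) (q + 1) v₂).symm
      have hz2 : z = dd (trivR K ℚ) (q + 1) v -
          Sop (trivR K ℚ) t.toMul LinearMap.id q (mp q K'.subtype LinearMap.id y') +
          mp (q + 1) K'.subtype LinearMap.id y := by
        rw [hv]; abel
      rw [hz2, hy2, hS]
      exact Submodule.add_mem _ (Submodule.sub_mem _ ⟨_, rfl⟩ ⟨_, rfl⟩) ⟨_, rfl⟩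

/-- **Detection.** A rational cycle of a commutative group `K` with an injective homomorphism to
the free abelian group on `E`, all of whose pairings with wedge products of coordinates vanish, is a
boundary. -/
theorem detectW {K : Type} [CommGroup K] (c : K → (E →₀ ℤ)) (hc : ∀ g h, c (g * h) = c g + c h)
    (hinj : Function.Injective c) (q : ℕ) (z : T q K ℚ) (hz : Cyc (trivR K ℚ) q z)
    (hω : ∀ v : Fin q → E, ipair c q LinearMap.id (Wf q v) z = 0) :
    z ∈ LinearMap.range (dd (trivR K ℚ) q) := by
  classical
  let E₀ : Finset E := z.support.biUnion fun x => Finset.univ.biUnion fun i => (c (x i)).support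
  let K₀ : Subgroup K :=
    { carrier := {k | (c k).support ⊆ E₀}
      mul_mem' := fun {a b} ha hb => by
        change (c (a * b)).support ⊆ E₀
        rw [hc]
        exact Finsupp.support_add.trans (Finset.union_subset ha hb)
      one_mem' := by
        change (c 1).support ⊆ E₀
        rw [map_one_zero c hc, Finsupp.support_zero]
        exact Finset.empty_subset _
      inv_mem' := fun {a} ha => by
        change (c a⁻¹).support ⊆ E₀
        rw [map_inv_neg c hc, Finsupp.support_neg]
        exact ha }
  let κ : K → K₀ := fun k => if h : k ∈ K₀ then ⟨k, h⟩ else 1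
  have hκ : ∀ k ∈ K₀, (κ k : K) = k := by
    intro k hk
    simp only [κ, dif_pos hk]
  let z₀ : T q K₀ ℚ := mp q κ LinearMap.id z
  have hz₀ : mp q K₀.subtype LinearMap.id z₀ = z := by
    have h1 : mp q K₀.subtype LinearMap.id z₀ = mp q (K₀.subtype ∘ κ) LinearMap.id z := by
      rw [mp_mp]; rfl
    rw [h1]
    have h2 : mp q (K₀.subtype ∘ κ) LinearMap.id z = z.sum (fun x m => single x m) := by
      conv_lhs => rw [← Finsupp.sum_single z]
      rw [Finsupp.sum, map_sum]
      apply Finset.sum_congr rfl
      intro x hx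
      rw [mp_single]
      congr 1
      funext i
      apply hκ
      change (c (x i)).support ⊆ E₀
      intro e he
      exact Finset.mem_biUnion.mpr ⟨x, hx, Finset.mem_biUnion.mpr ⟨i, Finset.mem_univ i, he⟩⟩
    rw [h2, Finsupp.sum_single]
  have hcyc : Cyc (trivR K₀ ℚ) q z₀ := by
    apply cyc_of_mp (τ := trivR K ℚ) K₀.subtype LinearMap.id (fun _ _ => rfl)
      K₀.subtype_injective (fun _ _ h => h)
    rw [hz₀]
    exact hz
  have h := detect_finite E₀ K₀ (fun k => c k.1) (fun g h => hc g.1 h.1)
    (fun a b h => Subtype.ext (hinj h)) (fun k => k.2) q z₀ hcyc (by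
      intro w
      have h1 := hω w
      rw [← hz₀, ipair_mp] at h1
      exact h1)
  rw [← hz₀]
  exact range_mp (ρ := trivR K₀ ℚ) (τ := trivR K ℚ) K₀.subtype LinearMap.id (fun _ _ => rfl) q z₀ h

theorem detect {K : Type} [CommGroup K] (c : K → (E →₀ ℤ)) (hc : ∀ g h, c (g * h) = c g + c h)
    (hinj : Function.Injective c) (q : ℕ) (z : T q K ℚ) (hz : Cyc (trivR K ℚ) q z)
    (hω : ∀ ω : Frm (E →₀ ℤ) q, ipair c q LinearMap.id ω z = 0) :
    z ∈ LinearMap.range (dd (trivR K ℚ) q) :=
  detectW c hc hinj q z hz (fun v => hω (Wf q v))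

end Forms

end Pool.Agent.Y483
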