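import Pool.Agent.Y483.Theta
import Pool.Agent.Y483.Bridge

/-!
Rational assembly maps and the kernel theorem for semidirect products with a support system.
-/

namespace Pool.Agent.Y483

open Finsupp CategoryTheory DirectSum

universe v

/-- The rational homology `H_j(G; ℚ)` of the group `G`. -/
noncomputable abbrev HQ (j : ℕ) (G : Type) [Group G] : Type :=
  groupHomology (Rep.trivial ℚ G ℚ) j

/-- The map induced on rational homology by a homomorphism of groups. -/
noncomputable def hqMap {G K : Type} [Group G] [Group K] (f : G →* K) (j : ℕ) :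
    HQ j G →ₗ[ℚ] HQ j K := (groupHomology.map f (trivHom f) j).hom

theorem hqMap_id (G : Type) [Group G] (j : ℕ) (x : HQ j G) : hqMap (MonoidHom.id G) j x = x := by
  have h : groupHomology.map (MonoidHom.id G) (trivHom (MonoidHom.id G)) j = 𝟙 _ := by
    rw [← groupHomology.map_id]
    exact groupHomology.map_congr rfl rfl j
  exact congrArg (fun f => f.hom x) h

theorem hqMap_comp {G K L : Type} [Group G] [Group K] [Group L] (g : K →* L) (f : G →* K) (j : ℕ)
    (x : HQ j G) : hqMap (g.comp f) j x = hqMap g j (hqMap f j x) := by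
  have h : groupHomology.map (g.comp f) (trivHom (g.comp f)) j =
      groupHomology.map f (trivHom f) j ≫ groupHomology.map g (trivHom g) j := by
    rw [← groupHomology.map_comp]
    exact groupHomology.map_congr rfl rfl j
  exact congrArg (fun f => f.hom x) h

theorem Rpr.hq {G K : Type} [Group G] [Group K] (f : G →* K) {j : ℕ} {z : T j G ℚ} {x : HQ j G}
    (h : Rpr (Rep.trivial ℚ G ℚ) j z x) :
    Rpr (Rep.trivial ℚ K ℚ) j (mp j f LinearMap.id z) (hqMap f j x) :=
  h.map f (trivHom f)

/-- The trivial representation on `ℚ`. -/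
noncomputable abbrev tQ (G : Type) [Group G] : Representation ℚ G ℚ :=
  (Rep.trivial ℚ G ℚ).ρ

theorem tQ_apply (G : Type) [Group G] (g : G) : tQ G g = LinearMap.id := rfl

/-- Inner automorphisms act trivially on rational homology. -/
theorem hqMap_conj {G K : Type} [Group G] [Group K] (f : G →* K) (k : K) (j : ℕ) (x : HQ j G) :
    hqMap (conjHom f k) j x = hqMap f j x := by
  obtain ⟨z, hz⟩ := exists_rpr (Rep.trivial ℚ G ℚ) j x
  have h1 := (hz.hq (conjHom f k)).sub (hz.hq f)
  rw [← sub_eq_zero, h1.eq_zero_iff]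
  have h2 := plain (ρ := tQ G) (τ := tQ K) f LinearMap.id (fun _ _ => rfl) k⁻¹ j z hz.cyc
  have e : mp j (fun x => (k⁻¹)⁻¹ * f x * k⁻¹) ((tQ K (k⁻¹)⁻¹) ∘ₗ LinearMap.id) z =
      mp j (conjHom f k) LinearMap.id z := by
    congr 2
    funext x
    simp [conjHom]
  rw [e] at h2
  exact h2

/-- The trivial homomorphism induces zero in positive degrees. -/
theorem hqMap_one {G K : Type} [Group G] [Group K] (j : ℕ) (x : HQ (j + 1) G) :
    hqMap (1 : G →* K) (j + 1) x = 0 := by
  obtain ⟨z, hz⟩ := exists_rpr (Rep.trivial ℚ G ℚ) (j + 1) x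
  have h1 := hz.hq (1 : G →* K)
  rw [h1.eq_zero_iff]
  exact one_range (tQ G) (fun _ => rfl) (tQ K) (fun _ => rfl) j z ((cyc_succ _ _ _).mp hz.cyc)

/-- The total rational homology `⨁_{j ∈ J} H_j(G; ℚ)`. -/
abbrev HJ (J : Set ℕ) (G : Type) [Group G] : Type := ⨁ j : J, HQ j G

/-- The map induced on the total rational homology. -/
noncomputable def hjMap {G K : Type} [Group G] [Group K] (J : Set ℕ) (f : G →* K) :
    HJ J G →ₗ[ℚ] HJ J K := DirectSum.lmap (fun j : J => hqMap f j)

theorem hjMap_apply {G K : Type} [Group G] [Group K] (J : Set ℕ) (f : G →* K) (x : HJ J G)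
    (j : J) : hjMap J f x j = hqMap f j (x j) := by
  unfold hjMap
  exact DirectSum.lmap_apply _ _ _

theorem hjMap_of {G K : Type} [Group G] [Group K] (J : Set ℕ) (f : G →* K) (j : J) (x : HQ j G) :
    hjMap J f (DirectSum.of (fun j : J => HQ j G) j x) =
      DirectSum.of (fun j : J => HQ j K) j (hqMap f j x) := by
  unfold hjMap
  exact DirectSum.lmap_lof _ _ _

theorem hjMap_id (G : Type) [Group G] (J : Set ℕ) (x : HJ J G) :
    hjMap J (MonoidHom.id G) x = x := by
  apply DFunLike.ext
  intro j
  rw [hjMap_apply, hqMap_id]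

theorem hjMap_comp {G K L : Type} [Group G] [Group K] [Group L] (J : Set ℕ) (g : K →* L)
    (f : G →* K) (x : HJ J G) : hjMap J (g.comp f) x = hjMap J g (hjMap J f x) := by
  apply DFunLike.ext
  intro j
  rw [hjMap_apply, hjMap_apply, hjMap_apply, hqMap_comp]

theorem hjMap_conj {G K : Type} [Group G] [Group K] (J : Set ℕ) (f : G →* K) (k : K)
    (x : HJ J G) : hjMap J (conjHom f k) x = hjMap J f x := by
  apply DFunLike.ext
  intro j
  rw [hjMap_apply, hjMap_apply, hqMap_conj]

/-- A rational assembly map: for every degree `j` a natural transformation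
`α_j : H_j(G; ℚ) → E(ℤ[G × T])` of functors of the group `G`. -/
structure Assembly (E : LFunctor.{v}) (T : Type) [Group T] where
  /-- The components. -/
  app : ∀ (j : ℕ) (G : Type) [Group G], HQ j G →ₗ[ℚ] E.obj (MonoidAlgebra ℤ (G × T))
  nat : ∀ (j : ℕ) {G K : Type} [Group G] [Group K] (f : G →* K) (x : HQ j G),
    E.map (zgMap (timesT f T)) (app j G x) = app j K (hqMap f j x)

variable {T₀ : Type} [Group T₀]

/-- The total assembly map `⨁_{j ∈ J} H_j(G; ℚ) → E(ℤ[G])`. -/
noncomputable def Assembly.total {E : LFunctor.{v}} (A : Assembly E T₀) (J : Set ℕ) (G : Type)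
    [Group G] : HJ J G →ₗ[ℚ] E.obj (MonoidAlgebra ℤ (G × T₀)) :=
  DirectSum.toModule ℚ J _ (fun j : J => A.app j G)

theorem Assembly.total_of {E : LFunctor.{v}} (A : Assembly E T₀) (J : Set ℕ) (G : Type) [Group G]
    (j : J) (y : HQ j G) :
    A.total J G (DirectSum.of (fun j : J => HQ j G) j y) = A.app j G y :=
  DirectSum.toModule_lof ℚ (φ := fun j : J => A.app j G) j y

theorem Assembly.total_nat {E : LFunctor.{v}} (A : Assembly E T₀) (J : Set ℕ) {G K : Type}
    [Group G] [Group K] (f : G →* K) (x : HJ J G) :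
    E.map (zgMap (timesT f T₀)) (A.total J G x) = A.total J K (hjMap J f x) := by
  have h : (E.map (zgMap (timesT f T₀))) ∘ₗ (A.total J G) = (A.total J K) ∘ₗ (hjMap J f) := by
    apply DirectSum.linearMap_ext
    intro j
    apply LinearMap.ext
    intro y
    change E.map (zgMap (timesT f T₀)) (A.total J G (DirectSum.of _ j y)) =
      A.total J K (hjMap J f (DirectSum.of _ j y))
    rw [hjMap_of, A.total_of, A.total_of]
    exact A.nat j f y
  exact DFunLike.congr_fun h x

/-- Reduced total rational homology: the kernel of the map to the homology of the trivial group. -/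
noncomputable def redH (J : Set ℕ) : HFunctor.{0} where
  obj G _ := LinearMap.ker (hjMap J (1 : G →* Unit))
  grp G _ := inferInstance
  mod G _ := inferInstance
  map {G K} _ _ f := (hjMap J f).restrict (fun x hx => by
    rw [LinearMap.mem_ker] at *
    rw [← hjMap_comp]
    have : (1 : K →* Unit).comp f = 1 := rfl
    rw [this, hx])
  map_id G _ x := Subtype.ext (hjMap_id G J x.1)
  map_comp g f x := Subtype.ext (hjMap_comp J g f x.1)
  map_one {G K} _ _ x := by
    apply Subtype.ext
    change hjMap J (1 : G →* K) x.1 = 0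
    have : (1 : G →* K) = (1 : Unit →* K).comp (1 : G →* Unit) := rfl
    rw [this, hjMap_comp, LinearMap.mem_ker.mp x.2, map_zero]

/-- The inclusion of the reduced homology. -/
noncomputable def redSub (J : Set ℕ) (G : Type) [Group G] : (redH J).obj G →ₗ[ℚ] HJ J G :=
  (LinearMap.ker (hjMap J (1 : G →* Unit))).subtype

theorem redH_conj (J : Set ℕ) : (redH J).ConjInv := by
  intro G K _ _ f k x
  apply Subtype.ext
  exact hjMap_conj J f k x.1

/-- The restriction of the total assembly map to the reduced homology. -/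
noncomputable def Assembly.red {E : LFunctor.{v}} (A : Assembly E T₀) (J : Set ℕ) :
    Transf (redH J) E T₀ where
  app G _ := (A.total J G) ∘ₗ (LinearMap.ker (hjMap J (1 : G →* Unit))).subtype
  nat f x := A.total_nat J f x.1

variable {Γ N : Type} [Group Γ] [Group N] {φ : Γ →* MulAut N}

theorem tQ_res : resW φ (tQ Γ) = tQ (N ⋊[φ] Γ) := rfl

/-- A class of `N ⋊ Γ` of positive degree which dies in `Γ` comes from a part of `N` supported on
a finite set; in degree `0` it vanishes. -/
theorem class_from_base (ss : SupportSystem φ) (j : ℕ) (x : HQ j (N ⋊[φ] Γ))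
    (hx : hqMap SemidirectProduct.rightHom j x = 0) :
    ∃ (S : Finset Γ) (b : HQ j N), hqMap (ss.e S) j b = b ∧
      hqMap (1 : N →* Unit) j b = 0 ∧ hqMap SemidirectProduct.inl j b = x := by
  obtain ⟨z, hz⟩ := exists_rpr _ j x
  have h1 := (hz.hq SemidirectProduct.rightHom).eq_zero_iff.mp hx
  obtain ⟨h0, b, hb, hzb⟩ := from_base ss j ℚ (tQ Γ) z hz.cyc h1
  cases j with
  | zero =>
    refine ⟨∅, 0, map_zero _, map_zero _, ?_⟩
    rw [map_zero]
    exact (hz.eq_zero_iff.mpr (h0 rfl)).symm
  | succ j =>
    obtain ⟨S, hS⟩ := exists_supp ss (j + 1) b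
    obtain ⟨c, hc⟩ := exists_class (A := Rep.trivial ℚ N ℚ) (j + 1) b hb
    refine ⟨S, c, ?_, hqMap_one j c, ?_⟩
    · have h2 := (hc.hq (ss.e S)).sub hc
      rw [← sub_eq_zero, h2.eq_zero_iff]
      have h3 : mp (j + 1) (ss.e S) LinearMap.id b = b := hS
      rw [h3, sub_self]
      exact Submodule.zero_mem _
    · have h2 := hz.sub (hc.hq SemidirectProduct.inl)
      symm
      rw [← sub_eq_zero, h2.eq_zero_iff]
      exact hzb

theorem e_mono (ss : SupportSystem φ) (j : ℕ) {S S' : Set Γ} (h : S ⊆ S') {b : HQ j N}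
    (hb : hqMap (ss.e S) j b = b) : hqMap (ss.e S') j b = b := by
  have h1 : (ss.e S').comp (ss.e S) = ss.e S := by
    ext1 n
    rw [MonoidHom.comp_apply, ss.inter, Set.inter_eq_right.mpr h]
  rw [← hb, ← hqMap_comp, h1]

/-- The total version. -/
theorem total_from_base (ss : SupportSystem φ) (J : Set ℕ) (x : HJ J (N ⋊[φ] Γ))
    (hx : hjMap J SemidirectProduct.rightHom x = 0) :
    ∃ (S : Finset Γ) (b : HJ J N), hjMap J (1 : N →* Unit) b = 0 ∧
      hjMap J (ss.incl (S : Set Γ)) b = x := by
  classical
  have h1 : ∀ j : J, ∃ (S : Finset Γ) (b : HQ j N), hqMap (ss.e S) j b = b ∧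
      hqMap (1 : N →* Unit) j b = 0 ∧ hqMap SemidirectProduct.inl j b = x j := by
    intro j
    apply class_from_base ss
    rw [← hjMap_apply, hx]
    rfl
  choose S b hb1 hb2 hb3 using h1
  refine ⟨(DFinsupp.support x).biUnion S,
    ∑ j ∈ DFinsupp.support x, DirectSum.of (fun j : J => HQ j N) j (b j), ?_, ?_⟩
  · rw [map_sum]
    apply Finset.sum_eq_zero
    intro j _
    rw [hjMap_of, hb2, map_zero]
  · rw [map_sum]
    conv_rhs => rw [← DirectSum.sum_support_of x]
    apply Finset.sum_congr rfl
    intro j hj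
    rw [hjMap_of]
    congr 1
    unfold SupportSystem.incl
    rw [hqMap_comp]
    have h2 : hqMap (ss.e (((DFinsupp.support x).biUnion S : Finset Γ) : Set Γ)) j (b j) = b j := by
      apply e_mono ss j _ (hb1 j)
      rw [Finset.coe_subset]
      exact Finset.subset_biUnion_of_mem S hj
    rw [h2, hb3]

/-- **Kernel formula.** The kernel of the total assembly map of `N ⋊ Γ` is generated by the images
of the kernels for `Γ` and for the parts of `N` supported on finite subsets of `Γ`. -/
theorem kernel_formula {E : LFunctor.{v}} (A : Assembly E T₀) (J : Set ℕ) (ss : SupportSystem φ) :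
    LinearMap.ker (A.total J (N ⋊[φ] Γ)) =
      (LinearMap.ker (A.total J Γ)).map (hjMap J SemidirectProduct.inr) ⊔
        ⨆ F : Finset Γ, (LinearMap.ker (A.total J (ss.part (F : Set Γ)))).map
          (hjMap J (ss.partIncl F)) := by
  apply le_antisymm
  · intro x hx
    rw [LinearMap.mem_ker] at hx
    set y := hjMap J SemidirectProduct.rightHom x with hy
    have hy0 : A.total J Γ y = 0 := by rw [hy, ← A.total_nat, hx, map_zero]
    set x' := x - hjMap J SemidirectProduct.inr y with hx'
    have h1 : hjMap J SemidirectProduct.rightHom x' = 0 := by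
      rw [hx', map_sub, ← hjMap_comp J SemidirectProduct.rightHom SemidirectProduct.inr,
        SemidirectProduct.rightHom_comp_inr, hjMap_id, ← hy, sub_self]
    have h2 : A.total J (N ⋊[φ] Γ) x' = 0 := by
      rw [hx', map_sub, hx, ← A.total_nat, hy0, map_zero, sub_self]
    obtain ⟨S, b, hb, hbx⟩ := total_from_base ss J x' h1
    have h3 := base_kernel (redH_conj J) (A.red J) ss (S : Set Γ) S.finite_toSet ⟨b, hb⟩ (by
        change A.total J _ (hjMap J (ss.incl (S : Set Γ)) b) = 0
        rw [hbx, h2])
    have h4 : baseKer (A.red J) ss ≤ (⨆ F : Finset Γ,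
        (LinearMap.ker (A.total J (ss.part (F : Set Γ)))).map (hjMap J (ss.partIncl F))).comap
          (redSub J (N ⋊[φ] Γ)) := by
      apply iSup_le
      intro F
      rw [Submodule.map_le_iff_le_comap]
      intro u hu
      exact Submodule.mem_iSup_of_mem F (Submodule.mem_map_of_mem (f := hjMap J (ss.partIncl F)) hu)
    have h5 := h4 h3
    have h6 : x = hjMap J SemidirectProduct.inr y + x' := by rw [hx']; abel
    rw [h6]
    apply Submodule.add_mem_sup
    · exact Submodule.mem_map_of_mem (LinearMap.mem_ker.mpr hy0)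
    · rw [← hbx]
      exact h5
  · apply sup_le
    · rw [Submodule.map_le_iff_le_comap]
      intro y hy
      rw [Submodule.mem_comap, LinearMap.mem_ker, ← A.total_nat, LinearMap.mem_ker.mp hy, map_zero]
    · apply iSup_le
      intro F
      rw [Submodule.map_le_iff_le_comap]
      intro y hy
      rw [Submodule.mem_comap, LinearMap.mem_ker, ← A.total_nat, LinearMap.mem_ker.mp hy, map_zero]

end Pool.Agent.Y483
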