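import Pool.Agent.Y483.FreeMagnus
import Pool.Agent.Y483.Main

/-!
Injectivity of rational assembly maps for the groups `F / [R, R]`.
-/

namespace Pool.Agent.Y483

open Finsupp Pointwise CategoryTheory DirectSum

universe v

section Supp

variable {Γ E : Type} [Group Γ] [MulAction Γ E] (Q : Edges Γ E)

open Classical in
/-- The support system on the free abelian group on the edges: `e_S` forgets the edges whose source
is not in `S`. -/
noncomputable def suppE (hQ : Q.Equiv') : SupportSystem (phiE Γ E) where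
  e S :=
    { toFun := fun p => Multiplicative.ofAdd (p.toAdd.filter (fun e => Q.s e ∈ S))
      map_one' := by
        change Multiplicative.ofAdd (Finsupp.filter _ (0 : E →₀ ℤ)) = 1
        rw [Finsupp.filter_zero]; rfl
      map_mul' := fun p p' => by
        change Multiplicative.ofAdd (Finsupp.filter _ (p.toAdd + p'.toAdd)) = _
        rw [Finsupp.filter_add]; rfl }
  inter S S' p := by
    apply congrArg Multiplicative.ofAdd
    ext e
    simp only [Finsupp.filter_apply, Set.mem_inter_iff]
    by_cases h : Q.s e ∈ S <;> by_cases h' : Q.s e ∈ S' <;>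
      simp [h, h']
  empty p := by
    refine congrArg Multiplicative.ofAdd (?_ : _ = (0 : E →₀ ℤ))
    ext e
    rw [Finsupp.filter_apply, if_neg (Set.notMem_empty _)]
    rfl
  equivariant g S p := by
    apply congrArg Multiplicative.ofAdd
    change gE g (Finsupp.filter _ p.toAdd) = Finsupp.filter _ (gE g p.toAdd)
    apply int_ind (fun p => gE g (Finsupp.filter (fun e => Q.s e ∈ S) p))
      (fun p => Finsupp.filter (fun e => Q.s e ∈ g • S) (gE g p))
    · intro a b
      simp only [Finsupp.filter_add, map_add]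
    · intro a b
      simp only [map_add, Finsupp.filter_add]
    · intro e
      simp only [gE_single]
      have h : Q.s (g • e) ∈ g • S ↔ Q.s e ∈ S := by
        rw [hQ.s_smul]
        exact Set.smul_mem_smul_set_iff (a := g) (x := Q.s e)
      by_cases h' : Q.s e ∈ S
      · rw [Finsupp.filter_single_of_pos (p := fun e => Q.s e ∈ S) (h := h'),
          Finsupp.filter_single_of_pos (p := fun e => Q.s e ∈ g • S) (h := h.mpr h'), gE_single]
      · rw [Finsupp.filter_single_of_neg (p := fun e => Q.s e ∈ S) (h := h'),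
          Finsupp.filter_single_of_neg (p := fun e => Q.s e ∈ g • S) (h := fun h2 => h' (h.mp h2)),
          map_zero]
  finite p := by
    refine ⟨Q.s '' (p.toAdd.support : Set E), (p.toAdd.support.finite_toSet).image _, ?_⟩
    change Multiplicative.ofAdd (Finsupp.filter _ p.toAdd) = p
    have : Finsupp.filter (fun e => Q.s e ∈ Q.s '' (p.toAdd.support : Set E)) p.toAdd =
        p.toAdd := by
      rw [Finsupp.filter_eq_self_iff]
      intro e he
      exact ⟨e, Finsupp.mem_support_iff.mpr he, rfl⟩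
    rw [this]; rfl

end Supp

section Finite

variable {T₀ : Type} [Group T₀] {L : LFunctor.{v}} (A : Assembly L T₀) (J : Set ℕ)

/-- The free abelian group of rank `n`. -/
abbrev Zn (n : ℕ) : Type := Multiplicative (Fin n → ℤ)

theorem mp_eq_self {X M : Type*} [AddCommGroup M] [Module ℚ M] (q : ℕ) (f : X → X) (z : T q X M)
    (h : ∀ x ∈ z.support, ∀ i, f (x i) = x i) : mp q f LinearMap.id z = z := by
  conv_lhs => rw [← Finsupp.sum_single z]
  rw [Finsupp.sum, map_sum]
  conv_rhs => rw [← Finsupp.sum_single z]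
  apply Finset.sum_congr rfl
  intro x hx
  rw [mp_single]
  congr 1
  funext i
  exact h x hx i

/-- A class of `K` is fixed by every endomorphism which fixes the elements of some finite set. -/
theorem exists_finite_fix {K : Type} [Group K] (x : HJ J K) :
    ∃ S : Finset K, ∀ f : K →* K, (∀ k ∈ S, f k = k) → hjMap J f x = x := by
  classical
  choose z hz using fun j : J => exists_rpr (Rep.trivial ℚ K ℚ) j (x j)
  refine ⟨(DFinsupp.support x).biUnion fun j => (z j).support.biUnion fun w =>
    Finset.univ.image w, ?_⟩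
  intro f hf
  apply DFunLike.ext
  intro j
  rw [hjMap_apply]
  by_cases hj : x j = 0
  · rw [hj, map_zero]
  · have h1 := ((hz j).hq f).sub (hz j)
    rw [← sub_eq_zero, h1.eq_zero_iff, mp_eq_self, sub_self]
    · exact Submodule.zero_mem _
    · intro w hw i
      apply hf
      rw [Finset.mem_biUnion]
      refine ⟨j, DFinsupp.mem_support_iff.mpr hj, ?_⟩
      rw [Finset.mem_biUnion]
      exact ⟨w, hw, Finset.mem_image_of_mem w (Finset.mem_univ i)⟩

/-- The kernel of the assembly map of a retract. -/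
theorem ker_retract {K K' : Type} [Group K] [Group K'] (i : K →* K') (r : K' →* K)
    (hri : ∀ k, r (i k) = k) (h : LinearMap.ker (A.total J K') = ⊥) :
    LinearMap.ker (A.total J K) = ⊥ := by
  rw [eq_bot_iff]
  intro x hx
  have h1 : hjMap J i x ∈ LinearMap.ker (A.total J K') := by
    rw [LinearMap.mem_ker, ← A.total_nat, LinearMap.mem_ker.mp hx, map_zero]
  rw [h, Submodule.mem_bot] at h1
  have h2 : r.comp i = MonoidHom.id K := MonoidHom.ext hri
  rw [Submodule.mem_bot, ← hjMap_id K J x, ← h2, hjMap_comp, h1, map_zero]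

/-- Free abelian groups of arbitrary rank. -/
theorem ker_HH (E : Type) (hZ : ∀ n, LinearMap.ker (A.total J (Zn n)) = ⊥) :
    LinearMap.ker (A.total J (HH E)) = ⊥ := by
  classical
  rw [eq_bot_iff]
  intro x hx
  obtain ⟨S, hS⟩ := exists_finite_fix J x
  let E₀ : Finset E := S.biUnion fun k => k.toAdd.support
  let e : Fin E₀.card ≃ E₀ := E₀.equivFin.symm
  let a : HH E →* Zn E₀.card :=
    { toFun := fun k => Multiplicative.ofAdd (fun i => k.toAdd (e i))
      map_one' := rfl
      map_mul' := fun _ _ => rfl }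
  let b : Zn E₀.card →* HH E :=
    { toFun := fun k => Multiplicative.ofAdd (∑ i, single (e i : E) (k.toAdd i))
      map_one' := by
        apply congrArg Multiplicative.ofAdd
        apply Finset.sum_eq_zero
        intro i _
        exact Finsupp.single_zero _
      map_mul' := fun k k' => by
        apply congrArg Multiplicative.ofAdd
        change ∑ i, single (e i : E) (k.toAdd i + k'.toAdd i) =
          ∑ i, single (e i : E) (k.toAdd i) + ∑ i, single (e i : E) (k'.toAdd i)
        rw [← Finset.sum_add_distrib]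
        apply Finset.sum_congr rfl
        intro i _
        exact Finsupp.single_add _ _ _ }
  have hfix : ∀ k ∈ S, (b.comp a) k = k := by
    intro k hk
    apply congrArg Multiplicative.ofAdd
    change ∑ i, single (e i : E) (k.toAdd (e i)) = k.toAdd
    rw [Equiv.sum_comp e (fun x : E₀ => single (x : E) (k.toAdd x)),
      Finset.sum_coe_sort E₀ (fun x => single x (k.toAdd x))]
    have h1 : k.toAdd.support ⊆ E₀ := Finset.subset_biUnion_of_mem _ hk
    conv_rhs => rw [← Finsupp.sum_single k.toAdd]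
    rw [Finsupp.sum]
    symm
    apply Finset.sum_subset h1
    intro e' _ he'
    rw [Finsupp.notMem_support_iff.mp he', Finsupp.single_zero]
  have h1 : hjMap J a x ∈ LinearMap.ker (A.total J (Zn E₀.card)) := by
    rw [LinearMap.mem_ker, ← A.total_nat, LinearMap.mem_ker.mp hx, map_zero]
  rw [hZ, Submodule.mem_bot] at h1
  rw [Submodule.mem_bot, ← hS (b.comp a) hfix, hjMap_comp, h1, map_zero]

/-- In degree `0` the map to the homology of any group is injective. -/
theorem hq_zero_injective {K K' : Type} [Group K] [Group K'] (f : K →* K') (x : HQ 0 K)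
    (hx : hqMap f 0 x = 0) : x = 0 := by
  obtain ⟨z, hz⟩ := exists_rpr (Rep.trivial ℚ K ℚ) 0 x
  have h1 := (hz.hq f).eq_zero_iff.mp hx
  have h2 : dd (Rep.trivial ℚ K' ℚ).ρ 0 = 0 := by
    apply T_ext
    intro g m
    rw [dd_single]
    have e1 : (Rep.trivial ℚ K' ℚ).ρ (g 0)⁻¹ m = m := rfl
    have e2 : (fun i : Fin 0 => g i.succ) = Fin.contractNth 0 (· * ·) g := Subsingleton.elim _ _
    have e3 : ((-1 : ℚ) ^ (((0 : Fin (0 + 1)) : ℕ) + 1)) = -1 := by norm_num
    rw [e1, Fin.sum_univ_succ, Fin.sum_univ_zero, add_zero, e3, neg_smul, one_smul, e2]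
    exact add_neg_cancel _
  rw [h2] at h1
  obtain ⟨w, hw⟩ := h1
  have h3 : z = 0 := by
    rw [Finsupp.unique_single z] at hw ⊢
    rw [mp_single] at hw
    have h4 : z default = 0 := by
      have h5 := hw.symm
      rw [LinearMap.zero_apply, Finsupp.single_eq_zero] at h5
      exact h5
    rw [h4, Finsupp.single_zero]
  have h6 : Rpr (Rep.trivial ℚ K ℚ) 0 (0 : T 0 K ℚ) x := by rw [← h3]; exact hz
  rw [h6.eq_zero_iff]
  exact Submodule.zero_mem _

end Finite

section Main

variable {T₀ : Type} [Group T₀] {L : LFunctor.{v}} (A : Assembly L T₀) (J : Set ℕ)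
  {Γ E : Type} [Group Γ] [MulAction Γ E] {Q : Edges Γ E} {G : Type} [Group G]

/-- The kernel of the assembly map of the semidirect product comes from `Γ`. -/
theorem ker_WE (hQ : Q.Equiv') (hZ : ∀ n, LinearMap.ker (A.total J (Zn n)) = ⊥) :
    LinearMap.ker (A.total J (WE Γ E)) =
      (LinearMap.ker (A.total J Γ)).map (hjMap J SemidirectProduct.inr) := by
  rw [kernel_formula A J (suppE Q hQ)]
  have h : (⨆ F : Finset Γ, (LinearMap.ker (A.total J ((suppE Q hQ).part (F : Set Γ)))).map
      (hjMap J ((suppE Q hQ).partIncl F))) = ⊥ := by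
    rw [iSup_eq_bot]
    intro F
    have h1 : LinearMap.ker (A.total J ((suppE Q hQ).part (F : Set Γ))) = ⊥ := by
      apply ker_retract A J ((suppE Q hQ).e (F : Set Γ)).range.subtype
        ((suppE Q hQ).e (F : Set Γ)).rangeRestrict _ (ker_HH A J E hZ)
      rintro ⟨k, p, rfl⟩
      apply Subtype.ext
      change (suppE Q hQ).e (F : Set Γ) ((suppE Q hQ).e (F : Set Γ) p) = _
      rw [(suppE Q hQ).inter, Set.inter_self]
    rw [h1, Submodule.map_bot]
  rw [h, sup_bot_eq]

/-- **Injectivity for Magnus groups.** -/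
theorem ker_magnus (hQ : Q.Equiv') (M : Magnus Q G)
    (hZ : ∀ n, LinearMap.ker (A.total J (Zn n)) = ⊥) : LinearMap.ker (A.total J G) = ⊥ := by
  rw [eq_bot_iff]
  intro x hx
  have h1 : hjMap J M.mu x ∈ LinearMap.ker (A.total J (WE Γ E)) := by
    rw [LinearMap.mem_ker, ← A.total_nat, LinearMap.mem_ker.mp hx, map_zero]
  rw [ker_WE A J hQ hZ] at h1
  obtain ⟨y, -, hy⟩ := h1
  have h0 : hjMap J (1 : G →* Zn 0) x ∈ LinearMap.ker (A.total J (Zn 0)) := by
    rw [LinearMap.mem_ker, ← A.total_nat, LinearMap.mem_ker.mp hx, map_zero]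
  rw [hZ, Submodule.mem_bot] at h0
  rw [Submodule.mem_bot]
  apply DFunLike.ext
  rintro ⟨j, hj⟩
  change x ⟨j, hj⟩ = 0
  cases j with
  | zero =>
    apply hq_zero_injective (1 : G →* Zn 0)
    have h2 := congrArg (fun u : HJ J (Zn 0) => u ⟨0, hj⟩) h0
    exact (hjMap_apply J (1 : G →* Zn 0) x ⟨0, hj⟩).symm.trans h2
  | succ j =>
    obtain ⟨z, hz⟩ := exists_rpr (Rep.trivial ℚ G ℚ) (j + 1) (x ⟨j + 1, hj⟩)
    obtain ⟨w, hw⟩ := exists_rpr (Rep.trivial ℚ Γ ℚ) (j + 1) (y ⟨j + 1, hj⟩)
    have h2 : hqMap M.mu (j + 1) (x ⟨j + 1, hj⟩) -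
        hqMap (SemidirectProduct.inr : Γ →* WE Γ E) (j + 1) (y ⟨j + 1, hj⟩) = 0 := by
      have h3 := congrArg (fun u : HJ J (WE Γ E) => u ⟨j + 1, hj⟩) hy
      have h4 := hjMap_apply J (SemidirectProduct.inr : Γ →* WE Γ E) y ⟨j + 1, hj⟩
      have h5 := hjMap_apply J M.mu x ⟨j + 1, hj⟩
      rw [sub_eq_zero]
      exact (h5.symm.trans (h3.symm.trans h4))
    have h3 := (hz.hq M.mu).sub (hw.hq (SemidirectProduct.inr : Γ →* WE Γ E))
    rw [h3.eq_zero_iff] at h2
    have h4 := M.theoremH hQ j z ((cyc_succ _ _ _).mp hz.cyc) w h2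
    exact hz.eq_zero_iff.mpr h4

/-- **Injectivity for `F / [R, R]`.** -/
theorem ker_FRR {X : Type} (R : Subgroup (FreeGroup X)) [R.Normal]
    (hZ : ∀ n, LinearMap.ker (A.total J (Zn n)) = ⊥) :
    LinearMap.ker (A.total J (FRR R)) = ⊥ :=
  ker_magnus A J (cayQ_equiv R) (magnusFRR R) hZ

end Main

end Pool.Agent.Y483
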