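import Pool.Agent.Y483.Functors

/-!
The groups `F / [R, R]` and the free abelian groups of finite rank, as objects of the category of
groups.
-/

namespace Pool.Agent.Y483

open CategoryTheory

/-- The group `F / [R, R]` for a normal subgroup `R` of the free group `F` on `X`. -/
def modComm {X : Type} (R : Subgroup (FreeGroup X)) [R.Normal] : GrpCat.{0} :=
  GrpCat.of (FreeGroup X ⧸ ⁅R, R⁆)

/-- The free abelian group `ℤ^n`. -/
def zn (n : ℕ) : GrpCat.{0} := GrpCat.of (Multiplicative (Fin n → ℤ))

end Pool.Agent.Y483
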