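import Pool.Agent.Y483.Torus
import Pool.Agent.Y483.ModComm
import Pool.Agent.Y483.Present

/-!
The groups `F / [R, R]`, for the rationalised quadratic L-groups.
-/

namespace Pool.Agent.Y483

open CategoryTheory DirectSum

variable {ε : ℤˣ} {T : Type} [Group T]

/-- The isomorphism between the abelianization of a free group of finite rank and `ℤ^n`. -/
noncomputable def abIso (n : ℕ) : FRR (⊤ : Subgroup (FreeGroup (Fin n))) ≃* Zn n :=
  (AddEquiv.toMultiplicative ((FreeAbelianGroup.equivFinsupp (Fin n)).trans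
    (Finsupp.linearEquivFunOnFinite ℤ ℤ (Fin n)).toAddEquiv) :
      Multiplicative (FreeAbelianGroup (Fin n)) ≃* Multiplicative (Fin n → ℤ))

theorem app_ne_zero_iff (α : NatFam ε T) (j : ℕ) :
    (α j).app (zn j) ≠ 0 ↔ (toAssembly α).app j (Zn j) ≠ 0 := by
  change (α j).app (zn j) ≠ 0 ↔ ((α j).app (zn j)).hom ≠ 0
  rw [not_iff_not]
  constructor
  · intro h
    rw [h]; rfl
  · intro h
    exact ModuleCat.hom_ext h

theorem frr_iff (α : NatFam ε T) (J : Set ℕ) :
    (∀ j ∈ J, (α j).app (zn j) ≠ 0) ↔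
      ∀ (X : Type) (R : Subgroup (FreeGroup X)) [R.Normal], kerJ α J (modComm R) = ⊥ := by
  constructor
  · intro h X R _
    exact ker_FRR (toAssembly α) J R
      (ker_Zn_of_top (toAssembly α) J (fun j hj => (app_ne_zero_iff α j).mp (h j hj)))
  · intro h j hj
    rw [app_ne_zero_iff]
    apply top_of_ker_Zn (toAssembly α) J j hj
    have h1 : LinearMap.ker ((toAssembly α).total J
        (FRR (⊤ : Subgroup (FreeGroup (Fin j))))) = ⊥ := h (Fin j) ⊤
    rw [total_ker_iso (toAssembly α) J (abIso j), h1, Submodule.map_bot]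

end Pool.Agent.Y483
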