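import Pool.Agent.Y483.Homotopy

/-!
The pairing of chains with alternating forms, and the product of a chain with an edge.
-/

namespace Pool.Agent.Y483

open Finsupp

section Pairing

variable {A Y : Type*} [AddCommGroup A]

/-- Rational alternating forms on the abelian group `A`. -/
abbrev Frm (A : Type*) [AddCommGroup A] (q : ℕ) := A [⋀^Fin q]→ₗ[ℤ] ℚ

/-- The pairing of a form with homogeneous chains whose vertices are labelled by elements of `A`. -/
noncomputable def hpair (lab : Y → A) (q : ℕ) (ω : Frm A q) : T (q + 1) Y ℚ →ₗ[ℚ] ℚ :=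
  lsum ℚ fun x => (ω (fun i : Fin q => lab (x i.succ) - lab (x i.castSucc))) • LinearMap.id

theorem hpair_single (lab : Y → A) (q : ℕ) (ω : Frm A q) (x : Fin (q + 1) → Y) (r : ℚ) :
    hpair lab q ω (single x r) = ω (fun i : Fin q => lab (x i.succ) - lab (x i.castSucc)) * r := by
  simp [hpair]

theorem hpair_add (lab : Y → A) (q : ℕ) (ω ω' : Frm A q) (z : T (q + 1) Y ℚ) :
    hpair lab q (ω + ω') z = hpair lab q ω z + hpair lab q ω' z := by
  have h : hpair lab q (ω + ω') = hpair lab q ω + hpair lab q ω' := by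
    apply T_ext
    intro x r
    rw [LinearMap.add_apply, hpair_single, hpair_single, hpair_single, AlternatingMap.add_apply,
      add_mul]
  exact DFunLike.congr_fun h z

theorem hpair_neg (lab : Y → A) (q : ℕ) (ω : Frm A q) (z : T (q + 1) Y ℚ) :
    hpair lab q (-ω) z = - hpair lab q ω z := by
  have h : hpair lab q (-ω) = - hpair lab q ω := by
    apply T_ext
    intro x r
    rw [LinearMap.neg_apply, hpair_single, hpair_single, AlternatingMap.neg_apply, neg_mul]
  exact DFunLike.congr_fun h z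

theorem cone_cone_single (q : ℕ) (a b : Y) (x : Fin q → Y) (r : ℚ) :
    cone (q + 1) a (cone q b (single x r)) =
      single (Fin.cons a (Fin.cons b x : Fin (q + 1) → Y) : Fin (q + 2) → Y) r := by
  rw [cone_single, cone_single]

theorem hpair_cone_cone (lab : Y → A) (q : ℕ) (ω : Frm A (q + 1)) (a b : Y) (y : T q Y ℚ) :
    hpair lab (q + 1) ω (cone (q + 1) a (cone q b y)) =
      hpair lab q (ω.curryLeft (lab b - lab a)) (cone q b y) := by
  have h : (hpair lab (q + 1) ω) ∘ₗ (cone (q + 1) a) ∘ₗ (cone q b) =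
      (hpair lab q (ω.curryLeft (lab b - lab a))) ∘ₗ (cone q b) := by
    apply T_ext
    intro x r
    rw [LinearMap.comp_apply, LinearMap.comp_apply, LinearMap.comp_apply, cone_cone_single,
      cone_single, hpair_single, hpair_single, AlternatingMap.curryLeft_apply_apply]
    congr 2
    funext i
    refine Fin.cases ?_ (fun j => ?_) i
    · simp
    · simp only [Fin.cons_succ, Matrix.cons_val_succ, ← Fin.succ_castSucc]
  exact DFunLike.congr_fun h y

theorem T_cone_ind {n : ℕ} {P : T (n + 1) Y ℚ → Prop} (z : T (n + 1) Y ℚ)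
    (h0 : P 0) (hadd : ∀ a b, P a → P b → P (a + b))
    (hc : ∀ (a : Y) (y : T n Y ℚ), P (cone n a y)) : P z := by
  induction z using Finsupp.induction_linear with
  | zero => exact h0
  | add a b ha hb => exact hadd a b ha hb
  | single x m => rw [single_eq_cone]; exact hc _ _

/-- The pairing kills boundaries. -/
theorem hpair_bd (lab : Y → A) (q : ℕ) (ω : Frm A q) (z : T (q + 2) Y ℚ) :
    hpair lab q ω (bd (q + 1) z) = 0 := by
  induction q with
  | zero =>
    have h : (hpair lab 0 ω) ∘ₗ (bd 1) = 0 := by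
      apply T_ext
      intro x r
      rw [LinearMap.comp_apply, single_eq_cone, single_eq_cone, bd_cone_succ, bd_cone_zero,
        map_sub, cone_single, cone_single, hpair_single, hpair_single, LinearMap.zero_apply,
        sub_eq_zero]
      congr 2
      funext i
      exact i.elim0
    exact DFunLike.congr_fun h z
  | succ q ih =>
    have h : (hpair lab (q + 1) ω) ∘ₗ (bd (q + 2)) = 0 := by
      apply T_ext
      intro x r
      rw [LinearMap.comp_apply, single_eq_cone, single_eq_cone, single_eq_cone]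
      generalize (x 0) = a
      generalize (Fin.tail x 0) = b
      generalize (Fin.tail (Fin.tail x) 0) = c
      set y : T q Y ℚ := single _ r
      rw [bd_cone_succ, bd_cone_succ, map_sub (cone (q + 1) a), map_sub, map_sub, hpair_cone_cone,
        hpair_cone_cone, hpair_cone_cone, LinearMap.zero_apply]
      have h1 := ih (ω.curryLeft (lab b - lab a)) (cone (q + 1) b (cone q c y))
      rw [bd_cone_succ, map_sub, sub_eq_zero] at h1
      rw [← h1]
      have e : ω.curryLeft (lab c - lab a) =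
          ω.curryLeft (lab c - lab b) + ω.curryLeft (lab b - lab a) := by
        rw [← map_add]
        congr 1
        abel
      rw [e, hpair_add]
      ring
    exact DFunLike.congr_fun h z

theorem curry_swap {q : ℕ} (ω : Frm A (q + 2)) (u v : A) :
    (ω.curryLeft u).curryLeft v = -(ω.curryLeft v).curryLeft u := by
  have h := ω.curryLeft_same (u + v)
  have e : ω.curryLeft (u + v) = ω.curryLeft u + ω.curryLeft v := map_add _ _ _
  rw [e, AlternatingMap.curryLeft_add] at h
  have e1 : (ω.curryLeft u).curryLeft (u + v) =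
      (ω.curryLeft u).curryLeft u + (ω.curryLeft u).curryLeft v := map_add _ _ _
  have e2 : (ω.curryLeft v).curryLeft (u + v) =
      (ω.curryLeft v).curryLeft u + (ω.curryLeft v).curryLeft v := map_add _ _ _
  rw [LinearMap.add_apply, e1, e2, ω.curryLeft_same, ω.curryLeft_same, zero_add, add_zero] at h
  exact eq_neg_of_add_eq_zero_left h

theorem hpair_mp {Z : Type*} (lab : Y → A) (f : Z → Y) (q : ℕ) (ω : Frm A q) (z : T (q + 1) Z ℚ) :
    hpair lab q ω (mp (q + 1) f LinearMap.id z) = hpair (lab ∘ f) q ω z := by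
  have h : (hpair lab q ω) ∘ₗ (mp (q + 1) f LinearMap.id) = hpair (lab ∘ f) q ω := by
    apply T_ext
    intro x r
    rw [LinearMap.comp_apply, mp_single, hpair_single, hpair_single]
    rfl
  exact DFunLike.congr_fun h z

theorem hpair_lab (lab lab' : Y → A) (u : A) (h : ∀ y, lab' y = lab y + u) (q : ℕ) (ω : Frm A q)
    (z : T (q + 1) Y ℚ) : hpair lab' q ω z = hpair lab q ω z := by
  have h : hpair lab' q ω = hpair lab q ω := by
    apply T_ext
    intro x r
    rw [hpair_single, hpair_single]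
    congr 2
    funext i
    rw [h, h]
    abel
  exact DFunLike.congr_fun h z

/-- The pairing of a form with the prism over a translation. -/
theorem hpair_prism (lab : Y → A) (g : Y → Y) (u : A) (hg : ∀ y, lab (g y) = lab y + u) (q : ℕ)
    (ω : Frm A (q + 1)) (z : T (q + 1) Y ℚ) :
    hpair lab (q + 1) ω (prism id g (q + 1) z) =
      ((q : ℚ) + 1) * hpair lab q (ω.curryLeft u) z := by
  induction q with
  | zero =>
    have h : (hpair lab 1 ω) ∘ₗ (prism id g 1) =
        (((0 : ℕ) : ℚ) + 1) • hpair lab 0 (ω.curryLeft u) := by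
      apply T_ext
      intro x r
      rw [LinearMap.comp_apply, single_eq_cone, prism_cone]
      have h0 : prism id g 0 (single (Fin.tail x) r : T 0 Y ℚ) = 0 := rfl
      rw [h0, map_zero, sub_zero, hpair_cone_cone, hg, id, add_sub_cancel_left]
      rw [mp_single, cone_single, hpair_single, ← single_eq_cone, LinearMap.smul_apply,
        hpair_single]
      simp only [Nat.cast_zero, zero_add, one_smul, LinearMap.id_apply]
      congr 2
      funext i
      exact i.elim0
    exact DFunLike.congr_fun h z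
  | succ q ih =>
    have h : (hpair lab (q + 2) ω) ∘ₗ (prism id g (q + 2)) =
        (((q + 1 : ℕ) : ℚ) + 1) • hpair lab (q + 1) (ω.curryLeft u) := by
      apply T_ext
      intro x r
      rw [LinearMap.comp_apply, LinearMap.smul_apply, single_eq_cone, single_eq_cone]
      generalize (x 0) = a
      generalize (Fin.tail x 0) = b
      set y : T q Y ℚ := single _ r
      rw [prism_cone, map_sub, hpair_cone_cone, hg, id, add_sub_cancel_left]
      have e1 : cone (q + 1) (g a) (mp (q + 1) g LinearMap.id (cone q b y)) =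
          mp (q + 2) g LinearMap.id (cone (q + 1) a (cone q b y)) := (mp_cone _ _ _ _ _).symm
      rw [e1, hpair_mp, hpair_lab lab (lab ∘ g) u hg]
      have e2 : hpair lab (q + 2) ω (cone (q + 2) a (prism id g (q + 1) (cone q b y))) =
          hpair lab (q + 1) (ω.curryLeft (lab b - lab a)) (prism id g (q + 1) (cone q b y)) := by
        rw [prism_cone, map_sub, map_sub, map_sub]
        exact congrArg₂ (fun s t : ℚ => s - t) (hpair_cone_cone lab (q + 1) ω a b _)
          (hpair_cone_cone lab (q + 1) ω a b _)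
      rw [e2, ih, curry_swap, hpair_neg, hpair_cone_cone, smul_eq_mul]
      push_cast
      ring
    exact DFunLike.congr_fun h z

end Pairing

section Edge

variable {H : Type*} [CommGroup H] {M M' : Type*} [AddCommGroup M] [Module ℚ M]
  [AddCommGroup M'] [Module ℚ M'] (ρ : Representation ℚ H M) (ρ' : Representation ℚ H M')

/-- The product of a chain of the commutative group `H` with the edge `e`, and the map `s` of
coefficients. -/
noncomputable def Sop (e : H) (s : M →ₗ[ℚ] M') (q : ℕ) : T q H M →ₗ[ℚ] T (q + 1) H M' :=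
  (pp ρ' (q + 1)) ∘ₗ (prism id (fun x => x * e) (q + 1)) ∘ₗ (mp (q + 1) id s) ∘ₗ (sg q)

variable {ρ ρ'}

theorem Sop_factor (e : H) (s : M →ₗ[ℚ] M') (hs : ∀ h m, s (ρ h m) = ρ' h (s m)) (q : ℕ)
    (z : T (q + 1) H M) :
    pp ρ' (q + 1) (prism id (fun x => x * e) (q + 1) (mp (q + 1) id s z)) =
      Sop ρ' e s q (pp ρ q z) := by
  have h := factor ρ q ((pp ρ' (q + 1)) ∘ₗ (prism id (fun x => x * e) (q + 1)) ∘ₗ
    (mp (q + 1) id s)) ?_ z
  · exact h
  · intro g w
    rw [LinearMap.comp_apply, LinearMap.comp_apply, LinearMap.comp_apply, LinearMap.comp_apply, tr,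
      mp_mp]
    have e2 : mp (q + 1) (id ∘ fun x => g * x) (s ∘ₗ ρ g) w =
        mp (q + 1) (fun x => g * x) (ρ' g) (mp (q + 1) id s w) := by
      rw [mp_mp]
      congr 2
      apply LinearMap.ext
      intro m
      exact hs g m
    rw [e2, prism_nat (X₁ := H) (Y₁ := H) id (fun x => x * e) id (fun x => x * e)
      (fun x => g * x) (fun x => g * x) (ρ' g) (by simp) (by simp [mul_assoc])]
    exact pp_tr ρ' (q + 1) g _

theorem pp_mul_right (e : H) (q : ℕ) (z : T (q + 1) H M) :
    pp ρ q (mp (q + 1) (fun x => x * e) LinearMap.id z) = mp q id (ρ e⁻¹) (pp ρ q z) := by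
  have h : (pp ρ q) ∘ₗ (mp (q + 1) (fun x => x * e) LinearMap.id) =
      (mp q id (ρ e⁻¹)) ∘ₗ (pp ρ q) := by
    apply T_ext
    intro x m
    rw [LinearMap.comp_apply, LinearMap.comp_apply, mp_single, pp_single, pp_single, mp_single]
    congr 1
    · funext i
      simp only [Function.comp_apply, id]
      rw [mul_inv_rev, mul_comm e⁻¹, mul_assoc, mul_comm (x i.succ) e, inv_mul_cancel_left]
    · simp only [Function.comp_apply, LinearMap.id_apply]
      rw [mul_inv_rev, map_mul, Module.End.mul_apply]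
  exact DFunLike.congr_fun h z

theorem pp_mp_id (s : M →ₗ[ℚ] M') (hs : ∀ h m, s (ρ h m) = ρ' h (s m)) (q : ℕ)
    (z : T (q + 1) H M) : pp ρ' q (mp (q + 1) id s z) = mp q id s (pp ρ q z) := by
  have h : (pp ρ' q) ∘ₗ (mp (q + 1) id s) = (mp q id s) ∘ₗ (pp ρ q) := by
    apply T_ext
    intro x m
    rw [LinearMap.comp_apply, LinearMap.comp_apply, mp_single, pp_single, pp_single, mp_single, hs]
    rfl
  exact DFunLike.congr_fun h z

theorem dd_Sop_zero (e : H) (s : M →ₗ[ℚ] M') (hs : ∀ h m, s (ρ h m) = ρ' h (s m))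
    (z : T 0 H M) :
    dd ρ' 0 (Sop ρ' e s 0 z) = mp 0 id ((ρ' e⁻¹) ∘ₗ s) z - mp 0 id s z := by
  unfold Sop
  rw [LinearMap.comp_apply, LinearMap.comp_apply, LinearMap.comp_apply, ← pp_bd, bd_prism_zero,
    map_sub, pp_mul_right, pp_mp_id (ρ := ρ) s hs, pp_sg, mp_mp]
  congr 1
  have e1 : mp 1 (id : H → H) LinearMap.id (mp 1 id s (sg 0 z)) = mp 1 id s (sg 0 z) :=
    mp_id _ _
  rw [e1, pp_mp_id (ρ := ρ) s hs, pp_sg]

theorem dd_Sop_succ (e : H) (s : M →ₗ[ℚ] M') (hs : ∀ h m, s (ρ h m) = ρ' h (s m)) (q : ℕ)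
    (z : T (q + 1) H M) :
    dd ρ' (q + 1) (Sop ρ' e s (q + 1) z) + Sop ρ' e s q (dd ρ q z) =
      mp (q + 1) id ((ρ' e⁻¹) ∘ₗ s) z - mp (q + 1) id s z := by
  have h1 : dd ρ' (q + 1) (Sop ρ' e s (q + 1) z) =
      pp ρ' (q + 1) (bd (q + 2) (prism id (fun x => x * e) (q + 2)
        (mp (q + 2) id s (sg (q + 1) z)))) := by
    unfold Sop
    rw [LinearMap.comp_apply, LinearMap.comp_apply, LinearMap.comp_apply, ← pp_bd]
  have h2 : Sop ρ' e s q (dd ρ q z) = pp ρ' (q + 1) (prism id (fun x => x * e) (q + 1)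
      (bd (q + 1) (mp (q + 2) id s (sg (q + 1) z)))) := by
    rw [bd_mp, Sop_factor (ρ := ρ) e s hs, pp_bd, pp_sg]
  rw [h1, h2, ← map_add, bd_prism_succ, map_sub, pp_mul_right, pp_mp_id (ρ := ρ) s hs, pp_sg,
    mp_mp]
  congr 1
  have e1 : mp (q + 2) (id : H → H) LinearMap.id (mp (q + 2) id s (sg (q + 1) z)) =
      mp (q + 2) id s (sg (q + 1) z) := mp_id _ _
  rw [e1, pp_mp_id (ρ := ρ) s hs, pp_sg]

/-- The boundary of the product of a cycle with an edge. -/
theorem dd_Sop_cyc (e : H) (s : M →ₗ[ℚ] M') (hs : ∀ h m, s (ρ h m) = ρ' h (s m)) (q : ℕ)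
    (z : T q H M) (hz : Cyc ρ q z) :
    dd ρ' q (Sop ρ' e s q z) = mp q id ((ρ' e⁻¹) ∘ₗ s) z - mp q id s z := by
  cases q with
  | zero => exact dd_Sop_zero e s hs z
  | succ q =>
    rw [cyc_succ] at hz
    have h := dd_Sop_succ (ρ := ρ) (ρ' := ρ') e s hs q z
    rw [hz, map_zero, add_zero] at h
    exact h

variable {A : Type*} [AddCommGroup A]

/-- The pairing of a form with inhomogeneous chains. -/
noncomputable def ipair {G : Type*} {N : Type*} [AddCommGroup N] [Module ℚ N] (c : G → A) (q : ℕ)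
    (η : N →ₗ[ℚ] ℚ) (ω : Frm A q) : T q G N →ₗ[ℚ] ℚ :=
  lsum ℚ fun x => (ω (fun i : Fin q => c (x i))) • η

theorem ipair_single {G : Type*} {N : Type*} [AddCommGroup N] [Module ℚ N] (c : G → A) (q : ℕ)
    (η : N →ₗ[ℚ] ℚ) (ω : Frm A q) (x : Fin q → G) (m : N) :
    ipair c q η ω (single x m) = ω (fun i : Fin q => c (x i)) * η m := by
  simp [ipair]

theorem ipair_mp {G G' : Type*} {N N' : Type*} [AddCommGroup N] [Module ℚ N] [AddCommGroup N']
    [Module ℚ N'] (c : G → A) (q : ℕ) (η : N →ₗ[ℚ] ℚ) (ω : Frm A q) (f : G' → G)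
    (s : N' →ₗ[ℚ] N) (z : T q G' N') :
    ipair c q η ω (mp q f s z) = ipair (c ∘ f) q (η ∘ₗ s) ω z := by
  have h : (ipair c q η ω) ∘ₗ (mp q f s) = ipair (c ∘ f) q (η ∘ₗ s) ω := by
    apply T_ext
    intro x m
    rw [LinearMap.comp_apply, mp_single, ipair_single, ipair_single]
    rfl
  exact DFunLike.congr_fun h z

theorem map_one_zero {G : Type*} [Group G] (c : G → A) (hc : ∀ g h, c (g * h) = c g + c h) :
    c 1 = 0 := by
  have h := hc 1 1
  rw [mul_one] at h
  exact left_eq_add.mp h

theorem map_inv_neg {G : Type*} [Group G] (c : G → A) (hc : ∀ g h, c (g * h) = c g + c h) (g : G) :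
    c g⁻¹ = - c g := by
  have h := hc g⁻¹ g
  rw [inv_mul_cancel, map_one_zero c hc] at h
  exact eq_neg_of_add_eq_zero_left h.symm

theorem ipair_pp (c : H → A) (hc : ∀ g h, c (g * h) = c g + c h) (η : M →ₗ[ℚ] ℚ)
    (hη : ∀ g m, η (ρ g m) = η m) (q : ℕ) (ω : Frm A q) (z : T (q + 1) H M) :
    ipair c q η ω (pp ρ q z) = hpair c q ω (mp (q + 1) id η z) := by
  have h : (ipair c q η ω) ∘ₗ (pp ρ q) = (hpair c q ω) ∘ₗ (mp (q + 1) id η) := by
    apply T_ext
    intro x m
    rw [LinearMap.comp_apply, LinearMap.comp_apply, pp_single, mp_single, ipair_single,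
      hpair_single, hη]
    congr 2
    funext i
    rw [hc, map_inv_neg c hc, Function.comp_apply, Function.comp_apply, id, id]
    abel
  exact DFunLike.congr_fun h z

theorem ipair_dd (c : H → A) (hc : ∀ g h, c (g * h) = c g + c h) (η : M →ₗ[ℚ] ℚ)
    (hη : ∀ g m, η (ρ g m) = η m) (q : ℕ) (ω : Frm A q) (z : T (q + 1) H M) :
    ipair c q η ω (dd ρ q z) = 0 := by
  rw [← pp_sg ρ (q + 1) z, ← pp_bd, ipair_pp c hc η hη, ← bd_mp, hpair_bd]

theorem ipair_Sop (c : H → A) (hc : ∀ g h, c (g * h) = c g + c h) (η : M →ₗ[ℚ] ℚ)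
    (η' : M' →ₗ[ℚ] ℚ) (hη' : ∀ g m, η' (ρ' g m) = η' m)
    (e : H) (s : M →ₗ[ℚ] M') (hs : ∀ m, η' (s m) = η m)
    (q : ℕ) (ω : Frm A (q + 1)) (z : T q H M) :
    ipair c (q + 1) η' ω (Sop ρ' e s q z) =
      ((q : ℚ) + 1) * ipair c q η (ω.curryLeft (c e)) z := by
  unfold Sop
  rw [LinearMap.comp_apply, LinearMap.comp_apply, LinearMap.comp_apply, ipair_pp c hc η' hη']
  have e1 : ∀ w : T (q + 1) H M', mp (q + 2) id η' (prism id (fun x => x * e) (q + 1) w) =
      prism id (fun x => x * e) (q + 1) (mp (q + 1) id η' w) := by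
    intro w
    exact (prism_nat (X₁ := H) (Y₁ := H) id (fun x => x * e) id (fun x => x * e) id id η'
      (fun _ => rfl) (fun _ => rfl) (q + 1) w).symm
  rw [e1, hpair_prism c (fun x => x * e) (c e) (fun y => hc y e), mp_mp]
  congr 1
  have e2 : η' ∘ₗ s = η := LinearMap.ext hs
  rw [e2]
  have h : (hpair c q (ω.curryLeft (c e))) ∘ₗ (mp (q + 1) (id ∘ id) η) ∘ₗ (sg q) =
      ipair c q η (ω.curryLeft (c e)) := by
    apply T_ext
    intro x m
    rw [LinearMap.comp_apply, LinearMap.comp_apply, sg_single, mp_single, hpair_single,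
      ipair_single]
    congr 2
    funext i
    simp only [Function.comp_apply, id]
    rw [← Fin.partialProd_right_inv x i, hc, map_inv_neg c hc]
    abel
  exact DFunLike.congr_fun h z

end Edge

end Pool.Agent.Y483
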