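import Pool.Agent.Y483.ThmH

/-!
The group `F / [R, R]` of a free group `F` and a normal subgroup `R` (Magnus embedding).
-/

namespace Pool.Agent.Y483

open Finsupp

section FM

variable {X : Type} (R : Subgroup (FreeGroup X)) [R.Normal]

/-- The quotient `F / R`. -/
abbrev QF : Type := FreeGroup X ⧸ R

/-- The quotient `F / [R, R]`. -/
abbrev FRR : Type := FreeGroup X ⧸ ⁅R, R⁆

/-- The edges of the Cayley graph. -/
structure CE (R : Subgroup (FreeGroup X)) [R.Normal] : Type where
  /-- The source. -/
  v : QF R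
  /-- The generator. -/
  x : X

noncomputable instance : MulAction (QF R) (CE R) where
  smul g e := ⟨g * e.v, e.x⟩
  one_smul e := by
    change (⟨1 * e.v, e.x⟩ : CE R) = e
    rw [one_mul]
  mul_smul g h e := by
    change (⟨g * h * e.v, e.x⟩ : CE R) = ⟨g * (h * e.v), e.x⟩
    rw [mul_assoc]

variable {R}

theorem ce_smul (g : QF R) (e : CE R) : g • e = ⟨g * e.v, e.x⟩ := rfl

variable (R)

/-- The class of a generator. -/
def gX (x : X) : QF R := QuotientGroup.mk (FreeGroup.of x)

/-- The Cayley graph. -/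
def cayQ : Edges (QF R) (CE R) where
  s e := e.v
  t e := e.v * gX R e.x

theorem cayQ_equiv : (cayQ R).Equiv' where
  s_smul _ _ := rfl
  t_smul g e := mul_assoc g e.v (gX R e.x)

/-- The Magnus homomorphism on the free group. -/
noncomputable def magF : FreeGroup X →* WE (QF R) (CE R) :=
  FreeGroup.lift fun x => ⟨Multiplicative.ofAdd (single ⟨1, x⟩ 1), gX R x⟩

theorem magF_of (x : X) :
    magF R (FreeGroup.of x) = ⟨Multiplicative.ofAdd (single ⟨1, x⟩ 1), gX R x⟩ := by
  simp [magF]

theorem magF_right (w : FreeGroup X) : (magF R w).right = (QuotientGroup.mk w : QF R) := by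
  have h : (SemidirectProduct.rightHom : WE (QF R) (CE R) →* QF R).comp (magF R) =
      QuotientGroup.mk' R := by
    apply FreeGroup.ext_hom
    intro x
    rw [MonoidHom.comp_apply, magF_of]
    rfl
  exact DFunLike.congr_fun h w

/-- The label of a word. -/
noncomputable def cF (w : FreeGroup X) : CE R →₀ ℤ := lw (magF R w)

theorem cF_mul (w w' : FreeGroup X) :
    cF R (w * w') = cF R w + gE (QuotientGroup.mk w : QF R) (cF R w') := by
  rw [cF, map_mul, lw_mul, magF_right]
  rfl

theorem cF_one : cF R 1 = 0 := by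
  rw [cF, map_one]; rfl

theorem cF_of (x : X) : cF R (FreeGroup.of x) = single ⟨1, x⟩ 1 := by
  rw [cF, magF_of]; rfl

theorem cF_inv (w : FreeGroup X) :
    cF R w⁻¹ = - gE (QuotientGroup.mk w : QF R)⁻¹ (cF R w) := by
  have h := cF_mul R w⁻¹ w
  rw [inv_mul_cancel, cF_one] at h
  exact eq_neg_of_add_eq_zero_left h.symm

/-- Multiplication of a word by a generator. -/
theorem cF_mul_of (w : FreeGroup X) (x : X) :
    cF R (w * FreeGroup.of x) = cF R w + single ⟨QuotientGroup.mk w, x⟩ 1 := by
  rw [cF_mul, cF_of, gE_single, ce_smul, mul_one]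

theorem cF_mul_of_inv (w : FreeGroup X) (x : X) :
    cF R (w * (FreeGroup.of x)⁻¹) =
      cF R w - single ⟨QuotientGroup.mk (w * (FreeGroup.of x)⁻¹), x⟩ 1 := by
  have h := cF_mul_of R (w * (FreeGroup.of x)⁻¹) x
  rw [inv_mul_cancel_right] at h
  rw [h]; abel

theorem gen_ind {p : FreeGroup X → Prop} (h1 : p 1)
    (h2 : ∀ w x, p w → p (w * FreeGroup.of x)) (h3 : ∀ w x, p w → p (w * (FreeGroup.of x)⁻¹))
    (w : FreeGroup X) : p w := by
  have hw : w ∈ Subgroup.closure (Set.range (FreeGroup.of (α := X))) := by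
    rw [FreeGroup.closure_range_of]; trivial
  refine Subgroup.closure_induction_right (p := fun w _ => p w) h1 ?_ ?_ hw
  · rintro w - y ⟨x, rfl⟩ hp
    exact h2 w x hp
  · rintro w - y ⟨x, rfl⟩ hp
    exact h3 w x hp

theorem del_cF (w : FreeGroup X) :
    (cayQ R).del (cF R w) = single (QuotientGroup.mk w : QF R) 1 - single 1 1 := by
  induction w using gen_ind with
  | h1 =>
    rw [cF_one, map_zero]
    exact (sub_self _).symm
  | h2 w x ih =>
    rw [cF_mul_of, map_add, ih, Edges.del_single]
    change _ + (single ((QuotientGroup.mk w : QF R) * gX R x) 1 -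
      single (QuotientGroup.mk w : QF R) 1) = _
    have e : (QuotientGroup.mk (w * FreeGroup.of x) : QF R) = QuotientGroup.mk w * gX R x := rfl
    rw [e]
    abel
  | h3 w x ih =>
    rw [cF_mul_of_inv, map_sub, ih, Edges.del_single]
    change _ - (single ((QuotientGroup.mk (w * (FreeGroup.of x)⁻¹) : QF R) * gX R x) 1 -
      single _ 1) = _
    have e : (QuotientGroup.mk (w * (FreeGroup.of x)⁻¹) : QF R) * gX R x = QuotientGroup.mk w := by
      change ((QuotientGroup.mk (w * (FreeGroup.of x)⁻¹ * FreeGroup.of x) : QF R)) = _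
      rw [inv_mul_cancel_right]
    rw [e]
    abel

theorem mk_eq_one (r : R) : (QuotientGroup.mk (r : FreeGroup X) : QF R) = 1 :=
  (QuotientGroup.eq_one_iff _).mpr r.2

theorem magF_comm (r s : FreeGroup X) (hr : r ∈ R) (hs : s ∈ R) :
    magF R r * magF R s = magF R s * magF R r := by
  have hr1 : (QuotientGroup.mk r : QF R) = 1 := (QuotientGroup.eq_one_iff _).mpr hr
  have hs1 : (QuotientGroup.mk s : QF R) = 1 := (QuotientGroup.eq_one_iff _).mpr hs
  have hinj : ∀ a b : WE (QF R) (CE R), lw a = lw b → a.right = b.right → a = b := by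
    intro a b h1 h2
    exact SemidirectProduct.ext (congrArg Multiplicative.ofAdd h1) h2
  apply hinj
  · rw [lw_mul, lw_mul, magF_right, magF_right, hr1, hs1, gE_one, gE_one, add_comm]
  · rw [SemidirectProduct.mul_right, SemidirectProduct.mul_right, magF_right, magF_right, hr1,
      hs1]

theorem commutator_le : ⁅R, R⁆ ≤ (magF R).ker := by
  rw [Subgroup.commutator_le]
  intro r hr s hs
  rw [MonoidHom.mem_ker, commutatorElement_def, map_mul, map_mul, map_mul, map_inv, map_inv,
    magF_comm R r s hr hs, mul_inv_cancel_right, mul_inv_cancel]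

/-- The Magnus homomorphism. -/
noncomputable def magQ : FRR R →* WE (QF R) (CE R) :=
  QuotientGroup.lift ⁅R, R⁆ (magF R) (fun _ h => commutator_le R h)

theorem magQ_mk (w : FreeGroup X) : magQ R (QuotientGroup.mk w) = magF R w := rfl

/-- The image of `R` in `F / [R, R]`. -/
def Rbar : Subgroup (FRR R) := R.map (QuotientGroup.mk' ⁅R, R⁆)

theorem rbar_comm (a b : Rbar R) : a * b = b * a := by
  obtain ⟨a, r, hr, rfl⟩ := a
  obtain ⟨b, s, hs, rfl⟩ := b
  apply Subtype.ext
  change (QuotientGroup.mk (r * s) : FRR R) = QuotientGroup.mk (s * r)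
  rw [QuotientGroup.eq]
  have h := Subgroup.commutator_mem_commutator (H₁ := R) (H₂ := R) (inv_mem hs) (inv_mem hr)
  rw [commutatorElement_def] at h
  simpa [mul_assoc] using h

/-- The commutative group `R / [R, R]`. -/
noncomputable instance rbarComm : CommGroup (Rbar R) :=
  { (inferInstance : Group (Rbar R)) with mul_comm := rbar_comm R }

open Classical in
/-- A section of `F → F / R` with value `1` at `1`. -/
noncomputable def secF (v : QF R) : FreeGroup X := if v = 1 then 1 else v.out

theorem secF_one : secF R 1 = 1 := by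
  simp [secF]

theorem mk_secF (v : QF R) : (QuotientGroup.mk (secF R v) : QF R) = v := by
  unfold secF
  split_ifs with h
  · rw [h]; rfl
  · exact Quotient.out_eq v

theorem rel_mem (e : CE R) :
    secF R e.v * FreeGroup.of e.x * (secF R (e.v * gX R e.x))⁻¹ ∈ R := by
  rw [← QuotientGroup.eq_one_iff]
  change (QuotientGroup.mk (secF R e.v) : QF R) * gX R e.x *
    (QuotientGroup.mk (secF R (e.v * gX R e.x)) : QF R)⁻¹ = 1
  rw [mk_secF, mk_secF, mul_inv_cancel]

/-- The relator attached to an edge. -/
noncomputable def relR (e : CE R) : Rbar R :=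
  ⟨QuotientGroup.mk (secF R e.v * FreeGroup.of e.x * (secF R (e.v * gX R e.x))⁻¹),
    _, rel_mem R e, rfl⟩

/-- The homomorphism from the `1`-chains to `R / [R, R]`. -/
noncomputable def lamR : (CE R →₀ ℤ) →ₗ[ℤ] Additive (Rbar R) :=
  Finsupp.linearCombination ℤ (fun e => Additive.ofMul (relR R e))

/-- The same, with values in `F / [R, R]`. -/
noncomputable def lamG (m : CE R →₀ ℤ) : FRR R := (Additive.toMul (lamR R m) : Rbar R).1

theorem lamG_add (m m' : CE R →₀ ℤ) : lamG R (m + m') = lamG R m * lamG R m' := by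
  unfold lamG
  rw [map_add]
  rfl

theorem lamG_zero : lamG R 0 = 1 := by
  unfold lamG
  rw [map_zero]
  rfl

theorem lamG_single (e : CE R) : lamG R (single e 1) = (relR R e).1 := by
  unfold lamG lamR
  rw [Finsupp.linearCombination_single, one_smul]
  rfl

theorem lamG_neg (m : CE R →₀ ℤ) : lamG R (-m) = (lamG R m)⁻¹ := by
  rw [eq_comm, inv_eq_iff_mul_eq_one, ← lamG_add, add_neg_cancel, lamG_zero]

theorem relR_val (e : CE R) : (relR R e).1 =
    (QuotientGroup.mk (secF R e.v) : FRR R) * QuotientGroup.mk (FreeGroup.of e.x) *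
      (QuotientGroup.mk (secF R (e.v * gX R e.x)) : FRR R)⁻¹ := rfl

/-- Every word is the product of the value of its label and of the representative of its class. -/
theorem word_eq (w : FreeGroup X) : (QuotientGroup.mk w : FRR R) =
    lamG R (cF R w) * QuotientGroup.mk (secF R (QuotientGroup.mk w)) := by
  induction w using gen_ind with
  | h1 =>
    rw [cF_one, lamG_zero, one_mul]
    have e : (QuotientGroup.mk (1 : FreeGroup X) : QF R) = 1 := rfl
    rw [e, secF_one]
  | h2 w x ih =>
    rw [cF_mul_of, lamG_add, lamG_single, relR_val]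
    have e : (QuotientGroup.mk (w * FreeGroup.of x) : QF R) = QuotientGroup.mk w * gX R x := rfl
    have e2 : (QuotientGroup.mk (w * FreeGroup.of x) : FRR R) =
        QuotientGroup.mk w * QuotientGroup.mk (FreeGroup.of x) := rfl
    rw [e, e2, ih, mul_assoc, mul_assoc, mul_assoc, inv_mul_cancel, mul_one]
  | h3 w x ih =>
    set v : QF R := QuotientGroup.mk (w * (FreeGroup.of x)⁻¹) with hv
    have e : v * gX R x = QuotientGroup.mk w := by
      change ((QuotientGroup.mk (w * (FreeGroup.of x)⁻¹ * FreeGroup.of x) : QF R)) = _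
      rw [inv_mul_cancel_right]
    have e2 : (QuotientGroup.mk (w * (FreeGroup.of x)⁻¹) : FRR R) =
        QuotientGroup.mk w * (QuotientGroup.mk (FreeGroup.of x))⁻¹ := rfl
    rw [cF_mul_of_inv, ← hv, sub_eq_add_neg, lamG_add, lamG_neg, lamG_single, relR_val, e2, e]
    rw [mul_inv_rev, mul_inv_rev, inv_inv]
    conv_lhs => rw [ih]
    simp only [mul_assoc, inv_mul_cancel, mul_one]

/-- The label of an element of `F / [R, R]`. -/
noncomputable def cG (g : FRR R) : CE R →₀ ℤ := lw (magQ R g)

theorem cG_mk (w : FreeGroup X) : cG R (QuotientGroup.mk w) = cF R w := rfl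

/-- The projection `F / [R, R] → F / R`. -/
noncomputable def gG : FRR R →* QF R :=
  (SemidirectProduct.rightHom : WE (QF R) (CE R) →* QF R).comp (magQ R)

theorem gG_mk (w : FreeGroup X) : gG R (QuotientGroup.mk w) = QuotientGroup.mk w :=
  magF_right R w

theorem cG_mul (g h : FRR R) : cG R (g * h) = cG R g + gE (gG R g) (cG R h) := by
  rw [cG, map_mul, lw_mul]
  rfl

theorem gG_lamG (m : CE R →₀ ℤ) : gG R (lamG R m) = 1 := by
  obtain ⟨r, hr, hr2⟩ := (Additive.toMul (lamR R m) : Rbar R).2
  have h : lamG R m = QuotientGroup.mk r := hr2.symm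
  rw [h, gG_mk]
  exact (QuotientGroup.eq_one_iff _).mpr hr

/-- The label of the representative of `v`. -/
noncomputable def cS (v : QF R) : CE R →₀ ℤ := cF R (secF R v)

theorem cG_lamG (m : CE R →₀ ℤ) :
    cG R (lamG R m) = m - Finsupp.linearCombination ℤ (cS R) ((cayQ R).del m) := by
  apply int_ind (fun m => cG R (lamG R m))
    (fun m => m - Finsupp.linearCombination ℤ (cS R) ((cayQ R).del m))
  · intro a b
    simp only [lamG_add, cG_mul, gG_lamG, gE_one]
  · intro a b
    simp only [map_add]; abel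
  · intro e
    simp only [lamG_single, Edges.del_single, map_sub, Finsupp.linearCombination_single, one_smul]
    have h1 : (relR R e).1 * QuotientGroup.mk (secF R (e.v * gX R e.x)) =
        QuotientGroup.mk (secF R e.v * FreeGroup.of e.x) := by
      rw [relR_val, inv_mul_cancel_right]; rfl
    have h2 : gG R (relR R e).1 = 1 := by
      rw [← lamG_single, gG_lamG]
    have h3 := cG_mul R (relR R e).1 (QuotientGroup.mk (secF R (e.v * gX R e.x)))
    rw [h1, h2, gE_one, cG_mk, cG_mk, cF_mul_of, mk_secF] at h3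
    have h4 : cG R (relR R e).1 = cF R (secF R e.v) + single ⟨e.v, e.x⟩ 1 -
        cF R (secF R (e.v * gX R e.x)) := by
      rw [h3]; abel
    rw [h4]
    change cS R e.v + single e 1 - cS R (e.v * gX R e.x) =
      single e 1 - (cS R (e.v * gX R e.x) - cS R e.v)
    abel

/-- The Magnus data of `F / [R, R]`. -/
noncomputable def magnusFRR : Magnus (cayQ R) (FRR R) where
  γ := gG R
  c := cG R
  mul := cG_mul R
  del g := by
    obtain ⟨w, rfl⟩ := QuotientGroup.mk_surjective g
    rw [cG_mk, gG_mk, del_cF]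
  inj g h hγ hc := by
    obtain ⟨w, rfl⟩ := QuotientGroup.mk_surjective g
    obtain ⟨w', rfl⟩ := QuotientGroup.mk_surjective h
    rw [gG_mk, gG_mk] at hγ
    rw [cG_mk, cG_mk] at hc
    rw [word_eq, word_eq R w', hγ, hc]
  sur m v hm := by
    refine ⟨lamG R m * QuotientGroup.mk (secF R v), ?_, ?_⟩
    · rw [map_mul, gG_lamG, one_mul, gG_mk, mk_secF]
    · rw [cG_mul, gG_lamG, gE_one, cG_lamG, hm, map_sub, Finsupp.linearCombination_single,
        Finsupp.linearCombination_single, one_smul, one_smul, cG_mk]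
      have h : cS R 1 = 0 := by rw [cS, secF_one, cF_one]
      rw [h, sub_zero]
      change m - cS R v + cS R v = m
      abel
  gen v := by
    obtain ⟨w, rfl⟩ := QuotientGroup.mk_surjective v
    exact ⟨cF R w, del_cF R w⟩

end FM

end Pool.Agent.Y483
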