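import Pool.Agent.Y483.Main

/-!
Restricted wreath products.
-/

namespace Pool.Agent.Y483

open Finsupp CategoryTheory DirectSum Pointwise

universe v

variable (P Γ : Type) [Group P] [Group Γ]

/-- The restricted direct power of `P` indexed by `Γ`: functions `Γ → P` equal to `1` outside a
finite set. -/
def rBase : Subgroup (Γ → P) where
  carrier := {f | (Function.mulSupport f).Finite}
  mul_mem' := fun {f g} hf hg => (hf.union hg).subset (Function.mulSupport_mul f g)
  one_mem' := by simp
  inv_mem' := fun {f} hf => by
    have h : Function.mulSupport f⁻¹ = Function.mulSupport f := Function.mulSupport_inv f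
    change (Function.mulSupport f⁻¹).Finite
    rw [h]
    exact hf

variable {P Γ}

/-- The translate of a function of the restricted direct power. -/
def rTrans (γ : Γ) (f : rBase P Γ) : rBase P Γ :=
  ⟨fun x => f.1 (γ⁻¹ * x), by
    have h : (Function.mulSupport f.1).Finite := f.2
    refine (h.image (fun x => γ * x)).subset ?_
    intro x hx
    exact ⟨γ⁻¹ * x, hx, by simp⟩⟩

variable (P Γ)

/-- The action of `Γ` on the restricted direct power by translations, `(γ f)(x) = f(γ⁻¹ x)`. -/
def rAct : Γ →* MulAut (rBase P Γ) where
  toFun γ :=
    { toFun := rTrans γ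
      invFun := rTrans γ⁻¹
      left_inv := fun f => by
        apply Subtype.ext; funext x
        simp [rTrans]
      right_inv := fun f => by
        apply Subtype.ext; funext x
        simp [rTrans]
      map_mul' := fun f g => rfl }
  map_one' := by
    apply MulEquiv.ext
    intro f
    apply Subtype.ext; funext x
    simp [rTrans]
  map_mul' a b := by
    apply MulEquiv.ext
    intro f
    apply Subtype.ext; funext x
    change f.1 ((a * b)⁻¹ * x) = f.1 (b⁻¹ * (a⁻¹ * x))
    simp [mul_assoc]

/-- The restricted wreath product `P ≀ Γ`. -/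
abbrev RWreath : Type := rBase P Γ ⋊[rAct P Γ] Γ

open Classical in
/-- The support system of the restricted direct power: `e_S` replaces the values outside `S` by
`1`. -/
noncomputable def rSupp : SupportSystem (rAct P Γ) where
  e S :=
    { toFun := fun f => ⟨fun x => if x ∈ S then f.1 x else 1, by
        have h : (Function.mulSupport f.1).Finite := f.2
        refine h.subset ?_
        intro x hx
        rw [Function.mem_mulSupport] at *
        intro h0
        apply hx
        simp [h0]⟩
      map_one' := by
        apply Subtype.ext; funext x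
        simp
      map_mul' := fun f g => by
        apply Subtype.ext; funext x
        by_cases h : x ∈ S <;> simp [h] }
  inter S S' f := by
    apply Subtype.ext; funext x
    by_cases h : x ∈ S <;> by_cases h' : x ∈ S' <;> simp [h, h']
  empty f := by
    apply Subtype.ext; funext x
    simp
  equivariant γ S f := by
    apply Subtype.ext; funext x
    change (if γ⁻¹ * x ∈ S then f.1 (γ⁻¹ * x) else 1) = (if x ∈ γ • S then f.1 (γ⁻¹ * x) else 1)
    have h : x ∈ γ • S ↔ γ⁻¹ * x ∈ S := Set.mem_smul_set_iff_inv_smul_mem
    simp only [h]
  finite f := by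
    refine ⟨Function.mulSupport f.1, f.2, ?_⟩
    apply Subtype.ext; funext x
    change (if x ∈ Function.mulSupport f.1 then f.1 x else 1) = f.1 x
    split_ifs with h
    · rfl
    · rw [Function.mem_mulSupport, not_not] at h
      exact h.symm

theorem rSupp_mem {S : Set Γ} (f : rBase P Γ) {x : Γ} (h : x ∈ S) :
    ((rSupp P Γ).e S f).1 x = f.1 x := by
  classical
  exact if_pos h

theorem rSupp_notMem {S : Set Γ} (f : rBase P Γ) {x : Γ} (h : x ∉ S) :
    ((rSupp P Γ).e S f).1 x = 1 := by
  classical
  exact if_neg h

open Classical in
/-- For an injection `f` of `{1, …, n}` in `Γ`, the homomorphism of `P^n` to the restricted direct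
power which places the coordinates of an element at the points of the image of `f`. -/
noncomputable def placeBase {n : ℕ} (f : Fin n ↪ Γ) : (Fin n → P) →* rBase P Γ where
  toFun p := ⟨fun x => if h : ∃ i, f i = x then p h.choose else 1, by
    refine (Set.finite_range f).subset ?_
    intro x hx
    rw [Function.mem_mulSupport] at hx
    by_contra hcon
    apply hx
    rw [dif_neg]
    rintro ⟨i, hi⟩
    exact hcon ⟨i, hi⟩⟩
  map_one' := by
    apply Subtype.ext; funext x
    simp
  map_mul' p q := by
    apply Subtype.ext; funext x
    by_cases h : ∃ i, f i = x <;> simp [h]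

/-- For an injection `f` of `{1, …, n}` in `Γ`, the homomorphism `P^n → P ≀ Γ` which places the
coordinates of an element at the points of the image of `f`. -/
noncomputable def place {n : ℕ} (f : Fin n ↪ Γ) : (Fin n → P) →* RWreath P Γ :=
  SemidirectProduct.inl.comp (placeBase P Γ f)

theorem placeBase_apply {n : ℕ} (f : Fin n ↪ Γ) (p : Fin n → P) (i : Fin n) :
    (placeBase P Γ f p).1 (f i) = p i := by
  classical
  change (if h : ∃ k, f k = f i then p h.choose else 1) = p i
  have h : ∃ k, f k = f i := ⟨i, rfl⟩
  rw [dif_pos h]
  congr 1
  exact f.injective h.choose_spec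

theorem placeBase_notMem {n : ℕ} (f : Fin n ↪ Γ) (p : Fin n → P) (x : Γ)
    (hx : x ∉ Set.range f) : (placeBase P Γ f p).1 x = 1 := by
  classical
  change (if h : ∃ k, f k = x then p h.choose else 1) = 1
  exact dif_neg hx

/-- **Kernel formula for restricted wreath products.** -/
theorem wreath_kernel {E : LFunctor.{v}} {T₀ : Type} [Group T₀] (A : Assembly E T₀) (J : Set ℕ) :
    LinearMap.ker (A.total J (RWreath P Γ)) =
      (LinearMap.ker (A.total J Γ)).map (hjMap J SemidirectProduct.inr) ⊔
        ⨆ (n : ℕ) (f : Fin n ↪ Γ), (LinearMap.ker (A.total J (Fin n → P))).map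
          (hjMap J (place P Γ f)) := by
  rw [kernel_formula A J (rSupp P Γ)]
  congr 1
  apply le_antisymm
  · apply iSup_le
    intro F
    rw [Submodule.map_le_iff_le_comap]
    intro u hu
    -- an enumeration of `F`
    let f : Fin F.card ↪ Γ := F.equivFin.symm.toEmbedding.trans (Function.Embedding.subtype _)
    let q : (rSupp P Γ).part (F : Set Γ) →* (Fin F.card → P) :=
      { toFun := fun u i => u.1.1 (f i)
        map_one' := rfl
        map_mul' := fun _ _ => rfl }
    have hfact : (rSupp P Γ).partIncl (F : Set Γ) = (place P Γ f).comp q := by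
      ext1 u
      apply SemidirectProduct.ext
      · apply Subtype.ext
        funext x
        change u.1.1 x = (placeBase P Γ f (q u)).1 x
        by_cases hx : x ∈ Set.range f
        · obtain ⟨i, rfl⟩ := hx
          rw [placeBase_apply]
          rfl
        · rw [placeBase_notMem P Γ f _ x hx]
          obtain ⟨w, hw⟩ := u.2
          rw [← hw]
          apply rSupp_notMem
          intro hxF
          apply hx
          refine ⟨F.equivFin ⟨x, hxF⟩, ?_⟩
          simp [f]
      · rfl
    rw [Submodule.mem_comap, hfact, hjMap_comp]
    refine Submodule.mem_iSup_of_mem F.card (Submodule.mem_iSup_of_mem f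
      (Submodule.mem_map_of_mem ?_))
    rw [LinearMap.mem_ker, ← A.total_nat, LinearMap.mem_ker.mp hu, map_zero]
  · apply iSup_le
    intro n
    apply iSup_le
    intro f
    rw [Submodule.map_le_iff_le_comap]
    intro u hu
    let F : Finset Γ := Finset.univ.map f
    have hfix : ∀ p, (rSupp P Γ).e (F : Set Γ) (placeBase P Γ f p) = placeBase P Γ f p := by
      intro p
      apply Subtype.ext
      funext x
      by_cases hx : x ∈ (F : Set Γ)
      · exact rSupp_mem P Γ _ hx
      · rw [rSupp_notMem P Γ _ hx, placeBase_notMem P Γ f _ x]
        rintro ⟨i, rfl⟩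
        exact hx (by simp [F])
    let q : (Fin n → P) →* (rSupp P Γ).part (F : Set Γ) :=
      (placeBase P Γ f).codRestrict _ (fun p => ⟨_, hfix p⟩)
    have hfact : place P Γ f = ((rSupp P Γ).partIncl (F : Set Γ)).comp q := rfl
    rw [Submodule.mem_comap, hfact, hjMap_comp]
    refine Submodule.mem_iSup_of_mem F (Submodule.mem_map_of_mem ?_)
    rw [LinearMap.mem_ker, ← A.total_nat, LinearMap.mem_ker.mp hu, map_zero]

/-- If the total rational assembly maps of `Γ` and of all the finite powers of `P` are injective,
so is that of the restricted wreath product. -/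
theorem wreath_injective {E : LFunctor.{v}} {T₀ : Type} [Group T₀] (A : Assembly E T₀) (J : Set ℕ)
    (hP : ∀ n : ℕ, Function.Injective (A.total J (Fin n → P)))
    (hΓ : Function.Injective (A.total J Γ)) : Function.Injective (A.total J (RWreath P Γ)) := by
  rw [← LinearMap.ker_eq_bot, wreath_kernel, LinearMap.ker_eq_bot.mpr hΓ, Submodule.map_bot,
    bot_sup_eq]
  rw [eq_bot_iff]
  apply iSup_le
  intro n
  apply iSup_le
  intro f
  rw [LinearMap.ker_eq_bot.mpr (hP n), Submodule.map_bot]

end Pool.Agent.Y483
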