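import Pool.Agent.Y483.Chains

/-!
Homogeneous and inhomogeneous chains of a group with coefficients in a rational representation.
-/

namespace Pool.Agent.Y483

open Finsupp

theorem prism_nat {X₁ X₂ Y₁ Y₂ : Type*} {M N : Type*} [AddCommGroup M] [Module ℚ M]
    [AddCommGroup N] [Module ℚ N] (f₁ g₁ : X₁ → Y₁) (f₂ g₂ : X₂ → Y₂) (a : X₁ → X₂) (b : Y₁ → Y₂)
    (χ : M →ₗ[ℚ] N) (hf : ∀ x, f₂ (a x) = b (f₁ x)) (hg : ∀ x, g₂ (a x) = b (g₁ x)) (n : ℕ)
    (z : T n X₁ M) : prism f₂ g₂ n (mp n a χ z) = mp (n + 1) b χ (prism f₁ g₁ n z) := by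
  induction n with
  | zero =>
    change (0 : T 0 X₂ N →ₗ[ℚ] T 1 Y₂ N) _ = mp 1 b χ ((0 : T 0 X₁ M →ₗ[ℚ] T 1 Y₁ M) z)
    simp
  | succ n ih =>
    have h : (prism f₂ g₂ (n + 1)) ∘ₗ (mp (n + 1) a χ) =
        (mp (n + 2) b χ) ∘ₗ (prism f₁ g₁ (n + 1)) := by
      apply T_ext
      intro x m
      rw [LinearMap.comp_apply, LinearMap.comp_apply, single_eq_cone, mp_cone, prism_cone,
        prism_cone, map_sub, mp_cone, mp_cone, mp_cone, ih, hf, hg, mp_mp, mp_mp]
      have e : g₂ ∘ a = b ∘ g₁ := funext hg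
      rw [e]
      rfl
    exact DFunLike.congr_fun h z

section Group

variable {G H : Type*} [Group G] [Group H] {M N V : Type*} [AddCommGroup M] [Module ℚ M]
  [AddCommGroup N] [Module ℚ N] [AddCommGroup V] [Module ℚ V]

/-- The differential of inhomogeneous chains. -/
noncomputable def dd (ρ : Representation ℚ G M) (n : ℕ) : T (n + 1) G M →ₗ[ℚ] T n G M :=
  lsum ℚ fun g => lsingle (fun i : Fin n => g i.succ) ∘ₗ ρ (g 0)⁻¹ +
    ∑ j : Fin (n + 1), ((-1 : ℚ) ^ ((j : ℕ) + 1)) • lsingle (Fin.contractNth j (· * ·) g)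

theorem dd_single (ρ : Representation ℚ G M) (n : ℕ) (g : Fin (n + 1) → G) (m : M) :
    dd ρ n (single g m) = single (fun i : Fin n => g i.succ) (ρ (g 0)⁻¹ m) +
      ∑ j : Fin (n + 1), ((-1 : ℚ) ^ ((j : ℕ) + 1)) • single (Fin.contractNth j (· * ·) g) m := by
  simp [dd]

/-- From homogeneous to inhomogeneous chains. -/
noncomputable def pp (ρ : Representation ℚ G M) (n : ℕ) : T (n + 1) G M →ₗ[ℚ] T n G M :=
  lsum ℚ fun x => lsingle (fun i : Fin n => (x i.castSucc)⁻¹ * x i.succ) ∘ₗ ρ (x 0)⁻¹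

theorem pp_single (ρ : Representation ℚ G M) (n : ℕ) (x : Fin (n + 1) → G) (m : M) :
    pp ρ n (single x m) =
      single (fun i : Fin n => (x i.castSucc)⁻¹ * x i.succ) (ρ (x 0)⁻¹ m) := by
  simp [pp]

/-- From inhomogeneous to homogeneous chains. -/
noncomputable def sg (n : ℕ) : T n G M →ₗ[ℚ] T (n + 1) G M :=
  lsum ℚ fun g => lsingle (Fin.partialProd g)

theorem sg_single (n : ℕ) (g : Fin n → G) (m : M) :
    sg n (single g m) = single (Fin.partialProd g) m := by
  simp [sg]

/-- The translation action on homogeneous chains. -/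
noncomputable def tr (ρ : Representation ℚ G M) (n : ℕ) (g : G) : T n G M →ₗ[ℚ] T n G M :=
  mp n (fun x => g * x) (ρ g)

theorem pp_sg (ρ : Representation ℚ G M) (n : ℕ) (z : T n G M) : pp ρ n (sg n z) = z := by
  have h : (pp ρ n) ∘ₗ (sg n) = LinearMap.id := by
    apply T_ext
    intro g m
    rw [LinearMap.comp_apply, sg_single, pp_single, LinearMap.id_apply, Fin.partialProd_zero,
      inv_one, map_one, Module.End.one_apply]
    congr 1
    funext i
    exact Fin.partialProd_right_inv g i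
  exact DFunLike.congr_fun h z

theorem pp_tr (ρ : Representation ℚ G M) (n : ℕ) (g : G) (z : T (n + 1) G M) :
    pp ρ n (tr ρ (n + 1) g z) = pp ρ n z := by
  have h : (pp ρ n) ∘ₗ (tr ρ (n + 1) g) = pp ρ n := by
    apply T_ext
    intro x m
    rw [LinearMap.comp_apply, tr, mp_single, pp_single, pp_single]
    congr 1
    · funext i
      simp only [Function.comp_apply]
      group
    · simp only [Function.comp_apply, mul_inv_rev, map_mul, Module.End.mul_apply]
      rw [← Module.End.mul_apply (ρ g⁻¹), ← map_mul, inv_mul_cancel, map_one,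
        Module.End.one_apply]
  exact DFunLike.congr_fun h z

theorem eq_tr (ρ : Representation ℚ G M) (n : ℕ) (x : Fin (n + 1) → G) (m : M) :
    (single x m : T (n + 1) G M) = tr ρ (n + 1) (x 0) (sg n (pp ρ n (single x m))) := by
  rw [pp_single, sg_single, tr, mp_single, ← Module.End.mul_apply, ← map_mul, mul_inv_cancel,
    map_one, Module.End.one_apply]
  congr 1
  exact (Fin.partialProd_left_inv x).symm

/-- A translation-invariant operator factors through inhomogeneous chains. -/
theorem factor (ρ : Representation ℚ G M) (n : ℕ) (U : T (n + 1) G M →ₗ[ℚ] V)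
    (hU : ∀ g z, U (tr ρ (n + 1) g z) = U z) (z : T (n + 1) G M) :
    U z = U (sg n (pp ρ n z)) := by
  have h : U = U ∘ₗ (sg n) ∘ₗ (pp ρ n) := by
    apply T_ext
    intro x m
    rw [LinearMap.comp_apply, LinearMap.comp_apply]
    conv_lhs => rw [eq_tr ρ n x m, hU]
  exact DFunLike.congr_fun h z

theorem pp_bd (ρ : Representation ℚ G M) (n : ℕ) (z : T (n + 2) G M) :
    pp ρ n (bd (n + 1) z) = dd ρ n (pp ρ (n + 1) z) := by
  have h : (pp ρ n) ∘ₗ (bd (n + 1)) = (dd ρ n) ∘ₗ (pp ρ (n + 1)) := by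
    apply T_ext
    intro x m
    rw [LinearMap.comp_apply, LinearMap.comp_apply, bd_single, pp_single, dd_single, map_sum,
      Fin.sum_univ_succ]
    congr 1
    · rw [Fin.val_zero, pow_zero, one_smul, pp_single]
      congr 1
      · rw [Function.comp_apply, Fin.zero_succAbove, ← Module.End.mul_apply, ← map_mul]
        congr 2
        simp
    · apply Finset.sum_congr rfl
      intro j _
      rw [map_smul, pp_single, Fin.val_succ]
      congr 2
      · funext k
        have hx := Fin.partialProd_left_inv x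
        have hx' : ∀ i, x i = x 0 * Fin.partialProd
            (fun i : Fin (n + 1) => (x i.castSucc)⁻¹ * x i.succ) i :=
          fun i => (congrFun hx i).symm
        have key := Fin.inv_partialProd_mul_eq_contractNth
          (fun i : Fin (n + 1) => (x i.castSucc)⁻¹ * x i.succ) j k
        rw [← key]
        simp only [Function.comp_apply]
        rw [hx' (j.succ.succAbove k.castSucc), hx' (j.succ.succAbove k.succ),
          Fin.succ_succAbove_succ]
        group
  exact DFunLike.congr_fun h z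

/-- Homotopies of homogeneous chains descend to inhomogeneous chains. -/
theorem descend (ρ : Representation ℚ G M) (τ : Representation ℚ H N)
    (U U' : ∀ n, T n G M →ₗ[ℚ] T n H N) (h : ∀ n, T n G M →ₗ[ℚ] T (n + 1) H N)
    (h0 : h 0 = 0)
    (hh : ∀ n z, bd (n + 1) (h (n + 1) z) + h n (bd n z) = U' (n + 1) z - U (n + 1) z)
    (hinv : ∀ n g z, pp τ (n + 1) (h (n + 1) (tr ρ (n + 1) g z)) = pp τ (n + 1) (h (n + 1) z))
    (n : ℕ) (z : T n G M) (hz : ∀ k, (e : n = k + 1) → dd ρ k (e ▸ z) = 0) :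
    dd τ n (pp τ (n + 1) (h (n + 1) (sg n z))) =
      pp τ n (U' (n + 1) (sg n z)) - pp τ n (U (n + 1) (sg n z)) := by
  have h1 : pp τ n (h n (bd n (sg n z))) = 0 := by
    cases n with
    | zero => rw [h0]; simp
    | succ k =>
      have hz' : dd ρ k z = 0 := hz k rfl
      have h2 := factor ρ k ((pp τ (k + 1)) ∘ₗ (h (k + 1))) (fun g w => hinv k g w)
        (bd (k + 1) (sg (k + 1) z))
      rw [LinearMap.comp_apply] at h2
      rw [h2, pp_bd, pp_sg, hz', map_zero, map_zero]
  rw [← map_sub, ← hh, map_add, h1, add_zero, pp_bd]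

end Group

end Pool.Agent.Y483
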