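import Pool.Agent.Y483.GroupChains

/-!
Two homotopies: conjugation acts trivially on homology, and a homotopy for families of maps.
-/

namespace Pool.Agent.Y483

open Finsupp

section Group

variable {G H : Type*} [Group G] [Group H] {M N V : Type*} [AddCommGroup M] [Module ℚ M]
  [AddCommGroup N] [Module ℚ N] [AddCommGroup V] [Module ℚ V]
  {ρ : Representation ℚ G M} {τ : Representation ℚ H N}

theorem dd_mp (f : G →* H) (φ : M →ₗ[ℚ] N) (hφ : ∀ g m, φ (ρ g m) = τ (f g) (φ m)) (n : ℕ)
    (z : T (n + 1) G M) : dd τ n (mp (n + 1) f φ z) = mp n f φ (dd ρ n z) := by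
  have h : (dd τ n) ∘ₗ (mp (n + 1) f φ) = (mp n f φ) ∘ₗ (dd ρ n) := by
    apply T_ext
    intro x m
    rw [LinearMap.comp_apply, LinearMap.comp_apply, mp_single, dd_single, dd_single, map_add,
      map_sum, mp_single]
    congr 1
    · congr 1
      rw [hφ, map_inv f]
      rfl
    · apply Finset.sum_congr rfl
      intro j _
      rw [map_smul, mp_single, Fin.comp_contractNth]
      intro a b
      exact map_mul f a b
  exact DFunLike.congr_fun h z

/-- Cycles; in degree `0` there is no condition. -/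
def Cyc (ρ : Representation ℚ G M) (n : ℕ) (z : T n G M) : Prop :=
  ∀ k, (e : n = k + 1) → dd ρ k (e ▸ z) = 0

theorem Cyc.zero (ρ : Representation ℚ G M) (z : T 0 G M) : Cyc ρ 0 z := by
  intro k e
  omega

theorem cyc_succ (ρ : Representation ℚ G M) (n : ℕ) (z : T (n + 1) G M) :
    Cyc ρ (n + 1) z ↔ dd ρ n z = 0 := by
  constructor
  · intro h; exact h n rfl
  · intro h k e
    have : n = k := by omega
    subst this
    exact h

/-- Conjugation acts trivially. -/
theorem plain (f : G →* H) (φ : M →ₗ[ℚ] N) (hφ : ∀ g m, φ (ρ g m) = τ (f g) (φ m)) (c : H)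
    (n : ℕ) (z : T n G M) (hz : Cyc ρ n z) :
    mp n (fun x => c⁻¹ * f x * c) ((τ c⁻¹) ∘ₗ φ) z - mp n f φ z ∈ LinearMap.range (dd τ n) := by
  have ev : ∀ c : H, pp τ n (mp (n + 1) (fun x => f x * c) φ (sg n z)) =
      mp n (fun x => c⁻¹ * f x * c) ((τ c⁻¹) ∘ₗ φ) z := by
    intro c
    have h : (pp τ n) ∘ₗ (mp (n + 1) (fun x => f x * c) φ) ∘ₗ (sg n) =
        mp n (fun x => c⁻¹ * f x * c) ((τ c⁻¹) ∘ₗ φ) := by
      apply T_ext
      intro g m
      rw [LinearMap.comp_apply, LinearMap.comp_apply, sg_single, mp_single, pp_single, mp_single]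
      congr 1
      · funext i
        simp only [Function.comp_apply]
        rw [← Fin.partialProd_right_inv g i, map_mul, map_inv]
        group
      · simp
    exact DFunLike.congr_fun h z
  have key := descend ρ τ (fun k => mp k f φ) (fun k => mp k (fun x => f x * c) φ)
    (fun k => (prism f (fun x => f x * c) k) ∘ₗ (mp k id φ)) ?_ ?_ ?_ n z hz
  · refine ⟨_, key.trans ?_⟩
    rw [ev c]
    congr 1
    have e1 := ev 1
    simp only [mul_one, inv_one, one_mul, map_one] at e1
    exact e1
  · change (0 : T 0 G N →ₗ[ℚ] T 1 H N) ∘ₗ _ = 0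
    rw [LinearMap.zero_comp]
  · intro k w
    rw [LinearMap.comp_apply, LinearMap.comp_apply, ← bd_mp, bd_prism_succ, mp_mp, mp_mp]
    rfl
  · intro k g w
    rw [LinearMap.comp_apply, LinearMap.comp_apply, tr, mp_mp]
    have e2 : mp (k + 1) (id ∘ fun x => g * x) (φ ∘ₗ ρ g) w =
        mp (k + 1) (fun x => g * x) (τ (f g)) (mp (k + 1) id φ w) := by
      rw [mp_mp]
      congr 2
      apply LinearMap.ext
      intro m
      exact hφ g m
    rw [e2, prism_nat (X₁ := G) (Y₁ := H) f (fun x => f x * c) f (fun x => f x * c)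
      (fun x => g * x) (fun x => f g * x) (τ (f g)) (by simp) (by simp [mul_assoc])]
    exact pp_tr τ (k + 1) (f g) _

variable {I M' : Type*} [AddCommGroup M'] [Module ℚ M']

/-- The homotopy for families of maps indexed by a basis of the coefficients. -/
theorem family (ρ : Representation ℚ G (I →₀ M')) (a : G → I → I) (σ : G → (M' →ₗ[ℚ] M'))
    (hρ : ∀ g i m, ρ g (single i m) = single (a g i) (σ g m))
    (f : G →* H) (ψ ψ' : I → G → H) (φ : I → (M' →ₗ[ℚ] N))
    (hψ : ∀ g i x, ψ (a g i) (g * x) = f g * ψ i x)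
    (hψ' : ∀ g i x, ψ' (a g i) (g * x) = f g * ψ' i x)
    (hφ : ∀ g i m, φ (a g i) (σ g m) = τ (f g) (φ i m))
    (n : ℕ) (z : T n G (I →₀ M')) (hz : Cyc ρ n z) :
    pp τ n (comb (n + 1) (fun i => mp (n + 1) (ψ' i) (φ i)) (sg n z)) -
      pp τ n (comb (n + 1) (fun i => mp (n + 1) (ψ i) (φ i)) (sg n z)) ∈
        LinearMap.range (dd τ n) := by
  refine ⟨_, descend ρ τ (fun k => comb k (fun i => mp k (ψ i) (φ i)))
    (fun k => comb k (fun i => mp k (ψ' i) (φ i)))
    (fun k => comb k (fun i => (prism (ψ i) (ψ' i) k) ∘ₗ (mp k id (φ i)))) ?_ ?_ ?_ n z hz⟩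
  · apply TI_ext
    intro x i m
    rw [comb_single, LinearMap.comp_apply]
    rfl
  · intro k w
    have h : (bd (k + 1)) ∘ₗ (comb (k + 1)
          (fun i => (prism (ψ i) (ψ' i) (k + 1)) ∘ₗ (mp (k + 1) id (φ i)))) +
        (comb k (fun i => (prism (ψ i) (ψ' i) k) ∘ₗ (mp k id (φ i)))) ∘ₗ (bd k) =
        comb (k + 1) (fun i => mp (k + 1) (ψ' i) (φ i)) -
          comb (k + 1) (fun i => mp (k + 1) (ψ i) (φ i)) := by
      apply TI_ext
      intro x i m
      rw [LinearMap.add_apply, LinearMap.sub_apply, LinearMap.comp_apply, LinearMap.comp_apply,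
        comb_bd, comb_single, comb_single, comb_single, comb_single, LinearMap.comp_apply,
        LinearMap.comp_apply, LinearMap.comp_apply, ← bd_mp, bd_prism_succ, mp_mp, mp_mp]
      rfl
    exact DFunLike.congr_fun h w
  · intro k g w
    have h : (pp τ (k + 1)) ∘ₗ (comb (k + 1)
          (fun i => (prism (ψ i) (ψ' i) (k + 1)) ∘ₗ (mp (k + 1) id (φ i)))) ∘ₗ
          (tr ρ (k + 1) g) =
        (pp τ (k + 1)) ∘ₗ (comb (k + 1)
          (fun i => (prism (ψ i) (ψ' i) (k + 1)) ∘ₗ (mp (k + 1) id (φ i)))) := by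
      apply TI_ext
      intro x i m
      rw [LinearMap.comp_apply, LinearMap.comp_apply, LinearMap.comp_apply, tr, mp_single, hρ,
        comb_single, comb_single, LinearMap.comp_apply, LinearMap.comp_apply]
      have e2 : mp (k + 1) id (φ (a g i)) (single ((fun x => g * x) ∘ x) (σ g m)) =
          mp (k + 1) (fun x => g * x) (τ (f g)) (mp (k + 1) id (φ i) (single x m)) := by
        rw [mp_single, mp_single, mp_single, hφ]
        rfl
      rw [e2, prism_nat (ψ i) (ψ' i) (ψ (a g i)) (ψ' (a g i)) (fun x => g * x)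
        (fun x => f g * x) (τ (f g)) (fun x => hψ g i x) (fun x => hψ' g i x)]
      exact pp_tr τ (k + 1) (f g) _
    exact DFunLike.congr_fun h w

theorem bd_bd (n : ℕ) {X : Type*} (z : T (n + 2) X M) : bd n (bd (n + 1) z) = 0 := by
  induction n with
  | zero =>
    have h : (bd 0) ∘ₗ (bd 1) = (0 : T 2 X M →ₗ[ℚ] T 0 X M) := by
      apply T_ext
      intro x m
      rw [LinearMap.comp_apply, single_eq_cone, bd_cone_succ, map_sub, bd_cone_zero, sub_self,
        LinearMap.zero_apply]
    exact DFunLike.congr_fun h z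
  | succ n ih =>
    have h : (bd (n + 1)) ∘ₗ (bd (n + 2)) = (0 : T (n + 3) X M →ₗ[ℚ] T (n + 1) X M) := by
      apply T_ext
      intro x m
      rw [LinearMap.comp_apply, single_eq_cone, bd_cone_succ, map_sub, bd_cone_succ, ih, map_zero,
        sub_zero, sub_self, LinearMap.zero_apply]
    exact DFunLike.congr_fun h z

theorem dd_dd (ρ : Representation ℚ G M) (n : ℕ) (z : T (n + 2) G M) :
    dd ρ n (dd ρ (n + 1) z) = 0 := by
  rw [← pp_sg ρ (n + 2) z, ← pp_bd, ← pp_bd, bd_bd, map_zero]

theorem cyc_dd (ρ : Representation ℚ G M) (n : ℕ) (z : T (n + 1) G M) : Cyc ρ n (dd ρ n z) := by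
  cases n with
  | zero => exact Cyc.zero _ _
  | succ n => rw [cyc_succ]; exact dd_dd ρ n z

theorem cyc_mp (f : G →* H) (φ : M →ₗ[ℚ] N) (hφ : ∀ g m, φ (ρ g m) = τ (f g) (φ m)) (n : ℕ)
    (z : T n G M) (hz : Cyc ρ n z) : Cyc τ n (mp n f φ z) := by
  cases n with
  | zero => exact Cyc.zero _ _
  | succ n => rw [cyc_succ] at *; rw [dd_mp f φ hφ, hz, map_zero]

theorem range_mp (f : G →* H) (φ : M →ₗ[ℚ] N) (hφ : ∀ g m, φ (ρ g m) = τ (f g) (φ m)) (n : ℕ)
    (z : T n G M) (hz : z ∈ LinearMap.range (dd ρ n)) :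
    mp n f φ z ∈ LinearMap.range (dd τ n) := by
  obtain ⟨y, rfl⟩ := hz
  exact ⟨mp (n + 1) f φ y, dd_mp f φ hφ n y⟩

theorem mp_injective {X Y : Type*} (n : ℕ) {f : X → Y} (hf : Function.Injective f) {φ : M →ₗ[ℚ] N}
    (hφ : Function.Injective φ) : Function.Injective (mp (M := M) n f φ) := by
  have h : ∀ z, mp (M := M) n f φ z = Finsupp.mapDomain (fun x : Fin n → X => f ∘ x)
      (Finsupp.mapRange φ (map_zero φ) z) := by
    intro z
    induction z using Finsupp.induction_linear with
    | zero => simp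
    | add a b ha hb => rw [map_add, ha, hb, Finsupp.mapRange_add (map_add φ), mapDomain_add]
    | single x m => rw [mp_single, mapRange_single, mapDomain_single]
  intro a b hab
  rw [h, h] at hab
  have h1 := Finsupp.mapDomain_injective (fun x y hxy => by
    funext i
    exact hf (congrFun hxy i)) hab
  exact Finsupp.mapRange_injective φ (map_zero φ) hφ h1

/-- A cycle with trivial coefficients, pushed to the trivial group, is a boundary in positive
degree. -/
theorem one_range (ρ : Representation ℚ G M) (hρ : ∀ g, ρ g = LinearMap.id)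
    (τ : Representation ℚ H M) (hτ : ∀ g, τ g = LinearMap.id) (n : ℕ)
    (z : T (n + 1) G M) (hz : dd ρ n z = 0) :
    mp (n + 1) (fun _ => (1 : H)) LinearMap.id z ∈ LinearMap.range (dd τ (n + 1)) := by
  -- the differential of the constant tuples
  have hd : ∀ (k : ℕ) (m : M), dd τ k (single (fun _ => (1 : H)) m) =
      (1 + ∑ j : Fin (k + 1), ((-1 : ℚ) ^ ((j : ℕ) + 1))) •
        single (fun _ => (1 : H)) m := by
    intro k m
    rw [dd_single, hτ, LinearMap.id_apply, add_smul, one_smul, Finset.sum_smul]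
    congr 1
    apply Finset.sum_congr rfl
    intro j _
    congr 2
    funext i
    unfold Fin.contractNth
    split_ifs <;> simp
  have hs : ∀ k : ℕ, (1 + ∑ j : Fin (k + 1), ((-1 : ℚ) ^ ((j : ℕ) + 1))) =
      if Even k then 0 else 1 := by
    intro k
    induction k with
    | zero => simp
    | succ k ih =>
      rw [Fin.sum_univ_castSucc, ← add_assoc]
      simp only [Fin.val_castSucc]
      rw [ih]
      rcases Nat.even_or_odd k with hk | hk
      · have h1 : ¬ Even (k + 1) := by simpa [Nat.even_add_one] using hk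
        simp only [hk, h1, if_true, if_false, Fin.val_last]
        have : Even (k + 1 + 1) := by simpa [Nat.even_add_one] using hk
        rw [this.neg_one_pow]; norm_num
      · have h1 : Even (k + 1) := hk.add_one
        have h2 : ¬ Even k := by simpa using hk
        simp only [h2, h1, if_true, if_false, Fin.val_last]
        have : Odd (k + 1 + 1) := h1.add_one
        rw [this.neg_one_pow]; norm_num
  -- the pushed cycle is a constant tuple
  have hc : ∀ (k : ℕ) (y : T k G M), mp k (fun _ => (1 : H)) LinearMap.id y =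
      single (fun _ => (1 : H)) (y.sum fun _ m => m) := by
    intro k y
    induction y using Finsupp.induction_linear with
    | zero => simp
    | add a b ha hb =>
      rw [map_add, ha, hb, Finsupp.sum_add_index' (fun _ => rfl) (fun _ _ _ => rfl), single_add]
    | single x m => rw [mp_single, Finsupp.sum_single_index rfl]; rfl
  have hz' : dd τ n (mp (n + 1) (fun _ => (1 : H)) LinearMap.id z) = 0 := by
    have := dd_mp (ρ := ρ) (τ := τ) (1 : G →* H) LinearMap.id
      (fun g m => by rw [hρ, hτ]) n z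
    rw [hz, map_zero] at this
    exact this
  rcases Nat.even_or_odd n with hn | hn
  · -- `n + 1` odd: the constant tuple is a boundary
    rw [hc]
    refine ⟨single (fun _ => (1 : H)) (z.sum fun _ m => m), ?_⟩
    rw [hd, hs]
    have : ¬ Even (n + 1) := by simpa [Nat.even_add_one] using hn
    simp [this]
  · have h1 := hz'
    rw [hc, hd, hs] at h1
    have h2 : ¬ Even n := by simpa using hn
    simp only [h2, if_false, one_smul] at h1
    rw [hc]
    have h3 : (z.sum fun _ m => m) = 0 := by
      simpa using h1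
    rw [h3, single_zero]
    exact Submodule.zero_mem _

end Group

end Pool.Agent.Y483
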