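import Pool.Agent.Y483.QSum

/-!
The rationalised quadratic L-group of a ring with involution.
-/

namespace Pool.Agent.Y483

open Matrix TensorProduct

section Defs

variable (R : Type) [Ring R] [StarRing R] (ε : ℤˣ)

/-- Nonsingular `ε`-quadratic forms on finitely generated projective modules: a size `n` and a form
in matrices of size `n`. -/
abbrev Forms : Type := Σ n : ℕ, QForm R ε (Fin n)

/-- The defining relations of the L-group: isometric forms are equal, an internal orthogonal sum is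
equal to the sum, and a hyperbolic form is zero. -/
def LRel (r : Forms R ε →₀ ℚ) : Prop :=
  (∃ x y : Forms R ε, Isometric x.2 y.2 ∧ r = Finsupp.single x 1 - Finsupp.single y 1) ∨
  (∃ (n : ℕ) (x y z : QForm R ε (Fin n)), z.θ = x.θ + y.θ ∧ z.ψ = x.ψ + y.ψ ∧
    x.φ * y.ψ = 0 ∧ y.φ * x.ψ = 0 ∧ r = Finsupp.single (⟨n, z⟩ : Forms R ε) 1 -
      Finsupp.single ⟨n, x⟩ 1 - Finsupp.single ⟨n, y⟩ 1) ∨
  (∃ x : Forms R ε, IsHyp x.2 ∧ r = Finsupp.single x 1)

/-- The span of the relations. -/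
noncomputable def LSpan : Submodule ℚ (Forms R ε →₀ ℚ) := Submodule.span ℚ {r | LRel R ε r}

/-- The rationalised L-group `L₀(R; ε) ⊗ ℚ` of nonsingular `ε`-quadratic forms on finitely generated
projective `R`-modules. -/
abbrev LQ : Type := (Forms R ε →₀ ℚ) ⧸ LSpan R ε

/-- The projection. -/
noncomputable def LQ.mk : (Forms R ε →₀ ℚ) →ₗ[ℚ] LQ R ε := (LSpan R ε).mkQ

variable {R ε}

/-- The class of a form. -/
noncomputable def LQ.cls {ι : Type} [Fintype ι] (x : QForm R ε ι) : LQ R ε :=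
  LQ.mk R ε (Finsupp.single ⟨Fintype.card ι, x.reindex (Fintype.equivFin ι).symm⟩ 1)

theorem LQ.mk_rel {r : Forms R ε →₀ ℚ} (h : LRel R ε r) : LQ.mk R ε r = 0 :=
  (Submodule.Quotient.mk_eq_zero _).mpr (Submodule.subset_span h)

theorem LQ.mk_isometric {m n : ℕ} {x : QForm R ε (Fin m)} {y : QForm R ε (Fin n)}
    (h : Isometric x y) : LQ.mk R ε (Finsupp.single ⟨m, x⟩ 1) =
      LQ.mk R ε (Finsupp.single ⟨n, y⟩ 1) := by
  rw [← sub_eq_zero, ← map_sub]
  exact LQ.mk_rel (Or.inl ⟨⟨m, x⟩, ⟨n, y⟩, h, rfl⟩)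

theorem LQ.cls_fin {n : ℕ} (x : QForm R ε (Fin n)) :
    LQ.cls x = LQ.mk R ε (Finsupp.single ⟨n, x⟩ 1) :=
  LQ.mk_isometric (isometric_reindex _ _)

variable {ι κ : Type} [Fintype ι] [Fintype κ]

theorem LQ.cls_isometric {x : QForm R ε ι} {y : QForm R ε κ} (h : Isometric x y) :
    LQ.cls x = LQ.cls y :=
  LQ.mk_isometric ((isometric_reindex _ _).trans (h.trans (isometric_reindex _ _).symm))

theorem LQ.mk_hyp {n : ℕ} {x : QForm R ε (Fin n)} (h : IsHyp x) :
    LQ.mk R ε (Finsupp.single ⟨n, x⟩ 1) = 0 :=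
  LQ.mk_rel (Or.inr (Or.inr ⟨⟨n, x⟩, h, rfl⟩))

theorem LQ.cls_hyp {x : QForm R ε ι} (h : IsHyp x) : LQ.cls x = 0 := by
  have key : ∀ (n : ℕ) (g : Fin n ≃ ι), LQ.mk R ε (Finsupp.single ⟨n, x.reindex g⟩ 1) = 0 :=
    fun n g => LQ.mk_hyp ((isometric_reindex x g).symm.isHyp h)
  exact key _ _

theorem LQ.mk_internal {n : ℕ} {x y z : QForm R ε (Fin n)} (hθ : z.θ = x.θ + y.θ)
    (hψ : z.ψ = x.ψ + y.ψ) (h1 : x.φ * y.ψ = 0) (h2 : y.φ * x.ψ = 0) :
    LQ.mk R ε (Finsupp.single ⟨n, z⟩ 1) =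
      LQ.mk R ε (Finsupp.single ⟨n, x⟩ 1) + LQ.mk R ε (Finsupp.single ⟨n, y⟩ 1) := by
  rw [← sub_eq_zero, sub_add_eq_sub_sub, ← map_sub, ← map_sub]
  exact LQ.mk_rel (Or.inr (Or.inl ⟨n, x, y, z, hθ, hψ, h1, h2, rfl⟩))

theorem LQ.cls_internal {x y z : QForm R ε ι} (hθ : z.θ = x.θ + y.θ) (hψ : z.ψ = x.ψ + y.ψ)
    (h1 : x.φ * y.ψ = 0) (h2 : y.φ * x.ψ = 0) : LQ.cls z = LQ.cls x + LQ.cls y := by
  have key : ∀ (n : ℕ) (g : Fin n ≃ ι), LQ.mk R ε (Finsupp.single ⟨n, z.reindex g⟩ 1) =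
      LQ.mk R ε (Finsupp.single ⟨n, x.reindex g⟩ 1) +
        LQ.mk R ε (Finsupp.single ⟨n, y.reindex g⟩ 1) := by
    intro n g
    have e1 : (z.reindex g).θ = (x.reindex g).θ + (y.reindex g).θ := by
      change z.θ.submatrix g g = x.θ.submatrix g g + y.θ.submatrix g g
      rw [hθ]; rfl
    have e2 : (z.reindex g).ψ = (x.reindex g).ψ + (y.reindex g).ψ := by
      change z.ψ.submatrix g g = x.ψ.submatrix g g + y.ψ.submatrix g g
      rw [hψ]; rfl
    have e3 : (x.reindex g).φ * (y.reindex g).ψ = 0 := by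
      rw [QForm.reindex_phi]
      change x.φ.submatrix g g * y.ψ.submatrix g g = 0
      rw [submatrix_mul_equiv, h1]; rfl
    have e4 : (y.reindex g).φ * (x.reindex g).ψ = 0 := by
      rw [QForm.reindex_phi]
      change y.φ.submatrix g g * x.ψ.submatrix g g = 0
      rw [submatrix_mul_equiv, h2]; rfl
    exact LQ.mk_internal e1 e2 e3 e4
  exact key _ _

theorem LQ.cls_sum (x : QForm R ε ι) (y : QForm R ε κ) :
    LQ.cls (x.sum y) = LQ.cls x + LQ.cls y := by
  have h1 : LQ.cls (x.sum y) = LQ.cls (x.sum (QForm.zero R ε κ)) +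
      LQ.cls ((QForm.zero R ε ι).sum y) := by
    apply LQ.cls_internal
    · change fromBlocks _ _ _ _ = fromBlocks _ _ _ _ + fromBlocks _ _ _ _
      rw [fromBlocks_add]; simp [QForm.zero]
    · change fromBlocks _ _ _ _ = fromBlocks _ _ _ _ + fromBlocks _ _ _ _
      rw [fromBlocks_add]; simp [QForm.zero]
    · rw [QForm.sum_phi, QForm.zero_phi]
      change _ * fromBlocks _ _ _ _ = 0
      rw [fromBlocks_multiply]; simp [QForm.zero]
    · rw [QForm.sum_phi, QForm.zero_phi]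
      change _ * fromBlocks _ _ _ _ = 0
      rw [fromBlocks_multiply]; simp [QForm.zero]
  rw [h1]
  congr 1
  · exact LQ.cls_isometric (sum_zero_isometric x).symm
  · exact LQ.cls_isometric ((sum_comm_isometric _ _).trans (sum_zero_isometric y).symm)

end Defs

/-! ### Functoriality -/

section Map

variable {R S : Type} [Ring R] [StarRing R] [Ring S] [StarRing S] (ε : ℤˣ)

/-- The map on forms. -/
def formsMap (f : R →⋆ₙ+* S) (x : Forms R ε) : Forms S ε := ⟨x.1, x.2.map f⟩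

theorem lspan_map (f : R →⋆ₙ+* S) :
    LSpan R ε ≤ (LSpan S ε).comap (Finsupp.lmapDomain ℚ ℚ (formsMap ε f)) := by
  apply Submodule.span_le.mpr
  intro r hr
  apply Submodule.subset_span
  rcases hr with ⟨x, y, h, rfl⟩ | ⟨n, x, y, z, h1, h2, h3, h4, rfl⟩ | ⟨x, h, rfl⟩
  · refine Or.inl ⟨formsMap ε f x, formsMap ε f y, h.map f, ?_⟩
    rw [map_sub, Finsupp.lmapDomain_apply, Finsupp.lmapDomain_apply, Finsupp.mapDomain_single,
      Finsupp.mapDomain_single]
  · refine Or.inr (Or.inl ⟨n, x.map f, y.map f, z.map f, ?_, ?_, ?_, ?_, ?_⟩)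
    · change z.θ.map f = x.θ.map f + y.θ.map f
      rw [h1, Matrix.map_add f (map_add f)]
    · change z.ψ.map f = x.ψ.map f + y.ψ.map f
      rw [h2, Matrix.map_add f (map_add f)]
    · rw [QForm.map_phi]
      change x.φ.map f * y.ψ.map f = 0
      rw [← Matrix.map_mul, h3, Matrix.map_zero f (map_zero f)]
    · rw [QForm.map_phi]
      change y.φ.map f * x.ψ.map f = 0
      rw [← Matrix.map_mul, h4, Matrix.map_zero f (map_zero f)]
    · rw [map_sub, map_sub, Finsupp.lmapDomain_apply, Finsupp.lmapDomain_apply,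
        Finsupp.lmapDomain_apply, Finsupp.mapDomain_single, Finsupp.mapDomain_single,
        Finsupp.mapDomain_single]
      rfl
  · refine Or.inr (Or.inr ⟨formsMap ε f x, h.map f, ?_⟩)
    rw [Finsupp.lmapDomain_apply, Finsupp.mapDomain_single]

/-- The map induced on the rationalised L-groups. -/
noncomputable def LQ.map (f : R →⋆ₙ+* S) : LQ R ε →ₗ[ℚ] LQ S ε :=
  Submodule.mapQ (LSpan R ε) (LSpan S ε) (Finsupp.lmapDomain ℚ ℚ (formsMap ε f)) (lspan_map ε f)

theorem LQ.map_mk (f : R →⋆ₙ+* S) (r : Forms R ε →₀ ℚ) :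
    LQ.map ε f (LQ.mk R ε r) = LQ.mk S ε (Finsupp.mapDomain (formsMap ε f) r) := rfl

theorem LQ.map_cls (f : R →⋆ₙ+* S) {ι : Type} [Fintype ι] (x : QForm R ε ι) :
    LQ.map ε f (LQ.cls x) = LQ.cls (x.map f) := by
  unfold LQ.cls
  rw [LQ.map_mk, Finsupp.mapDomain_single]
  rfl

variable {ε}

theorem LQ.hom_ext {V : Type*} [AddCommGroup V] [Module ℚ V] {f g : LQ R ε →ₗ[ℚ] V}
    (h : ∀ (n : ℕ) (x : QForm R ε (Fin n)), f (LQ.cls x) = g (LQ.cls x)) : f = g := by
  have h1 : f.comp (LQ.mk R ε) = g.comp (LQ.mk R ε) := by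
    apply Finsupp.lhom_ext
    rintro ⟨n, x⟩ q
    have e : (Finsupp.single (⟨n, x⟩ : Forms R ε) q : Forms R ε →₀ ℚ) =
        q • Finsupp.single ⟨n, x⟩ 1 := by simp
    rw [e, map_smul, map_smul]
    congr 1
    have := h n x
    rw [LQ.cls_fin] at this
    exact this
  apply LinearMap.ext
  intro z
  obtain ⟨r, rfl⟩ := Submodule.mkQ_surjective (LSpan R ε) z
  exact DFunLike.congr_fun h1 r

end Map

section Functor

variable (ε : ℤˣ)

theorem QForm.map_id {R : Type} [Ring R] [StarRing R] {ι : Type} [Fintype ι] (x : QForm R ε ι) :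
    x.map (NonUnitalStarRingHom.id R) = x := rfl

theorem LQ.map_id' (R : Type) [Ring R] [StarRing R] (z : LQ R ε) :
    LQ.map ε (NonUnitalStarRingHom.id R) z = z := by
  have h : LQ.map ε (NonUnitalStarRingHom.id R) = LinearMap.id :=
    LQ.hom_ext fun n x => LQ.map_cls ε _ x
  rw [h]; rfl

theorem LQ.map_comp' {R S T : Type} [Ring R] [StarRing R] [Ring S] [StarRing S] [Ring T]
    [StarRing T] (g : S →⋆ₙ+* T) (f : R →⋆ₙ+* S) (z : LQ R ε) :
    LQ.map ε (g.comp f) z = LQ.map ε g (LQ.map ε f z) := by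
  have h : LQ.map ε (g.comp f) = (LQ.map ε g).comp (LQ.map ε f) := by
    apply LQ.hom_ext
    intro n x
    rw [LinearMap.comp_apply, LQ.map_cls, LQ.map_cls, LQ.map_cls]
    rfl
  rw [h]; rfl

end Functor

end Pool.Agent.Y483
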