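import Pool.Agent.Y483.QSum

/-!
The corner embedding `S → D_A(S)` reflects stably hyperbolic forms.
-/

namespace Pool.Agent.Y483

open Matrix

section General

variable {R : Type*} [Ring R] [StarRing R] {ε : ℤˣ} {ι κ μ ν : Type*} [Fintype ι] [Fintype κ]
  [Fintype μ] [Fintype ν]

theorem one_sub_idem [DecidableEq ι] {m : Matrix ι ι R} (h : m * m = m) :
    (1 - m) * (1 - m) = 1 - m := by
  rw [Matrix.mul_sub, Matrix.sub_mul, Matrix.sub_mul, h]; simp

theorem mul_one_sub_idem [DecidableEq ι] {m : Matrix ι ι R} (h : m * m = m) :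
    m * (1 - m) = 0 := by
  rw [Matrix.mul_sub, h]; simp

theorem one_sub_mul_idem [DecidableEq ι] {m : Matrix ι ι R} (h : m * m = m) :
    (1 - m) * m = 0 := by
  rw [Matrix.sub_mul, h]; simp

/-- The hyperbolic forms of complementary modules add up to the hyperbolic form of a free
module. -/
theorem hyp_compl [DecidableEq ι] {m : Matrix ι ι R} (h : m * m = m) :
    IsIsom ((QForm.hyp ε m h).sum (QForm.hyp ε (1 - m) (one_sub_idem h)))
      (QForm.hyp ε (1 : Matrix ι ι R) (one_mul 1))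
      (fromCols (QForm.hyp ε m h).e (QForm.hyp ε (1 - m) (one_sub_idem h)).e) := by
  have h1 : mᴴ * (1 - m)ᴴ = 0 := by rw [← conjTranspose_mul, one_sub_mul_idem h]; simp
  have h2 : (1 - m)ᴴ * mᴴ = 0 := by rw [← conjTranspose_mul, mul_one_sub_idem h]; simp
  apply isIsom_internal
  · change fromBlocks 0 (1 : Matrix ι ι R)ᴴ 0 0 = fromBlocks 0 mᴴ 0 0 + fromBlocks 0 (1 - m)ᴴ 0 0
    rw [fromBlocks_add, ← conjTranspose_add]
    simp
  · change fromBlocks 0 ((ε : ℤ) • (1 : Matrix ι ι R)) (1 : Matrix ι ι R)ᴴ 0 =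
      fromBlocks 0 ((ε : ℤ) • m) mᴴ 0 + fromBlocks 0 ((ε : ℤ) • (1 - m)) (1 - m)ᴴ 0
    rw [fromBlocks_add, ← conjTranspose_add, ← smul_add]
    simp
  · rw [QForm.hyp_phi]
    change _ * fromBlocks 0 ((ε : ℤ) • (1 - m)) (1 - m)ᴴ 0 = 0
    rw [fromBlocks_multiply]
    simp only [Matrix.mul_smul, Matrix.smul_mul, h1, mul_one_sub_idem h]
    simp
  · rw [QForm.hyp_phi]
    change _ * fromBlocks 0 ((ε : ℤ) • m) mᴴ 0 = 0
    rw [fromBlocks_multiply]
    simp only [Matrix.mul_smul, Matrix.smul_mul, h2, one_sub_mul_idem h]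
    simp

/-- A stably hyperbolic form becomes hyperbolic after adding a free hyperbolic form. -/
theorem stab_free [DecidableEq κ] {x : QForm R ε ι} {η : QForm R ε κ} (h : IsHyp (x.sum η))
    (hη : IsHyp η) : IsHyp (x.sum (QForm.hyp ε (1 : Matrix κ κ R) (one_mul 1))) := by
  obtain ⟨m, hm⟩ := hη
  have i1 : Isometric (η.sum (QForm.hyp ε (1 - m) (one_sub_idem hm.1)))
      (QForm.hyp ε (1 : Matrix κ κ R) (one_mul 1)) :=
    (Isometric.sum ⟨_, hm.isIsom⟩ (Isometric.refl _)).trans ⟨_, hyp_compl hm.1⟩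
  have i2 := (sum_assoc_isometric x η (QForm.hyp ε (1 - m) (one_sub_idem hm.1))).trans
    ((Isometric.refl x).sum i1)
  exact i2.isHyp (h.sum (isHyp_hyp _ _))

theorem QForm.map_sum {S : Type*} [Ring S] [StarRing S] (f : R →⋆ₙ+* S) (x : QForm R ε ι)
    (y : QForm R ε κ) : (x.sum y).map f = (x.map f).sum (y.map f) := by
  apply QForm.ext
  · change (fromBlocks x.θ 0 0 y.θ).map f = fromBlocks (x.θ.map f) 0 0 (y.θ.map f)
    rw [fromBlocks_map]; simp
  · change (fromBlocks x.ψ 0 0 y.ψ).map f = fromBlocks (x.ψ.map f) 0 0 (y.ψ.map f)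
    rw [fromBlocks_map]; simp

theorem map_conjT {S : Type*} [Ring S] [StarRing S] (f : R →⋆ₙ+* S) (M : Matrix ι κ R) :
    (M.map f)ᴴ = Mᴴ.map f := by
  ext i j; simp [map_star]

theorem map_idem {S : Type*} [Ring S] [StarRing S] (f : R →⋆ₙ+* S) {p : Matrix ι ι R}
    (hp : p * p = p) : p.map f * p.map f = p.map f := by
  rw [← Matrix.map_mul, hp]

theorem map_zsmulM {S : Type*} [Ring S] [StarRing S] (f : R →⋆ₙ+* S) (n : ℤ)
    (M : Matrix ι κ R) : (n • M).map f = n • M.map f := by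
  ext i j
  change f (n • M i j) = n • f (M i j)
  rw [map_zsmul]

theorem QForm.map_hyp {S : Type*} [Ring S] [StarRing S] (f : R →⋆ₙ+* S) (p : Matrix ι ι R)
    (hp : p * p = p) : (QForm.hyp ε p hp).map f = QForm.hyp ε (p.map f) (map_idem f hp) := by
  apply QForm.ext
  · change (fromBlocks 0 pᴴ 0 0).map f = fromBlocks 0 (p.map f)ᴴ 0 0
    rw [fromBlocks_map, map_conjT]; simp
  · change (fromBlocks 0 ((ε : ℤ) • p) pᴴ 0).map f =
      fromBlocks 0 ((ε : ℤ) • p.map f) (p.map f)ᴴ 0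
    rw [fromBlocks_map, map_conjT, map_zsmulM]; simp

theorem map_invIso {S : Type*} [Ring S] [StarRing S] (f : R →⋆ₙ+* S) (x : QForm R ε ι)
    (y : QForm R ε κ) (u : Matrix κ ι R) :
    (invIso x y u).map f = invIso (x.map f) (y.map f) (u.map f) := by
  rw [invIso, invIso, Matrix.map_mul, Matrix.map_mul, map_conjT, QForm.map_phi]
  rfl

theorem invIso_sum (x : QForm R ε ι) (y : QForm R ε κ) (x' : QForm R ε μ) (y' : QForm R ε ν)
    (u : Matrix κ ι R) (u' : Matrix ν μ R) :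
    invIso (x.sum x') (y.sum y') (fromBlocks u 0 0 u') =
      fromBlocks (invIso x y u) 0 0 (invIso x' y' u') := by
  have h : (x.sum x').ψ = fromBlocks x.ψ 0 0 x'.ψ := rfl
  rw [invIso, QForm.sum_phi, fromBlocks_conjTranspose, h]
  simp [fromBlocks_multiply, invIso]

/-- The isometry from the sum of a form with a hyperbolic structure `l` and the hyperbolic form of
`1 - l` to the hyperbolic form of the free module. -/
noncomputable def wIso [DecidableEq ι] (x : QForm R ε ι) {l : Matrix ι ι R} (h : IsLag x l) :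
    Matrix (ι ⊕ ι) (ι ⊕ (ι ⊕ ι)) R :=
  fromCols (fromRows l (lᴴ * x.φ)) (fromBlocks (1 - l) 0 0 (1 - l)ᴴ)

theorem wIso_isIsom [DecidableEq ι] (x : QForm R ε ι) {l : Matrix ι ι R} (h : IsLag x l) :
    IsIsom (x.sum (QForm.hyp ε (1 - l) (one_sub_idem h.1)))
      (QForm.hyp ε (1 : Matrix ι ι R) (one_mul 1)) (wIso x h) := by
  have key := (h.isIsom.sum (IsIsom.refl (QForm.hyp ε (1 - l) (one_sub_idem h.1)))).trans
    (hyp_compl (ε := ε) h.1)
  have e : (fromCols (QForm.hyp ε l h.1).e (QForm.hyp ε (1 - l) (one_sub_idem h.1)).e :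
      Matrix (ι ⊕ ι) ((ι ⊕ ι) ⊕ (ι ⊕ ι)) R) *
      (fromBlocks (fromRows l (lᴴ * x.φ)) 0 0 1 :
        Matrix ((ι ⊕ ι) ⊕ (ι ⊕ ι)) (ι ⊕ (ι ⊕ ι)) R) = wIso x h := by
    have hl : lᴴ * lᴴ = lᴴ := by rw [← conjTranspose_mul, h.1]
    rw [fromCols_mul_fromBlocks, QForm.hyp_e, QForm.hyp_e, fromBlocks_mul_fromRows, wIso]
    simp only [Matrix.mul_zero, Matrix.mul_one, Matrix.zero_mul, add_zero, zero_add, h.1,
      ← Matrix.mul_assoc, hl]
  rw [e] at key
  exact key

/-- The transport of the sum of `l` and the standard hyperbolic structure is the standard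
one. -/
theorem wIso_transport [DecidableEq ι] (x : QForm R ε ι) {l : Matrix ι ι R} (h : IsLag x l) :
    wIso x h * (fromBlocks l 0 0 (fromBlocks (1 - l) 0 0 0) :
      Matrix (ι ⊕ (ι ⊕ ι)) (ι ⊕ (ι ⊕ ι)) R) *
      invIso (x.sum (QForm.hyp ε (1 - l) (one_sub_idem h.1)))
      (QForm.hyp ε (1 : Matrix ι ι R) (one_mul 1)) (wIso x h) = fromBlocks 1 0 0 0 := by
  have hi := one_sub_idem h.1
  have a1 := h.psi_lag
  have a2 := h.lag
  have e1 : wIso x h * (fromBlocks l 0 0 (fromBlocks (1 - l) 0 0 0) :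
      Matrix (ι ⊕ (ι ⊕ ι)) (ι ⊕ (ι ⊕ ι)) R) =
      fromCols (fromRows l 0) (fromBlocks (1 - l) 0 0 0) := by
    rw [wIso, fromCols_mul_fromBlocks, fromRows_mul, fromBlocks_multiply]
    simp only [Matrix.mul_zero, Matrix.zero_mul, add_zero, zero_add, h.1, a2, hi]
  have e2 : (fromCols (fromRows l 0) (fromBlocks (1 - l) 0 0 0) :
      Matrix (ι ⊕ ι) (ι ⊕ (ι ⊕ ι)) R) *
      (x.sum (QForm.hyp ε (1 - l) (one_sub_idem h.1))).ψ =
      fromCols (fromRows (l * x.ψ) 0) (fromBlocks 0 ((ε : ℤ) • (1 - l)) 0 0) := by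
    have hψ : (x.sum (QForm.hyp ε (1 - l) (one_sub_idem h.1))).ψ =
      fromBlocks x.ψ 0 0 (fromBlocks 0 ((ε : ℤ) • (1 - l)) (1 - l)ᴴ 0) := rfl
    rw [hψ, fromCols_mul_fromBlocks, fromRows_mul, fromBlocks_multiply]
    simp only [Matrix.mul_zero, Matrix.zero_mul, add_zero, zero_add, Matrix.mul_smul, hi,
      smul_zero]
  have e3 : (fromCols (fromRows (l * x.ψ) 0) (fromBlocks 0 ((ε : ℤ) • (1 - l)) 0 0) :
      Matrix (ι ⊕ ι) (ι ⊕ (ι ⊕ ι)) R) *
      (wIso x h)ᴴ = fromBlocks 0 ((ε : ℤ) • (1 : Matrix ι ι R)) 0 0 := by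
    rw [wIso, conjTranspose_fromCols_eq_fromRows_conjTranspose,
      conjTranspose_fromRows_eq_fromCols_conjTranspose, fromCols_mul_fromRows,
      fromRows_mul_fromCols, fromBlocks_conjTranspose, fromBlocks_multiply, fromBlocks_add]
    simp only [Matrix.mul_zero, Matrix.zero_mul, add_zero, zero_add, Matrix.smul_mul,
      conjTranspose_zero, conjTranspose_conjTranspose, conjTranspose_mul, hi, a1, QForm.phiH,
      Matrix.mul_smul, smul_zero]
    congr 1
    rw [← smul_add]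
    congr 1
    have : l * x.ψ * (x.φ * l) = l := by
      calc l * x.ψ * (x.φ * l) = l * (x.ψ * x.φ) * l := by simp only [Matrix.mul_assoc]
        _ = l := by rw [← QForm.e, h.2.1, h.1]
    rw [this]
    simp
  rw [e1, invIso, ← Matrix.mul_assoc, ← Matrix.mul_assoc, e2, e3, QForm.hyp_phi,
    fromBlocks_multiply]
  simp only [Matrix.mul_zero, Matrix.zero_mul, add_zero, zero_add, Matrix.smul_mul,
    Matrix.mul_smul, Matrix.mul_one, eps_smul_smul, smul_zero]

/-! ### The second component -/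

section Second

variable {S : Type*} [Ring S] [StarRing S] {A : Type*}

/-- The first projection `D_A(S) → B_A(S)`. -/
noncomputable def fstHom (S : Type*) [Ring S] [StarRing S] (A : Type*) : DD S A →⋆ₙ+* Op S A where
  toFun := DD.fst
  map_mul' _ _ := rfl
  map_zero' := rfl
  map_add' _ _ := rfl
  map_star' _ := rfl

/-- The second projection `D_A(S) → B_A(S)`. -/
noncomputable def sndHom (S : Type*) [Ring S] [StarRing S] (A : Type*) : DD S A →⋆ₙ+* Op S A where
  toFun := DD.snd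
  map_mul' _ _ := rfl
  map_zero' := rfl
  map_add' _ _ := rfl
  map_star' _ := rfl

/-- The diagonal `B_A(S) → D_A(S)`. -/
noncomputable def diagHom (S : Type*) [Ring S] [StarRing S] (A : Type*) : Op S A →⋆ₙ+* DD S A where
  toFun b := DD.mk b b (by rw [sub_self]; exact FinRank.zero)
  map_mul' _ _ := rfl
  map_zero' := rfl
  map_add' _ _ := rfl
  map_star' _ := rfl

theorem map_snd_diag {ι κ : Type*} (M : Matrix ι κ (Op S A)) :
    (M.map (diagHom S A)).map (sndHom S A) = M := rfl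

theorem QForm.map_snd_diag (x : QForm (Op S A) ε ι) :
    (x.map (diagHom S A)).map (sndHom S A) = x := rfl

theorem QForm.map_snd_corner (x : QForm S ε ι) (a : A) :
    (x.map (corner S A a)).map (sndHom S A) = QForm.zero _ ε ι := rfl

theorem map_one_diag [DecidableEq ι] :
    (1 : Matrix ι ι (Op S A)).map (diagHom S A) = 1 := by
  ext i j : 2
  rw [Matrix.map_apply]
  by_cases h : i = j
  · subst h; rw [one_apply_eq, one_apply_eq]; rfl
  · rw [one_apply_ne h, one_apply_ne h]; exact map_zero _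

theorem map_one_snd [DecidableEq ι] :
    (1 : Matrix ι ι (DD S A)).map (sndHom S A) = 1 := by
  ext i j : 2
  rw [Matrix.map_apply]
  by_cases h : i = j
  · subst h; rw [one_apply_eq, one_apply_eq]; rfl
  · rw [one_apply_ne h, one_apply_ne h]; exact map_zero _

theorem hyp_one_diag [DecidableEq ι] :
    (QForm.hyp ε (1 : Matrix ι ι (Op S A)) (one_mul 1)).map (diagHom S A) =
      QForm.hyp ε (1 : Matrix ι ι (DD S A)) (one_mul 1) := by
  rw [QForm.map_hyp]
  congr 1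
  exact map_one_diag

theorem hyp_one_snd [DecidableEq ι] :
    (QForm.hyp ε (1 : Matrix ι ι (DD S A)) (one_mul 1)).map (sndHom S A) =
      QForm.hyp ε (1 : Matrix ι ι (Op S A)) (one_mul 1) := by
  rw [← hyp_one_diag]; rfl

/-- A hyperbolic structure on the sum of a form from the corner and a free hyperbolic form can be
replaced by one whose second component is standard. -/
theorem std_second [DecidableEq κ] (x : QForm S ε ι) (a : A)
    (h : IsHyp ((x.map (corner S A a)).sum (QForm.hyp ε (1 : Matrix κ κ (DD S A)) (one_mul 1)))) :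
    ∃ L : Matrix (ι ⊕ ((κ ⊕ κ) ⊕ (κ ⊕ κ))) (ι ⊕ ((κ ⊕ κ) ⊕ (κ ⊕ κ))) (DD S A),
      IsLag ((x.map (corner S A a)).sum
        (QForm.hyp ε (1 : Matrix (κ ⊕ κ) (κ ⊕ κ) (DD S A)) (one_mul 1))) L ∧
      L.map (sndHom S A) = fromBlocks 0 0 0 (fromBlocks 1 0 0 0) := by
  classical
  obtain ⟨l, hl⟩ := h
  set H : QForm (Op S A) ε (κ ⊕ κ) := QForm.hyp ε (1 : Matrix κ κ (Op S A)) (one_mul 1) with hH
  have hHe : H.e = 1 := by
    rw [hH, QForm.hyp_e]; simp
  -- the second component of `l`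
  have h1 : IsLag ((QForm.zero (Op S A) ε ι).sum H) (l.map (sndHom S A)) := by
    have := hl.map (sndHom S A)
    rw [QForm.map_sum, hyp_one_snd, QForm.map_snd_corner] at this
    exact this
  set lK : Matrix (κ ⊕ κ) (κ ⊕ κ) (Op S A) := (l.map (sndHom S A)).toBlocks₂₂ with hlK
  have h2 : l.map (sndHom S A) = fromBlocks 0 0 0 lK := by
    have e1 := h1.2.1
    have e2 := h1.2.2.1
    rw [QForm.sum_e, QForm.zero_e, hHe] at e1 e2
    rw [← fromBlocks_toBlocks (l.map (sndHom S A))] at e1 e2 ⊢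
    rw [fromBlocks_multiply] at e1 e2
    simp only [Matrix.mul_zero, Matrix.zero_mul, add_zero, zero_add, Matrix.mul_one,
      Matrix.one_mul, fromBlocks_inj] at e1 e2
    rw [← e1.1, ← e2.2.1, ← e1.2.2.1]
  have h3 : IsLag H lK := by
    obtain ⟨g1, g2, g3, χ, g4⟩ := h1
    rw [h2] at g1 g2 g3 g4
    rw [QForm.sum_e, QForm.zero_e, hHe, fromBlocks_multiply] at g2 g3
    rw [fromBlocks_multiply] at g1
    rw [QForm.sum_phi, QForm.zero_phi, fromBlocks_conjTranspose, fromBlocks_multiply] at g4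
    simp only [Matrix.mul_zero, Matrix.zero_mul, add_zero, zero_add, fromBlocks_inj] at g1 g2 g3 g4
    refine ⟨g1.2.2.2, ?_, ?_, χ.toBlocks₂₂, ?_⟩
    · rw [hHe]; exact g2.2.2.2
    · rw [hHe]; exact g3.2.2.2
    · have := congrArg toBlocks₂₂ g4
      exact this
  -- the standard hyperbolic form of the complement
  set Q : QForm (Op S A) ε ((κ ⊕ κ) ⊕ (κ ⊕ κ)) :=
    QForm.hyp ε (1 - lK) (one_sub_idem h3.1) with hQ
  have hl0 : IsLag (((x.map (corner S A a)).sum (H.map (diagHom S A))).sum (Q.map (diagHom S A)))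
      (fromBlocks l 0 0 ((fromBlocks (1 - lK) 0 0 0).map (diagHom S A))) := by
    apply IsLag.sum
    · rw [hH, hyp_one_diag]; exact hl
    · exact (isLag_hyp (1 - lK) (one_sub_idem h3.1)).map (diagHom S A)
  have hl1 := hl0.reindex (Equiv.sumAssoc ι (κ ⊕ κ) ((κ ⊕ κ) ⊕ (κ ⊕ κ))).symm
  have hform : (((x.map (corner S A a)).sum (H.map (diagHom S A))).sum
      (Q.map (diagHom S A))).reindex (Equiv.sumAssoc ι (κ ⊕ κ) ((κ ⊕ κ) ⊕ (κ ⊕ κ))).symm =
      (x.map (corner S A a)).sum ((H.sum Q).map (diagHom S A)) := by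
    rw [QForm.map_sum]
    apply QForm.ext <;> · ext (i | i | i) (j | j | j) <;> rfl
  rw [hform] at hl1
  set L1 := (fromBlocks l 0 0 ((fromBlocks (1 - lK) 0 0 0).map (diagHom S A))).submatrix
    (Equiv.sumAssoc ι (κ ⊕ κ) ((κ ⊕ κ) ⊕ (κ ⊕ κ))).symm
    (Equiv.sumAssoc ι (κ ⊕ κ) ((κ ⊕ κ) ⊕ (κ ⊕ κ))).symm with hL1
  have hL1snd : L1.map (sndHom S A) =
      fromBlocks 0 0 0 (fromBlocks lK 0 0 (fromBlocks (1 - lK) 0 0 0)) := by
    have e1 : ∀ i j, sndHom S A (l i j) = (fromBlocks 0 0 0 lK) i j := by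
      intro i j
      rw [← h2]; rfl
    rw [hL1]
    ext (i | i | i) (j | j | j) : 2
    · exact e1 (Sum.inl i) (Sum.inl j)
    · exact e1 (Sum.inl i) (Sum.inr j)
    · rfl
    · exact e1 (Sum.inr i) (Sum.inl j)
    · exact e1 (Sum.inr i) (Sum.inr j)
    · rfl
    · rfl
    · rfl
    · rfl
  have hw := (IsIsom.refl (x.map (corner S A a))).sum ((wIso_isIsom H h3).map (diagHom S A))
  have hL := hw.lag hl1
  rw [hyp_one_diag] at hL
  refine ⟨_, hL, ?_⟩
  have ex : ((x.map (corner S A a)).sum ((H.sum Q).map (diagHom S A))).map (sndHom S A) =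
      (QForm.zero _ ε ι).sum (H.sum Q) := by
    rw [QForm.map_sum]; rfl
  have ey : ((x.map (corner S A a)).sum
      (QForm.hyp ε (1 : Matrix (κ ⊕ κ) (κ ⊕ κ) (DD S A)) (one_mul 1))).map (sndHom S A) =
      (QForm.zero _ ε ι).sum (QForm.hyp ε (1 : Matrix (κ ⊕ κ) (κ ⊕ κ) (Op S A)) (one_mul 1)) := by
    rw [QForm.map_sum, hyp_one_snd]; rfl
  rw [Matrix.map_mul, Matrix.map_mul, hL1snd, map_invIso, ex, ey, fromBlocks_map, map_snd_diag]
  have hz : ((0 : Matrix ι ((κ ⊕ κ) ⊕ ((κ ⊕ κ) ⊕ (κ ⊕ κ))) (DD S A)).map (sndHom S A)) = 0 := rfl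
  have hz' : ((0 : Matrix ((κ ⊕ κ) ⊕ (κ ⊕ κ)) ι (DD S A)).map (sndHom S A)) = 0 := rfl
  rw [hz, hz', invIso_sum, fromBlocks_multiply, fromBlocks_multiply]
  simp only [Matrix.mul_zero, Matrix.zero_mul, add_zero, zero_add]
  congr 1
  exact wIso_transport H h3

end Second

end General

end Pool.Agent.Y483
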