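import Pool.Agent.Y483.Ring

/-!
Nonsingular `ε`-quadratic forms on finitely generated projective modules over a ring with
involution, in matrix form, their isometries and hyperbolic structures.
-/

namespace Pool.Agent.Y483

open Matrix

section Dag

variable {R : Type*} [Ring R] [StarRing R] (ε : ℤˣ) {ι κ μ : Type*}

/-- The matrix `ε M^*`. -/
def dag (M : Matrix ι κ R) : Matrix κ ι R := (ε : ℤ) • Mᴴ

theorem eps_eps : (ε : ℤ) * (ε : ℤ) = 1 := Int.units_coe_mul_self ε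

theorem eps_smul_smul {M : Type*} [AddCommGroup M] (x : M) : (ε : ℤ) • (ε : ℤ) • x = x := by
  rw [smul_smul, eps_eps, one_smul]

variable {ε}

@[simp] theorem dag_dag (M : Matrix ι κ R) : dag ε (dag ε M) = M := by
  simp only [dag, conjTranspose_zsmul, conjTranspose_conjTranspose, eps_smul_smul]

@[simp] theorem dag_add (M N : Matrix ι κ R) : dag ε (M + N) = dag ε M + dag ε N := by
  simp [dag]

@[simp] theorem dag_neg (M : Matrix ι κ R) : dag ε (-M) = -dag ε M := by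
  simp [dag]

@[simp] theorem dag_sub (M N : Matrix ι κ R) : dag ε (M - N) = dag ε M - dag ε N := by
  simp [dag, smul_sub]

@[simp] theorem dag_zero : dag ε (0 : Matrix ι κ R) = 0 := by
  simp [dag]

theorem dag_mul [Fintype κ] (M : Matrix ι κ R) (N : Matrix κ μ R) :
    dag ε (M * N) = dag ε N * Mᴴ := by
  simp [dag]

theorem dag_mul' [Fintype κ] (M : Matrix ι κ R) (N : Matrix κ μ R) :
    dag ε (M * N) = Nᴴ * dag ε M := by
  simp [dag]

theorem conjTranspose_dag (M : Matrix ι κ R) : (dag ε M)ᴴ = dag ε Mᴴ := by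
  simp [dag]

theorem dag_fromBlocks {ι' κ' : Type*} (A : Matrix ι κ R) (B : Matrix ι κ' R) (C : Matrix ι' κ R)
    (D : Matrix ι' κ' R) :
    dag ε (fromBlocks A B C D) = fromBlocks (dag ε A) (dag ε C) (dag ε B) (dag ε D) := by
  simp [dag, fromBlocks_conjTranspose, fromBlocks_smul]

theorem dag_map {S : Type*} [Ring S] [StarRing S] (f : R →⋆ₙ+* S) (M : Matrix ι κ R) :
    dag ε (M.map f) = (dag ε M).map f := by
  ext i j
  change (ε : ℤ) • star (f (M j i)) = f ((ε : ℤ) • star (M j i))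
  rw [map_zsmul, map_star]

end Dag

/-- A nonsingular `ε`-quadratic form on a finitely generated projective right module over a ring
with involution. Put `φ = θ + ε θ^*`, the associated `ε`-hermitian form; the module is the image of
the idempotent `ψ φ` of `R^ι`, the matrix `θ` represents the quadratic form, and `ψ` is the inverse
of `φ`. -/
@[ext] structure QForm (R : Type*) [Ring R] [StarRing R] (ε : ℤˣ) (ι : Type*) [Fintype ι] where
  /-- The matrix of the quadratic form. -/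
  θ : Matrix ι ι R
  /-- The inverse of the associated hermitian form. -/
  ψ : Matrix ι ι R
  dag_psi : dag ε ψ = ψ
  psi_phi_psi : ψ * (θ + dag ε θ) * ψ = ψ
  compress : (θ + dag ε θ) * ψ * θ * (ψ * (θ + dag ε θ)) = θ

namespace QForm

variable {R : Type*} [Ring R] [StarRing R] {ε : ℤˣ} {ι κ μ ν : Type*} [Fintype ι] [Fintype κ]
  [Fintype μ] [Fintype ν]

/-- The associated `ε`-hermitian form. -/
def φ (x : QForm R ε ι) : Matrix ι ι R := x.θ + dag ε x.θ

/-- The idempotent whose image is the underlying module. -/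
def e (x : QForm R ε ι) : Matrix ι ι R := x.ψ * x.φ

theorem dag_phi (x : QForm R ε ι) : dag ε x.φ = x.φ := by
  simp [φ, add_comm]

theorem psiH (x : QForm R ε ι) : x.ψᴴ = (ε : ℤ) • x.ψ := by
  conv_rhs => rw [← x.dag_psi, dag, eps_smul_smul]

theorem phiH (x : QForm R ε ι) : x.φᴴ = (ε : ℤ) • x.φ := by
  conv_rhs => rw [← x.dag_phi, dag, eps_smul_smul]

theorem eH (x : QForm R ε ι) : x.eᴴ = x.φ * x.ψ := by
  rw [e, conjTranspose_mul, psiH, phiH, Matrix.smul_mul, Matrix.mul_smul, eps_smul_smul]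

theorem e_psi (x : QForm R ε ι) : x.e * x.ψ = x.ψ := x.psi_phi_psi

theorem e_e (x : QForm R ε ι) : x.e * x.e = x.e := by
  conv_lhs => rhs; rw [e]
  rw [← Matrix.mul_assoc, e_psi, e]

theorem psi_eH (x : QForm R ε ι) : x.ψ * x.eᴴ = x.ψ := by
  rw [eH, ← Matrix.mul_assoc]; exact x.psi_phi_psi

theorem comp_eq (x : QForm R ε ι) : x.eᴴ * x.θ * x.e = x.θ := by
  rw [eH]; exact x.compress

theorem theta_e (x : QForm R ε ι) : x.θ * x.e = x.θ := by
  conv_lhs => rw [← x.comp_eq]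
  rw [Matrix.mul_assoc, e_e, comp_eq]

theorem eH_eH (x : QForm R ε ι) : x.eᴴ * x.eᴴ = x.eᴴ := by
  rw [← conjTranspose_mul, e_e]

theorem eH_theta (x : QForm R ε ι) : x.eᴴ * x.θ = x.θ := by
  conv_lhs => rw [← x.comp_eq]
  rw [← Matrix.mul_assoc, ← Matrix.mul_assoc, eH_eH, comp_eq]

theorem dagtheta_e (x : QForm R ε ι) : dag ε x.θ * x.e = dag ε x.θ := by
  have h := congrArg (dag ε) x.eH_theta
  rw [dag_mul, conjTranspose_conjTranspose] at h
  exact h

theorem eH_dagtheta (x : QForm R ε ι) : x.eᴴ * dag ε x.θ = dag ε x.θ := by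
  have h := congrArg (dag ε) x.theta_e
  rw [dag_mul'] at h
  exact h

theorem phi_e (x : QForm R ε ι) : x.φ * x.e = x.φ := by
  rw [φ, Matrix.add_mul, theta_e, dagtheta_e]

theorem eH_phi (x : QForm R ε ι) : x.eᴴ * x.φ = x.φ := by
  rw [φ, Matrix.mul_add, eH_theta, eH_dagtheta]

theorem phi_psi_phi (x : QForm R ε ι) : x.φ * x.ψ * x.φ = x.φ := by
  rw [Matrix.mul_assoc]; exact x.phi_e

/-- The image of a form under a homomorphism of rings with involution. -/
def map {S : Type*} [Ring S] [StarRing S] (f : R →⋆ₙ+* S) (x : QForm R ε ι) : QForm S ε ι where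
  θ := x.θ.map f
  ψ := x.ψ.map f
  dag_psi := by rw [dag_map, x.dag_psi]
  psi_phi_psi := by
    rw [dag_map, ← Matrix.map_add f (map_add f), ← Matrix.map_mul, ← Matrix.map_mul,
      x.psi_phi_psi]
  compress := by
    rw [dag_map, ← Matrix.map_add f (map_add f), ← Matrix.map_mul, ← Matrix.map_mul,
      ← Matrix.map_mul, ← Matrix.map_mul, x.compress]

theorem map_phi {S : Type*} [Ring S] [StarRing S] (f : R →⋆ₙ+* S) (x : QForm R ε ι) :
    (x.map f).φ = x.φ.map f := by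
  rw [φ, φ, Matrix.map_add f (map_add f), ← dag_map]; rfl

theorem map_e {S : Type*} [Ring S] [StarRing S] (f : R →⋆ₙ+* S) (x : QForm R ε ι) :
    (x.map f).e = x.e.map f := by
  rw [e, e, map_phi, Matrix.map_mul]; rfl

end QForm

variable {R : Type*} [Ring R] [StarRing R] {ε : ℤˣ} {ι κ μ ν : Type*} [Fintype ι] [Fintype κ]
  [Fintype μ] [Fintype ν]

/-- The matrix `u` is an isometry from `x` to `y`. -/
def IsIsom (x : QForm R ε ι) (y : QForm R ε κ) (u : Matrix κ ι R) : Prop :=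
  u * x.ψ * uᴴ = y.ψ ∧ ∃ χ, uᴴ * y.θ * u = x.θ + (χ - dag ε χ)

/-- The forms `x` and `y` are isometric. -/
def Isometric (x : QForm R ε ι) (y : QForm R ε κ) : Prop := ∃ u, IsIsom x y u

/-- The matrix `l` is the projection to a lagrangian of `x` along a complementary lagrangian. -/
def IsLag (x : QForm R ε ι) (l : Matrix ι ι R) : Prop :=
  l * l = l ∧ l * x.e = l ∧ x.e * l = l ∧ ∃ χ, x.θ = lᴴ * x.φ + (χ - dag ε χ)

/-- The form `x` is hyperbolic. -/
def IsHyp (x : QForm R ε ι) : Prop := ∃ l, IsLag x l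

theorem IsIsom.refl [DecidableEq ι] (x : QForm R ε ι) : IsIsom x x 1 := by
  refine ⟨by simp, 0, by simp⟩

theorem IsIsom.phi {x : QForm R ε ι} {y : QForm R ε κ} {u : Matrix κ ι R} (h : IsIsom x y u) :
    uᴴ * y.φ * u = x.φ := by
  obtain ⟨h1, χ, h2⟩ := h
  have h3 : uᴴ * dag ε y.θ * u = dag ε x.θ + (dag ε χ - χ) := by
    have h4 := congrArg (dag ε) h2
    rw [dag_mul', dag_mul, conjTranspose_conjTranspose] at h4
    rw [Matrix.mul_assoc, h4]
    simp
  rw [QForm.φ, Matrix.mul_add, Matrix.add_mul, h2, h3, QForm.φ]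
  abel

/-- The inverse isometry. -/
def invIso (x : QForm R ε ι) (y : QForm R ε κ) (u : Matrix κ ι R) : Matrix ι κ R :=
  x.ψ * uᴴ * y.φ

theorem IsIsom.inv_mul {x : QForm R ε ι} {y : QForm R ε κ} {u : Matrix κ ι R}
    (h : IsIsom x y u) : invIso x y u * u = x.e := by
  rw [invIso, Matrix.mul_assoc, Matrix.mul_assoc, ← Matrix.mul_assoc uᴴ, h.phi, QForm.e]

theorem IsIsom.mul_inv {x : QForm R ε ι} {y : QForm R ε κ} {u : Matrix κ ι R}
    (h : IsIsom x y u) : u * invIso x y u = y.e := by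
  rw [invIso, ← Matrix.mul_assoc, ← Matrix.mul_assoc, h.1, QForm.e]

theorem IsIsom.invIso_psi {x : QForm R ε ι} {y : QForm R ε κ} {u : Matrix κ ι R}
    (h : IsIsom x y u) : invIso x y u * y.ψ = x.ψ * uᴴ := by
  have h1 : y.ψ = u * x.ψ * uᴴ := h.1.symm
  rw [h1, ← Matrix.mul_assoc, ← Matrix.mul_assoc, h.inv_mul, QForm.e_psi]

theorem IsIsom.symm {x : QForm R ε ι} {y : QForm R ε κ} {u : Matrix κ ι R} (h : IsIsom x y u) :
    IsIsom y x (invIso x y u) := by
  obtain ⟨h1, χ, h2⟩ := id h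
  have hv : (invIso x y u)ᴴ = y.φ * u * x.ψ := by
    rw [invIso, conjTranspose_mul, conjTranspose_mul, conjTranspose_conjTranspose, QForm.psiH,
      QForm.phiH, Matrix.smul_mul, Matrix.mul_smul, Matrix.mul_smul, eps_smul_smul,
      Matrix.mul_assoc]
  refine ⟨?_, -((invIso x y u)ᴴ * χ * invIso x y u), ?_⟩
  · rw [h.invIso_psi, hv, Matrix.mul_assoc, ← Matrix.mul_assoc uᴴ, ← Matrix.mul_assoc uᴴ, h.phi,
      ← Matrix.mul_assoc]
    exact x.psi_phi_psi
  · have h3 : x.θ = uᴴ * y.θ * u - (χ - dag ε χ) := by rw [h2]; abel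
    have h4 : (invIso x y u)ᴴ * (uᴴ * y.θ * u) * invIso x y u = y.θ := by
      have e1 : (invIso x y u)ᴴ * uᴴ = y.eᴴ := by rw [← conjTranspose_mul, h.mul_inv]
      calc (invIso x y u)ᴴ * (uᴴ * y.θ * u) * invIso x y u
          = ((invIso x y u)ᴴ * uᴴ) * y.θ * (u * invIso x y u) := by simp only [Matrix.mul_assoc]
        _ = y.θ := by rw [e1, h.mul_inv, y.comp_eq]
    rw [h3, Matrix.mul_sub, Matrix.sub_mul, h4, Matrix.mul_sub, Matrix.sub_mul, dag_neg, dag_mul',
      dag_mul, conjTranspose_conjTranspose, Matrix.mul_assoc (invIso x y u)ᴴ (dag ε χ)]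
    abel

theorem IsIsom.trans {x : QForm R ε ι} {y : QForm R ε κ} {z : QForm R ε μ} {u : Matrix κ ι R}
    {v : Matrix μ κ R} (h : IsIsom x y u) (k : IsIsom y z v) : IsIsom x z (v * u) := by
  obtain ⟨h1, χ, h2⟩ := h
  obtain ⟨k1, χ', k2⟩ := k
  refine ⟨?_, χ + uᴴ * χ' * u, ?_⟩
  · rw [conjTranspose_mul, ← k1, ← h1]
    simp only [Matrix.mul_assoc]
  · have : (v * u)ᴴ * z.θ * (v * u) = uᴴ * (vᴴ * z.θ * v) * u := by
      simp only [conjTranspose_mul, Matrix.mul_assoc]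
    rw [this, k2, Matrix.mul_add, Matrix.add_mul, h2, dag_add, dag_mul', dag_mul,
      conjTranspose_conjTranspose, Matrix.mul_sub, Matrix.sub_mul, Matrix.mul_assoc uᴴ (dag ε χ')]
    abel

theorem Isometric.refl (x : QForm R ε ι) : Isometric x x := by
  classical
  exact ⟨1, IsIsom.refl x⟩

theorem Isometric.symm {x : QForm R ε ι} {y : QForm R ε κ} (h : Isometric x y) :
    Isometric y x := by
  obtain ⟨u, hu⟩ := h
  exact ⟨_, hu.symm⟩

theorem Isometric.trans {x : QForm R ε ι} {y : QForm R ε κ} {z : QForm R ε μ}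
    (h : Isometric x y) (k : Isometric y z) : Isometric x z := by
  obtain ⟨u, hu⟩ := h
  obtain ⟨v, hv⟩ := k
  exact ⟨_, hu.trans hv⟩

theorem IsIsom.map {S : Type*} [Ring S] [StarRing S] (f : R →⋆ₙ+* S) {x : QForm R ε ι}
    {y : QForm R ε κ} {u : Matrix κ ι R} (h : IsIsom x y u) :
    IsIsom (x.map f) (y.map f) (u.map f) := by
  obtain ⟨h1, χ, h2⟩ := h
  have hs : (u.map f)ᴴ = uᴴ.map f := by
    ext i j; simp [map_star]
  refine ⟨?_, χ.map f, ?_⟩
  · change u.map f * x.ψ.map f * (u.map f)ᴴ = y.ψ.map f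
    rw [hs, ← Matrix.map_mul, ← Matrix.map_mul, h1]
  · change (u.map f)ᴴ * y.θ.map f * u.map f = x.θ.map f + (χ.map f - dag ε (χ.map f))
    rw [hs, dag_map, ← Matrix.map_sub f (map_sub f), ← Matrix.map_add f (map_add f),
      ← Matrix.map_mul, ← Matrix.map_mul, h2]

theorem Isometric.map {S : Type*} [Ring S] [StarRing S] (f : R →⋆ₙ+* S) {x : QForm R ε ι}
    {y : QForm R ε κ} (h : Isometric x y) : Isometric (x.map f) (y.map f) := by
  obtain ⟨u, hu⟩ := h
  exact ⟨_, hu.map f⟩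

theorem IsLag.map {S : Type*} [Ring S] [StarRing S] (f : R →⋆ₙ+* S) {x : QForm R ε ι}
    {l : Matrix ι ι R} (h : IsLag x l) : IsLag (x.map f) (l.map f) := by
  obtain ⟨h1, h2, h3, χ, h4⟩ := h
  have hs : (l.map f)ᴴ = lᴴ.map f := by
    ext i j; simp [map_star]
  refine ⟨?_, ?_, ?_, χ.map f, ?_⟩
  · rw [← Matrix.map_mul, h1]
  · rw [QForm.map_e, ← Matrix.map_mul, h2]
  · rw [QForm.map_e, ← Matrix.map_mul, h3]
  · change x.θ.map f = _
    rw [QForm.map_phi, hs, dag_map, ← Matrix.map_sub f (map_sub f), ← Matrix.map_mul,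
      ← Matrix.map_add f (map_add f), ← h4]

theorem IsHyp.map {S : Type*} [Ring S] [StarRing S] (f : R →⋆ₙ+* S) {x : QForm R ε ι}
    (h : IsHyp x) : IsHyp (x.map f) := by
  obtain ⟨l, hl⟩ := h
  exact ⟨_, hl.map f⟩

/-- The lagrangian property `l^* φ l = 0`. -/
theorem IsLag.phi {x : QForm R ε ι} {l : Matrix ι ι R} (h : IsLag x l) :
    x.φ = lᴴ * x.φ + x.φ * l := by
  obtain ⟨h1, h2, h3, χ, h4⟩ := h
  have h5 : dag ε x.θ = x.φ * l + (dag ε χ - χ) := by
    have := congrArg (dag ε) h4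
    rw [dag_add, dag_mul, conjTranspose_conjTranspose, x.dag_phi, dag_sub, dag_dag] at this
    exact this
  calc x.φ = x.θ + dag ε x.θ := rfl
    _ = (lᴴ * x.φ + (χ - dag ε χ)) + (x.φ * l + (dag ε χ - χ)) := by
      conv_lhs => lhs; rw [h4]
      rw [h5]
    _ = lᴴ * x.φ + x.φ * l := by abel

theorem IsLag.lag {x : QForm R ε ι} {l : Matrix ι ι R} (h : IsLag x l) :
    lᴴ * x.φ * l = 0 := by
  have h1 := congrArg (· * l) h.phi
  simp only [Matrix.add_mul, Matrix.mul_assoc, h.1] at h1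
  rw [Matrix.mul_assoc]
  exact right_eq_add.mp h1

theorem IsLag.psi_lag {x : QForm R ε ι} {l : Matrix ι ι R} (h : IsLag x l) :
    l * x.ψ * lᴴ = 0 := by
  have h1 : l * (x.ψ * x.φ) = l * (x.ψ * (lᴴ * x.φ)) + l * (x.ψ * (x.φ * l)) := by
    rw [← Matrix.mul_add, ← Matrix.mul_add, ← h.phi]
  have h2 : l * (x.ψ * (x.φ * l)) = l := by
    rw [← Matrix.mul_assoc x.ψ, ← QForm.e, h.2.2.1, h.1]
  have h3 : l * (x.ψ * x.φ) = l := h.2.1
  rw [h2, h3] at h1
  have h4 : l * (x.ψ * (lᴴ * x.φ)) = 0 := right_eq_add.mp h1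
  have h5 : lᴴ * x.eᴴ = lᴴ := by rw [← conjTranspose_mul, h.2.2.1]
  calc l * x.ψ * lᴴ = l * x.ψ * (lᴴ * x.eᴴ) := by rw [h5]
    _ = l * (x.ψ * (lᴴ * x.φ)) * x.ψ := by rw [QForm.eH]; simp only [Matrix.mul_assoc]
    _ = 0 := by rw [h4, Matrix.zero_mul]

/-- The transport of a hyperbolic structure along an isometry. -/
theorem IsIsom.lag {x : QForm R ε ι} {y : QForm R ε κ} {u : Matrix κ ι R} (h : IsIsom x y u)
    {l : Matrix ι ι R} (hl : IsLag x l) : IsLag y (u * l * invIso x y u) := by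
  have hs := h.symm
  obtain ⟨k1, χ', k2⟩ := hs
  obtain ⟨h1, h2, h3, χ, h4⟩ := id hl
  set v := invIso x y u with hv
  have hve : v * y.e = v := by
    rw [hv, invIso, Matrix.mul_assoc, QForm.phi_e]
  have hvu : v * u = x.e := h.inv_mul
  have huv : u * v = y.e := h.mul_inv
  refine ⟨?_, ?_, ?_, ?_⟩
  · calc u * l * v * (u * l * v) = u * (l * (v * u) * l) * v := by simp only [Matrix.mul_assoc]
      _ = u * l * v := by rw [hvu, h2, h1]
  · rw [Matrix.mul_assoc, hve]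
  · calc y.e * (u * l * v) = u * ((v * u) * l) * v := by rw [← huv]; simp only [Matrix.mul_assoc]
      _ = u * l * v := by rw [hvu, h3]
  · -- `y.θ = v^* x.θ v - ...`
    have e2 : (u * l * v)ᴴ * y.φ = vᴴ * (lᴴ * x.φ) * v := by
      have e3 : y.φ = vᴴ * x.φ * v := by
        have := h.symm.phi
        exact this.symm
      have e4 : uᴴ * vᴴ = x.eᴴ := by rw [← conjTranspose_mul, hvu]
      rw [e3]
      calc (u * l * v)ᴴ * (vᴴ * x.φ * v) = vᴴ * (lᴴ * ((uᴴ * vᴴ) * x.φ)) * v := by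
            simp only [conjTranspose_mul, Matrix.mul_assoc]
        _ = vᴴ * (lᴴ * x.φ) * v := by rw [e4, QForm.eH_phi]
    refine ⟨vᴴ * χ * v - χ', ?_⟩
    rw [e2]
    have e5 : y.θ = vᴴ * x.θ * v - (χ' - dag ε χ') := by rw [k2]; abel
    rw [e5, h4, dag_sub, dag_mul', dag_mul, conjTranspose_conjTranspose, Matrix.mul_add,
      Matrix.add_mul, Matrix.mul_sub, Matrix.sub_mul, Matrix.mul_assoc vᴴ (dag ε χ)]
    abel

theorem Isometric.isHyp {x : QForm R ε ι} {y : QForm R ε κ} (h : Isometric x y) (hx : IsHyp x) :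
    IsHyp y := by
  obtain ⟨u, hu⟩ := h
  obtain ⟨l, hl⟩ := hx
  exact ⟨_, hu.lag hl⟩

end Pool.Agent.Y483
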