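import Pool.Agent.Y483.QForm

/-!
Orthogonal sums and hyperbolic forms.
-/

namespace Pool.Agent.Y483

open Matrix

variable {R : Type*} [Ring R] [StarRing R] {ε : ℤˣ} {ι κ μ ν : Type*} [Fintype ι] [Fintype κ]
  [Fintype μ] [Fintype ν]

namespace QForm

/-- The orthogonal sum. -/
def sum (x : QForm R ε ι) (y : QForm R ε κ) : QForm R ε (ι ⊕ κ) where
  θ := fromBlocks x.θ 0 0 y.θ
  ψ := fromBlocks x.ψ 0 0 y.ψ
  dag_psi := by rw [dag_fromBlocks, x.dag_psi, y.dag_psi, dag_zero, dag_zero]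
  psi_phi_psi := by
    simp [dag_fromBlocks, fromBlocks_multiply, fromBlocks_add, x.psi_phi_psi, y.psi_phi_psi]
  compress := by
    simp [dag_fromBlocks, fromBlocks_multiply, fromBlocks_add, x.compress, y.compress]

/-- The zero form. -/
def zero (R : Type*) [Ring R] [StarRing R] (ε : ℤˣ) (ι : Type*) [Fintype ι] : QForm R ε ι where
  θ := 0
  ψ := 0
  dag_psi := by simp
  psi_phi_psi := by simp
  compress := by simp

/-- The opposite form. -/
def neg (x : QForm R ε ι) : QForm R ε ι where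
  θ := -x.θ
  ψ := -x.ψ
  dag_psi := by rw [dag_neg, x.dag_psi]
  psi_phi_psi := by
    have h := x.psi_phi_psi
    rw [dag_neg, ← neg_add]
    simp only [Matrix.neg_mul, Matrix.mul_neg, neg_neg, h]
  compress := by
    have h := x.compress
    rw [dag_neg, ← neg_add]
    simp only [Matrix.neg_mul, Matrix.mul_neg, neg_neg, h]

/-- The hyperbolic form on `P ⊕ P^*`, where `P` is the image of the idempotent `p`. -/
def hyp (ε : ℤˣ) (p : Matrix ι ι R) (hp : p * p = p) : QForm R ε (ι ⊕ ι) where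
  θ := fromBlocks 0 pᴴ 0 0
  ψ := fromBlocks 0 ((ε : ℤ) • p) pᴴ 0
  dag_psi := by
    rw [dag_fromBlocks]
    simp [dag, eps_smul_smul]
  psi_phi_psi := by
    have hp' : pᴴ * pᴴ = pᴴ := by rw [← conjTranspose_mul, hp]
    rw [dag_fromBlocks]
    simp [fromBlocks_multiply, fromBlocks_add, dag, eps_smul_smul, hp, hp']
  compress := by
    have hp' : pᴴ * pᴴ = pᴴ := by rw [← conjTranspose_mul, hp]
    rw [dag_fromBlocks]
    simp [fromBlocks_multiply, fromBlocks_add, dag, eps_smul_smul, hp, hp']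

theorem sum_phi (x : QForm R ε ι) (y : QForm R ε κ) : (x.sum y).φ = fromBlocks x.φ 0 0 y.φ := by
  simp [φ, sum, dag_fromBlocks, fromBlocks_add]

theorem sum_e (x : QForm R ε ι) (y : QForm R ε κ) : (x.sum y).e = fromBlocks x.e 0 0 y.e := by
  rw [e, sum_phi]
  simp [sum, fromBlocks_multiply, e]

theorem hyp_phi (p : Matrix ι ι R) (hp : p * p = p) :
    (hyp ε p hp).φ = fromBlocks 0 pᴴ ((ε : ℤ) • p) 0 := by
  change fromBlocks 0 pᴴ 0 0 + dag ε (fromBlocks 0 pᴴ 0 0) = _
  rw [dag_fromBlocks]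
  simp [fromBlocks_add, dag]

theorem hyp_e (p : Matrix ι ι R) (hp : p * p = p) :
    (hyp ε p hp).e = fromBlocks p 0 0 pᴴ := by
  have hp' : pᴴ * pᴴ = pᴴ := by rw [← conjTranspose_mul, hp]
  rw [e, hyp_phi]
  simp [hyp, fromBlocks_multiply, eps_smul_smul, hp, hp']

theorem zero_phi : (zero R ε ι).φ = 0 := by simp [φ, zero]

theorem zero_e : (zero R ε ι).e = 0 := by simp [e, zero_phi]

theorem neg_phi (x : QForm R ε ι) : x.neg.φ = -x.φ := by
  simp [φ, neg]
  abel

theorem neg_e (x : QForm R ε ι) : x.neg.e = x.e := by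
  rw [e, neg_phi]
  change -x.ψ * -x.φ = _
  simp [e]

/-- The reindexed form. -/
def reindex (x : QForm R ε ι) (g : κ ≃ ι) : QForm R ε κ where
  θ := x.θ.submatrix g g
  ψ := x.ψ.submatrix g g
  dag_psi := by
    conv_rhs => rw [← x.dag_psi]
    rfl
  psi_phi_psi := by
    have h : dag ε (x.θ.submatrix g g) = (dag ε x.θ).submatrix g g := rfl
    rw [h]
    have h2 : x.θ.submatrix g g + (dag ε x.θ).submatrix g g = x.φ.submatrix g g := rfl
    rw [h2, submatrix_mul_equiv, submatrix_mul_equiv]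
    congr 1
    exact x.psi_phi_psi
  compress := by
    have h : dag ε (x.θ.submatrix g g) = (dag ε x.θ).submatrix g g := rfl
    rw [h]
    have h2 : x.θ.submatrix g g + (dag ε x.θ).submatrix g g = x.φ.submatrix g g := rfl
    rw [h2, submatrix_mul_equiv, submatrix_mul_equiv, submatrix_mul_equiv, submatrix_mul_equiv]
    congr 1
    exact x.compress

theorem reindex_phi (x : QForm R ε ι) (g : κ ≃ ι) : (x.reindex g).φ = x.φ.submatrix g g := rfl

theorem reindex_e (x : QForm R ε ι) (g : κ ≃ ι) : (x.reindex g).e = x.e.submatrix g g := by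
  rw [e, reindex_phi]
  exact submatrix_mul_equiv _ _ _ _ _

end QForm

/-- The matrix of an injection of index sets. -/
def injM (R : Type*) [Ring R] [DecidableEq κ] (g : ι → κ) : Matrix κ ι R :=
  Matrix.of fun s i => if s = g i then 1 else 0

omit [StarRing R] [Fintype ι] [Fintype κ] in
theorem injM_apply [DecidableEq κ] (g : ι → κ) (s : κ) (i : ι) :
    injM R g s i = if s = g i then 1 else 0 := rfl

/-- A form whose inverse is supported on the image of an injection of the index sets is isometric to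
its restriction. -/
theorem isIsom_inj [DecidableEq κ] (x : QForm R ε ι) (y : QForm R ε κ) (g : ι → κ)
    (hg : Function.Injective g) (hθ : ∀ i j, y.θ (g i) (g j) = x.θ i j)
    (hψ : ∀ i j, y.ψ (g i) (g j) = x.ψ i j)
    (h0 : ∀ s t, (s ∉ Set.range g ∨ t ∉ Set.range g) → y.ψ s t = 0) :
    IsIsom x y (injM R g) := by
  classical
  constructor
  · ext s t
    rw [Matrix.mul_apply]
    simp only [Matrix.mul_apply, conjTranspose_apply, injM_apply]
    by_cases hs : s ∈ Set.range g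
    · by_cases ht : t ∈ Set.range g
      · obtain ⟨i, rfl⟩ := hs
        obtain ⟨j, rfl⟩ := ht
        rw [Finset.sum_eq_single j, Finset.sum_eq_single i]
        · simp [hψ]
        · intro b _ hb
          rw [if_neg (fun h => hb (hg h.symm))]
          simp
        · simp
        · intro b _ hb
          rw [if_neg (c := g j = g b) (fun h => hb (hg h.symm))]
          simp
        · simp
      · rw [h0 _ _ (Or.inr ht)]
        apply Finset.sum_eq_zero
        intro j _
        rw [if_neg (c := t = g j) (fun h => ht ⟨j, h.symm⟩)]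
        simp
    · rw [h0 _ _ (Or.inl hs)]
      apply Finset.sum_eq_zero
      intro j _
      rw [Finset.sum_eq_zero, zero_mul]
      intro i _
      rw [if_neg (c := s = g i) (fun h => hs ⟨i, h.symm⟩), zero_mul]
  · refine ⟨0, ?_⟩
    rw [dag_zero, sub_zero, add_zero]
    ext i j
    rw [Matrix.mul_apply]
    simp only [Matrix.mul_apply, conjTranspose_apply, injM_apply]
    rw [Finset.sum_eq_single (g j), Finset.sum_eq_single (g i)]
    · simp [hθ]
    · intro b _ hb
      rw [if_neg hb]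
      simp
    · simp
    · intro b _ hb
      rw [if_neg (c := b = g j) hb]
      simp
    · simp

theorem isometric_reindex (x : QForm R ε ι) (g : κ ≃ ι) : Isometric (x.reindex g) x := by
  classical
  refine ⟨_, isIsom_inj _ _ g g.injective (fun _ _ => rfl) (fun _ _ => rfl) ?_⟩
  intro s t h
  rw [g.surjective.range_eq] at h
  exact absurd h (by simp)

theorem isometric_of_equiv (x : QForm R ε ι) (y : QForm R ε κ) (g : ι ≃ κ)
    (h : y.reindex g = x) : Isometric x y := by
  rw [← h]; exact isometric_reindex y g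

theorem sum_comm_isometric (x : QForm R ε ι) (y : QForm R ε κ) :
    Isometric (x.sum y) (y.sum x) := by
  apply isometric_of_equiv _ _ (Equiv.sumComm ι κ)
  apply QForm.ext <;> · ext (i | i) (j | j) <;> rfl

theorem sum_assoc_isometric (x : QForm R ε ι) (y : QForm R ε κ) (z : QForm R ε μ) :
    Isometric ((x.sum y).sum z) (x.sum (y.sum z)) := by
  apply isometric_of_equiv _ _ (Equiv.sumAssoc ι κ μ)
  apply QForm.ext <;> · ext ((i | i) | i) ((j | j) | j) <;> rfl

theorem sum_zero_isometric (x : QForm R ε ι) :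
    Isometric x (x.sum (QForm.zero R ε κ)) := by
  classical
  refine ⟨_, isIsom_inj _ _ Sum.inl Sum.inl_injective (fun _ _ => rfl) (fun _ _ => rfl) ?_⟩
  rintro (s | s) (t | t) h
  · simp at h
  · rfl
  · rfl
  · rfl

theorem IsIsom.sum {x : QForm R ε ι} {y : QForm R ε κ} {x' : QForm R ε μ} {y' : QForm R ε ν}
    {u : Matrix κ ι R} {u' : Matrix ν μ R} (h : IsIsom x y u) (h' : IsIsom x' y' u') :
    IsIsom (x.sum x') (y.sum y') (fromBlocks u 0 0 u') := by
  obtain ⟨h1, χ, h2⟩ := h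
  obtain ⟨h1', χ', h2'⟩ := h'
  refine ⟨?_, fromBlocks χ 0 0 χ', ?_⟩
  · simp [QForm.sum, fromBlocks_conjTranspose, fromBlocks_multiply, h1, h1']
  · simp [QForm.sum, fromBlocks_conjTranspose, fromBlocks_multiply, h2, h2', dag_fromBlocks,
      fromBlocks_add, sub_eq_add_neg, fromBlocks_neg]

theorem Isometric.sum {x : QForm R ε ι} {y : QForm R ε κ} {x' : QForm R ε μ} {y' : QForm R ε ν}
    (h : Isometric x y) (h' : Isometric x' y') : Isometric (x.sum x') (y.sum y') := by
  obtain ⟨u, hu⟩ := h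
  obtain ⟨u', hu'⟩ := h'
  exact ⟨_, hu.sum hu'⟩

theorem IsLag.sum {x : QForm R ε ι} {y : QForm R ε κ} {l : Matrix ι ι R} {l' : Matrix κ κ R}
    (h : IsLag x l) (h' : IsLag y l') : IsLag (x.sum y) (fromBlocks l 0 0 l') := by
  obtain ⟨h1, h2, h3, χ, h4⟩ := h
  obtain ⟨h1', h2', h3', χ', h4'⟩ := h'
  refine ⟨?_, ?_, ?_, fromBlocks χ 0 0 χ', ?_⟩
  · simp [fromBlocks_multiply, h1, h1']
  · simp [QForm.sum_e, fromBlocks_multiply, h2, h2']
  · simp [QForm.sum_e, fromBlocks_multiply, h3, h3']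
  · rw [QForm.sum_phi]
    simp [fromBlocks_multiply, QForm.sum, dag_fromBlocks,
      fromBlocks_add, sub_eq_add_neg, fromBlocks_neg, fromBlocks_conjTranspose]
    rw [← sub_eq_add_neg, ← sub_eq_add_neg]
    exact ⟨h4, h4'⟩

theorem IsHyp.sum {x : QForm R ε ι} {y : QForm R ε κ} (h : IsHyp x) (h' : IsHyp y) :
    IsHyp (x.sum y) := by
  obtain ⟨l, hl⟩ := h
  obtain ⟨l', hl'⟩ := h'
  exact ⟨_, hl.sum hl'⟩

theorem isHyp_zero : IsHyp (QForm.zero R ε ι) :=
  ⟨0, by simp, by simp, by simp, 0, by simp [QForm.zero]⟩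

theorem IsLag.reindex {x : QForm R ε ι} {l : Matrix ι ι R} (h : IsLag x l) (g : κ ≃ ι) :
    IsLag (x.reindex g) (l.submatrix g g) := by
  obtain ⟨h1, h2, h3, χ, h4⟩ := h
  refine ⟨?_, ?_, ?_, χ.submatrix g g, ?_⟩
  · rw [submatrix_mul_equiv, h1]
  · rw [QForm.reindex_e, submatrix_mul_equiv, h2]
  · rw [QForm.reindex_e, submatrix_mul_equiv, h3]
  · rw [QForm.reindex_phi, conjTranspose_submatrix, submatrix_mul_equiv]
    change x.θ.submatrix g g = _
    conv_lhs => rw [h4]
    rfl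

theorem isLag_hyp (p : Matrix ι ι R) (hp : p * p = p) :
    IsLag (QForm.hyp ε p hp) (fromBlocks p 0 0 0) := by
  have hp' : pᴴ * pᴴ = pᴴ := by rw [← conjTranspose_mul, hp]
  refine ⟨?_, ?_, ?_, 0, ?_⟩
  · simp [fromBlocks_multiply, hp]
  · rw [QForm.hyp_e]; simp [fromBlocks_multiply, hp]
  · rw [QForm.hyp_e]; simp [fromBlocks_multiply, hp]
  · rw [QForm.hyp_phi]
    simp [fromBlocks_multiply, fromBlocks_conjTranspose, hp', QForm.hyp]

theorem isHyp_hyp (p : Matrix ι ι R) (hp : p * p = p) : IsHyp (QForm.hyp ε p hp) :=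
  ⟨_, isLag_hyp p hp⟩

/-- A form with a hyperbolic structure is isometric to a standard hyperbolic form. -/
theorem IsLag.isIsom {x : QForm R ε ι} {l : Matrix ι ι R} (h : IsLag x l) :
    IsIsom x (QForm.hyp ε l h.1) (fromRows l (lᴴ * x.φ)) := by
  have a1 := h.psi_lag
  have a2 := h.lag
  obtain ⟨h1, h2, h3, χ, h4⟩ := id h
  constructor
  · rw [conjTranspose_fromRows_eq_fromCols_conjTranspose, fromRows_mul, fromRows_mul_fromCols,
      conjTranspose_mul, conjTranspose_conjTranspose, QForm.phiH]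
    change _ = fromBlocks 0 ((ε : ℤ) • l) lᴴ 0
    congr 1
    · rw [Matrix.smul_mul, Matrix.mul_smul]
      congr 1
      calc l * x.ψ * (x.φ * l) = l * (x.ψ * x.φ) * l := by simp only [Matrix.mul_assoc]
        _ = l := by rw [← QForm.e, h2, h1]
    · calc lᴴ * x.φ * x.ψ * lᴴ = lᴴ * (x.φ * x.ψ) * lᴴ := by simp only [Matrix.mul_assoc]
        _ = (l * (x.e * l))ᴴ := by
          rw [← QForm.eH, conjTranspose_mul, conjTranspose_mul]
        _ = lᴴ := by rw [h3, h1]
    · rw [Matrix.smul_mul, Matrix.mul_smul]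
      calc (ε : ℤ) • (lᴴ * x.φ * x.ψ * (x.φ * l)) = (ε : ℤ) • (lᴴ * (x.φ * x.ψ * x.φ) * l) := by
            simp only [Matrix.mul_assoc]
        _ = 0 := by rw [QForm.phi_psi_phi, a2, smul_zero]
  · refine ⟨-χ, ?_⟩
    rw [conjTranspose_fromRows_eq_fromCols_conjTranspose]
    change fromCols _ _ * fromBlocks 0 lᴴ 0 0 * _ = _
    rw [fromCols_mul_fromBlocks, fromCols_mul_fromRows]
    simp only [Matrix.mul_zero, Matrix.zero_mul, add_zero, zero_add]
    have h5 : x.θ + (-χ - dag ε (-χ)) = lᴴ * x.φ := by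
      rw [dag_neg]
      conv_lhs => lhs; rw [h4]
      abel
    rw [h5, ← Matrix.mul_assoc]
    congr 1
    rw [← conjTranspose_mul, h1, ← conjTranspose_mul, h1]

/-- An internal orthogonal sum is isometric to the external one. -/
theorem isIsom_internal {x y z : QForm R ε ι} (hθ : z.θ = x.θ + y.θ) (hψ : z.ψ = x.ψ + y.ψ)
    (h1 : x.φ * y.ψ = 0) (h2 : y.φ * x.ψ = 0) :
    IsIsom (x.sum y) z (fromCols x.e y.e) := by
  have e1 : x.e * y.e = 0 := by
    rw [QForm.e, QForm.e, Matrix.mul_assoc, ← Matrix.mul_assoc x.φ, h1]; simp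
  have e2 : y.e * x.e = 0 := by
    rw [QForm.e, QForm.e, Matrix.mul_assoc, ← Matrix.mul_assoc y.φ, h2]; simp
  have a1 : x.θ * y.e = 0 := by rw [← x.theta_e, Matrix.mul_assoc, e1]; simp
  have a2 : y.θ * x.e = 0 := by rw [← y.theta_e, Matrix.mul_assoc, e2]; simp
  have b1 : x.eᴴ * y.θ = 0 := by
    rw [← y.eH_theta, ← Matrix.mul_assoc, ← conjTranspose_mul, e2]; simp
  have b2 : y.eᴴ * x.θ = 0 := by
    rw [← x.eH_theta, ← Matrix.mul_assoc, ← conjTranspose_mul, e1]; simp
  constructor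
  · change fromCols x.e y.e * fromBlocks x.ψ 0 0 y.ψ * (fromCols x.e y.e)ᴴ = z.ψ
    rw [conjTranspose_fromCols_eq_fromRows_conjTranspose, fromCols_mul_fromBlocks,
      fromCols_mul_fromRows, hψ]
    simp only [Matrix.mul_zero, add_zero, zero_add]
    rw [x.e_psi, y.e_psi, x.psi_eH, y.psi_eH]
  · refine ⟨0, ?_⟩
    change _ = fromBlocks x.θ 0 0 y.θ + _
    rw [conjTranspose_fromCols_eq_fromRows_conjTranspose, fromRows_mul, fromRows_mul_fromCols, hθ,
      Matrix.mul_add, Matrix.mul_add, b1, b2, add_zero, zero_add, Matrix.mul_assoc x.eᴴ x.θ y.e,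
      Matrix.mul_assoc y.eᴴ y.θ x.e, a1, a2, Matrix.mul_zero, Matrix.mul_zero, x.comp_eq,
      y.comp_eq]
    simp

/-- The sum of a form and its opposite is hyperbolic. -/
theorem isHyp_sum_neg [DecidableEq ι] (x : QForm R ε ι) : IsHyp (x.sum x.neg) := by
  -- the matrix of `(a, b) ↦ (a - b, θ a + ε θ^* b)`
  have key : IsIsom (x.sum x.neg) (QForm.hyp ε x.e x.e_e)
      (fromBlocks x.e (-x.e) x.θ (dag ε x.θ)) := by
    have hd : (dag ε x.θ)ᴴ = (ε : ℤ) • x.θ := by
      rw [conjTranspose_dag, dag, conjTranspose_conjTranspose]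
    have hθ : x.θᴴ = (ε : ℤ) • dag ε x.θ := by rw [dag, eps_smul_smul]
    have c1 : x.ψ * x.θ + x.ψ * dag ε x.θ = x.e := by rw [← Matrix.mul_add]; rfl
    have c2 : x.θ * x.ψ + dag ε x.θ * x.ψ = x.eᴴ := by rw [← Matrix.add_mul, x.eH]; rfl
    have c3 : x.θ * x.ψ * dag ε x.θ = dag ε x.θ * x.ψ * x.θ := by
      have d1 : x.θ * x.ψ * x.θ + x.θ * x.ψ * dag ε x.θ = x.θ := by
        rw [Matrix.mul_assoc, Matrix.mul_assoc, ← Matrix.mul_add, c1, x.theta_e]
      have d2 : x.θ * x.ψ * x.θ + dag ε x.θ * x.ψ * x.θ = x.θ := by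
        rw [← Matrix.add_mul, c2, x.eH_theta]
      exact add_left_cancel (d1.trans d2.symm)
    constructor
    · change fromBlocks x.e (-x.e) x.θ (dag ε x.θ) * fromBlocks x.ψ 0 0 (-x.ψ) *
        (fromBlocks x.e (-x.e) x.θ (dag ε x.θ))ᴴ = fromBlocks 0 ((ε : ℤ) • x.e) x.eᴴ 0
      rw [fromBlocks_conjTranspose, fromBlocks_multiply, fromBlocks_multiply, hd, hθ]
      simp only [Matrix.mul_zero, add_zero, zero_add, Matrix.mul_neg, Matrix.neg_mul, neg_neg,
        conjTranspose_neg, x.e_psi, x.psi_eH, Matrix.mul_smul]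
      congr 1
      · abel
      · rw [← smul_add, add_comm, c1]
      · rw [Matrix.mul_assoc, x.psi_eH, Matrix.mul_assoc, x.psi_eH, c2]
      · rw [c3, ← smul_add, add_neg_cancel, smul_zero]
    · refine ⟨fromBlocks 0 0 (-x.θ) x.θ, ?_⟩
      change (fromBlocks x.e (-x.e) x.θ (dag ε x.θ))ᴴ * fromBlocks 0 x.eᴴ 0 0 *
        fromBlocks x.e (-x.e) x.θ (dag ε x.θ) = fromBlocks x.θ 0 0 (-x.θ) + _
      have h5 : x.eᴴ * x.eᴴ = x.eᴴ := x.eH_eH
      rw [fromBlocks_conjTranspose, fromBlocks_multiply, fromBlocks_multiply, dag_fromBlocks]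
      simp only [Matrix.mul_zero, add_zero, zero_add, Matrix.zero_mul, conjTranspose_neg,
        Matrix.neg_mul, h5, x.eH_theta, x.eH_dagtheta, dag_zero, dag_neg]
      rw [sub_eq_add_neg, fromBlocks_neg, fromBlocks_add, fromBlocks_add]
      simp
  exact Isometric.isHyp ⟨_, key.symm⟩ (isHyp_hyp _ _)

end Pool.Agent.Y483
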