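import Pool.Agent.Y483.QCorner

/-!
Restriction of matrices of adjointable operators to a finite window, and the end of the proof that
the corner embedding reflects stably hyperbolic forms.
-/

namespace Pool.Agent.Y483

open Matrix

section Entry

variable {S : Type*} [Ring S] [StarRing S] {A : Type*}

/-- The matrix entries of an adjointable operator. -/
noncomputable def entry (z : Op S A) (s t : A) : S := z.fn (Finsupp.single t 1) s

theorem fn_apply (z : Op S A) (v : A →₀ S) (s : A) :
    z.fn v s = v.sum fun c r => entry z s c * r := by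
  classical
  induction v using Finsupp.induction_linear with
  | zero => simp
  | add f g hf hg =>
    rw [map_add, Finsupp.add_apply, hf, hg, Finsupp.sum_add_index'] <;> simp [mul_add]
  | single c r =>
    have e : (Finsupp.single c r : A →₀ S) = (MulOpposite.op r) • Finsupp.single c (1 : S) := by
      simp
    rw [Finsupp.sum_single_index (by simp)]
    conv_lhs => rw [e, map_smul]
    simp [entry]

theorem entry_mul (z w : Op S A) (s t : A) :
    entry (z * w) s t = (w.fn (Finsupp.single t 1)).sum fun c r => entry z s c * r := by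
  rw [entry, Op.fn_mul, fn_apply]

theorem entry_star (z : Op S A) (s t : A) : entry (star z) s t = star (entry z t s) := by
  have h := z.adj (Finsupp.single s 1) (Finsupp.single t 1)
  rw [pairing_single_right, pairing_single_left] at h
  simp only [mul_one, star_one, one_mul] at h
  rw [entry, Op.fn_star, entry, h]

theorem entry_add (z w : Op S A) (s t : A) : entry (z + w) s t = entry z s t + entry w s t := by
  simp [entry]

theorem entry_sub (z w : Op S A) (s t : A) : entry (z - w) s t = entry z s t - entry w s t := by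
  simp [entry]

theorem entry_zero (s t : A) : entry (0 : Op S A) s t = 0 := by
  simp [entry]

/-- The entry as an additive map. -/
noncomputable def entryHom (s t : A) : Op S A →+ S where
  toFun z := entry z s t
  map_zero' := entry_zero s t
  map_add' z w := entry_add z w s t

theorem entry_sum {K : Type*} (T : Finset K) (f : K → Op S A) (s t : A) :
    entry (∑ k ∈ T, f k) s t = ∑ k ∈ T, entry (f k) s t :=
  map_sum (entryHom s t) f T

theorem entry_zsmul (n : ℤ) (z : Op S A) (s t : A) : entry (n • z) s t = n • entry z s t :=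
  map_zsmul (entryHom s t) n z

theorem entry_one_ne {s t : A} (h : s ≠ t) : entry (1 : Op S A) s t = 0 := by
  simp [entry, Finsupp.single_eq_of_ne h]

theorem entry_one_eq (s : A) : entry (1 : Op S A) s s = 1 := by
  simp [entry]

open Classical in
theorem entry_corner (a : A) (r : S) (s t : A) :
    entry (fstHom S A (corner S A a r)) s t = if s = a ∧ t = a then r else 0 := by
  change (diagOp (Pi.single a r)).fn (Finsupp.single t 1) s = _
  rw [diagOp_fn, mul_one]
  by_cases ht : t = a
  · subst ht
    by_cases hs : s = t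
    · subst hs; simp
    · simp [Finsupp.single_eq_of_ne hs, hs]
  · rw [Pi.single_eq_of_ne (M := fun _ => S) ht]
    simp [ht]

end Entry

section Window

variable {S : Type*} [Ring S] [StarRing S] {A : Type*} {ε : ℤˣ} {ι κ μ ν : Type*}

/-- The matrix is block diagonal for the decomposition of the index set in `F` and its
complement. -/
def Blk (F : Finset A) (M : Matrix ι κ (Op S A)) : Prop :=
  (∀ i j s t, s ∈ F → t ∉ F → entry (M i j) s t = 0) ∧
    ∀ i j s t, s ∉ F → t ∈ F → entry (M i j) s t = 0

/-- The window. -/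
noncomputable def winM (F : Finset A) (M : Matrix ι κ (Op S A)) : Matrix (ι × F) (κ × F) S :=
  Matrix.of fun p q => entry (M p.1 q.1) p.2 q.2

theorem entry_mul_left {F : Finset A} (z w : Op S A) (s t : A)
    (h : ∀ c ∉ F, entry z s c = 0 ∨ entry w c t = 0) :
    entry (z * w) s t = ∑ c : F, entry z s c * entry w c t := by
  classical
  rw [entry_mul]
  rw [Finset.sum_coe_sort F (fun c => entry z s c * entry w c t)]
  rw [Finsupp.sum_of_support_subset _ (Finset.subset_union_left (s₂ := F)) _ (by simp)]
  symm
  apply Finset.sum_subset Finset.subset_union_right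
  intro c _ hc
  rcases h c hc with h | h
  · rw [h, zero_mul]
  · change entry z s c * entry w c t = 0
    rw [h, mul_zero]

theorem winM_add (F : Finset A) (M N : Matrix ι κ (Op S A)) :
    winM F (M + N) = winM F M + winM F N := by
  ext p q; exact entry_add _ _ _ _

theorem winM_sub (F : Finset A) (M N : Matrix ι κ (Op S A)) :
    winM F (M - N) = winM F M - winM F N := by
  ext p q; exact entry_sub _ _ _ _

theorem winM_conj (F : Finset A) (M : Matrix ι κ (Op S A)) :
    winM F Mᴴ = (winM F M)ᴴ := by
  ext p q; exact entry_star _ _ _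

theorem winM_dag (F : Finset A) (M : Matrix ι κ (Op S A)) :
    winM F (dag ε M) = dag ε (winM F M) := by
  ext p q
  change entry ((ε : ℤ) • star (M q.1 p.1)) p.2 q.2 = (ε : ℤ) • star (entry (M q.1 p.1) q.2 p.2)
  rw [entry_zsmul, entry_star]

theorem winM_mul_left [Fintype κ] {F : Finset A} {M : Matrix ι κ (Op S A)} (h : Blk F M)
    (N : Matrix κ μ (Op S A)) : winM F (M * N) = winM F M * winM F N := by
  ext p q
  change entry ((M * N) p.1 q.1) p.2 q.2 = _
  rw [Matrix.mul_apply, entry_sum, Matrix.mul_apply, Fintype.sum_prod_type]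
  apply Finset.sum_congr rfl
  intro k _
  exact entry_mul_left _ _ _ _ (fun c hc => Or.inl (h.1 _ _ _ _ p.2.2 hc))

theorem winM_mul_right [Fintype κ] {F : Finset A} (M : Matrix ι κ (Op S A))
    {N : Matrix κ μ (Op S A)} (h : Blk F N) : winM F (M * N) = winM F M * winM F N := by
  ext p q
  change entry ((M * N) p.1 q.1) p.2 q.2 = _
  rw [Matrix.mul_apply, entry_sum, Matrix.mul_apply, Fintype.sum_prod_type]
  apply Finset.sum_congr rfl
  intro k _
  exact entry_mul_left _ _ _ _ (fun c hc => Or.inr (h.2 _ _ _ _ hc q.2.2))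

theorem Blk.add {F : Finset A} {M N : Matrix ι κ (Op S A)} (hM : Blk F M) (hN : Blk F N) :
    Blk F (M + N) := by
  constructor
  · intro i j s t hs ht
    rw [Matrix.add_apply, entry_add, hM.1 i j s t hs ht, hN.1 i j s t hs ht, add_zero]
  · intro i j s t hs ht
    rw [Matrix.add_apply, entry_add, hM.2 i j s t hs ht, hN.2 i j s t hs ht, add_zero]

theorem Blk.conj {F : Finset A} {M : Matrix ι κ (Op S A)} (hM : Blk F M) : Blk F Mᴴ := by
  constructor
  · intro i j s t hs ht
    rw [conjTranspose_apply, entry_star, hM.2 j i t s ht hs, star_zero]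
  · intro i j s t hs ht
    rw [conjTranspose_apply, entry_star, hM.1 j i t s ht hs, star_zero]

theorem Blk.zsmul {F : Finset A} {M : Matrix ι κ (Op S A)} (hM : Blk F M) (n : ℤ) :
    Blk F (n • M) := by
  constructor
  · intro i j s t hs ht
    change entry (n • M i j) s t = 0
    rw [entry_zsmul, hM.1 i j s t hs ht, smul_zero]
  · intro i j s t hs ht
    change entry (n • M i j) s t = 0
    rw [entry_zsmul, hM.2 i j s t hs ht, smul_zero]

theorem Blk.dag {F : Finset A} {M : Matrix ι κ (Op S A)} (hM : Blk F M) : Blk F (dag ε M) :=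
  hM.conj.zsmul _

theorem Blk.mul [Fintype κ] {F : Finset A} {M : Matrix ι κ (Op S A)} {N : Matrix κ μ (Op S A)}
    (hM : Blk F M) (hN : Blk F N) : Blk F (M * N) := by
  constructor
  · intro i j s t hs ht
    rw [Matrix.mul_apply, entry_sum]
    apply Finset.sum_eq_zero
    intro k _
    rw [entry_mul_left (F := F) _ _ _ _ (fun c hc => Or.inl (hM.1 _ _ _ _ hs hc))]
    apply Finset.sum_eq_zero
    intro c _
    rw [hN.1 k j c t c.2 ht, mul_zero]
  · intro i j s t hs ht
    rw [Matrix.mul_apply, entry_sum]
    apply Finset.sum_eq_zero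
    intro k _
    rw [entry_mul_left (F := F) _ _ _ _ (fun c hc => Or.inr (hN.2 _ _ _ _ hc ht))]
    apply Finset.sum_eq_zero
    intro c _
    rw [hM.2 i k s c hs c.2, zero_mul]

variable [Fintype ι] [Fintype κ]

/-- The window of a form. -/
noncomputable def QForm.win (F : Finset A) (y : QForm (Op S A) ε ι) (hθ : Blk F y.θ)
    (hψ : Blk F y.ψ) : QForm S ε (ι × F) where
  θ := winM F y.θ
  ψ := winM F y.ψ
  dag_psi := by rw [← winM_dag, y.dag_psi]
  psi_phi_psi := by
    have hφ : Blk F (y.θ + dag ε y.θ) := hθ.add hθ.dag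
    rw [← winM_dag, ← winM_add, ← winM_mul_left hψ, ← winM_mul_right _ hψ, y.psi_phi_psi]
  compress := by
    have hφ : Blk F (y.θ + dag ε y.θ) := hθ.add hθ.dag
    rw [← winM_dag, ← winM_add, ← winM_mul_left hφ, ← winM_mul_right _ hθ, ← winM_mul_left hψ,
      ← winM_mul_right _ (hψ.mul hφ), y.compress]

theorem QForm.win_phi (F : Finset A) (y : QForm (Op S A) ε ι) (hθ : Blk F y.θ)
    (hψ : Blk F y.ψ) : (y.win F hθ hψ).φ = winM F y.φ := by
  rw [φ, φ, winM_add, winM_dag]; rfl

theorem QForm.win_e (F : Finset A) (y : QForm (Op S A) ε ι) (hθ : Blk F y.θ)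
    (hψ : Blk F y.ψ) : (y.win F hθ hψ).e = winM F y.e := by
  rw [e, e, win_phi, winM_mul_left hψ]; rfl

theorem IsLag.win {F : Finset A} {y : QForm (Op S A) ε ι} (hθ : Blk F y.θ)
    (hψ : Blk F y.ψ) {l : Matrix ι ι (Op S A)} (hl : Blk F l) (h : IsLag y l) :
    IsLag (y.win F hθ hψ) (winM F l) := by
  obtain ⟨h1, h2, h3, χ, h4⟩ := h
  refine ⟨?_, ?_, ?_, winM F χ, ?_⟩
  · rw [← winM_mul_left hl, h1]
  · rw [QForm.win_e, ← winM_mul_left hl, h2]
  · rw [QForm.win_e, ← winM_mul_right _ hl, h3]
  · rw [QForm.win_phi, ← winM_conj, ← winM_dag, ← winM_sub, ← winM_mul_left hl.conj, ← winM_add,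
      ← h4]
    rfl

theorem blk_corner {F : Finset A} {a : A} (ha : a ∈ F) (M : Matrix ι κ S) :
    Blk F ((M.map (corner S A a)).map (fstHom S A)) := by
  classical
  constructor
  · intro i j s t hs ht
    change entry (fstHom S A (corner S A a (M i j))) s t = 0
    rw [entry_corner, if_neg]
    rintro ⟨-, rfl⟩
    exact ht ha
  · intro i j s t hs ht
    change entry (fstHom S A (corner S A a (M i j))) s t = 0
    rw [entry_corner, if_neg]
    rintro ⟨rfl, -⟩
    exact hs ha

omit [Fintype ι] [Fintype κ] in
theorem blk_zero {F : Finset A} : Blk F (0 : Matrix ι κ (Op S A)) :=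
  ⟨fun _ _ s t _ _ => entry_zero s t, fun _ _ s t _ _ => entry_zero s t⟩

omit [Fintype ι] in
theorem blk_one [DecidableEq ι] {F : Finset A} : Blk F (1 : Matrix ι ι (Op S A)) := by
  constructor
  · intro i j s t hs ht
    by_cases h : i = j
    · subst h
      rw [one_apply_eq]
      exact entry_one_ne (fun h => ht (h ▸ hs))
    · rw [one_apply_ne h]
      exact entry_zero _ _
  · intro i j s t hs ht
    by_cases h : i = j
    · subst h
      rw [one_apply_eq]
      exact entry_one_ne (fun h => hs (h ▸ ht))
    · rw [one_apply_ne h]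
      exact entry_zero _ _

omit [Fintype ι] [Fintype κ] in
theorem Blk.fromBlocks {F : Finset A} {M : Matrix ι κ (Op S A)} {N : Matrix ι μ (Op S A)}
    {P : Matrix ν κ (Op S A)} {Q : Matrix ν μ (Op S A)} (hM : Blk F M) (hN : Blk F N)
    (hP : Blk F P) (hQ : Blk F Q) : Blk F (Matrix.fromBlocks M N P Q) := by
  constructor
  · rintro (i | i) (j | j) s t hs ht
    · exact hM.1 i j s t hs ht
    · exact hN.1 i j s t hs ht
    · exact hP.1 i j s t hs ht
    · exact hQ.1 i j s t hs ht
  · rintro (i | i) (j | j) s t hs ht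
    · exact hM.2 i j s t hs ht
    · exact hN.2 i j s t hs ht
    · exact hP.2 i j s t hs ht
    · exact hQ.2 i j s t hs ht

end Window

end Pool.Agent.Y483
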