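import Mathlib

/-!
Rings with involution used for the rational assembly map: the integral group ring, the ring of
adjointable operators on the free right module with basis `A`, and the ring of pairs of
adjointable operators whose difference has finite rank.
-/

namespace Pool.Agent.Y483

open MulOpposite

/-! ### The integral group ring with its standard involution -/

section GroupRing

variable {G : Type*} [Group G]

/-- The homomorphism `g ↦ g⁻¹` from `G` to the opposite of its integral group ring. -/
noncomputable def invOf (G : Type*) [Group G] : G →* (MonoidAlgebra ℤ G)ᵐᵒᵖ where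
  toFun g := op (MonoidAlgebra.single g⁻¹ 1)
  map_one' := by simp [MonoidAlgebra.one_def]
  map_mul' g h := by simp [← op_mul, MonoidAlgebra.single_mul_single]

/-- The anti-homomorphism `g ↦ g⁻¹` of the integral group ring, as a map to the opposite ring. -/
noncomputable def zgInv (G : Type*) [Group G] :
    MonoidAlgebra ℤ G →ₐ[ℤ] (MonoidAlgebra ℤ G)ᵐᵒᵖ :=
  MonoidAlgebra.lift ℤ (MonoidAlgebra ℤ G)ᵐᵒᵖ G (invOf G)

theorem zgInv_single (g : G) (n : ℤ) :
    zgInv G (MonoidAlgebra.single g n) = op (MonoidAlgebra.single g⁻¹ n) := by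
  unfold zgInv
  rw [MonoidAlgebra.lift_single]
  simp [← op_smul, invOf]

/-- The standard involution of the integral group ring: `(∑ n_g g)^* = ∑ n_g g⁻¹`. -/
noncomputable def zgInvol (x : MonoidAlgebra ℤ G) : MonoidAlgebra ℤ G := unop (zgInv G x)

theorem zgInvol_invol (x : MonoidAlgebra ℤ G) : zgInvol (zgInvol x) = x := by
  have h : (((zgInv G).toRingHom.toAddMonoidHom.comp
      ((opAddEquiv (α := MonoidAlgebra ℤ G)).symm.toAddMonoidHom.comp
        (zgInv G).toRingHom.toAddMonoidHom)) : MonoidAlgebra ℤ G →+ _)
      = (opAddEquiv (α := MonoidAlgebra ℤ G)).toAddMonoidHom := by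
    apply MonoidAlgebra.addMonoidHom_ext
    intro g n
    simp [zgInv_single]
  exact congrArg unop (DFunLike.congr_fun h x)

theorem zgInvol_mul (x y : MonoidAlgebra ℤ G) : zgInvol (x * y) = zgInvol y * zgInvol x := by
  simp [zgInvol]

theorem zgInvol_add (x y : MonoidAlgebra ℤ G) : zgInvol (x + y) = zgInvol x + zgInvol y := by
  simp [zgInvol]

/-- The integral group ring with its standard involution is a ring with involution. -/
noncomputable instance zgStar : StarRing (MonoidAlgebra ℤ G) where
  star := zgInvol
  star_involutive := zgInvol_invol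
  star_mul := zgInvol_mul
  star_add := zgInvol_add

@[simp] theorem star_single (g : G) (n : ℤ) :
    star (MonoidAlgebra.single g n : MonoidAlgebra ℤ G) = MonoidAlgebra.single g⁻¹ n := by
  change unop (zgInv G _) = _
  rw [zgInv_single]; rfl

/-- A homomorphism from `G` to the unitaries of a ring with involution extends to the group ring. -/
noncomputable def starLift {R : Type*} [Ring R] [StarRing R] (ρ : G →* R)
    (h : ∀ g, star (ρ g) = ρ g⁻¹) : MonoidAlgebra ℤ G →⋆ₙ+* R :=
  { (MonoidAlgebra.lift ℤ R G ρ : MonoidAlgebra ℤ G →+* R).toNonUnitalRingHom with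
    map_star' := by
      intro x
      have key : ((MonoidAlgebra.lift ℤ R G ρ).toRingHom.toAddMonoidHom.comp
          (starAddEquiv (R := MonoidAlgebra ℤ G)).toAddMonoidHom) =
          (starAddEquiv (R := R)).toAddMonoidHom.comp
            (MonoidAlgebra.lift ℤ R G ρ).toRingHom.toAddMonoidHom := by
        apply MonoidAlgebra.addMonoidHom_ext
        intro g n
        simp [h, (Int.cast_commute n (ρ g⁻¹)).eq]
      exact DFunLike.congr_fun key x }

@[simp] theorem starLift_single {R : Type*} [Ring R] [StarRing R] (ρ : G →* R)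
    (h : ∀ g, star (ρ g) = ρ g⁻¹) (g : G) (n : ℤ) :
    starLift ρ h (MonoidAlgebra.single g n) = n • ρ g :=
  MonoidAlgebra.lift_single (R := ℤ) ρ g n

theorem zgHom_ext {R : Type*} [Ring R] [StarRing R] {f f' : MonoidAlgebra ℤ G →⋆ₙ+* R}
    (h : ∀ g, f (MonoidAlgebra.single g 1) = f' (MonoidAlgebra.single g 1)) : f = f' := by
  apply NonUnitalStarRingHom.ext
  intro x
  have key : (f : MonoidAlgebra ℤ G →+ R) = (f' : MonoidAlgebra ℤ G →+ R) := by
    apply MonoidAlgebra.addMonoidHom_ext
    intro g n
    have e : (MonoidAlgebra.single g n : MonoidAlgebra ℤ G) =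
        n • MonoidAlgebra.single g (1 : ℤ) := by simp
    rw [e, map_zsmul, map_zsmul]
    exact congrArg _ (h g)
  exact DFunLike.congr_fun key x

theorem zgHom_add_ext {R : Type*} [Ring R] [StarRing R] {f g h : MonoidAlgebra ℤ G →⋆ₙ+* R}
    (H : ∀ x, h (MonoidAlgebra.single x 1) =
      f (MonoidAlgebra.single x 1) + g (MonoidAlgebra.single x 1)) (x : MonoidAlgebra ℤ G) :
    h x = f x + g x := by
  have key : (h : MonoidAlgebra ℤ G →+ R) =
      (f : MonoidAlgebra ℤ G →+ R) + (g : MonoidAlgebra ℤ G →+ R) := by
    apply MonoidAlgebra.addMonoidHom_ext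
    intro y n
    have e : (MonoidAlgebra.single y n : MonoidAlgebra ℤ G) =
        n • MonoidAlgebra.single y (1 : ℤ) := by simp
    rw [e, map_zsmul, map_zsmul]
    exact congrArg _ (H y)
  exact DFunLike.congr_fun key x

/-- The homomorphism of group rings with involution induced by a homomorphism of groups. -/
noncomputable def zgMap {H : Type*} [Group H] (f : G →* H) :
    MonoidAlgebra ℤ G →⋆ₙ+* MonoidAlgebra ℤ H :=
  starLift ((MonoidAlgebra.of ℤ H).comp f) (fun g => by simp)

@[simp] theorem zgMap_single {H : Type*} [Group H] (f : G →* H) (g : G) (n : ℤ) :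
    zgMap f (MonoidAlgebra.single g n) = MonoidAlgebra.single (f g) n := by
  simp [zgMap]

end GroupRing

/-! ### Adjointable operators -/

section Operators

variable {S : Type*} [Ring S] [StarRing S] {A : Type*}

/-- The hermitian pairing `⟨v, w⟩ = ∑ v_a^* w_a` on the free right module with basis `A`. -/
noncomputable def pairing (v w : A →₀ S) : S := v.sum fun a s => star s * w a

theorem pairing_add_left (v v' w : A →₀ S) : pairing (v + v') w = pairing v w + pairing v' w := by
  classical
  unfold pairing
  rw [Finsupp.sum_add_index'] <;> simp [add_mul]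

theorem pairing_add_right (v w w' : A →₀ S) : pairing v (w + w') = pairing v w + pairing v w' := by
  unfold pairing
  simp [mul_add, Finsupp.sum_add]

theorem pairing_zero_left (w : A →₀ S) : pairing 0 w = 0 := by simp [pairing]

theorem pairing_zero_right (v : A →₀ S) : pairing v 0 = 0 := by simp [pairing]

theorem pairing_single_left (a : A) (s : S) (w : A →₀ S) :
    pairing (Finsupp.single a s) w = star s * w a := by
  unfold pairing
  rw [Finsupp.sum_single_index]; simp

theorem pairing_single_right (v : A →₀ S) (a : A) (s : S) :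
    pairing v (Finsupp.single a s) = star (v a) * s := by
  classical
  induction v using Finsupp.induction_linear with
  | zero => simp [pairing]
  | add f g hf hg => rw [pairing_add_left, hf, hg]; simp [add_mul]
  | single b t =>
    rw [pairing_single_left]
    by_cases h : a = b
    · subst h; simp
    · simp [Finsupp.single_eq_of_ne h, Finsupp.single_eq_of_ne (Ne.symm h)]

theorem star_pairing (v w : A →₀ S) : star (pairing v w) = pairing w v := by
  classical
  induction v using Finsupp.induction_linear with
  | zero => simp [pairing]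
  | add f g hf hg => rw [pairing_add_left, pairing_add_right, star_add, hf, hg]
  | single b t => rw [pairing_single_left, pairing_single_right]; simp

theorem pairing_neg_left (v w : A →₀ S) : pairing (-v) w = -pairing v w := by
  rw [eq_neg_iff_add_eq_zero, ← pairing_add_left]; simp [pairing_zero_left]

theorem pairing_neg_right (v w : A →₀ S) : pairing v (-w) = -pairing v w := by
  rw [eq_neg_iff_add_eq_zero, ← pairing_add_right]; simp [pairing_zero_right]

theorem eq_of_pairing {v v' : A →₀ S} (h : ∀ w : A →₀ S, pairing w v = pairing w v') : v = v' := by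
  ext a
  have := h (Finsupp.single a 1)
  simpa [pairing_single_left] using this

variable (S A)

/-- Endomorphisms of the free right `S`-module with basis `A`. -/
abbrev EndA := Module.End Sᵐᵒᵖ (A →₀ S)

/-- A pair of endomorphisms `(T, T')` of the free right module with `⟨T v, w⟩ = ⟨v, T' w⟩`. -/
def IsAdj (p : EndA S A × (EndA S A)ᵐᵒᵖ) : Prop :=
  ∀ v w, pairing (p.1 v) w = pairing v (unop p.2 w)

variable {S A}

theorem IsAdj.mul {p q : EndA S A × (EndA S A)ᵐᵒᵖ} (hp : IsAdj S A p) (hq : IsAdj S A q) :
    IsAdj S A (p * q) := by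
  intro v w
  simp only [Prod.fst_mul, Prod.snd_mul, unop_mul, Module.End.mul_apply]
  rw [hp, hq]

theorem IsAdj.one : IsAdj S A (1 : EndA S A × (EndA S A)ᵐᵒᵖ) := by intro v w; simp

theorem IsAdj.add {p q : EndA S A × (EndA S A)ᵐᵒᵖ} (hp : IsAdj S A p) (hq : IsAdj S A q) :
    IsAdj S A (p + q) := by
  intro v w
  simp only [Prod.fst_add, Prod.snd_add, unop_add, LinearMap.add_apply]
  rw [pairing_add_left, pairing_add_right, hp, hq]

theorem IsAdj.zero : IsAdj S A (0 : EndA S A × (EndA S A)ᵐᵒᵖ) := by
  intro v w; simp [pairing_zero_left, pairing_zero_right]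

theorem IsAdj.neg {p : EndA S A × (EndA S A)ᵐᵒᵖ} (hp : IsAdj S A p) : IsAdj S A (-p) := by
  intro v w
  simp only [Prod.fst_neg, Prod.snd_neg, unop_neg, LinearMap.neg_apply]
  rw [pairing_neg_left, pairing_neg_right, hp]

variable (S A)

/-- The ring `B_A(S)` of adjointable operators on the free right `S`-module with basis `A`: pairs
`(T, T')` with `⟨T v, w⟩ = ⟨v, T' w⟩`; equivalently, row-and-column-finite `A × A` matrices. -/
noncomputable def opSubring : Subring (EndA S A × (EndA S A)ᵐᵒᵖ) where
  carrier := {p | IsAdj S A p}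
  mul_mem' := IsAdj.mul
  one_mem' := IsAdj.one
  add_mem' := IsAdj.add
  zero_mem' := IsAdj.zero
  neg_mem' := IsAdj.neg

/-- The ring `B_A(S)` of adjointable operators. -/
def Op : Type _ := opSubring S A

noncomputable instance opRing : Ring (Op S A) := inferInstanceAs (Ring (opSubring S A))

variable {S A}

/-- The underlying operator. -/
noncomputable def Op.fn (x : Op S A) : EndA S A := x.1.1

/-- The adjoint operator. -/
noncomputable def Op.ad (x : Op S A) : EndA S A := unop x.1.2

theorem Op.adj (x : Op S A) (v w : A →₀ S) : pairing (x.fn v) w = pairing v (x.ad w) := x.2 v w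

theorem Op.adj' (x : Op S A) (v w : A →₀ S) : pairing (x.ad v) w = pairing v (x.fn w) := by
  rw [← star_pairing, ← x.adj, star_pairing]

/-- The adjoint of an adjointable operator. -/
noncomputable def Op.adjoint (x : Op S A) : Op S A := ⟨(x.ad, op x.fn), fun v w => x.adj' v w⟩

theorem Op.adjoint_adjoint (x : Op S A) : x.adjoint.adjoint = x := rfl

theorem Op.adjoint_mul (x y : Op S A) : (x * y).adjoint = y.adjoint * x.adjoint := rfl

theorem Op.adjoint_add (x y : Op S A) : (x + y).adjoint = x.adjoint + y.adjoint := rfl

noncomputable instance opStar : StarRing (Op S A) where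
  star := Op.adjoint
  star_involutive := Op.adjoint_adjoint
  star_mul := Op.adjoint_mul
  star_add := Op.adjoint_add

@[simp] theorem Op.fn_star (x : Op S A) : (star x).fn = x.ad := rfl
@[simp] theorem Op.ad_star (x : Op S A) : (star x).ad = x.fn := rfl
@[simp] theorem Op.fn_mul (x y : Op S A) (v : A →₀ S) : (x * y).fn v = x.fn (y.fn v) := rfl
@[simp] theorem Op.ad_mul (x y : Op S A) (v : A →₀ S) : (x * y).ad v = y.ad (x.ad v) := rfl
@[simp] theorem Op.fn_add (x y : Op S A) (v : A →₀ S) : (x + y).fn v = x.fn v + y.fn v := rfl
@[simp] theorem Op.ad_add (x y : Op S A) (v : A →₀ S) : (x + y).ad v = x.ad v + y.ad v := rfl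
@[simp] theorem Op.fn_sub (x y : Op S A) (v : A →₀ S) : (x - y).fn v = x.fn v - y.fn v := rfl
@[simp] theorem Op.ad_sub (x y : Op S A) (v : A →₀ S) : (x - y).ad v = x.ad v - y.ad v := rfl
@[simp] theorem Op.fn_neg (x : Op S A) (v : A →₀ S) : (-x).fn v = -x.fn v := rfl
@[simp] theorem Op.ad_neg (x : Op S A) (v : A →₀ S) : (-x).ad v = -x.ad v := rfl
@[simp] theorem Op.fn_zero (v : A →₀ S) : (0 : Op S A).fn v = 0 := rfl
@[simp] theorem Op.ad_zero (v : A →₀ S) : (0 : Op S A).ad v = 0 := rfl
@[simp] theorem Op.fn_one (v : A →₀ S) : (1 : Op S A).fn v = v := rfl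
@[simp] theorem Op.ad_one (v : A →₀ S) : (1 : Op S A).ad v = v := rfl

theorem end_ext {f g : EndA S A}
    (h : ∀ a, f (Finsupp.single a 1) = g (Finsupp.single a 1)) : f = g := by
  apply LinearMap.ext
  intro v
  induction v using Finsupp.induction_linear with
  | zero => simp
  | add x y hx hy => rw [map_add, map_add, hx, hy]
  | single a s =>
    have e : (Finsupp.single a s : A →₀ S) = (op s) • Finsupp.single a (1 : S) := by
      simp
    rw [e, map_smul, map_smul, h]

/-- Adjointable operators are determined by their values on the basis. -/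
theorem Op.ext' {x y : Op S A}
    (h : ∀ a, x.fn (Finsupp.single a 1) = y.fn (Finsupp.single a 1)) : x = y := by
  have h1 : x.fn = y.fn := end_ext h
  have h2 : x.ad = y.ad := by
    apply LinearMap.ext
    intro w
    apply eq_of_pairing
    intro v
    rw [← x.adj, ← y.adj, h1]
  apply Subtype.ext
  exact Prod.ext h1 (congrArg op h2)

/-- An adjointable operator has finite rank when its matrix has finitely many nonzero entries. -/
def FinRank (x : Op S A) : Prop :=
  ∃ F : Finset A, ∀ a ∉ F, x.fn (Finsupp.single a 1) = 0 ∧ x.ad (Finsupp.single a 1) = 0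

theorem fn_single_eq_zero {f : EndA S A} {a : A} (h : f (Finsupp.single a 1) = 0) (s : S) :
    f (Finsupp.single a s) = 0 := by
  have e : (Finsupp.single a s : A →₀ S) = (op s) • Finsupp.single a (1 : S) := by
    simp
  rw [e, map_smul, h, smul_zero]

theorem FinRank.zero : FinRank (0 : Op S A) := ⟨∅, fun a _ => by simp⟩

theorem FinRank.add {x y : Op S A} (hx : FinRank x) (hy : FinRank y) : FinRank (x + y) := by
  classical
  obtain ⟨F, hF⟩ := hx
  obtain ⟨F', hF'⟩ := hy
  refine ⟨F ∪ F', fun a ha => ?_⟩
  simp only [Finset.mem_union, not_or] at ha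
  simp [hF a ha.1, hF' a ha.2]

theorem FinRank.neg {x : Op S A} (hx : FinRank x) : FinRank (-x) := by
  obtain ⟨F, hF⟩ := hx
  exact ⟨F, fun a ha => by simp [hF a ha]⟩

theorem FinRank.star {x : Op S A} (hx : FinRank x) : FinRank (star x) := by
  obtain ⟨F, hF⟩ := hx
  exact ⟨F, fun a ha => by simp [hF a ha]⟩

theorem FinRank.mul_left (x : Op S A) {y : Op S A} (hy : FinRank y) : FinRank (x * y) := by
  classical
  obtain ⟨F, hF⟩ := hy
  refine ⟨F ∪ F.biUnion (fun b => (x.fn (Finsupp.single b 1)).support), fun a ha => ?_⟩
  simp only [Finset.mem_union, Finset.mem_biUnion, not_or, not_exists, not_and,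
    Finsupp.mem_support_iff, not_not] at ha
  refine ⟨by simp [hF a ha.1], ?_⟩
  rw [Op.ad_mul]
  have hz : ∀ b ∈ F, (x.ad (Finsupp.single a 1)) b = 0 := by
    intro b hb
    have h1 := x.adj (Finsupp.single b 1) (Finsupp.single a 1)
    rw [pairing_single_right, pairing_single_left, ha.2 b hb] at h1
    simpa using h1.symm
  have hs : x.ad (Finsupp.single a 1) =
      (x.ad (Finsupp.single a 1)).sum fun b s => Finsupp.single b s :=
    (Finsupp.sum_single _).symm
  rw [hs, Finsupp.sum, map_sum]
  apply Finset.sum_eq_zero
  intro b hb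
  by_cases hbF : b ∈ F
  · exact absurd (hz b hbF) (Finsupp.mem_support_iff.mp hb)
  · exact fn_single_eq_zero (hF b hbF).2 _

theorem FinRank.mul_right {x : Op S A} (hx : FinRank x) (y : Op S A) : FinRank (x * y) := by
  have h := (FinRank.mul_left (Star.star y) hx.star).star
  simpa using h

/-- Pairs of adjointable operators whose difference has finite rank. -/
def DiffFin (p : Op S A × Op S A) : Prop := FinRank (p.1 - p.2)

theorem DiffFin.mul {p q : Op S A × Op S A} (hp : DiffFin p) (hq : DiffFin q) :
    DiffFin (p * q) := by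
  unfold DiffFin at *
  simp only [Prod.fst_mul, Prod.snd_mul] at *
  have e : p.1 * q.1 - p.2 * q.2 = (p.1 - p.2) * q.1 + p.2 * (q.1 - q.2) := by noncomm_ring
  rw [e]
  exact (hp.mul_right _).add (FinRank.mul_left _ hq)

theorem DiffFin.one : DiffFin (1 : Op S A × Op S A) := by simp [DiffFin, FinRank.zero]

theorem DiffFin.add {p q : Op S A × Op S A} (hp : DiffFin p) (hq : DiffFin q) :
    DiffFin (p + q) := by
  unfold DiffFin at *
  simp only [Prod.fst_add, Prod.snd_add] at *
  have e : p.1 + q.1 - (p.2 + q.2) = (p.1 - p.2) + (q.1 - q.2) := by abel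
  rw [e]
  exact hp.add hq

theorem DiffFin.zero : DiffFin (0 : Op S A × Op S A) := by simp [DiffFin, FinRank.zero]

theorem DiffFin.neg {p : Op S A × Op S A} (hp : DiffFin p) : DiffFin (-p) := by
  unfold DiffFin at *
  simp only [Prod.fst_neg, Prod.snd_neg] at *
  have e : -p.1 - -p.2 = -(p.1 - p.2) := by abel
  rw [e]
  exact hp.neg

variable (S A)

/-- The ring `D_A(S)` of pairs of adjointable operators whose difference has finite rank. -/
noncomputable def dSubring : Subring (Op S A × Op S A) where
  carrier := {p | DiffFin p}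
  mul_mem' := DiffFin.mul
  one_mem' := DiffFin.one
  add_mem' := DiffFin.add
  zero_mem' := DiffFin.zero
  neg_mem' := DiffFin.neg

/-- The ring `D_A(S)`. -/
def DD : Type _ := dSubring S A

noncomputable instance ddRing : Ring (DD S A) := inferInstanceAs (Ring (dSubring S A))

variable {S A}

theorem DiffFin.star {p : Op S A × Op S A} (hp : DiffFin p) : DiffFin (star p) := by
  unfold DiffFin at *
  change FinRank (Star.star p.1 - Star.star p.2)
  rw [← star_sub]
  exact FinRank.star hp

/-- The involution of `D_A(S)`. -/
noncomputable def DD.invol (x : DD S A) : DD S A := ⟨star x.1, DiffFin.star x.2⟩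

theorem DD.invol_invol (x : DD S A) : x.invol.invol = x := Subtype.ext (star_star _)

theorem DD.invol_mul (x y : DD S A) : (x * y).invol = y.invol * x.invol :=
  Subtype.ext (star_mul _ _)

theorem DD.invol_add (x y : DD S A) : (x + y).invol = x.invol + y.invol :=
  Subtype.ext (star_add _ _)

noncomputable instance ddStar : StarRing (DD S A) where
  star := DD.invol
  star_involutive := DD.invol_invol
  star_mul := DD.invol_mul
  star_add := DD.invol_add

/-- The first component of an element of `D_A(S)`. -/
noncomputable def DD.fst (x : DD S A) : Op S A := x.1.1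

/-- The second component of an element of `D_A(S)`. -/
noncomputable def DD.snd (x : DD S A) : Op S A := x.1.2

/-- An element of `D_A(S)` from its two components. -/
noncomputable def DD.mk (x y : Op S A) (h : FinRank (x - y)) : DD S A := ⟨(x, y), h⟩

theorem DD.ext {x y : DD S A} (h1 : x.fst = y.fst) (h2 : x.snd = y.snd) : x = y :=
  Subtype.ext (Prod.ext h1 h2)

@[simp] theorem DD.fst_mk (x y : Op S A) (h : FinRank (x - y)) : (DD.mk x y h).fst = x := rfl
@[simp] theorem DD.snd_mk (x y : Op S A) (h : FinRank (x - y)) : (DD.mk x y h).snd = y := rfl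
@[simp] theorem DD.fst_add (x y : DD S A) : (x + y).fst = x.fst + y.fst := rfl
@[simp] theorem DD.snd_add (x y : DD S A) : (x + y).snd = x.snd + y.snd := rfl
@[simp] theorem DD.fst_mul (x y : DD S A) : (x * y).fst = x.fst * y.fst := rfl
@[simp] theorem DD.snd_mul (x y : DD S A) : (x * y).snd = x.snd * y.snd := rfl
@[simp] theorem DD.fst_zero : (0 : DD S A).fst = 0 := rfl
@[simp] theorem DD.snd_zero : (0 : DD S A).snd = 0 := rfl
@[simp] theorem DD.fst_one : (1 : DD S A).fst = 1 := rfl
@[simp] theorem DD.snd_one : (1 : DD S A).snd = 1 := rfl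
@[simp] theorem DD.fst_star (x : DD S A) : (star x).fst = star x.fst := rfl
@[simp] theorem DD.snd_star (x : DD S A) : (star x).snd = star x.snd := rfl

/-- The diagonal operator with entries `d`. -/
noncomputable def diagEnd (d : A → S) : EndA S A :=
  Finsupp.lsum ℕ (fun a => (Finsupp.lsingle a).comp
    ({ toFun := fun s => d a * s
       map_add' := fun s t => mul_add _ _ _
       map_smul' := fun r s => by simp [mul_assoc] } : S →ₗ[Sᵐᵒᵖ] S))

@[simp] theorem diagEnd_single (d : A → S) (a : A) (s : S) :
    diagEnd d (Finsupp.single a s) = Finsupp.single a (d a * s) := by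
  simp [diagEnd]

theorem pairing_end_ext {f g : EndA S A}
    (h : ∀ a b, pairing (f (Finsupp.single a 1)) (Finsupp.single b 1) =
      pairing (Finsupp.single a 1) (g (Finsupp.single b 1))) (v w : A →₀ S) :
    pairing (f v) w = pairing v (g w) := by
  induction v using Finsupp.induction_linear with
  | zero => simp [pairing_zero_left]
  | add x y hx hy => rw [map_add, pairing_add_left, pairing_add_left, hx, hy]
  | single a s =>
    induction w using Finsupp.induction_linear with
    | zero => simp [pairing_zero_right]
    | add x y hx hy => rw [map_add, pairing_add_right, pairing_add_right, hx, hy]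
    | single b t =>
      have e : (Finsupp.single a s : A →₀ S) = (op s) • Finsupp.single a (1 : S) := by simp
      have e' : (Finsupp.single b t : A →₀ S) = (op t) • Finsupp.single b (1 : S) := by simp
      have h' := h a b
      rw [pairing_single_right, pairing_single_left] at h' ⊢
      rw [e, e', map_smul, map_smul]
      simp only [Finsupp.smul_apply, op_smul_eq_mul, star_mul, mul_one, star_one, one_mul] at h' ⊢
      rw [← h', mul_assoc]

/-- The diagonal operator, as an adjointable operator. -/
noncomputable def diagOp (d : A → S) : Op S A :=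
  ⟨(diagEnd d, op (diagEnd (star d))), by
    apply pairing_end_ext
    intro a b
    classical
    simp only [unop_op, diagEnd_single, pairing_single_right, pairing_single_left]
    by_cases h : a = b
    · subst h; simp
    · simp [Finsupp.single_eq_of_ne h, Finsupp.single_eq_of_ne (Ne.symm h)]⟩

@[simp] theorem diagOp_fn (d : A → S) (a : A) (s : S) :
    (diagOp d).fn (Finsupp.single a s) = Finsupp.single a (d a * s) := diagEnd_single _ _ _

@[simp] theorem diagOp_ad (d : A → S) (a : A) (s : S) :
    (diagOp d).ad (Finsupp.single a s) = Finsupp.single a (star (d a) * s) :=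
  diagEnd_single (star d) a s

theorem diagOp_add (d e : A → S) : diagOp (d + e) = diagOp d + diagOp e := by
  apply Op.ext'; intro a; simp

theorem diagOp_mul (d e : A → S) : diagOp (d * e) = diagOp d * diagOp e := by
  apply Op.ext'; intro a; simp

theorem diagOp_zero : diagOp (0 : A → S) = 0 := by
  apply Op.ext'; intro a; simp

theorem diagOp_one : diagOp (1 : A → S) = 1 := by
  apply Op.ext'; intro a; simp

theorem diagOp_star (d : A → S) : diagOp (star d) = star (diagOp d) := by
  apply Op.ext'; intro a; simp

theorem diagOp_finRank (d : A → S) (F : Finset A) (h : ∀ a ∉ F, d a = 0) :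
    FinRank (diagOp d) := ⟨F, fun a ha => by simp [h a ha]⟩

open Classical in
/-- The corner embedding `s ↦ (s e_{aa}, 0)` of `S` into `D_A(S)`. -/
noncomputable def corner (S : Type*) [Ring S] [StarRing S] (A : Type*) (a : A) :
    S →⋆ₙ+* DD S A where
  toFun s := DD.mk (diagOp (Pi.single a s)) 0 (by
    rw [sub_zero]
    exact diagOp_finRank _ {a} (fun b hb => by
      rw [Finset.mem_singleton] at hb
      exact Pi.single_eq_of_ne (M := fun _ => S) hb s))
  map_mul' s t := DD.ext (by
    simp only [DD.fst_mk, DD.fst_mul]
    rw [← diagOp_mul, Pi.single_mul]) (by simp)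
  map_zero' := DD.ext (by
    simp only [DD.fst_mk, DD.fst_zero]
    rw [Pi.single_zero, diagOp_zero]) rfl
  map_add' s t := DD.ext (by
    simp only [DD.fst_mk, DD.fst_add]
    rw [← diagOp_add, Pi.single_add]) (by simp)
  map_star' s := DD.ext (by
    simp only [DD.fst_mk, DD.fst_star]
    rw [← diagOp_star, Pi.single_star]) (by simp)

open Classical in
theorem corner_fst (S : Type*) [Ring S] [StarRing S] (A : Type*) (a : A) (s : S) :
    (corner S A a s).fst = diagOp (Pi.single a s) := rfl

theorem corner_snd (S : Type*) [Ring S] [StarRing S] (A : Type*) (a : A) (s : S) :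
    (corner S A a s).snd = 0 := rfl

end Operators

end Pool.Agent.Y483
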