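import Pool.Agent.Y483.Homotopy
import Pool.Agent.Y483.Base

/-!
The rational homology of `N ⋊ Γ` for a group `N` with a support system indexed by `Γ`: every class
which dies in `Γ` comes from `N`.
-/

namespace Pool.Agent.Y483

open Finsupp Pointwise

variable {Γ N : Type} [Group Γ] [Group N] {φ : Γ →* MulAut N}

section Induced

variable {M : Type} [AddCommGroup M] [Module ℚ M]

/-- The representation `ℚ[Γ] ⊗ M` with the diagonal action. -/
noncomputable def indRep (ρ : Representation ℚ Γ M) : Representation ℚ Γ (Γ →₀ M) where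
  toFun g := lsum ℚ fun x => lsingle (g * x) ∘ₗ ρ g
  map_one' := by
    apply lhom_ext'
    intro x
    apply LinearMap.ext
    intro m
    simp
  map_mul' g h := by
    apply lhom_ext'
    intro x
    apply LinearMap.ext
    intro m
    simp [mul_assoc]

theorem indRep_single (ρ : Representation ℚ Γ M) (g x : Γ) (m : M) :
    indRep ρ g (single x m) = single (g * x) (ρ g m) := by
  simp [indRep]

/-- The sum of the coefficients, `ℚ[Γ] ⊗ M → M`. -/
noncomputable def augM (Γ : Type) (M : Type) [AddCommGroup M] [Module ℚ M] :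
    (Γ →₀ M) →ₗ[ℚ] M := lsum ℚ fun _ => LinearMap.id

theorem augM_single (x : Γ) (m : M) : augM Γ M (single x m) = m := by
  simp [augM]

theorem augM_ind (ρ : Representation ℚ Γ M) (g : Γ) (p : Γ →₀ M) :
    augM Γ M (indRep ρ g p) = ρ g (augM Γ M p) := by
  have h : (augM Γ M) ∘ₗ (indRep ρ g) = (ρ g) ∘ₗ (augM Γ M) := by
    apply lhom_ext'
    intro x
    apply LinearMap.ext
    intro m
    simp [indRep_single, augM_single]
  exact DFunLike.congr_fun h p

/-- The kernel of the augmentation. -/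
noncomputable abbrev Ker (Γ : Type) (M : Type) [AddCommGroup M] [Module ℚ M] := LinearMap.ker (augM Γ M)

/-- The representation on the kernel of the augmentation. -/
noncomputable def kerRep (ρ : Representation ℚ Γ M) : Representation ℚ Γ (Ker Γ M) where
  toFun g := (indRep ρ g).restrict (fun p hp => by
    rw [LinearMap.mem_ker] at *
    rw [augM_ind, hp, map_zero])
  map_one' := by
    apply LinearMap.ext
    intro p
    apply Subtype.ext
    simp
  map_mul' g h := by
    apply LinearMap.ext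
    intro p
    apply Subtype.ext
    simp

/-- The linear retraction of `ℚ[Γ] ⊗ M` onto the kernel of the augmentation. -/
noncomputable def retr (Γ : Type) [Group Γ] (M : Type) [AddCommGroup M] [Module ℚ M] :
    (Γ →₀ M) →ₗ[ℚ] Ker Γ M :=
  LinearMap.codRestrict (Ker Γ M) (LinearMap.id - (lsingle (1 : Γ)) ∘ₗ (augM Γ M)) (fun p => by
    rw [LinearMap.mem_ker, LinearMap.sub_apply, map_sub, LinearMap.comp_apply, lsingle_apply,
      augM_single, LinearMap.id_apply, sub_self])

theorem retr_subtype (p : Ker Γ M) : retr Γ M p.1 = p := by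
  apply Subtype.ext
  change p.1 - single 1 (augM Γ M p.1) = p.1
  rw [LinearMap.mem_ker.mp p.2]
  simp

/-- A chain killed by the augmentation comes from the kernel. -/
theorem lift_ker {X : Type*} (n : ℕ) (z : T n X (Γ →₀ M)) (hz : mp n id (augM Γ M) z = 0) :
    mp n id (Ker Γ M).subtype (mp n id (retr Γ M) z) = z := by
  have h : mp n id ((Ker Γ M).subtype) ∘ₗ mp n id (retr Γ M) =
      (LinearMap.id : T n X (Γ →₀ M) →ₗ[ℚ] _) -
        (mp n id (lsingle (1 : Γ))) ∘ₗ (mp n id (augM Γ M)) := by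
    apply T_ext
    intro x p
    rw [LinearMap.comp_apply, mp_single, mp_single, LinearMap.sub_apply, LinearMap.comp_apply,
      mp_single, mp_single, LinearMap.id_apply]
    change single x (p - single 1 (augM Γ M p)) = _
    rw [single_sub]
    rfl
  have h2 := DFunLike.congr_fun h z
  rw [LinearMap.comp_apply, LinearMap.sub_apply, LinearMap.comp_apply, hz, map_zero, sub_zero,
    LinearMap.id_apply] at h2
  exact h2

end Induced

section Chains

variable {M : Type} [AddCommGroup M] [Module ℚ M]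

/-- The representation of `N ⋊ Γ` through the projection to `Γ`. -/
noncomputable abbrev resW (φ : Γ →* MulAut N) (ρ : Representation ℚ Γ M) :
    Representation ℚ (N ⋊[φ] Γ) M := ρ.comp SemidirectProduct.rightHom

/-- The trivial representation. -/
noncomputable abbrev trivR (N : Type) [Group N] (M : Type) [AddCommGroup M] [Module ℚ M] :
    Representation ℚ N M := (1 : N →* (M →ₗ[ℚ] M))

/-- The action of `γ` on chains of `N`. -/
noncomputable def act (φ : Γ →* MulAut N) (ρ : Representation ℚ Γ M) (n : ℕ) (γ : Γ) :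
    T n N M →ₗ[ℚ] T n N M := mp n (φ γ) (ρ γ)

/-- The inclusion of chains of `N` in chains of `N ⋊ Γ`. -/
noncomputable def inc (φ : Γ →* MulAut N) (n : ℕ) : T n N M →ₗ[ℚ] T n (N ⋊[φ] Γ) M :=
  mp n SemidirectProduct.inl LinearMap.id

theorem dd_act (ρ : Representation ℚ Γ M) (n : ℕ) (γ : Γ) (z : T (n + 1) N M) :
    dd (trivR N M) n (act φ ρ (n + 1) γ z) = act φ ρ n γ (dd (trivR N M) n z) := by
  exact dd_mp (ρ := trivR N M) (τ := trivR N M) (φ γ).toMonoidHom (ρ γ) (fun _ _ => rfl) n z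

theorem dd_inc (ρ : Representation ℚ Γ M) (n : ℕ) (z : T (n + 1) N M) :
    dd (resW φ ρ) n (inc φ (n + 1) z) = inc φ n (dd (trivR N M) n z) := by
  apply dd_mp (ρ := trivR N M) (τ := resW φ ρ) SemidirectProduct.inl LinearMap.id
  intro g m
  simp

theorem cyc_inc (ρ : Representation ℚ Γ M) (n : ℕ) (z : T n N M) (hz : Cyc (trivR N M) n z) :
    Cyc (resW φ ρ) n (inc φ n z) := by
  apply cyc_mp (ρ := trivR N M) (τ := resW φ ρ) SemidirectProduct.inl LinearMap.id _ n z hz
  intro g m
  simp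

/-- The action of `Γ` on the homology of `N` becomes trivial in `N ⋊ Γ`. -/
theorem inc_act (ρ : Representation ℚ Γ M) (n : ℕ) (γ : Γ) (z : T n N M)
    (hz : Cyc (trivR N M) n z) :
    inc φ n (act φ ρ n γ z) - inc φ n z ∈ LinearMap.range (dd (resW φ ρ) n) := by
  have h := plain (ρ := trivR N M) (τ := resW φ ρ) (SemidirectProduct.inl : N →* N ⋊[φ] Γ)
    LinearMap.id (fun g m => by simp) (SemidirectProduct.inr γ)⁻¹ n z hz
  have e : inc φ n (act φ ρ n γ z) = mp n (fun x => ((SemidirectProduct.inr γ)⁻¹)⁻¹ *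
      (SemidirectProduct.inl x : N ⋊[φ] Γ) * (SemidirectProduct.inr γ)⁻¹)
      (((resW φ ρ) ((SemidirectProduct.inr γ)⁻¹)⁻¹) ∘ₗ LinearMap.id) z := by
    unfold inc act
    rw [mp_mp]
    congr 2
    · funext x
      simp only [Function.comp_apply, inv_inv]
      rw [← map_inv]
      exact SemidirectProduct.inl_aut γ x
    · apply LinearMap.ext
      intro m
      simp
  rw [e]
  exact h

/-- The operator `([w] ⊗ (γ ⊗ m)) ↦` the corresponding chain of `N`. -/
noncomputable def bHat (φ : Γ →* MulAut N) (ρ : Representation ℚ Γ M) (n : ℕ) :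
    T n (N ⋊[φ] Γ) (Γ →₀ M) →ₗ[ℚ] T n N M :=
  lsum ℚ fun w => lsum ℚ fun γ =>
    (lsingle (fun k : Fin n => φ γ⁻¹ ((Fin.partialProd w k.castSucc).left⁻¹ *
      (Fin.partialProd w k.succ).left))) ∘ₗ (ρ γ⁻¹)

theorem bHat_single (ρ : Representation ℚ Γ M) (n : ℕ) (w : Fin n → N ⋊[φ] Γ) (γ : Γ) (m : M) :
    bHat φ ρ n (single w (single γ m)) =
      single (fun k : Fin n => φ γ⁻¹ ((Fin.partialProd w k.castSucc).left⁻¹ *
        (Fin.partialProd w k.succ).left)) (ρ γ⁻¹ m) := by
  unfold bHat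
  rw [Finsupp.lsum_single, Finsupp.lsum_single]
  rfl

/-- The inclusion of chains of `N` with coefficients in `M`, at the identity component. -/
noncomputable def inc1 (φ : Γ →* MulAut N) (n : ℕ) :
    T n N M →ₗ[ℚ] T n (N ⋊[φ] Γ) (Γ →₀ M) :=
  mp n SemidirectProduct.inl (lsingle (1 : Γ))

theorem inc1_injective (n : ℕ) : Function.Injective (inc1 (M := M) φ n) :=
  mp_injective n SemidirectProduct.inl_injective (Finsupp.single_injective (1 : Γ))

theorem dd_inc1 (ρ : Representation ℚ Γ M) (n : ℕ) (z : T (n + 1) N M) :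
    dd (resW φ (indRep ρ)) n (inc1 φ (n + 1) z) = inc1 φ n (dd (trivR N M) n z) := by
  apply dd_mp (ρ := trivR N M) (τ := resW φ (indRep ρ)) SemidirectProduct.inl (lsingle (1 : Γ))
  intro g m
  simp

/-- The chain map `inc1 ∘ bHat` written through homogeneous chains. -/
theorem inc1_bHat (ρ : Representation ℚ Γ M) (n : ℕ) (z : T n (N ⋊[φ] Γ) (Γ →₀ M)) :
    inc1 φ n (bHat φ ρ n z) = pp (resW φ (indRep ρ)) n
      (comb (n + 1) (fun γ => mp (n + 1) (fun w : N ⋊[φ] Γ => (⟨w.left, γ⟩ : N ⋊[φ] Γ))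
        (lsingle γ)) (sg n z)) := by
  have h : (inc1 φ n) ∘ₗ (bHat φ ρ n) = (pp (resW φ (indRep ρ)) n) ∘ₗ
      (comb (n + 1) (fun γ => mp (n + 1) (fun w : N ⋊[φ] Γ => (⟨w.left, γ⟩ : N ⋊[φ] Γ))
        (lsingle γ))) ∘ₗ (sg n) := by
    apply TI_ext
    intro w γ m
    rw [LinearMap.comp_apply, bHat_single, inc1, mp_single, LinearMap.comp_apply,
      LinearMap.comp_apply, sg_single, comb_single, mp_single, pp_single]
    congr 1
    · funext k
      simp only [Function.comp_apply]
      apply SemidirectProduct.ext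
      · simp
      · simp
    · simp [indRep_single]
  exact DFunLike.congr_fun h z

/-- The chain map `inc1 ∘ bHat` is homotopic to the identity. -/
theorem inc1_bHat_homotopic (ρ : Representation ℚ Γ M) (n : ℕ) (z : T n (N ⋊[φ] Γ) (Γ →₀ M))
    (hz : Cyc (resW φ (indRep ρ)) n z) :
    z - inc1 φ n (bHat φ ρ n z) ∈ LinearMap.range (dd (resW φ (indRep ρ)) n) := by
  have h := family (G := N ⋊[φ] Γ) (H := N ⋊[φ] Γ) (τ := resW φ (indRep ρ)) (resW φ (indRep ρ))
    (fun w γ => w.right * γ) (fun w => ρ w.right)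
    (fun w γ m => by simp [indRep_single]) (MonoidHom.id _)
    (fun γ w => (⟨w.left, γ⟩ : N ⋊[φ] Γ)) (fun _ w => w) (fun γ => lsingle γ)
    (fun w γ x => by
      apply SemidirectProduct.ext
      · simp
      · simp)
    (fun w γ x => rfl)
    (fun w γ m => by simp [indRep_single]) n z hz
  rw [← inc1_bHat] at h
  have e : pp (resW φ (indRep ρ)) n (comb (n + 1)
      (fun γ => mp (n + 1) (fun w : N ⋊[φ] Γ => w) (lsingle γ)) (sg n z)) = z := by
    have e1 : comb (n + 1) (fun γ : Γ => mp (M := M) (n + 1) (fun w : N ⋊[φ] Γ => w) (lsingle γ)) =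
        LinearMap.id := by
      apply TI_ext
      intro x γ m
      rw [comb_single, mp_single]
      rfl
    rw [e1, LinearMap.id_apply, pp_sg]
  rw [e] at h
  exact h

theorem dd_bHat (ρ : Representation ℚ Γ M) (n : ℕ) (z : T (n + 1) (N ⋊[φ] Γ) (Γ →₀ M)) :
    dd (trivR N M) n (bHat φ ρ (n + 1) z) = bHat φ ρ n (dd (resW φ (indRep ρ)) n z) := by
  apply inc1_injective (φ := φ) n
  rw [← dd_inc1 ρ, inc1_bHat, inc1_bHat, ← pp_bd, comb_comp]
  -- both sides are given by the same family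
  have h1 : (comb (n + 2) (fun γ => (bd (n + 1)) ∘ₗ (mp (n + 2)
      (fun w : N ⋊[φ] Γ => (⟨w.left, γ⟩ : N ⋊[φ] Γ)) (lsingle γ))) (sg (n + 1) z) :
        T (n + 1) (N ⋊[φ] Γ) (Γ →₀ M)) =
      comb (n + 1) (fun γ => mp (n + 1) (fun w : N ⋊[φ] Γ => (⟨w.left, γ⟩ : N ⋊[φ] Γ))
        (lsingle γ)) (bd (n + 1) (sg (n + 1) z)) := by
    rw [comb_bd]
    congr 2
    funext γ
    apply LinearMap.ext
    intro y
    exact bd_mp _ _ _ _
  rw [h1]
  -- invariance under translations
  have h2 := factor (resW φ (indRep ρ)) n ((pp (resW φ (indRep ρ)) n) ∘ₗ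
      (comb (n + 1) (fun γ => mp (n + 1) (fun w : N ⋊[φ] Γ => (⟨w.left, γ⟩ : N ⋊[φ] Γ))
        (lsingle γ)))) ?_ (bd (n + 1) (sg (n + 1) z))
  · rw [LinearMap.comp_apply, LinearMap.comp_apply, pp_bd, pp_sg] at h2
    exact h2
  · intro g y
    have h3 : (pp (resW φ (indRep ρ)) n) ∘ₗ
        (comb (n + 1) (fun γ => mp (n + 1) (fun w : N ⋊[φ] Γ => (⟨w.left, γ⟩ : N ⋊[φ] Γ))
          (lsingle γ))) ∘ₗ (tr (resW φ (indRep ρ)) (n + 1) g) =
        (pp (resW φ (indRep ρ)) n) ∘ₗ
        (comb (n + 1) (fun γ => mp (n + 1) (fun w : N ⋊[φ] Γ => (⟨w.left, γ⟩ : N ⋊[φ] Γ))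
          (lsingle γ))) := by
      apply TI_ext
      intro x γ m
      rw [LinearMap.comp_apply, LinearMap.comp_apply, LinearMap.comp_apply, tr, mp_single]
      have e1 : (resW φ (indRep ρ)) g (single γ m) = single (g.right * γ) (ρ g.right m) :=
        indRep_single ρ g.right γ m
      rw [e1, comb_single, comb_single, mp_single, mp_single, lsingle_apply, lsingle_apply]
      have e2 : (single ((fun w : N ⋊[φ] Γ => (⟨w.left, g.right * γ⟩ : N ⋊[φ] Γ)) ∘
          (fun x => g * x) ∘ x) (single (g.right * γ) (ρ g.right m)) :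
            T (n + 1) (N ⋊[φ] Γ) (Γ →₀ M)) =
          tr (resW φ (indRep ρ)) (n + 1) g (single ((fun w : N ⋊[φ] Γ =>
            (⟨w.left, γ⟩ : N ⋊[φ] Γ)) ∘ x) (single γ m)) := by
        rw [tr, mp_single, e1]
        rfl
      rw [e2, pp_tr]
    exact DFunLike.congr_fun h3 y

end Chains

end Pool.Agent.Y483
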