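import Pool.Agent.Y483.Form

/-!
Homology with coefficients in the permutation module of a transitive action.
-/

namespace Pool.Agent.Y483

open Finsupp

section Perm

variable {H : Type} [Group H] {A : Type}

/-- The permutation representation on `ℚ[A]`. -/
noncomputable def permRep (σ : H →* Equiv.Perm A) : Representation ℚ H (A →₀ ℚ) where
  toFun h := lsum ℚ fun a => lsingle (σ h a)
  map_one' := by
    apply lhom_ext'
    intro a
    apply LinearMap.ext
    intro r
    simp
  map_mul' g h := by
    apply lhom_ext'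
    intro a
    apply LinearMap.ext
    intro r
    simp

@[simp] theorem permRep_single (σ : H →* Equiv.Perm A) (h : H) (a : A) (r : ℚ) :
    permRep σ h (single a r) = single (σ h a) r := by
  simp [permRep]

/-- The sum of the coefficients. -/
noncomputable def sumC (A : Type) : (A →₀ ℚ) →ₗ[ℚ] ℚ := lsum ℚ fun _ => LinearMap.id

@[simp] theorem sumC_single (a : A) (r : ℚ) : sumC A (single a r) = r := by
  simp [sumC]

theorem sumC_permRep (σ : H →* Equiv.Perm A) (h : H) (m : A →₀ ℚ) :
    sumC A (permRep σ h m) = sumC A m := by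
  have e : (sumC A) ∘ₗ (permRep σ h) = sumC A := by
    apply lhom_ext'
    intro a
    apply LinearMap.ext
    intro r
    simp
  exact DFunLike.congr_fun e m

/-- A cycle with coefficients in the permutation module of a transitive action comes from the
stabiliser of a point. -/
theorem shapiro {K : Type} [Group K] (σ : H →* Equiv.Perm A) (a₀ : A)
    (ht : ∀ a, ∃ h, σ h a₀ = a) (i : K →* H) (hi : Function.Injective i)
    (hstab : ∀ k, σ (i k) a₀ = a₀) (hex : ∀ h, σ h a₀ = a₀ → ∃ k, i k = h)
    (τ : Representation ℚ K ℚ) (hτ : ∀ k, τ k = LinearMap.id) (q : ℕ)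
    (z : T q H (A →₀ ℚ)) (hz : Cyc (permRep σ) q z) :
    ∃ y : T q K ℚ, Cyc τ q y ∧ z - mp q i (lsingle a₀) y ∈ LinearMap.range (dd (permRep σ) q) := by
  classical
  choose t ht using ht
  let F : A → H → H := fun a h => h * t ((σ h)⁻¹ a)
  have hF : ∀ a h, σ (F a h) a₀ = a := by
    intro a h
    simp only [F, map_mul, Equiv.Perm.mul_apply, ht]
    exact Equiv.apply_symm_apply _ _
  have hFeq : ∀ g a h, F (σ g a) (g * h) = g * F a h := by
    intro g a h
    simp only [F, map_mul, mul_inv_rev, Equiv.Perm.mul_apply, mul_assoc]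
    congr 4
    exact Equiv.symm_apply_apply _ _
  let κ : H → K := fun h => if hh : σ h a₀ = a₀ then (hex h hh).choose else 1
  have hκ : ∀ h, σ h a₀ = a₀ → i (κ h) = h := by
    intro h hh
    simp only [κ, dif_pos hh]
    exact (hex h hh).choose_spec
  let Y : T q H (A →₀ ℚ) →ₗ[ℚ] T q K ℚ := lsum ℚ fun w => lsum ℚ fun a =>
    lsingle (fun j : Fin q => κ ((F a (Fin.partialProd w j.castSucc))⁻¹ *
      F a (Fin.partialProd w j.succ)))
  have h := family (G := H) (H := H) (τ := permRep σ) (permRep σ) (fun g a => σ g a)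
    (fun _ => LinearMap.id) (fun g a m => permRep_single σ g a m) (MonoidHom.id H)
    (fun a h => F a h) (fun _ h => h) (fun a => lsingle a)
    (fun g a x => hFeq g a x) (fun g a x => rfl)
    (fun g a m => (permRep_single σ g a m).symm) q z hz
  have e : pp (permRep σ) q (comb (q + 1)
      (fun a => mp (q + 1) (fun h : H => h) (lsingle a)) (sg q z)) = z := by
    have e1 : comb (q + 1) (fun a : A => mp (M := ℚ) (q + 1) (fun h : H => h) (lsingle a)) =
        LinearMap.id := by
      apply TI_ext
      intro x a m
      rw [comb_single, mp_single]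
      rfl
    rw [e1, LinearMap.id_apply, pp_sg]
  have e2 : pp (permRep σ) q (comb (q + 1)
      (fun a => mp (q + 1) (fun h : H => F a h) (lsingle a)) (sg q z)) =
        mp q i (lsingle a₀) (Y z) := by
    have h2 : (pp (permRep σ) q) ∘ₗ (comb (q + 1)
      (fun a => mp (q + 1) (fun h : H => F a h) (lsingle a))) ∘ₗ (sg q) =
        (mp q i (lsingle a₀)) ∘ₗ Y := by
      apply TI_ext
      intro w a r
      have e3 : Y (single w (single a r)) = single (fun j : Fin q =>
          κ ((F a (Fin.partialProd w j.castSucc))⁻¹ * F a (Fin.partialProd w j.succ))) r := by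
        simp only [Y]
        rw [Finsupp.lsum_single, Finsupp.lsum_single]
        rfl
      rw [LinearMap.comp_apply, LinearMap.comp_apply, LinearMap.comp_apply, sg_single, comb_single,
        mp_single, pp_single, e3, mp_single, lsingle_apply, lsingle_apply, permRep_single]
      have e4 : (σ ((F a ∘ Fin.partialProd w) 0)⁻¹) a = a₀ := by
        rw [map_inv, Equiv.Perm.inv_eq_iff_eq]
        exact (hF a _).symm
      have e4' : (σ (((fun h : H => F a h) ∘ Fin.partialProd w) 0)⁻¹) a = a₀ := e4
      rw [e4']
      congr 1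
      funext j
      simp only [Function.comp_apply]
      rw [hκ]
      rw [map_mul, map_inv, Equiv.Perm.mul_apply, hF, Equiv.Perm.inv_eq_iff_eq, hF]
    exact DFunLike.congr_fun h2 z
  rw [e, e2] at h
  refine ⟨Y z, ?_, h⟩
  cases q with
  | zero => exact Cyc.zero _ _
  | succ q =>
    rw [cyc_succ] at *
    apply mp_injective (M := ℚ) (N := A →₀ ℚ) q hi (φ := lsingle a₀) (Finsupp.single_injective a₀)
    rw [← dd_mp (ρ := τ) (τ := permRep σ) i (lsingle a₀) (fun g m => by
      rw [hτ, lsingle_apply, lsingle_apply, permRep_single, hstab]; rfl), map_zero]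
    obtain ⟨v, hv⟩ := h
    have h3 : mp (q + 1) i (lsingle a₀) (Y z) = z - dd (permRep σ) (q + 1) v := by
      rw [hv, sub_sub_cancel]
    rw [h3, map_sub, hz, dd_dd, sub_self]

end Perm

end Pool.Agent.Y483
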