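import Pool.Agent.Y483.Semi

/-!
The averaging operator on the chains of a group with a support system.
-/

namespace Pool.Agent.Y483

open Finsupp Pointwise

variable {Γ N : Type} [Group Γ] [Group N] {φ : Γ →* MulAut N} (ss : SupportSystem φ)

section Defs

variable {M : Type} [AddCommGroup M] [Module ℚ M]

theorem act_act (ρ : Representation ℚ Γ M) (n : ℕ) (a b : Γ) (z : T n N M) :
    act φ ρ n a (act φ ρ n b z) = act φ ρ n (a * b) z := by
  unfold act
  rw [mp_mp]
  congr 2
  · funext x
    simp
  · rw [map_mul]; rfl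

theorem act_one (ρ : Representation ℚ Γ M) (n : ℕ) (z : T n N M) : act φ ρ n 1 z = z := by
  unfold act
  rw [map_one, map_one]
  exact mp_id n z

/-- The retraction to the part supported on `S`, on chains. -/
noncomputable def eC (n : ℕ) (S : Set Γ) : T n N M →ₗ[ℚ] T n N M :=
  mp n (ss.e S) LinearMap.id

theorem eC_eC (n : ℕ) (S S' : Set Γ) (z : T n N M) :
    eC ss n S (eC ss n S' z) = eC ss n (S ∩ S') z := by
  unfold eC
  rw [mp_mp]
  congr 2
  funext x
  exact ss.inter S S' x

theorem eC_mono (n : ℕ) {S S' : Set Γ} (h : S ⊆ S') {z : T n N M} (hz : eC ss n S z = z) :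
    eC ss n S' z = z := by
  rw [← hz, eC_eC, Set.inter_eq_right.mpr h]

theorem exists_supp (n : ℕ) (z : T n N M) : ∃ F : Finset Γ, eC ss n (F : Set Γ) z = z := by
  classical
  induction z using Finsupp.induction_linear with
  | zero => exact ⟨∅, by simp⟩
  | add a b ha hb =>
    obtain ⟨F, hF⟩ := ha
    obtain ⟨F', hF'⟩ := hb
    refine ⟨F ∪ F', ?_⟩
    rw [map_add, eC_mono ss n (by simp) hF, eC_mono ss n (by simp) hF']
  | single x m =>
    have h : ∀ i : Fin n, ∃ S : Finset Γ, ss.e (S : Set Γ) (x i) = x i := by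
      intro i
      obtain ⟨S, hS, h⟩ := ss.finite (x i)
      exact ⟨hS.toFinset, by simpa using h⟩
    choose S hS using h
    refine ⟨Finset.univ.biUnion S, ?_⟩
    unfold eC
    rw [mp_single]
    congr 1
    funext i
    simp only [Function.comp_apply]
    have hsub : ((S i : Finset Γ) : Set Γ) ⊆ ((Finset.univ.biUnion S : Finset Γ) : Set Γ) := by
      rw [Finset.coe_subset]
      exact Finset.subset_biUnion_of_mem S (Finset.mem_univ i)
    rw [← hS i, ss.inter, Set.inter_eq_right.mpr hsub]

open Classical in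
/-- The Möbius components. -/
noncomputable def kap (n : ℕ) (S : Finset Γ) : T n N M →ₗ[ℚ] T n N M :=
  ∑ U ∈ S.powerset, ((-1 : ℤ) ^ (S.card - U.card)) • eC ss n (U : Set Γ)

open Classical in
theorem kap_apply (n : ℕ) (S : Finset Γ) (z : T n N M) :
    kap ss n S z = moeb (fun U : Finset Γ => eC ss n (U : Set Γ) z) S := by
  unfold kap moeb
  rw [LinearMap.sum_apply]
  rfl

open Classical in
theorem kap_eq_zero (n : ℕ) {F S : Finset Γ} {z : T n N M} (hz : eC ss n (F : Set Γ) z = z)
    (hS : ¬ S ⊆ F) : kap ss n S z = 0 := by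
  rw [kap_apply]
  apply moeb_eq_zero (F := F) _ hS
  intro U
  conv_lhs => rw [← hz, eC_eC]
  rw [Finset.coe_inter]

open Classical in
theorem kap_sum (n : ℕ) {F : Finset Γ} {z : T n N M} (hz : eC ss n (F : Set Γ) z = z) :
    ∑ S ∈ F.powerset, kap ss n S z = z := by
  have h := moeb_sum (fun U : Finset Γ => eC ss n (U : Set Γ) z) F
  simp_rw [kap_apply]
  rw [h, hz]

open Classical in
/-- The averaging operator for the subsets of `F`. -/
noncomputable def avg (ρ : Representation ℚ Γ M) (n : ℕ) (F : Finset Γ) :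
    T n N M →ₗ[ℚ] T n N M :=
  ∑ S ∈ F.powerset.filter (fun S => S.Nonempty),
    ((S.card : ℚ)⁻¹) • ∑ s ∈ S, (act φ ρ n s⁻¹) ∘ₗ (kap ss n S)

open Classical in
theorem avg_apply (ρ : Representation ℚ Γ M) (n : ℕ) (F : Finset Γ) (z : T n N M) :
    avg ss ρ n F z = ∑ S ∈ F.powerset.filter (fun S => S.Nonempty),
      ((S.card : ℚ)⁻¹) • ∑ s ∈ S, act φ ρ n s⁻¹ (kap ss n S z) := by
  unfold avg
  rw [LinearMap.sum_apply]
  apply Finset.sum_congr rfl
  intro S _
  rw [LinearMap.smul_apply, LinearMap.sum_apply]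
  rfl

open Classical in
theorem avg_mono (ρ : Representation ℚ Γ M) (n : ℕ) {F F' : Finset Γ} (h : F ⊆ F') {z : T n N M}
    (hz : eC ss n (F : Set Γ) z = z) : avg ss ρ n F' z = avg ss ρ n F z := by
  rw [avg_apply, avg_apply]
  symm
  apply Finset.sum_subset
  · intro S hS
    rw [Finset.mem_filter, Finset.mem_powerset] at *
    exact ⟨hS.1.trans h, hS.2⟩
  · intro S hS hS'
    rw [Finset.mem_filter, Finset.mem_powerset] at *
    have h1 : ¬ S ⊆ F := fun h2 => hS' ⟨h2, hS.2⟩
    rw [kap_eq_zero ss n hz h1]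
    simp

open Classical in
theorem avg_eq (ρ : Representation ℚ Γ M) (n : ℕ) {F F' : Finset Γ} {z : T n N M}
    (hz : eC ss n (F : Set Γ) z = z) (hz' : eC ss n (F' : Set Γ) z = z) :
    avg ss ρ n F z = avg ss ρ n F' z := by
  rw [← avg_mono ss ρ n (Finset.subset_union_left (s₂ := F')) hz,
    ← avg_mono ss ρ n (Finset.subset_union_right (s₁ := F)) hz']

open Classical in
/-- The averaging operator. -/
noncomputable def theta (ρ : Representation ℚ Γ M) (n : ℕ) : T n N M →ₗ[ℚ] T n N M where
  toFun z := avg ss ρ n (exists_supp ss n z).choose z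
  map_add' a b := by
    have ha := (exists_supp ss n a).choose_spec
    have hb := (exists_supp ss n b).choose_spec
    have hab := (exists_supp ss n (a + b)).choose_spec
    set F := (exists_supp ss n a).choose
    set F' := (exists_supp ss n b).choose
    have ha' : eC ss n ((F ∪ F' : Finset Γ) : Set Γ) a = a := eC_mono ss n (by simp) ha
    have hb' : eC ss n ((F ∪ F' : Finset Γ) : Set Γ) b = b := eC_mono ss n (by simp) hb
    have hab' : eC ss n ((F ∪ F' : Finset Γ) : Set Γ) (a + b) = a + b := by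
      rw [map_add, ha', hb']
    rw [avg_eq ss ρ n hab hab', avg_eq ss ρ n ha ha', avg_eq ss ρ n hb hb', map_add]
  map_smul' c a := by
    have ha := (exists_supp ss n a).choose_spec
    have hca := (exists_supp ss n (c • a)).choose_spec
    have hca' : eC ss n (((exists_supp ss n a).choose : Finset Γ) : Set Γ) (c • a) = c • a := by
      rw [map_smul, ha]
    rw [avg_eq ss ρ n hca hca', map_smul]
    rfl

theorem theta_eq (ρ : Representation ℚ Γ M) (n : ℕ) {F : Finset Γ} {z : T n N M}
    (hz : eC ss n (F : Set Γ) z = z) : theta ss ρ n z = avg ss ρ n F z :=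
  avg_eq ss ρ n (exists_supp ss n z).choose_spec hz

theorem eC_act (ρ : Representation ℚ Γ M) (n : ℕ) (γ : Γ) (S : Set Γ) (z : T n N M) :
    eC ss n (γ • S) (act φ ρ n γ z) = act φ ρ n γ (eC ss n S z) := by
  unfold eC act
  rw [mp_mp, mp_mp]
  congr 2
  funext x
  exact (ss.equivariant γ S x).symm

open Classical in
theorem kap_act (ρ : Representation ℚ Γ M) (n : ℕ) (γ : Γ) (S : Finset Γ) (z : T n N M) :
    kap ss n (γ • S) (act φ ρ n γ z) = act φ ρ n γ (kap ss n S z) := by
  rw [kap_apply, kap_apply, moeb_smul]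
  unfold moeb
  rw [map_sum]
  apply Finset.sum_congr rfl
  intro U _
  rw [map_zsmul, Finset.coe_smul_finset, eC_act]

open Classical in
/-- The averaging operator is invariant under the action of `Γ`. -/
theorem theta_act (ρ : Representation ℚ Γ M) (n : ℕ) (γ : Γ) (z : T n N M) :
    theta ss ρ n (act φ ρ n γ z) = theta ss ρ n z := by
  obtain ⟨F, hF⟩ := exists_supp ss n z
  have hF' : eC ss n ((γ • F : Finset Γ) : Set Γ) (act φ ρ n γ z) = act φ ρ n γ z := by
    rw [Finset.coe_smul_finset, eC_act, hF]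
  rw [theta_eq ss ρ n hF, theta_eq ss ρ n hF', avg_apply, avg_apply]
  symm
  have h1 : ∀ S ∈ F.powerset.filter (fun S => S.Nonempty),
      γ • S ∈ (γ • F).powerset.filter (fun S => S.Nonempty) := by
    intro S hS
    rw [Finset.mem_filter, Finset.mem_powerset] at *
    exact ⟨Finset.smul_finset_subset_smul_finset hS.1, hS.2.smul_finset⟩
  have h2 : ∀ S ∈ (γ • F).powerset.filter (fun S => S.Nonempty),
      γ⁻¹ • S ∈ F.powerset.filter (fun S => S.Nonempty) := by
    intro S hS
    rw [Finset.mem_filter, Finset.mem_powerset] at *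
    have h3 : γ⁻¹ • S ⊆ γ⁻¹ • (γ • F) := Finset.smul_finset_subset_smul_finset hS.1
    exact ⟨by simpa using h3, hS.2.smul_finset⟩
  apply Finset.sum_bij' (fun S _ => γ • S) (fun S _ => γ⁻¹ • S) h1 h2
  · intro S _; simp
  · intro S _; simp
  · intro S _
    rw [Finset.card_smul_finset]
    congr 1
    rw [kap_act]
    apply Finset.sum_bij' (fun s _ => γ * s) (fun s _ => γ⁻¹ * s)
    · intro s hs
      exact Finset.smul_mem_smul_finset hs
    · intro s hs
      obtain ⟨t, ht, rfl⟩ := Finset.mem_smul_finset.mp hs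
      simpa using ht
    · intro s _; simp
    · intro s _; simp
    · intro s _
      rw [act_act]
      congr 2
      group

theorem dd_eC (n : ℕ) (S : Set Γ) (z : T (n + 1) N M) :
    dd (trivR N M) n (eC ss (n + 1) S z) = eC ss n S (dd (trivR N M) n z) :=
  dd_mp (ρ := trivR N M) (τ := trivR N M) (ss.e S) LinearMap.id (fun _ _ => rfl) n z

open Classical in
theorem dd_kap (n : ℕ) (S : Finset Γ) (z : T (n + 1) N M) :
    dd (trivR N M) n (kap ss (n + 1) S z) = kap ss n S (dd (trivR N M) n z) := by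
  rw [kap_apply, kap_apply]
  unfold moeb
  rw [map_sum]
  apply Finset.sum_congr rfl
  intro U _
  rw [map_zsmul, dd_eC]

open Classical in
theorem theta_dd (ρ : Representation ℚ Γ M) (n : ℕ) (z : T (n + 1) N M) :
    theta ss ρ n (dd (trivR N M) n z) = dd (trivR N M) n (theta ss ρ (n + 1) z) := by
  obtain ⟨F, hF⟩ := exists_supp ss (n + 1) z
  have hF' : eC ss n (F : Set Γ) (dd (trivR N M) n z) = dd (trivR N M) n z := by
    rw [← dd_eC, hF]
  rw [theta_eq ss ρ n hF', theta_eq ss ρ (n + 1) hF, avg_apply, avg_apply, map_sum]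
  apply Finset.sum_congr rfl
  intro S _
  rw [map_smul, map_sum]
  congr 1
  apply Finset.sum_congr rfl
  intro s _
  rw [dd_act, dd_kap]

open Classical in
/-- The averaging operator is natural in the coefficients. -/
theorem theta_coef {M' : Type} [AddCommGroup M'] [Module ℚ M'] (ρ : Representation ℚ Γ M)
    (ρ' : Representation ℚ Γ M') (χ : M →ₗ[ℚ] M') (hχ : ∀ g m, χ (ρ g m) = ρ' g (χ m)) (n : ℕ)
    (z : T n N M) : theta ss ρ' n (mp n id χ z) = mp n id χ (theta ss ρ n z) := by
  have he : ∀ (S : Set Γ) (y : T n N M), eC ss n S (mp n id χ y) = mp n id χ (eC ss n S y) := by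
    intro S y
    unfold eC
    rw [mp_mp, mp_mp]
    rfl
  obtain ⟨F, hF⟩ := exists_supp ss n z
  have hF' : eC ss n (F : Set Γ) (mp n id χ z) = mp n id χ z := by rw [he, hF]
  rw [theta_eq ss ρ' n hF', theta_eq ss ρ n hF, avg_apply, avg_apply, map_sum]
  apply Finset.sum_congr rfl
  intro S _
  rw [map_smul, map_sum]
  congr 1
  apply Finset.sum_congr rfl
  intro s _
  have hk : kap ss n S (mp n id χ z) = mp n id χ (kap ss n S z) := by
    rw [kap_apply, kap_apply]
    unfold moeb
    rw [map_sum]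
    apply Finset.sum_congr rfl
    intro U _
    rw [map_zsmul]
    exact congrArg _ (he _ z)
  rw [hk]
  unfold act
  rw [mp_mp, mp_mp]
  congr 2
  apply LinearMap.ext
  intro m
  exact (hχ _ m).symm

open Classical in
/-- In the semidirect product a cycle of positive degree is homologous to its average. -/
theorem theta_inc (ρ : Representation ℚ Γ M) (n : ℕ) (z : T (n + 1) N M)
    (hz : dd (trivR N M) n z = 0) :
    inc φ (n + 1) z - inc φ (n + 1) (theta ss ρ (n + 1) z) ∈
      LinearMap.range (dd (resW φ ρ) (n + 1)) := by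
  obtain ⟨F, hF⟩ := exists_supp ss (n + 1) z
  have hcyc : ∀ S : Finset Γ, Cyc (trivR N M) (n + 1) (kap ss (n + 1) S z) := by
    intro S
    rw [cyc_succ, dd_kap, hz, map_zero]
  -- the component of the empty set
  have h0 : inc φ (n + 1) (kap ss (n + 1) ∅ z) ∈ LinearMap.range (dd (resW φ ρ) (n + 1)) := by
    have e : kap ss (n + 1) ∅ z = mp (n + 1) (fun _ => (1 : N)) LinearMap.id z := by
      rw [kap_apply, moeb_empty]
      unfold eC
      congr 1
      congr 1
      funext x
      simpa using ss.empty x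
    rw [e]
    apply range_mp (ρ := trivR N M) (τ := resW φ ρ) SemidirectProduct.inl LinearMap.id
      (fun g m => by simp)
    exact one_range (trivR N M) (fun _ => rfl) (trivR N M) (fun _ => rfl) n z hz
  have hsum : z = kap ss (n + 1) ∅ z + ∑ S ∈ F.powerset.filter (fun S => S.Nonempty),
      kap ss (n + 1) S z := by
    conv_lhs => rw [← kap_sum ss (n + 1) hF]
    rw [← Finset.sum_filter_add_sum_filter_not F.powerset (fun S => S.Nonempty)]
    refine (add_comm _ _).trans ?_
    congr 1
    have : F.powerset.filter (fun S => ¬ S.Nonempty) = {∅} := by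
      ext S
      rw [Finset.mem_filter, Finset.mem_powerset, Finset.mem_singleton,
        Finset.not_nonempty_iff_eq_empty]
      constructor
      · exact fun h => h.2
      · intro h; subst h; exact ⟨Finset.empty_subset F, rfl⟩
    rw [this, Finset.sum_singleton]
  have hdiff : inc φ (n + 1) z - inc φ (n + 1) (theta ss ρ (n + 1) z) =
      inc φ (n + 1) (kap ss (n + 1) ∅ z) + ∑ S ∈ F.powerset.filter (fun S => S.Nonempty),
        ((S.card : ℚ)⁻¹) • ∑ s ∈ S, (inc φ (n + 1) (kap ss (n + 1) S z) -
          inc φ (n + 1) (act φ ρ (n + 1) s⁻¹ (kap ss (n + 1) S z))) := by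
    have e0 : inc φ (n + 1) z = inc φ (n + 1) (kap ss (n + 1) ∅ z) +
        ∑ S ∈ F.powerset.filter (fun S => S.Nonempty), inc φ (n + 1) (kap ss (n + 1) S z) := by
      conv_lhs => rw [hsum]
      rw [map_add, map_sum]
    rw [theta_eq ss ρ (n + 1) hF, avg_apply, e0, map_sum, add_sub_assoc,
      ← Finset.sum_sub_distrib]
    congr 1
    apply Finset.sum_congr rfl
    intro S hS
    rw [Finset.mem_filter] at hS
    have hne : (S.card : ℚ) ≠ 0 := by
      exact_mod_cast (Finset.card_pos.mpr hS.2).ne'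
    rw [map_smul, map_sum, Finset.sum_sub_distrib, smul_sub, Finset.sum_const,
      ← Nat.cast_smul_eq_nsmul ℚ, smul_smul, inv_mul_cancel₀ hne, one_smul]
  rw [hdiff]
  apply Submodule.add_mem _ h0
  apply Submodule.sum_mem
  intro S _
  apply Submodule.smul_mem
  apply Submodule.sum_mem
  intro s _
  have h := inc_act (φ := φ) ρ (n + 1) s⁻¹ (kap ss (n + 1) S z) (hcyc S)
  have h' := Submodule.neg_mem _ h
  rwa [neg_sub] at h'

/-- The averaging operator only sees the chain moved to the identity component. -/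
theorem theta_move (ρ : Representation ℚ Γ M) (n : ℕ) (z : T n N (Γ →₀ M)) :
    theta ss (indRep ρ) n z =
      theta ss (indRep ρ) n (mp n id (lsingle (1 : Γ)) (bHat φ ρ n (inc φ n z))) := by
  have h : theta ss (indRep ρ) n = (theta ss (indRep ρ) n) ∘ₗ
      (mp n id (lsingle (1 : Γ))) ∘ₗ (bHat φ ρ n) ∘ₗ (inc φ n) := by
    apply TI_ext
    intro x γ m
    rw [LinearMap.comp_apply, LinearMap.comp_apply, LinearMap.comp_apply]
    rw [← theta_act ss (indRep ρ) n γ⁻¹]
    congr 1
    unfold inc act
    rw [mp_single, mp_single, LinearMap.id_apply, bHat_single, mp_single, indRep_single]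
    congr 1
    · funext k
      have hP : ∀ j, (Fin.partialProd ((SemidirectProduct.inl : N →* N ⋊[φ] Γ) ∘ x) j) =
          SemidirectProduct.inl (Fin.partialProd x j) := by
        intro j
        induction j using Fin.induction with
        | zero => simp
        | succ i ih => rw [Fin.partialProd_succ, Fin.partialProd_succ, ih, map_mul]; rfl
      simp only [Function.comp_apply]
      rw [hP, hP, SemidirectProduct.left_inl, SemidirectProduct.left_inl,
        Fin.partialProd_right_inv]
      rfl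
    · rw [lsingle_apply, inv_mul_cancel]
  exact DFunLike.congr_fun h z

end Defs

include ss

/-- A cycle of `N` with coefficients in the kernel of the augmentation which bounds in `N ⋊ Γ`
with coefficients in `ℚ[Γ] ⊗ M` bounds already with coefficients in the kernel. -/
theorem ker_range {M : Type} [AddCommGroup M] [Module ℚ M] (ρ : Representation ℚ Γ M) (n : ℕ)
    (b : T (n + 1) N (Ker Γ M)) (hb : dd (trivR N (Ker Γ M)) n b = 0)
    (h : inc φ (n + 1) (mp (n + 1) id (Ker Γ M).subtype b) ∈
      LinearMap.range (dd (resW φ (indRep ρ)) (n + 1))) :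
    inc φ (n + 1) b ∈ LinearMap.range (dd (resW φ (kerRep ρ)) (n + 1)) := by
  obtain ⟨e, he⟩ := h
  have h1 : mp (n + 1) id (Ker Γ M).subtype (theta ss (kerRep ρ) (n + 1) b) =
      dd (trivR N (Γ →₀ M)) (n + 1) (theta ss (indRep ρ) (n + 2)
        (mp (n + 2) id (lsingle (1 : Γ)) (bHat φ ρ (n + 2) e))) := by
    rw [← theta_coef ss (kerRep ρ) (indRep ρ) (Ker Γ M).subtype (fun g m => rfl), theta_move ss ρ,
      ← he, ← dd_bHat, ← theta_dd]
    congr 1
    exact (dd_mp (ρ := trivR N M) (τ := trivR N (Γ →₀ M)) (MonoidHom.id N) (lsingle (1 : Γ))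
      (fun _ _ => rfl) (n + 1) _).symm
  have h2 : theta ss (kerRep ρ) (n + 1) b ∈ LinearMap.range (dd (trivR N (Ker Γ M)) (n + 1)) := by
    refine ⟨mp (n + 2) id (retr Γ M) (theta ss (indRep ρ) (n + 2)
        (mp (n + 2) id (lsingle (1 : Γ)) (bHat φ ρ (n + 2) e))), ?_⟩
    have h3 := dd_mp (ρ := trivR N (Γ →₀ M)) (τ := trivR N (Ker Γ M)) (MonoidHom.id N)
      (retr Γ M) (fun _ _ => rfl) (n + 1) (theta ss (indRep ρ) (n + 2)
        (mp (n + 2) id (lsingle (1 : Γ)) (bHat φ ρ (n + 2) e)))
    refine Eq.trans h3 ?_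
    rw [← h1]
    change mp (n + 1) id (retr Γ M) _ = _
    rw [mp_mp]
    have e1 : (retr Γ M) ∘ₗ (Ker Γ M).subtype = LinearMap.id := by
      apply LinearMap.ext
      intro p
      exact retr_subtype p
    rw [e1]
    exact mp_id _ _
  have h3 : inc φ (n + 1) (theta ss (kerRep ρ) (n + 1) b) ∈
      LinearMap.range (dd (resW φ (kerRep ρ)) (n + 1)) := by
    apply range_mp (ρ := trivR N (Ker Γ M)) (τ := resW φ (kerRep ρ)) SemidirectProduct.inl
      LinearMap.id (fun g m => by simp) (n + 1) _ h2
  have h4 := theta_inc ss (kerRep ρ) n b hb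
  have h5 := Submodule.add_mem _ h4 h3
  rwa [sub_add_cancel] at h5

/-- The main homological statement: a cycle of `N ⋊ Γ` whose image in `Γ` bounds is homologous to
a cycle of `N`. -/
theorem from_base (n : ℕ) : ∀ (M : Type) [AddCommGroup M] [Module ℚ M]
    (ρ : Representation ℚ Γ M) (z : T n (N ⋊[φ] Γ) M),
    Cyc (resW φ ρ) n z →
    mp n SemidirectProduct.rightHom LinearMap.id z ∈ LinearMap.range (dd ρ n) →
    (n = 0 → z ∈ LinearMap.range (dd (resW φ ρ) n)) ∧
    ∃ b : T n N M, Cyc (trivR N M) n b ∧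
      z - inc φ n b ∈ LinearMap.range (dd (resW φ ρ) n) := by
  induction n with
  | zero =>
    intro M _ _ ρ z _ hπ
    have h0 : z ∈ LinearMap.range (dd (resW φ ρ) 0) := by
      obtain ⟨v, hv⟩ := hπ
      refine ⟨mp 1 SemidirectProduct.inr LinearMap.id v, ?_⟩
      have h1 := dd_mp (ρ := ρ) (τ := resW φ ρ) (SemidirectProduct.inr : Γ →* N ⋊[φ] Γ)
        LinearMap.id (fun g m => by simp) 0 v
      refine Eq.trans h1 ?_
      rw [hv, mp_mp]
      have e1 : ∀ (f : N ⋊[φ] Γ → N ⋊[φ] Γ) (y : T 0 (N ⋊[φ] Γ) M),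
          mp 0 f (LinearMap.id ∘ₗ LinearMap.id) y = y := by
        intro f y
        have : mp 0 f ((LinearMap.id : M →ₗ[ℚ] M) ∘ₗ (LinearMap.id : M →ₗ[ℚ] M)) =
            (LinearMap.id : T 0 (N ⋊[φ] Γ) M →ₗ[ℚ] _) := by
          apply T_ext
          intro x m
          rw [mp_single]
          change single _ m = single _ m
          congr 1
          funext i
          exact i.elim0
        exact DFunLike.congr_fun this y
      exact e1 _ z
    refine ⟨fun _ => h0, 0, Cyc.zero _ _, ?_⟩
    rw [map_zero, sub_zero]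
    exact h0
  | succ n ih =>
    intro M _ _ ρ z hz hπ
    refine ⟨fun h => absurd h (Nat.succ_ne_zero n), ?_⟩
    rw [cyc_succ] at hz
    obtain ⟨v, hv⟩ := hπ
    -- the lift of the cycle
    set zt : T (n + 1) (N ⋊[φ] Γ) (Γ →₀ M) := mp (n + 1) id (lsingle (1 : Γ)) z with hzt
    have haug : ∀ (k : ℕ) (y : T k (N ⋊[φ] Γ) M),
        mp k id (augM Γ M) (mp k id (lsingle (1 : Γ)) y) = y := by
      intro k y
      rw [mp_mp]
      have e1 : (augM Γ M) ∘ₗ (lsingle (1 : Γ)) = LinearMap.id := by
        apply LinearMap.ext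
        intro m
        exact augM_single 1 m
      rw [e1]
      exact mp_id _ _
    have haug' : ∀ (k : ℕ) (y : T k Γ M),
        mp k id (augM Γ M) (mp k id (lsingle (1 : Γ)) y) = y := by
      intro k y
      rw [mp_mp]
      have e1 : (augM Γ M) ∘ₗ (lsingle (1 : Γ)) = LinearMap.id := by
        apply LinearMap.ext
        intro m
        exact augM_single 1 m
      rw [e1]
      exact mp_id _ _
    have haugdd : ∀ (k : ℕ) (y : T (k + 1) (N ⋊[φ] Γ) (Γ →₀ M)),
        dd (resW φ ρ) k (mp (k + 1) id (augM Γ M) y) =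
          mp k id (augM Γ M) (dd (resW φ (indRep ρ)) k y) := by
      intro k y
      exact dd_mp (ρ := resW φ (indRep ρ)) (τ := resW φ ρ) (MonoidHom.id _) (augM Γ M)
        (fun g m => augM_ind ρ g.right m) k y
    have hsubdd : ∀ (k : ℕ) (y : T (k + 1) (N ⋊[φ] Γ) (Ker Γ M)),
        dd (resW φ (indRep ρ)) k (mp (k + 1) id (Ker Γ M).subtype y) =
          mp k id (Ker Γ M).subtype (dd (resW φ (kerRep ρ)) k y) := by
      intro k y
      exact dd_mp (ρ := resW φ (kerRep ρ)) (τ := resW φ (indRep ρ)) (MonoidHom.id _)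
        (Ker Γ M).subtype (fun g m => rfl) k y
    have hsubinj : ∀ (k : ℕ) (X : Type), Function.Injective
        (mp (X := X) k id (Ker Γ M).subtype) := by
      intro k X
      exact mp_injective k Function.injective_id (Submodule.subtype_injective _)
    set kt := dd (resW φ (indRep ρ)) n zt with hkt
    have hkt0 : mp n id (augM Γ M) kt = 0 := by
      rw [hkt, ← haugdd, hzt, haug, hz]
    set k := mp n id (retr Γ M) kt with hk
    have hιk : mp n id (Ker Γ M).subtype k = kt := lift_ker n kt hkt0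
    have hkcyc : Cyc (resW φ (kerRep ρ)) n k := by
      cases n with
      | zero => exact Cyc.zero _ _
      | succ n =>
        rw [cyc_succ]
        apply hsubinj n (N ⋊[φ] Γ)
        rw [← hsubdd, hιk, hkt, dd_dd, map_zero]
    -- the image of `k` in `Γ` bounds
    have hkπ : mp n SemidirectProduct.rightHom LinearMap.id k ∈
        LinearMap.range (dd (kerRep ρ) n) := by
      set y := mp (n + 1) (SemidirectProduct.rightHom : N ⋊[φ] Γ →* Γ) LinearMap.id zt -
        dd (indRep ρ) (n + 1) (mp (n + 2) id (lsingle (1 : Γ)) v) with hy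
      have hy0 : mp (n + 1) id (augM Γ M) y = 0 := by
        have e1 : mp (n + 1) id (augM Γ M) (dd (indRep ρ) (n + 1)
            (mp (n + 2) id (lsingle (1 : Γ)) v)) = dd ρ (n + 1) v := by
          have := dd_mp (ρ := indRep ρ) (τ := ρ) (MonoidHom.id Γ) (augM Γ M)
            (fun g m => augM_ind ρ g m) (n + 1) (mp (n + 2) id (lsingle (1 : Γ)) v)
          refine Eq.trans this.symm ?_
          congr 1
          exact haug' _ v
        have e2 : mp (n + 1) id (augM Γ M)
            (mp (n + 1) (SemidirectProduct.rightHom : N ⋊[φ] Γ →* Γ) LinearMap.id zt) =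
            mp (n + 1) (SemidirectProduct.rightHom : N ⋊[φ] Γ →* Γ) LinearMap.id z := by
          rw [mp_mp, hzt, mp_mp]
          congr 2
          apply LinearMap.ext
          intro m
          exact augM_single 1 m
        rw [hy, map_sub, e1, e2, hv, sub_self]
      refine ⟨mp (n + 1) id (retr Γ M) y, ?_⟩
      apply hsubinj n Γ
      have e3 : mp n id (Ker Γ M).subtype (dd (kerRep ρ) n (mp (n + 1) id (retr Γ M) y)) =
          dd (indRep ρ) n (mp (n + 1) id (Ker Γ M).subtype (mp (n + 1) id (retr Γ M) y)) := by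
        exact (dd_mp (ρ := kerRep ρ) (τ := indRep ρ) (MonoidHom.id Γ)
          (Ker Γ M).subtype (fun g m => rfl) n _).symm
      rw [e3, lift_ker (n + 1) y hy0, hy, map_sub, dd_dd, sub_zero]
      have e4 : dd (indRep ρ) n (mp (n + 1) (SemidirectProduct.rightHom : N ⋊[φ] Γ →* Γ)
          LinearMap.id zt) = mp n (SemidirectProduct.rightHom : N ⋊[φ] Γ →* Γ) LinearMap.id kt := by
        exact dd_mp (ρ := resW φ (indRep ρ)) (τ := indRep ρ)
          (SemidirectProduct.rightHom : N ⋊[φ] Γ →* Γ) LinearMap.id (fun g m => rfl) n zt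
      have e5 : ∀ k' : T n (N ⋊[φ] Γ) (Ker Γ M),
          mp n (SemidirectProduct.rightHom : N ⋊[φ] Γ →* Γ) LinearMap.id
            (mp n id (Ker Γ M).subtype k') =
          mp n id (Ker Γ M).subtype
            (mp n (SemidirectProduct.rightHom : N ⋊[φ] Γ →* Γ) LinearMap.id k') := by
        intro k'
        rw [mp_mp, mp_mp]
        rfl
      rw [e4, ← hιk, e5]
    -- `k` bounds with coefficients in the kernel
    have hkr : k ∈ LinearMap.range (dd (resW φ (kerRep ρ)) n) := by
      obtain ⟨h0, b, hb, hkb⟩ := ih (Ker Γ M) (kerRep ρ) k hkcyc hkπ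
      cases n with
      | zero => exact h0 rfl
      | succ n =>
        rw [cyc_succ] at hb
        have h1 : inc φ (n + 1) (mp (n + 1) id (Ker Γ M).subtype b) ∈
            LinearMap.range (dd (resW φ (indRep ρ)) (n + 1)) := by
          obtain ⟨t, ht⟩ := hkb
          refine ⟨zt - mp (n + 2) id (Ker Γ M).subtype t, ?_⟩
          rw [map_sub, ← hkt, hsubdd, ht, map_sub, hιk, sub_sub_cancel]
          unfold inc
          rw [mp_mp, mp_mp]
          rfl
        have h2 := ker_range ss ρ n b hb h1
        have h3 := Submodule.add_mem _ hkb h2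
        rwa [sub_add_cancel] at h3
    obtain ⟨s, hs⟩ := hkr
    -- a cycle with coefficients in `ℚ[Γ] ⊗ M` lifting `z`
    set zz := zt - mp (n + 1) id (Ker Γ M).subtype s with hzz
    have hzzcyc : Cyc (resW φ (indRep ρ)) (n + 1) zz := by
      rw [cyc_succ, hzz, map_sub, ← hkt, hsubdd, hs, hιk, sub_self]
    have hzzaug : mp (n + 1) id (augM Γ M) zz = z := by
      rw [hzz, map_sub, hzt, haug, mp_mp]
      have e1 : (augM Γ M) ∘ₗ (Ker Γ M).subtype = 0 := by
        apply LinearMap.ext
        intro p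
        exact LinearMap.mem_ker.mp p.2
      rw [e1]
      have e2 : mp (n + 1) (id ∘ id) (0 : Ker Γ M →ₗ[ℚ] M) s = 0 := by
        have : mp (X := N ⋊[φ] Γ) (n + 1) (id ∘ id) (0 : Ker Γ M →ₗ[ℚ] M) = 0 := by
          apply T_ext
          intro x m
          rw [mp_single]
          simp
        rw [this]; rfl
      rw [e2, sub_zero]
    refine ⟨bHat φ ρ (n + 1) zz, ?_, ?_⟩
    · rw [cyc_succ, dd_bHat]
      rw [cyc_succ] at hzzcyc
      rw [hzzcyc, map_zero]
    · have h1 := inc1_bHat_homotopic ρ (n + 1) zz hzzcyc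
      have h2 := range_mp (ρ := resW φ (indRep ρ)) (τ := resW φ ρ) (MonoidHom.id _) (augM Γ M)
        (fun g m => augM_ind ρ g.right m) (n + 1) _ h1
      rw [map_sub] at h2
      have e1 : mp (n + 1) (MonoidHom.id (N ⋊[φ] Γ)) (augM Γ M) zz = z := hzzaug
      have e2 : mp (n + 1) (MonoidHom.id (N ⋊[φ] Γ)) (augM Γ M)
          (inc1 φ (n + 1) (bHat φ ρ (n + 1) zz)) = inc φ (n + 1) (bHat φ ρ (n + 1) zz) := by
        unfold inc1 inc
        rw [mp_mp]
        congr 2
        apply LinearMap.ext
        intro m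
        exact augM_single 1 m
      rw [e1, e2] at h2
      exact h2

end Pool.Agent.Y483
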