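import Pool.Agent.Y483.FRRMain

/-!
The rational homology of free abelian groups of finite rank is detected by the top classes of the
groups `ℤ^j`.
-/

namespace Pool.Agent.Y483

open Finsupp CategoryTheory DirectSum

universe v

section Forms

theorem Wf_congr {E E' : Type*} (q : ℕ) : ∀ (v : Fin q → E) (v' : Fin q → E')
    (u : Fin q → (E →₀ ℤ)) (u' : Fin q → (E' →₀ ℤ)) (_ : ∀ i l, u i (v l) = u' i (v' l)),
    Wf q v u = Wf q v' u' := by
  induction q with
  | zero =>
    intro v v' u u' _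
    rw [Wf, Wf]
    rfl
  | succ q ih =>
    intro v v' u u' h
    rw [Wf, Wf, wform_apply, wform_apply]
    apply Finset.sum_congr rfl
    intro i _
    rw [h i 0, ih (Fin.tail v) (Fin.tail v') (Fin.removeNth i u) (Fin.removeNth i u')
      (fun k l => h _ _)]

theorem Wf_basis {E : Type*} (q : ℕ) : ∀ (v : Fin q → E) (_ : Function.Injective v),
    Wf q v (fun i => single (v i) 1) = 1 := by
  induction q with
  | zero =>
    intro v _
    rw [Wf]
    rfl
  | succ q ih =>
    intro v hv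
    have e : (fun i => single (v i) (1 : ℤ)) = Matrix.vecCons (single (v 0) 1)
        (fun i : Fin q => single (Fin.tail v i) 1) := by
      funext i
      refine Fin.cases ?_ (fun j => ?_) i
      · rfl
      · rfl
    rw [e, Wf, ← AlternatingMap.curryLeft_apply_apply, wform_curry,
      ih (Fin.tail v) (fun a b h => Fin.succ_injective _ (hv h))]
    · simp
    · intro i
      apply Finsupp.single_eq_of_ne
      intro h
      exact absurd (hv h) (Fin.succ_ne_zero i).symm

theorem Wf_std (j : ℕ) : Wf j id (fun i : Fin j => single i (1 : ℤ)) = 1 :=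
  Wf_basis j id (fun _ _ h => h)

/-- Two forms of top degree are proportional. -/
theorem top_form (j : ℕ) (ω ω' : Frm (Fin j →₀ ℤ) j) :
    (ω' (fun i => single i 1)) • ω = (ω (fun i => single i 1)) • ω' := by
  apply Module.Basis.ext_alternating Finsupp.basisSingleOne
  intro w hw
  let σ : Equiv.Perm (Fin j) := Equiv.ofBijective w (Finite.injective_iff_bijective.mp hw)
  have e : (fun i => (Finsupp.basisSingleOne (R := ℤ) (w i) : Fin j →₀ ℤ)) =
      (fun i => single i (1 : ℤ)) ∘ σ := by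
    funext i
    rw [Finsupp.coe_basisSingleOne]
    rfl
  rw [e, AlternatingMap.smul_apply, AlternatingMap.smul_apply, AlternatingMap.map_perm,
    AlternatingMap.map_perm, smul_comm, smul_eq_mul, smul_comm (ω _), smul_eq_mul, mul_comm]

/-- Forms of degree larger than the rank vanish. -/
theorem form_eq_zero (j n : ℕ) (h : n < j) (ω : Frm (Fin n →₀ ℤ) j) : ω = 0 := by
  apply Module.Basis.ext_alternating Finsupp.basisSingleOne
  intro w hw
  have h1 := Fintype.card_le_of_injective w hw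
  rw [Fintype.card_fin, Fintype.card_fin] at h1
  omega

end Forms

section Torus

/-- The coordinates of an element of `ℤ^n`. -/
noncomputable def cZ (n : ℕ) (k : Zn n) : Fin n →₀ ℤ := Finsupp.equivFunOnFinite.symm k.toAdd

theorem cZ_apply (n : ℕ) (k : Zn n) (i : Fin n) : cZ n k i = k.toAdd i := rfl

theorem cZ_mul (n : ℕ) (k k' : Zn n) : cZ n (k * k') = cZ n k + cZ n k' := by
  ext i
  rfl

theorem cZ_injective (n : ℕ) : Function.Injective (cZ n) := by
  intro a b h
  apply Multiplicative.toAdd.injective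
  exact Finsupp.equivFunOnFinite.symm.injective h

/-- The homomorphism `ℤ^m → ℤ^j` given by the coordinates `v`. -/
def fvZ {j m : ℕ} (v : Fin j → Fin m) : Zn m →* Zn j where
  toFun k := Multiplicative.ofAdd (k.toAdd ∘ v)
  map_one' := rfl
  map_mul' _ _ := rfl

theorem pair_fv {j m : ℕ} (v : Fin j → Fin m) (z : T j (Zn m) ℚ) :
    ipair (cZ m) j LinearMap.id (Wf j v) z =
      ipair (cZ j) j LinearMap.id (Wf j id) (mp j (fvZ v) LinearMap.id z) := by
  rw [ipair_mp]
  have h : ipair (cZ m) j (LinearMap.id : ℚ →ₗ[ℚ] ℚ) (Wf j v) =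
      ipair (cZ j ∘ fvZ v) j (LinearMap.id ∘ₗ LinearMap.id) (Wf j id) := by
    apply T_ext
    intro x r
    rw [ipair_single, ipair_single, Wf_congr j v id _ (fun i => (cZ j ∘ fvZ v) (x i))]
    · rfl
    · intro i l
      rfl
  rw [h]

theorem ipair_range {n : ℕ} (q : ℕ) (ω : Frm (Fin n →₀ ℤ) q) (z : T q (Zn n) ℚ)
    (hz : z ∈ LinearMap.range (dd (trivR (Zn n) ℚ) q)) :
    ipair (cZ n) q LinearMap.id ω z = 0 := by
  obtain ⟨y, rfl⟩ := hz
  exact ipair_dd (ρ := trivR (Zn n) ℚ) (cZ n) (cZ_mul n) LinearMap.id (fun _ _ => rfl) q ω y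

/-- A nonzero class of degree `j` of `ℤ^m` is detected by the coordinate projections to `ℤ^j`. -/
theorem exists_fv {j m : ℕ} (x : HQ j (Zn m)) (hx : x ≠ 0) :
    ∃ v : Fin j → Fin m, hqMap (fvZ v) j x ≠ 0 := by
  by_contra hcon
  push Not at hcon
  apply hx
  obtain ⟨z, hz⟩ := exists_rpr (Rep.trivial ℚ (Zn m) ℚ) j x
  rw [hz.eq_zero_iff]
  apply detectW (cZ m) (cZ_mul m) (cZ_injective m) j z hz.cyc
  intro v
  rw [pair_fv]
  exact ipair_range j _ _ ((hz.hq (fvZ v)).eq_zero_iff.mp (hcon v))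

theorem hq_eq_zero {j n : ℕ} (h : n < j) (x : HQ j (Zn n)) : x = 0 := by
  obtain ⟨z, hz⟩ := exists_rpr (Rep.trivial ℚ (Zn n) ℚ) j x
  rw [hz.eq_zero_iff]
  apply detect (cZ n) (cZ_mul n) (cZ_injective n) j z hz.cyc
  intro ω
  rw [form_eq_zero j n h ω]
  have h0 : ipair (cZ n) j (LinearMap.id : ℚ →ₗ[ℚ] ℚ) (0 : Frm (Fin n →₀ ℤ) j) = 0 := by
    apply T_ext
    intro x r
    rw [ipair_single, AlternatingMap.zero_apply, zero_mul]
    rfl
  rw [h0]; rfl

/-- The top pairing is injective on homology. -/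
theorem top_pair {j : ℕ} {z : T j (Zn j) ℚ} {x : HQ j (Zn j)}
    (hz : Rpr (Rep.trivial ℚ (Zn j) ℚ) j z x)
    (h : ipair (cZ j) j LinearMap.id (Wf j id) z = 0) : x = 0 := by
  rw [hz.eq_zero_iff]
  apply detect (cZ j) (cZ_mul j) (cZ_injective j) j z hz.cyc
  intro ω
  have h1 := top_form j ω (Wf j id)
  rw [Wf_std, one_smul] at h1
  rw [h1]
  have h2 : ipair (cZ j) j (LinearMap.id : ℚ →ₗ[ℚ] ℚ) ((ω fun i => single i 1) • Wf j id) =
      (ω fun i => single i 1) • ipair (cZ j) j LinearMap.id (Wf j id) := by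
    apply T_ext
    intro x r
    rw [LinearMap.smul_apply, ipair_single, ipair_single, AlternatingMap.smul_apply, smul_eq_mul,
      smul_eq_mul, mul_assoc]
  rw [h2, LinearMap.smul_apply, h, smul_zero]

/-- The rational homology of `ℤ^j` in degree `j` has dimension at most one. -/
theorem hq_line {j : ℕ} (x : HQ j (Zn j)) (hx : x ≠ 0) (y : HQ j (Zn j)) :
    ∃ c : ℚ, y = c • x := by
  obtain ⟨z, hz⟩ := exists_rpr (Rep.trivial ℚ (Zn j) ℚ) j x
  obtain ⟨w, hw⟩ := exists_rpr (Rep.trivial ℚ (Zn j) ℚ) j y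
  set p := ipair (cZ j) j (LinearMap.id : ℚ →ₗ[ℚ] ℚ) (Wf j id) with hp
  have hpz : p z ≠ 0 := fun h => hx (top_pair hz h)
  refine ⟨p w / p z, ?_⟩
  rw [← sub_eq_zero]
  obtain ⟨y', hy', hy''⟩ := hz
  have hc : Rpr (Rep.trivial ℚ (Zn j) ℚ) j ((p w / p z) • z) ((p w / p z) • x) :=
    ⟨(p w / p z) • y', by rw [map_smul, hy'], by rw [map_smul, hy'']⟩
  apply top_pair (hw.sub hc)
  change p (w - (p w / p z) • z) = 0
  rw [map_sub, map_smul, smul_eq_mul, div_mul_cancel₀ _ hpz, sub_self]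

/-- The product of elements of a commutative group, as a chain. -/
noncomputable def tor {K : Type} [CommGroup K] : (q : ℕ) → (Fin q → K) → T q K ℚ
  | 0, _ => single (fun i => i.elim0) 1
  | q + 1, e => Sop (trivR K ℚ) (e 0) LinearMap.id q (tor q (Fin.tail e))

theorem tor_cyc {K : Type} [CommGroup K] (q : ℕ) : ∀ e : Fin q → K,
    Cyc (trivR K ℚ) q (tor q e) := by
  induction q with
  | zero => intro e; exact Cyc.zero _ _
  | succ q ih =>
    intro e
    rw [cyc_succ, tor, dd_Sop_cyc (ρ := trivR K ℚ) _ _ (fun _ _ => rfl) q _ (ih _)]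
    exact sub_self _

theorem tor_pair {K A : Type} [CommGroup K] [AddCommGroup A] (c : K → A)
    (hc : ∀ g h, c (g * h) = c g + c h) (q : ℕ) : ∀ (e : Fin q → K) (ω : Frm A q),
    ipair c q LinearMap.id ω (tor q e) = (q.factorial : ℚ) * ω (fun i => c (e i)) := by
  induction q with
  | zero =>
    intro e ω
    rw [tor, ipair_single, Nat.factorial_zero, Nat.cast_one, one_mul, LinearMap.id_apply, mul_one]
    congr 1
    exact Subsingleton.elim _ _
  | succ q ih =>
    intro e ω
    rw [tor, ipair_Sop (ρ' := trivR K ℚ) c hc LinearMap.id LinearMap.id (fun _ _ => rfl) _ _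
      (fun _ => rfl), ih, AlternatingMap.curryLeft_apply_apply, Nat.factorial_succ]
    have h : Matrix.vecCons (c (e 0)) (fun i => c (Fin.tail e i)) = fun i => c (e i) := by
      funext i
      refine Fin.cases ?_ (fun j => ?_) i <;> rfl
    rw [h]
    push_cast
    ring

/-- The homology of `ℤ^j` in degree `j` is nonzero. -/
theorem exists_top (j : ℕ) : ∃ x : HQ j (Zn j), x ≠ 0 := by
  let e : Fin j → Zn j := fun i => Multiplicative.ofAdd (Pi.single i 1)
  obtain ⟨x, hx⟩ := exists_class (A := Rep.trivial ℚ (Zn j) ℚ) j (tor j e) (tor_cyc j e)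
  refine ⟨x, fun h => ?_⟩
  have h1 := ipair_range j (Wf j id) (tor j e) (hx.eq_zero_iff.mp h)
  rw [tor_pair (cZ j) (cZ_mul j)] at h1
  have h2 : (fun i => cZ j (e i)) = fun i => single i (1 : ℤ) := by
    funext i
    ext l
    rw [cZ_apply]
    change (Pi.single i (1 : ℤ) : Fin j → ℤ) l = _
    rw [Finsupp.single_apply, Pi.single_apply]
    by_cases h : l = i
    · subst h; simp
    · rw [if_neg h, if_neg (fun h' => h h'.symm)]
  rw [h2, Wf_std, mul_one] at h1
  have h3 : (j.factorial : ℚ) ≠ 0 := by exact_mod_cast j.factorial_ne_zero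
  exact h3 h1

variable {T₀ : Type} [Group T₀] {L : LFunctor.{v}} (A : Assembly L T₀) (J : Set ℕ)

/-- If the maps are nonzero on the top classes of the groups `ℤ^j`, they are injective on all free
abelian groups of finite rank. -/
theorem ker_Zn_of_top (h : ∀ j ∈ J, A.app j (Zn j) ≠ 0) (n : ℕ) :
    LinearMap.ker (A.total J (Zn n)) = ⊥ := by
  classical
  have hinj : ∀ j ∈ J, ∀ x : HQ j (Zn j), A.app j (Zn j) x = 0 → x = 0 := by
    intro j hj x hx
    by_contra hne
    apply h j hj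
    apply LinearMap.ext
    intro y
    obtain ⟨c, rfl⟩ := hq_line x hne y
    rw [map_smul, hx, smul_zero]
    rfl
  rw [eq_bot_iff]
  intro x hx
  rw [Submodule.mem_bot]
  by_contra hne
  have hex : ∃ j : ℕ, ∃ hj : j ∈ J, x ⟨j, hj⟩ ≠ 0 := by
    by_contra hcon
    push Not at hcon
    apply hne
    apply DFunLike.ext
    rintro ⟨j, hj⟩
    exact hcon j hj
  obtain ⟨hj, hxj⟩ := Nat.find_spec hex
  set j := Nat.find hex with hjdef
  have hmin : ∀ k < j, ∀ hk : k ∈ J, x ⟨k, hk⟩ = 0 := by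
    intro k hk hkJ
    by_contra hcon
    exact Nat.find_min hex hk ⟨hkJ, hcon⟩
  obtain ⟨v, hv⟩ := exists_fv (x ⟨j, hj⟩) hxj
  apply hv
  apply hinj j hj
  have h1 : hjMap J (fvZ v) x = DirectSum.of (fun i : J => HQ i (Zn j)) ⟨j, hj⟩
      (hqMap (fvZ v) j (x ⟨j, hj⟩)) := by
    apply DFunLike.ext
    rintro ⟨k, hk⟩
    rw [hjMap_apply]
    by_cases hkj : k = j
    · subst hkj
      rw [DirectSum.of_eq_same]
    · rw [DirectSum.of_eq_of_ne _ _ _ (fun h' => hkj (congrArg Subtype.val h'))]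
      rcases Nat.lt_or_gt_of_ne hkj with hlt | hgt
      · rw [hmin k hlt hk, map_zero]
      · exact hq_eq_zero hgt _
  have h2 : A.total J (Zn j) (hjMap J (fvZ v) x) = 0 := by
    rw [← A.total_nat, LinearMap.mem_ker.mp hx, map_zero]
  rw [h1, A.total_of] at h2
  exact h2

/-- The converse. -/
theorem top_of_ker_Zn (j : ℕ) (hj : j ∈ J) (h : LinearMap.ker (A.total J (Zn j)) = ⊥) :
    A.app j (Zn j) ≠ 0 := by
  intro h0
  obtain ⟨x, hx⟩ := exists_top j
  have h1 : DirectSum.of (fun i : J => HQ i (Zn j)) ⟨j, hj⟩ x ∈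
      LinearMap.ker (A.total J (Zn j)) := by
    rw [LinearMap.mem_ker, A.total_of]
    change A.app j (Zn j) x = 0
    rw [h0]; rfl
  rw [h, Submodule.mem_bot] at h1
  apply hx
  have h2 := congrArg (fun u : HJ J (Zn j) => u ⟨j, hj⟩) h1
  rw [DirectSum.of_eq_same] at h2
  exact h2

end Torus

end Pool.Agent.Y483
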