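import Pool.Agent.Y483.Shapiro
import Pool.Agent.Y483.Semi

/-!
Rational homology of free abelian groups: a cycle all of whose pairings with alternating forms
vanish is a boundary.
-/

namespace Pool.Agent.Y483

open Finsupp

section Nat

variable {H H' : Type*} [CommGroup H] [CommGroup H'] {M M' N N' : Type*} [AddCommGroup M]
  [Module ℚ M] [AddCommGroup M'] [Module ℚ M'] [AddCommGroup N] [Module ℚ N] [AddCommGroup N']
  [Module ℚ N']

theorem mp_pp (ρ : Representation ℚ H M) (τ : Representation ℚ H' N) (f : H →* H')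
    (φ : M →ₗ[ℚ] N) (hφ : ∀ g m, φ (ρ g m) = τ (f g) (φ m)) (q : ℕ) (z : T (q + 1) H M) :
    mp q f φ (pp ρ q z) = pp τ q (mp (q + 1) f φ z) := by
  have h : (mp q f φ) ∘ₗ (pp ρ q) = (pp τ q) ∘ₗ (mp (q + 1) f φ) := by
    apply T_ext
    intro x m
    rw [LinearMap.comp_apply, LinearMap.comp_apply, pp_single, mp_single, mp_single, pp_single,
      hφ]
    congr 1
    · funext i
      simp
    · simp
  exact DFunLike.congr_fun h z

theorem mp_sg (f : H →* H') (φ : M →ₗ[ℚ] N) (q : ℕ) (z : T q H M) :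
    mp (q + 1) f φ (sg q z) = sg q (mp q f φ z) := by
  have h : (mp (q + 1) f φ) ∘ₗ (sg q) = (sg q) ∘ₗ (mp q f φ) := by
    apply T_ext
    intro x m
    rw [LinearMap.comp_apply, LinearMap.comp_apply, sg_single, mp_single, mp_single, sg_single]
    congr 1
    funext j
    induction j using Fin.induction with
    | zero => simp
    | succ i ih =>
      rw [Function.comp_apply] at *
      rw [Fin.partialProd_succ, Fin.partialProd_succ, map_mul, ih]
      rfl
  exact DFunLike.congr_fun h z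

/-- Naturality of the product with an edge. -/
theorem Sop_nat (ρ' : Representation ℚ H M') (τ' : Representation ℚ H' N') (f : H →* H')
    (φ : M →ₗ[ℚ] N) (φ' : M' →ₗ[ℚ] N') (hφ : ∀ g m, φ' (ρ' g m) = τ' (f g) (φ' m))
    (e : H) (s : M →ₗ[ℚ] M') (s' : N →ₗ[ℚ] N') (hs : ∀ m, φ' (s m) = s' (φ m)) (q : ℕ)
    (z : T q H M) :
    mp (q + 1) f φ' (Sop ρ' e s q z) = Sop τ' (f e) s' q (mp q f φ z) := by
  unfold Sop
  simp only [LinearMap.comp_apply]
  rw [mp_pp ρ' τ' f φ' hφ, ← mp_sg, mp_mp]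
  rw [← prism_nat (X₁ := H) (Y₁ := H) id (fun x => x * e) id (fun x => x * f e) f f φ'
    (fun _ => rfl) (fun x => (map_mul f x e).symm), mp_mp]
  congr 5
  exact LinearMap.ext hs

end Nat

section Shift

/-- The shift of `ℚ[ℤ]`. -/
noncomputable def shZ : (ℤ →₀ ℚ) →ₗ[ℚ] (ℤ →₀ ℚ) := lsum ℚ fun a => lsingle (a + 1)

@[simp] theorem shZ_single (a : ℤ) (r : ℚ) : shZ (single a r) = single (a + 1) r := by
  simp [shZ]

/-- The sum of the basis vectors from `0` to `a - 1`. -/
noncomputable def rZ (a : ℤ) : ℤ →₀ ℚ :=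
  ∑ j ∈ Finset.Ico 0 a, single j (1 : ℚ) - ∑ j ∈ Finset.Ico a 0, single j (1 : ℚ)

theorem rZ_succ (a : ℤ) : rZ (a + 1) = rZ a + single a 1 := by
  unfold rZ
  rcases le_or_gt 0 a with h | h
  · have e1 : Finset.Ico (0 : ℤ) (a + 1) = insert a (Finset.Ico 0 a) := by
      ext j
      simp only [Finset.mem_Ico, Finset.mem_insert]
      omega
    have e2 : Finset.Ico (a + 1) (0 : ℤ) = ∅ := by
      apply Finset.Ico_eq_empty; omega
    have e3 : Finset.Ico a (0 : ℤ) = ∅ := by
      apply Finset.Ico_eq_empty; omega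
    rw [e1, e2, e3, Finset.sum_insert (by simp)]
    simp only [Finset.sum_empty, sub_zero]
    exact add_comm _ _
  · have e1 : Finset.Ico a (0 : ℤ) = insert a (Finset.Ico (a + 1) 0) := by
      ext j
      simp only [Finset.mem_Ico, Finset.mem_insert]
      omega
    have e2 : Finset.Ico (0 : ℤ) (a + 1) = ∅ := by
      apply Finset.Ico_eq_empty; omega
    have e3 : Finset.Ico (0 : ℤ) a = ∅ := by
      apply Finset.Ico_eq_empty; omega
    rw [e1, e2, e3, Finset.sum_insert (by simp)]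
    simp only [Finset.sum_empty, zero_sub]
    abel

theorem rZ_zero : rZ 0 = 0 := by
  simp [rZ]

/-- A primitive for the difference operator. -/
noncomputable def RZ : (ℤ →₀ ℚ) →ₗ[ℚ] (ℤ →₀ ℚ) :=
  lsum ℚ fun a => LinearMap.smulRight LinearMap.id (rZ a)

@[simp] theorem RZ_single (a : ℤ) (r : ℚ) : RZ (single a r) = r • rZ a := by
  simp [RZ]

/-- The difference operator. -/
noncomputable def DZ : (ℤ →₀ ℚ) →ₗ[ℚ] (ℤ →₀ ℚ) := shZ - LinearMap.id

theorem DZ_rZ (a : ℤ) : DZ (rZ a) = single a 1 - single 0 1 := by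
  induction a using Int.induction_on with
  | zero => rw [rZ_zero, map_zero, sub_self]
  | succ i ih =>
    rw [rZ_succ, map_add, ih, DZ, LinearMap.sub_apply, shZ_single, LinearMap.id_apply]
    abel
  | pred i ih =>
    have h := rZ_succ (-(i : ℤ) - 1)
    have e : -(i : ℤ) - 1 + 1 = -i := by ring
    rw [e] at h
    have h2 : rZ (-(i : ℤ) - 1) = rZ (-i) - single (-(i : ℤ) - 1) 1 := by rw [h]; abel
    rw [h2, map_sub, ih]
    rw [DZ, LinearMap.sub_apply, shZ_single, LinearMap.id_apply, e]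
    abel

theorem DZ_RZ (m : ℤ →₀ ℚ) : DZ (RZ m) = m - single 0 (sumC ℤ m) := by
  have h : DZ ∘ₗ RZ = LinearMap.id - (lsingle 0) ∘ₗ (sumC ℤ) := by
    apply lhom_ext
    intro a r
    rw [LinearMap.comp_apply, RZ_single, map_smul, DZ_rZ, LinearMap.sub_apply,
      LinearMap.id_apply, LinearMap.comp_apply, sumC_single, lsingle_apply, smul_sub, smul_single,
      smul_single, smul_eq_mul, mul_one]
  exact DFunLike.congr_fun h m

theorem RZ_DZ (m : ℤ →₀ ℚ) : RZ (DZ m) = m := by
  have h : RZ ∘ₗ DZ = LinearMap.id := by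
    apply lhom_ext
    intro a r
    rw [LinearMap.comp_apply, DZ, LinearMap.sub_apply, shZ_single, LinearMap.id_apply, map_sub,
      RZ_single, RZ_single, rZ_succ, smul_add, add_sub_cancel_left, smul_single, smul_eq_mul,
      mul_one]
  exact DFunLike.congr_fun h m

theorem DZ_injective : Function.Injective DZ := fun a b h => by
  rw [← RZ_DZ a, h, RZ_DZ]

end Shift

section Wang

variable {K : Type} [CommGroup K]

/-- The action of `K` on `ℤ` through a homomorphism. -/
def zAct (l : K → ℤ) (hl : ∀ g h, l (g * h) = l g + l h) : K →* Equiv.Perm ℤ where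
  toFun k := Equiv.addLeft (l k)
  map_one' := by
    ext a
    simp [map_one_zero l hl]
  map_mul' g h := by
    ext a
    simp [hl]

theorem zAct_apply (l : K → ℤ) (hl : ∀ g h, l (g * h) = l g + l h) (k : K) (a : ℤ) :
    zAct l hl k a = l k + a := rfl

theorem mp_sub_coef {G : Type*} {M N : Type*} [AddCommGroup M] [Module ℚ M] [AddCommGroup N]
    [Module ℚ N] (q : ℕ) (φ ψ : M →ₗ[ℚ] N) (z : T q G M) :
    mp q id (φ - ψ) z = mp q id φ z - mp q id ψ z := by
  have h : mp (X := G) q id (φ - ψ) = mp q id φ - mp q id ψ := by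
    apply T_ext
    intro x m
    rw [LinearMap.sub_apply, mp_single, mp_single, mp_single, LinearMap.sub_apply, single_sub]
  exact DFunLike.congr_fun h z

theorem mp_zero_coef {G G' : Type*} {M N : Type*} [AddCommGroup M] [Module ℚ M] [AddCommGroup N]
    [Module ℚ N] (q : ℕ) (f : G → G') (z : T q G M) :
    mp q f (0 : M →ₗ[ℚ] N) z = 0 := by
  have h : mp (X := G) q f (0 : M →ₗ[ℚ] N) = 0 := by
    apply T_ext
    intro x m
    rw [mp_single]
    simp
  rw [h]; rfl

theorem cyc_of_mp {G H : Type*} [Group G] [Group H] {M N : Type*} [AddCommGroup M] [Module ℚ M]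
    [AddCommGroup N] [Module ℚ N] {ρ : Representation ℚ G M} {τ : Representation ℚ H N}
    (f : G →* H) (φ : M →ₗ[ℚ] N) (hφ : ∀ g m, φ (ρ g m) = τ (f g) (φ m))
    (hf : Function.Injective f) (hφi : Function.Injective φ) (q : ℕ) (z : T q G M)
    (hz : Cyc τ q (mp q f φ z)) : Cyc ρ q z := by
  cases q with
  | zero => exact Cyc.zero _ _
  | succ q =>
    rw [cyc_succ] at *
    rw [dd_mp (ρ := ρ) f φ hφ] at hz
    apply mp_injective q hf hφi
    rw [hz, map_zero]

/-- A cycle of an abelian group `K` with a homomorphism `l` onto `ℤ` is homologous to the sum of a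
cycle of the kernel and of the product of a cycle of the kernel with an element `t` with
`l(t) = 1`. -/
theorem wang (l : K → ℤ) (hl : ∀ g h, l (g * h) = l g + l h) (t : K) (ht : l t = 1)
    (K' : Subgroup K) (hK' : ∀ k, k ∈ K' ↔ l k = 0) (q : ℕ) (z : T (q + 1) K ℚ)
    (hz : dd (trivR K ℚ) q z = 0) :
    ∃ (y : T (q + 1) K' ℚ) (y' : T q K' ℚ), dd (trivR K' ℚ) q y = 0 ∧
      Cyc (trivR K' ℚ) q y' ∧
      z + Sop (trivR K ℚ) t LinearMap.id q (mp q K'.subtype LinearMap.id y') -
        mp (q + 1) K'.subtype LinearMap.id y ∈ LinearMap.range (dd (trivR K ℚ) (q + 1)) := by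
  set σ := zAct l hl with hσ
  have haug : ∀ (g : K) (m : ℤ →₀ ℚ), sumC ℤ (permRep σ g m) = trivR K ℚ g (sumC ℤ m) := by
    intro g m
    rw [sumC_permRep]; rfl
  have hsh : ∀ (g : K) (m : ℤ →₀ ℚ), shZ (permRep σ g m) = permRep σ g (shZ m) := by
    intro g m
    have h : shZ ∘ₗ (permRep σ g) = (permRep σ g) ∘ₗ shZ := by
      apply lhom_ext
      intro a r
      rw [LinearMap.comp_apply, LinearMap.comp_apply, permRep_single, shZ_single, shZ_single,
        permRep_single, hσ, zAct_apply, zAct_apply, add_assoc]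
    exact DFunLike.congr_fun h m
  have hD : ∀ (g : K) (m : ℤ →₀ ℚ), DZ (permRep σ g m) = permRep σ g (DZ m) := by
    intro g m
    rw [DZ, LinearMap.sub_apply, LinearMap.sub_apply, hsh, map_sub]; rfl
  have hKs : ∀ k : K', σ (K'.subtype k) 0 = 0 := by
    intro k
    rw [hσ, zAct_apply, add_zero]
    exact (hK' _).mp k.2
  have htrans : ∀ a : ℤ, ∃ h : K, σ h 0 = a := by
    intro a
    have hpow : ∀ n : ℕ, l (t ^ n) = n := by
      intro n
      induction n with
      | zero => rw [pow_zero, map_one_zero l hl]; rfl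
      | succ n ih => rw [pow_succ, hl, ih, ht]; push_cast; ring
    rcases le_or_gt 0 a with h | h
    · refine ⟨t ^ a.toNat, ?_⟩
      rw [hσ, zAct_apply, hpow, add_zero]
      omega
    · refine ⟨(t ^ (-a).toNat)⁻¹, ?_⟩
      rw [hσ, zAct_apply, map_inv_neg l hl, hpow, add_zero]
      omega
  have hex : ∀ h : K, σ h 0 = 0 → ∃ k : K', K'.subtype k = h := by
    intro h hh
    rw [hσ, zAct_apply, add_zero] at hh
    exact ⟨⟨h, (hK' h).mpr hh⟩, rfl⟩
  -- the lift of `z`
  set zt := mp (q + 1) (id : K → K) (lsingle (0 : ℤ)) z with hzt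
  have hzt' : mp (q + 1) (id : K → K) (sumC ℤ) zt = z := by
    rw [hzt, mp_mp]
    have e : (sumC ℤ) ∘ₗ (lsingle (0 : ℤ)) = LinearMap.id := by
      apply LinearMap.ext
      intro r
      simp
    rw [e]
    exact mp_id _ _
  set k := dd (permRep σ) q zt with hk
  have hk0 : mp q (id : K → K) (sumC ℤ) k = 0 := by
    have h := dd_mp (ρ := permRep σ) (τ := trivR K ℚ) (MonoidHom.id K) (sumC ℤ) haug q zt
    have h' : mp (q + 1) (MonoidHom.id K) (sumC ℤ) zt = z := hzt'
    rw [h', hz] at h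
    exact h.symm
  set u := mp q (id : K → K) RZ k with hu
  have hDu : mp q (id : K → K) DZ u = k := by
    rw [hu, mp_mp]
    have e : DZ ∘ₗ RZ = LinearMap.id - (lsingle 0) ∘ₗ (sumC ℤ) := by
      apply LinearMap.ext
      intro m
      exact DZ_RZ m
    rw [e]
    have e2 : mp q ((id : K → K) ∘ id) (LinearMap.id - (lsingle (0 : ℤ)) ∘ₗ (sumC ℤ)) k =
        mp q (id : K → K) LinearMap.id k - mp q (id : K → K) ((lsingle (0 : ℤ)) ∘ₗ (sumC ℤ)) k :=
      mp_sub_coef _ _ _ _
    rw [e2, mp_id]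
    have e3 : mp q (id : K → K) ((lsingle (0 : ℤ)) ∘ₗ (sumC ℤ)) k =
        mp q (id : K → K) (lsingle (0 : ℤ)) (mp q (id : K → K) (sumC ℤ) k) := by
      rw [mp_mp]; rfl
    rw [e3, hk0, map_zero, sub_zero]
  have hkc : Cyc (permRep σ) q k := cyc_dd _ _ _
  have huc : Cyc (permRep σ) q u := by
    apply cyc_of_mp (τ := permRep σ) (MonoidHom.id K) DZ hD (fun _ _ h => h) DZ_injective
    have : mp q (MonoidHom.id K) DZ u = k := hDu
    rw [this]
    exact hkc
  obtain ⟨y', hy', v, hv⟩ := shapiro σ 0 htrans K'.subtype K'.subtype_injective hKs hex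
    (trivR K' ℚ) (fun _ => rfl) q u huc
  set w := mp q K'.subtype (lsingle (0 : ℤ)) y' with hw
  have hwc : Cyc (permRep σ) q w := by
    apply cyc_mp (ρ := trivR K' ℚ) (τ := permRep σ) K'.subtype (lsingle (0 : ℤ)) _ q y' hy'
    intro g m
    rw [lsingle_apply, lsingle_apply, permRep_single, hKs]
    rfl
  have hS : dd (permRep σ) q (Sop (permRep σ) t shZ q w) = - mp q (id : K → K) DZ w := by
    rw [dd_Sop_cyc (ρ := permRep σ) (ρ' := permRep σ) t shZ hsh q w hwc]
    have e : (permRep σ t⁻¹) ∘ₗ shZ = LinearMap.id := by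
      apply lhom_ext
      intro a r
      rw [LinearMap.comp_apply, shZ_single, permRep_single, hσ, zAct_apply, map_inv_neg l hl, ht,
        LinearMap.id_apply]
      congr 1
      ring
    rw [e, DZ, mp_sub_coef]
    abel
  -- the corrected cycle
  set ζ := zt + Sop (permRep σ) t shZ q w - mp (q + 1) (id : K → K) DZ v with hζ
  have hζc : Cyc (permRep σ) (q + 1) ζ := by
    rw [cyc_succ, hζ, map_sub, map_add, hS, ← hk, ← hDu]
    have h1 := dd_mp (ρ := permRep σ) (τ := permRep σ) (MonoidHom.id K) DZ hD q v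
    have h2 : dd (permRep σ) q (mp (q + 1) (id : K → K) DZ v) =
        mp q (id : K → K) DZ (dd (permRep σ) q v) := h1
    rw [h2, hv, map_sub]
    abel
  obtain ⟨y, hy, v', hv'⟩ := shapiro σ 0 htrans K'.subtype K'.subtype_injective hKs hex
    (trivR K' ℚ) (fun _ => rfl) (q + 1) ζ hζc
  refine ⟨y, y', (cyc_succ _ _ _).mp hy, hy', mp (q + 2) (id : K → K) (sumC ℤ) v', ?_⟩
  have h1 := dd_mp (ρ := permRep σ) (τ := trivR K ℚ) (MonoidHom.id K) (sumC ℤ) haug (q + 1) v'
  have h2 : dd (trivR K ℚ) (q + 1) (mp (q + 2) (id : K → K) (sumC ℤ) v') =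
      mp (q + 1) (id : K → K) (sumC ℤ) (dd (permRep σ) (q + 1) v') := h1
  rw [h2, hv', map_sub, hζ, map_sub, map_add, hzt']
  have h3 : mp (q + 1) (id : K → K) (sumC ℤ) (Sop (permRep σ) t shZ q w) =
      Sop (trivR K ℚ) t LinearMap.id q (mp q K'.subtype LinearMap.id y') := by
    have h4 := Sop_nat (permRep σ) (trivR K ℚ) (MonoidHom.id K) (sumC ℤ) (sumC ℤ) haug t shZ
      LinearMap.id (fun m => by
        have e : (sumC ℤ) ∘ₗ shZ = sumC ℤ := by
          apply lhom_ext
          intro a r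
          simp
        exact DFunLike.congr_fun e m) q w
    refine Eq.trans h4 ?_
    congr 1
    rw [hw, mp_mp]
    congr 1
    congr 1
    apply LinearMap.ext
    intro r
    simp
  have h5 : mp (q + 1) (id : K → K) (sumC ℤ) (mp (q + 1) (id : K → K) DZ v) = 0 := by
    rw [mp_mp]
    have e : (sumC ℤ) ∘ₗ DZ = 0 := by
      apply lhom_ext
      intro a r
      simp [DZ]
    rw [e, mp_zero_coef]
  have h6 : mp (q + 1) (id : K → K) (sumC ℤ) (mp (q + 1) K'.subtype (lsingle (0 : ℤ)) y) =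
      mp (q + 1) K'.subtype LinearMap.id y := by
    rw [mp_mp]
    congr 1
    congr 1
    apply LinearMap.ext
    intro r
    simp
  rw [h3, h5, h6, sub_zero]

end Wang

end Pool.Agent.Y483
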